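import Pool.Agent.Work.MP_60abc6_co.Cuts

set_option autoImplicit false

/-! Common definitions: parameters, numbers of arcs between sets. -/

namespace Pool.Agent.Work.MP_60abc6_co.DEL

open Finset

open Classical in
/-- the number of ordered adjacent pairs `(u, v)` with `u ∈ A`, `v ∉ B` -/
noncomputable def E1 {V : Type*} [Fintype V] (G : SimpleGraph V) (A B : Finset V) : ℕ :=
  (univ.filter fun p : V × V => G.Adj p.1 p.2 ∧ p.1 ∈ A ∧ p.2 ∉ B).card

/-- the number of arcs of `Arc` from `A` to the complement of `B` -/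
def eA {V : Type*} [DecidableEq V] (Arc : Finset (V × V)) (A B : Finset V) : ℕ :=
  (Arc.filter fun a => a.1 ∈ A ∧ a.2 ∉ B).card

/-- the parameter `ε(k) = k ^ (-1/20)` -/
noncomputable def eps (k : ℕ) : ℝ := (k : ℝ) ^ (-(1 / 20 : ℝ))

/-- the parameter `ω(k) = k ^ (-1/5)` -/
noncomputable def omg (k : ℕ) : ℝ := (k : ℝ) ^ (-(1 / 5 : ℝ))

end Pool.Agent.Work.MP_60abc6_co.DEL
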