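import Mathlib

/-!
# A flow lemma from Hall's theorem
-/

set_option autoImplicit false

namespace Pool.Agent.Work.MP_60abc6_co.DEL

open Finset

theorem flow_lemma {V W : Type*} [Fintype V] [Fintype W] [DecidableEq V] [DecidableEq W]
    (E : Finset (V × W)) (a : V → ℕ) (b : W → ℕ) (D : ℕ)
    (h : ∀ (A : Finset V) (B : Finset W), ∑ v ∈ A, a v ≤
      ∑ w ∈ B, b w + (E.filter fun e => e.1 ∈ A ∧ e.2 ∉ B).card + D) :
    ∃ F ⊆ E, (∀ v, (F.filter fun e => e.1 = v).card ≤ a v) ∧
      (∀ w, (F.filter fun e => e.2 = w).card ≤ b w) ∧ ∑ v, a v ≤ F.card + D := by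
  classical
  let t : ((Σ v : V, Fin (a v)) ⊕ {e // e ∈ E}) →
      Finset ((V × W) ⊕ ((Σ w : W, Fin (b w)) ⊕ Fin D)) := fun x =>
    Sum.elim (fun p => (E.filter fun e => e.1 = p.1).disjSum
        ((∅ : Finset (Σ w : W, Fin (b w))).disjSum (univ : Finset (Fin D))))
      (fun e => ({e.1} : Finset (V × W)).disjSum
        (((univ : Finset (Σ w : W, Fin (b w))).filter fun q => q.1 = e.1.2).disjSum
          (∅ : Finset (Fin D)))) x
  have hall : ∀ s : Finset ((Σ v : V, Fin (a v)) ⊕ {e // e ∈ E}), s.card ≤ (s.biUnion t).card := by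
    intro s
    set S1 := s.toLeft with hS1
    set S2 := s.toRight with hS2
    set A : Finset V := S1.image Sigma.fst with hA
    set S2' : Finset (V × W) := S2.map ⟨Subtype.val, Subtype.val_injective⟩ with hS2'
    set B : Finset W := S2'.image Prod.snd with hB
    have hcard : s.card = S1.card + S2.card := (s.card_toLeft_add_card_toRight).symm
    have hS1A : S1.card ≤ ∑ v ∈ A, a v := by
      have h1 : S1 ⊆ A.sigma fun _ => univ := by
        rintro ⟨v, i⟩ hx
        rw [mem_sigma]
        exact ⟨mem_image.2 ⟨_, hx, rfl⟩, mem_univ _⟩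
      refine (card_le_card h1).trans (le_of_eq ?_)
      rw [card_sigma]
      simp
    have hS2c : S2'.card = S2.card := card_map _
    set N1 : Finset (V × W) := (E.filter fun e => e.1 ∈ A) ∪ S2' with hN1
    have hN1c : (E.filter fun e => e.1 ∈ A ∧ e.2 ∉ B).card + S2'.card ≤ N1.card := by
      rw [← card_union_of_disjoint]
      · apply card_le_card
        apply union_subset_union_left
        intro e he
        rw [mem_filter] at he ⊢
        exact ⟨he.1, he.2.1⟩
      · rw [disjoint_left]
        intro e he he2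
        rw [mem_filter] at he
        exact he.2.2 (mem_image.2 ⟨e, he2, rfl⟩)
    set N3 : Finset (Fin D) := if S1 = ∅ then ∅ else univ with hN3
    set N0 : Finset ((V × W) ⊕ ((Σ w : W, Fin (b w)) ⊕ Fin D)) :=
      N1.disjSum ((B.sigma fun _ => univ).disjSum N3) with hN0
    have hN0c : N0.card = N1.card + (∑ w ∈ B, b w + N3.card) := by
      rw [hN0, card_disjSum, card_disjSum, card_sigma]
      simp
    have hsub : N0 ⊆ s.biUnion t := by
      intro x hx
      rw [mem_biUnion]
      rcases x with e | q | i
      · rw [hN0, inl_mem_disjSum, hN1, mem_union] at hx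
        rcases hx with hx | hx
        · rw [mem_filter] at hx
          obtain ⟨p, hp, hpe⟩ := mem_image.1 hx.2
          refine ⟨Sum.inl p, mem_toLeft.1 hp, ?_⟩
          simp only [t, Sum.elim_inl, inl_mem_disjSum, mem_filter]
          exact ⟨hx.1, hpe.symm⟩
        · obtain ⟨e', he', hee⟩ := mem_map.1 hx
          refine ⟨Sum.inr e', mem_toRight.1 he', ?_⟩
          simp only [t, Sum.elim_inr, inl_mem_disjSum, mem_singleton]
          exact hee.symm
      · rw [hN0, inr_mem_disjSum, inl_mem_disjSum, mem_sigma] at hx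
        obtain ⟨e, he, hee⟩ := mem_image.1 hx.1
        obtain ⟨e', he', hee'⟩ := mem_map.1 he
        refine ⟨Sum.inr e', mem_toRight.1 he', ?_⟩
        simp only [t, Sum.elim_inr, inr_mem_disjSum, inl_mem_disjSum, mem_filter, mem_univ,
          true_and]
        rw [← hee, ← hee']
        rfl
      · rw [hN0, inr_mem_disjSum, inr_mem_disjSum, hN3] at hx
        have hne : S1.Nonempty := by
          rw [nonempty_iff_ne_empty]
          intro h0
          rw [if_pos h0] at hx
          exact notMem_empty _ hx
        obtain ⟨p, hp⟩ := hne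
        refine ⟨Sum.inl p, mem_toLeft.1 hp, ?_⟩
        simp only [t, Sum.elim_inl, inr_mem_disjSum, mem_univ]
    refine le_trans ?_ (card_le_card hsub)
    rw [hN0c, hcard]
    by_cases h0 : S1 = ∅
    · rw [h0, card_empty, hN3, if_pos h0, card_empty]
      omega
    · have h1 := h A B
      rw [hN3, if_neg h0, card_univ, Fintype.card_fin]
      omega
  obtain ⟨f, hinj, hf⟩ := (all_card_le_biUnion_card_iff_exists_injective t).1 hall
  set F : Finset (V × W) := E.filter fun e => ∃ p : Σ v : V, Fin (a v), f (Sum.inl p) = Sum.inl e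
    with hF
  have hFE : F ⊆ E := filter_subset _ _
  have hL : ∀ (e : V × W) (he : e ∈ E), e ∈ F → ∃ q : Σ w : W, Fin (b w), q.1 = e.2 ∧
      f (Sum.inr ⟨e, he⟩) = Sum.inr (Sum.inl q) := by
    intro e he heF
    obtain ⟨p, hp⟩ := (mem_filter.1 heF).2
    have h1 := hf (Sum.inr ⟨e, he⟩)
    simp only [t, Sum.elim_inr] at h1
    rcases hfe : f (Sum.inr ⟨e, he⟩) with e' | q | i
    · rw [hfe, inl_mem_disjSum, mem_singleton] at h1
      rw [h1, ← hp] at hfe
      exact absurd (hinj hfe) (by simp)
    · rw [hfe, inr_mem_disjSum, inl_mem_disjSum, mem_filter] at h1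
      exact ⟨q, h1.2, rfl⟩
    · rw [hfe, inr_mem_disjSum, inr_mem_disjSum] at h1
      exact absurd h1 (notMem_empty _)
  refine ⟨F, hFE, fun v => ?_, fun w => ?_, ?_⟩
  · -- out-degrees
    have h1 : ∀ e ∈ F.filter fun e => e.1 = v, ∃ i : Fin (a v),
        f (Sum.inl ⟨v, i⟩) = Sum.inl e := by
      intro e he
      rw [mem_filter] at he
      obtain ⟨⟨v', i⟩, hp⟩ := (mem_filter.1 he.1).2
      have h2 := hf (Sum.inl ⟨v', i⟩)
      simp only [t, Sum.elim_inl] at h2
      rw [hp, inl_mem_disjSum, mem_filter] at h2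
      have h3 : v' = v := h2.2.symm.trans he.2
      subst h3
      exact ⟨i, hp⟩
    choose g hg using h1
    have h4 : (F.filter fun e => e.1 = v).attach.card ≤ (univ : Finset (Fin (a v))).card :=
      card_le_card_of_injOn (fun e => g e.1 e.2) (fun _ _ => mem_coe.2 (mem_univ _))
        fun e _ e' _ hee => by
          have h2 := hg e.1 e.2
          have h3 := hg e'.1 e'.2
          simp only at hee
          rw [hee, h3] at h2
          exact Subtype.ext (Sum.inl_injective h2).symm
    rwa [card_attach, card_univ, Fintype.card_fin] at h4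
  · -- in-degrees
    have h1 : ∀ e ∈ F.filter fun e => e.2 = w, ∃ i : Fin (b w), ∃ he : e ∈ E,
        f (Sum.inr ⟨e, he⟩) = Sum.inr (Sum.inl ⟨w, i⟩) := by
      intro e he
      rw [mem_filter] at he
      obtain ⟨⟨w', i⟩, hq, hp⟩ := hL e (hFE he.1) he.1
      have h3 : w' = w := (show w' = e.2 from hq).trans he.2
      subst h3
      exact ⟨i, hFE he.1, hp⟩
    choose g hgE hg using h1
    have h4 : (F.filter fun e => e.2 = w).attach.card ≤ (univ : Finset (Fin (b w))).card :=
      card_le_card_of_injOn (fun e => g e.1 e.2) (fun _ _ => mem_coe.2 (mem_univ _))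
        fun e _ e' _ hee => by
          have h2 := hg e.1 e.2
          have h3 := hg e'.1 e'.2
          simp only at hee
          rw [hee, ← h3] at h2
          have h5 := Sum.inr_injective (hinj h2)
          exact Subtype.ext (congrArg (fun x : {e // e ∈ E} => x.1) h5)
    rwa [card_attach, card_univ, Fintype.card_fin] at h4
  · -- the size
    have h1 : (univ : Finset (Σ v : V, Fin (a v))).card ≤
        (F.disjSum (univ : Finset (Fin D))).card := by
      let g : (Σ v : V, Fin (a v)) → (V × W) ⊕ Fin D := fun p =>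
        match f (Sum.inl p) with
        | Sum.inl e => Sum.inl e
        | Sum.inr (Sum.inl q) => Sum.inl (p.1, q.1)
        | Sum.inr (Sum.inr i) => Sum.inr i
      have hg : ∀ p, (∃ e, f (Sum.inl p) = Sum.inl e ∧ g p = Sum.inl e ∧ e ∈ E) ∨
          (∃ i, f (Sum.inl p) = Sum.inr (Sum.inr i) ∧ g p = Sum.inr i) := by
        intro p
        have h2 := hf (Sum.inl p)
        simp only [t, Sum.elim_inl] at h2
        rcases hfe : f (Sum.inl p) with e | q | i
        · left
          rw [hfe, inl_mem_disjSum, mem_filter] at h2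
          exact ⟨e, rfl, by simp only [g, hfe], h2.1⟩
        · rw [hfe, inr_mem_disjSum, inl_mem_disjSum] at h2
          exact absurd h2 (notMem_empty _)
        · right
          exact ⟨i, rfl, by simp only [g, hfe]⟩
      refine card_le_card_of_injOn g (fun p _ => ?_) fun p _ p' _ hpp => ?_
      · rcases hg p with ⟨e, h2, h3, h4⟩ | ⟨i, h2, h3⟩
        · rw [h3]
          exact inl_mem_disjSum.2 (mem_filter.2 ⟨h4, p, h2⟩)
        · rw [h3]
          exact inr_mem_disjSum.2 (mem_univ _)
      · have h5 : f (Sum.inl p) = f (Sum.inl p') := by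
          rcases hg p with ⟨e, h2, h3, -⟩ | ⟨i, h2, h3⟩ <;>
            rcases hg p' with ⟨e', h2', h3', -⟩ | ⟨i', h2', h3'⟩
          · rw [h2, h2', Sum.inl_injective (h3.symm.trans (hpp.trans h3'))]
          · exact absurd (h3.symm.trans (hpp.trans h3')) (by simp)
          · exact absurd (h3.symm.trans (hpp.trans h3')) (by simp)
          · rw [h2, h2', Sum.inr_injective (h3.symm.trans (hpp.trans h3'))]
        exact Sum.inl_injective (hinj h5)
    rw [card_disjSum, card_univ, card_univ, Fintype.card_sigma, Fintype.card_fin] at h1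
    simpa using h1

end Pool.Agent.Work.MP_60abc6_co.DEL
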