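import Mathlib
import Pool.Agent.Work.MP_60abc6_co.Conv
import Pool.Agent.Work.MP_60abc6_co.DEL.Flow

set_option autoImplicit false

/-! T (b): a sparse bipartite graph whose degrees are nearly proportional to `κ` has a subgraph with
degrees at most `κ` and nearly `(∑ κ) / 2` edges. -/

namespace Pool.Agent.Work.MP_60abc6_co.DEL

open Finset

section

variable {V : Type*} [Fintype V] [DecidableEq V]

open Classical in
/-- the sum of the degrees over a set, as a sum over ordered pairs -/
lemma bipflow_sum_dgc (J : SimpleGraph V) (A : Finset V) :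
    ∑ v ∈ A, dgc J v = ((univ : Finset (V × V)).filter fun p => J.Adj p.1 p.2 ∧ p.1 ∈ A).card := by
  unfold dgc
  rw [card_eq_sum_card_fiberwise (f := Prod.fst) (t := A)]
  · refine sum_congr rfl fun v hv => ?_
    refine card_bij (fun u _ => (v, u)) ?_ ?_ ?_
    · intro u hu
      rw [mem_filter] at hu
      rw [mem_filter, mem_filter]
      exact ⟨⟨mem_univ _, hu.2, hv⟩, rfl⟩
    · intro u _ u' _ h
      exact (Prod.mk.inj h).2
    · intro p hp
      rw [mem_filter, mem_filter] at hp
      obtain ⟨⟨-, h1, h2⟩, h3⟩ := hp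
      refine ⟨p.2, ?_, ?_⟩
      · rw [mem_filter]
        exact ⟨mem_univ _, h3 ▸ h1⟩
      · exact Prod.ext h3.symm rfl
  · intro p hp
    rw [mem_coe, mem_filter] at hp
    exact hp.2.2

open Classical in
/-- the sum of the degrees over a set, as a sum over ordered pairs, by the second entry -/
lemma bipflow_sum_dgc' (J : SimpleGraph V) (A : Finset V) :
    ∑ v ∈ A, dgc J v = ((univ : Finset (V × V)).filter fun p => J.Adj p.1 p.2 ∧ p.2 ∈ A).card := by
  rw [bipflow_sum_dgc]
  refine card_bij (fun p _ => (p.2, p.1)) ?_ ?_ ?_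
  · intro p hp
    rw [mem_filter] at hp ⊢
    exact ⟨mem_univ _, hp.2.1.symm, hp.2.2⟩
  · intro p _ q _ h
    exact Prod.ext (Prod.mk.inj h).2 (Prod.mk.inj h).1
  · intro p hp
    rw [mem_filter] at hp
    exact ⟨(p.2, p.1), mem_filter.mpr ⟨mem_univ _, hp.2.1.symm, hp.2.2⟩, rfl⟩

end

theorem bip_flow {V : Type*} [Fintype V] [DecidableEq V] (J : SimpleGraph V) (col : V → Bool)
    (hcol : ∀ u v, J.Adj u v → col u ≠ col v) (κ : V → ℕ) (lam dev : ℝ) (h0 : 0 ≤ lam)
    (h1 : lam ≤ 1) (hdev : ∑ v, |(κ v : ℝ) - lam * dgc J v| ≤ dev) :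
    ∃ F : SimpleGraph V, F ≤ J ∧ (∀ v, dgc F v ≤ κ v) ∧
      (∑ v, κ v : ℝ) ≤ 2 * ec F + 3 * dev := by
  classical
  have hdev0 : 0 ≤ dev := le_trans (sum_nonneg fun v _ => abs_nonneg _) hdev
  set E : Finset (V × V) := univ.filter fun p => J.Adj p.1 p.2 ∧ col p.1 = false with hE
  have hEcol : ∀ p ∈ E, J.Adj p.1 p.2 ∧ col p.1 = false ∧ col p.2 = true := by
    intro p hp
    rw [hE, mem_filter] at hp
    refine ⟨hp.2.1, hp.2.2, ?_⟩
    have := hcol _ _ hp.2.1
    rw [hp.2.2] at this
    cases h : col p.2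
    · exact absurd h.symm this
    · rfl
  set a : V → ℕ := fun v => if col v = false then κ v else 0 with ha
  set b : V → ℕ := fun v => if col v = true then κ v else 0 with hb
  -- partial deviations
  have hdev2 : ∀ A B : Finset V, Disjoint A B →
      ∑ v ∈ A, |(κ v : ℝ) - lam * dgc J v| + ∑ v ∈ B, |(κ v : ℝ) - lam * dgc J v| ≤ dev := by
    intro A B hAB
    rw [← sum_union hAB]
    exact (sum_le_sum_of_subset_of_nonneg (subset_univ _) fun v _ _ => abs_nonneg _).trans hdev
  have hup : ∀ A : Finset V, ∑ v ∈ A, (κ v : ℝ) ≤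
      lam * ∑ v ∈ A, (dgc J v : ℝ) + ∑ v ∈ A, |(κ v : ℝ) - lam * dgc J v| := by
    intro A
    rw [mul_sum, ← sum_add_distrib]
    refine sum_le_sum fun v _ => ?_
    have := le_abs_self ((κ v : ℝ) - lam * dgc J v)
    linarith
  have hlo : ∀ A : Finset V, lam * ∑ v ∈ A, (dgc J v : ℝ) ≤
      ∑ v ∈ A, (κ v : ℝ) + ∑ v ∈ A, |(κ v : ℝ) - lam * dgc J v| := by
    intro A
    rw [mul_sum, ← sum_add_distrib]
    refine sum_le_sum fun v _ => ?_
    have := neg_abs_le ((κ v : ℝ) - lam * dgc J v)
    linarith
  have hdisj : ∀ A B : Finset V, Disjoint (A.filter fun v => col v = false)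
      (B.filter fun v => col v = true) := by
    intro A B
    rw [disjoint_left]
    intro v hv hv'
    rw [mem_filter] at hv hv'
    rw [hv.2] at hv'
    exact absurd hv'.2 (by simp)
  -- the degrees
  have hdeg : ∀ A B : Finset V, ∑ v ∈ A.filter (fun v => col v = false), (dgc J v : ℝ) ≤
      ∑ v ∈ B.filter (fun v => col v = true), (dgc J v : ℝ) +
        (E.filter fun e => e.1 ∈ A ∧ e.2 ∉ B).card := by
    intro A B
    rw [← Nat.cast_sum, ← Nat.cast_sum, bipflow_sum_dgc, bipflow_sum_dgc', ← Nat.cast_add,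
      Nat.cast_le]
    refine (card_le_card fun p hp => ?_).trans (card_union_le _ _)
    rw [mem_filter, mem_filter] at hp
    rw [mem_union, mem_filter, mem_filter, mem_filter]
    have hpE : p ∈ E := by
      rw [hE, mem_filter]
      exact ⟨mem_univ _, hp.2.1, hp.2.2.2⟩
    by_cases hpB : p.2 ∈ B
    · left
      exact ⟨mem_univ _, hp.2.1, hpB, (hEcol p hpE).2.2⟩
    · right
      exact ⟨hpE, hp.2.2.1, hpB⟩
  have hcut : ∀ (A B : Finset V), ∑ v ∈ A, a v ≤
      ∑ w ∈ B, b w + (E.filter fun e => e.1 ∈ A ∧ e.2 ∉ B).card + ⌊dev⌋₊ := by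
    intro A B
    have e1 : ∑ v ∈ A, a v = ∑ v ∈ A.filter (fun v => col v = false), κ v := by
      rw [sum_filter]
    have e2 : ∑ v ∈ B, b v = ∑ v ∈ B.filter (fun v => col v = true), κ v := by
      rw [sum_filter]
    rw [e1, e2]
    have h2 := hup (A.filter (fun v => col v = false))
    have h3 := hlo (B.filter (fun v => col v = true))
    have h4 := hdev2 _ _ (hdisj A B)
    have h5 := hdeg A B
    have h6 : (∑ v ∈ A.filter (fun v => col v = false), (κ v : ℝ)) -
        (∑ v ∈ B.filter (fun v => col v = true), (κ v : ℝ) +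
          (E.filter fun e => e.1 ∈ A ∧ e.2 ∉ B).card) ≤ dev := by
      have h7 : (0 : ℝ) ≤ ((E.filter fun e => e.1 ∈ A ∧ e.2 ∉ B).card : ℝ) := Nat.cast_nonneg _
      nlinarith [mul_le_mul_of_nonneg_left h5 h0, mul_le_mul_of_nonneg_right h1 h7]
    have h8 : ((∑ v ∈ A.filter (fun v => col v = false), κ v) -
        (∑ v ∈ B.filter (fun v => col v = true), κ v +
          (E.filter fun e => e.1 ∈ A ∧ e.2 ∉ B).card) : ℕ) ≤ ⌊dev⌋₊ := by
      rw [Nat.le_floor_iff hdev0]
      rcases le_total (∑ v ∈ A.filter (fun v => col v = false), κ v)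
        (∑ v ∈ B.filter (fun v => col v = true), κ v +
          (E.filter fun e => e.1 ∈ A ∧ e.2 ∉ B).card) with h9 | h9
      · rw [Nat.sub_eq_zero_of_le h9]
        simpa using hdev0
      · rw [Nat.cast_sub h9]
        push_cast
        exact h6
    omega
  obtain ⟨F, hFE, hF1, hF2, hF3⟩ := flow_lemma E a b ⌊dev⌋₊ hcut
  -- the graph of the arcs of `F`
  obtain ⟨Fg, hadj⟩ : ∃ Fg : SimpleGraph V, ∀ u v, Fg.Adj u v ↔ (u, v) ∈ F ∨ (v, u) ∈ F :=
    ⟨{ Adj := fun u v => (u, v) ∈ F ∨ (v, u) ∈ F
       symm := ⟨fun u v h => h.symm⟩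
       loopless := ⟨fun u h => by
        have h2 : (u, u) ∈ F := h.elim id id
        exact (hEcol _ (hFE h2)).1.ne rfl⟩ }, fun u v => Iff.rfl⟩
  have hFcol : ∀ u v, (u, v) ∈ F → col u = false ∧ col v = true := fun u v h =>
    (hEcol _ (hFE h)).2
  refine ⟨Fg, ?_, ?_, ?_⟩
  · intro u v huv
    rw [hadj] at huv
    rcases huv with h | h
    · exact (hEcol _ (hFE h)).1
    · exact (hEcol _ (hFE h)).1.symm
  · intro v
    cases hv : col v
    · have h2 := hF1 v
      have h3 : a v = κ v := by
        simp only [ha, hv, if_true]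
      rw [h3] at h2
      refine le_trans ?_ h2
      unfold dgc
      refine card_le_card_of_injOn (fun u => (v, u)) ?_ ?_
      · intro u hu
        rw [mem_coe, mem_filter, hadj] at hu
        rw [mem_coe, mem_filter]
        refine ⟨?_, rfl⟩
        rcases hu.2 with h | h
        · exact h
        · have := (hFcol _ _ h).2
          rw [hv] at this
          exact absurd this (by simp)
      · intro u _ u' _ h
        exact (Prod.mk.inj h).2
    · have h2 := hF2 v
      have h3 : b v = κ v := by
        simp only [hb, hv, if_true]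
      rw [h3] at h2
      refine le_trans ?_ h2
      unfold dgc
      refine card_le_card_of_injOn (fun u => (u, v)) ?_ ?_
      · intro u hu
        rw [mem_coe, mem_filter, hadj] at hu
        rw [mem_coe, mem_filter]
        refine ⟨?_, rfl⟩
        rcases hu.2 with h | h
        · have := (hFcol _ _ h).1
          rw [hv] at this
          exact absurd this (by simp)
        · exact h
      · intro u _ u' _ h
        exact (Prod.mk.inj h).1
  · -- the number of edges
    have h2 : 2 * F.card ≤ 2 * ec Fg := by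
      rw [two_mul_ec]
      have h3 := bipflow_sum_dgc Fg univ
      rw [h3]
      have h4 : Disjoint F (F.image Prod.swap) := by
        rw [disjoint_left]
        rintro ⟨u, v⟩ hp hp'
        rw [mem_image] at hp'
        obtain ⟨⟨x, y⟩, hq, hqp⟩ := hp'
        simp only [Prod.swap_prod_mk, Prod.mk.injEq] at hqp
        obtain ⟨rfl, rfl⟩ := hqp
        have h5 := (hFcol _ _ hp).1
        have h6 := (hFcol _ _ hq).2
        rw [h5] at h6
        exact absurd h6 (by simp)
      have h5 : (F ∪ F.image Prod.swap).card = 2 * F.card := by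
        rw [card_union_of_disjoint h4, card_image_of_injective _ Prod.swap_injective]
        ring
      rw [← h5]
      refine card_le_card ?_
      rintro ⟨u, v⟩ hp
      rw [mem_union, mem_image] at hp
      rw [mem_filter, hadj]
      refine ⟨mem_univ _, ?_, mem_univ _⟩
      rcases hp with h | ⟨⟨x, y⟩, h, h6⟩
      · exact Or.inl h
      · simp only [Prod.swap_prod_mk, Prod.mk.injEq] at h6
        obtain ⟨rfl, rfl⟩ := h6
        exact Or.inr h
    have h3 : (F.card : ℝ) ≤ ec Fg := by
      have : F.card ≤ ec Fg := by omega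
      exact_mod_cast this
    have h4 : (∑ v ∈ univ.filter (fun v => col v = false), (κ v : ℝ)) ≤ F.card + dev := by
      have e1 : ∑ v, a v = ∑ v ∈ univ.filter (fun v => col v = false), κ v := by
        rw [sum_filter]
      rw [e1] at hF3
      have h5 : ((∑ v ∈ univ.filter (fun v => col v = false), κ v : ℕ) : ℝ) ≤
        F.card + (⌊dev⌋₊ : ℕ) := by exact_mod_cast hF3
      push_cast at h5
      have h6 := Nat.floor_le hdev0
      linarith
    have h5 := hup (univ.filter (fun v => col v = true))
    have h6 := hlo (univ.filter (fun v => col v = false))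
    have h7 := hdev2 _ _ (hdisj univ univ)
    -- the two sides have the same degree sum
    have h8 : ∑ v ∈ univ.filter (fun v => col v = true), (dgc J v : ℝ) ≤
        ∑ v ∈ univ.filter (fun v => col v = false), (dgc J v : ℝ) := by
      rw [← Nat.cast_sum, ← Nat.cast_sum, bipflow_sum_dgc, bipflow_sum_dgc', Nat.cast_le]
      refine card_le_card fun p hp => ?_
      rw [mem_filter, mem_filter] at hp ⊢
      refine ⟨mem_univ _, hp.2.1, mem_univ _, ?_⟩
      have h9 := hcol _ _ hp.2.1
      rw [hp.2.2.2] at h9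
      cases h : col p.2
      · rfl
      · exact absurd h.symm h9
    have h9 : ∑ v, (κ v : ℝ) = ∑ v ∈ univ.filter (fun v => col v = false), (κ v : ℝ) +
        ∑ v ∈ univ.filter (fun v => col v = true), (κ v : ℝ) := by
      rw [← sum_filter_add_sum_filter_not univ (fun v => col v = false)]
      congr 2
      ext v
      simp
    rw [h9]
    have h10 := mul_le_mul_of_nonneg_left h8 h0
    linarith

end Pool.Agent.Work.MP_60abc6_co.DEL
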