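import Pool.Agent.Work.MP_60abc6_co.DEL.OneStep

set_option autoImplicit false

/-! U9: composition of the steps `k → ⌈k / 2⌉ → ⋯ → l`. -/

namespace Pool.Agent.Work.MP_60abc6_co.DEL

open Finset

lemma eps_pos_of {k : ℕ} (hk : 1 ≤ k) : 0 < eps k := by
  unfold eps
  exact Real.rpow_pos_of_pos (by exact_mod_cast hk) _

lemma eps_anti {l k : ℕ} (hl : 1 ≤ l) (hlk : l ≤ k) : eps k ≤ eps l := by
  unfold eps
  exact Real.rpow_le_rpow_of_nonpos (by exact_mod_cast hl) (by exact_mod_cast hlk) (by norm_num)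

/-- `ε` decreases by a factor when `k` is (about) doubled -/
lemma eps_half {k m : ℕ} (hm : 1 ≤ m) (h : 3 * m ≤ 2 * k) : (51 / 50 : ℝ) * eps k ≤ eps m := by
  have hk : 1 ≤ k := by omega
  have hm' : (0 : ℝ) < m := by exact_mod_cast hm
  have hk' : (0 : ℝ) < k := by exact_mod_cast hk
  have h1 : (3 / 2 : ℝ) ≤ k / m := by
    rw [div_le_div_iff₀ (by norm_num) hm']
    have : ((3 * m : ℕ) : ℝ) ≤ ((2 * k : ℕ) : ℝ) := by exact_mod_cast h
    push_cast at this
    linarith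
  have h2 : (51 / 50 : ℝ) ≤ ((k : ℝ) / m) ^ (1 / 20 : ℝ) := by
    refine le_trans ?_ (Real.rpow_le_rpow (by norm_num) h1 (by norm_num))
    -- `(51 / 50) ^ 20 ≤ 3 / 2`
    have h3 : (51 / 50 : ℝ) = ((51 / 50 : ℝ) ^ (20 : ℕ)) ^ (1 / 20 : ℝ) := by
      rw [← Real.rpow_natCast, ← Real.rpow_mul (by norm_num)]
      norm_num
    rw [h3]
    exact Real.rpow_le_rpow (by positivity) (by norm_num) (by norm_num)
  have h4 : eps m = ((k : ℝ) / m) ^ (1 / 20 : ℝ) * eps k := by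
    unfold eps
    rw [Real.div_rpow hk'.le hm'.le, Real.rpow_neg hm'.le, Real.rpow_neg hk'.le]
    have := Real.rpow_pos_of_pos hk' (1 / 20 : ℝ)
    have := Real.rpow_pos_of_pos hm' (1 / 20 : ℝ)
    field_simp
  rw [h4]
  exact mul_le_mul_of_nonneg_right h2 (eps_pos_of hk).le

/-- composition of the steps -/
theorem all_steps_of (h : ∃ C : ℝ, 0 < C ∧ ∀ k l n : ℕ, 1 ≤ l → k ≤ 2 * l → l < k → k < n →
    ∀ G : SimpleGraph (Fin n), EC k G → ∃ H : SimpleGraph (Fin n), H ≤ G ∧ EC l H ∧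
      (ec H : ℝ) + ((k : ℝ) - l) / 2 * n ≤ ec G + C * eps k * n) :
    ∃ C : ℝ, 0 < C ∧ ∀ k l n : ℕ, 1 ≤ l → l < k → k < n →
      ∀ G : SimpleGraph (Fin n), EC k G → ∃ H : SimpleGraph (Fin n), H ≤ G ∧ EC l H ∧
        (ec H : ℝ) + ((k : ℝ) - l) / 2 * n ≤ ec G + C * eps l * n := by
  obtain ⟨C, hC, h⟩ := h
  refine ⟨51 * C, by positivity, fun k l n hl hlk hkn G hG => ?_⟩
  have key : ∀ k : ℕ, l < k → k < n → ∀ G : SimpleGraph (Fin n), EC k G →
      ∃ H : SimpleGraph (Fin n), H ≤ G ∧ EC l H ∧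
        (ec H : ℝ) + ((k : ℝ) - l) / 2 * n ≤
          ec G + (51 * C * eps l - 50 * C * eps k) * n := by
    intro k
    induction k using Nat.strong_induction_on with
    | _ k ih =>
      intro hlk hkn G hG
      have hn : (0 : ℝ) ≤ n := Nat.cast_nonneg n
      by_cases hk : k ≤ 2 * l
      · obtain ⟨H, hHG, hH, hec⟩ := h k l n hl hk hlk hkn G hG
        refine ⟨H, hHG, hH, hec.trans ?_⟩
        have h1 := eps_anti hl hlk.le
        have h2 : C * eps k ≤ 51 * C * eps l - 50 * C * eps k := by nlinarith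
        have := mul_le_mul_of_nonneg_right h2 hn
        linarith
      · push Not at hk
        obtain ⟨m, hm⟩ : ∃ m, m = (k + 1) / 2 := ⟨_, rfl⟩
        obtain ⟨G', hG', hEC, hec⟩ := h k m n (by omega) (by omega) (by omega) hkn G hG
        obtain ⟨H, hHG, hH, hec'⟩ := ih m (by omega) (by omega) (by omega) G' hEC
        refine ⟨H, hHG.trans hG', hH, ?_⟩
        have h1 := eps_half (k := k) (m := m) (by omega) (by omega)
        have h2 : C * eps k + (51 * C * eps l - 50 * C * eps m) ≤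
            51 * C * eps l - 50 * C * eps k := by nlinarith
        have := mul_le_mul_of_nonneg_right h2 hn
        nlinarith
  obtain ⟨H, hHG, hH, hec⟩ := key k hlk hkn G hG
  refine ⟨H, hHG, hH, hec.trans ?_⟩
  have h1 : 0 < eps k := eps_pos_of (by omega)
  have h2 : (51 * C * eps l - 50 * C * eps k) * n ≤ 51 * C * eps l * n := by
    refine mul_le_mul_of_nonneg_right ?_ (Nat.cast_nonneg n)
    have := mul_pos hC h1
    linarith
  linarith

/-- all steps -/
theorem all_steps : ∃ C : ℝ, 0 < C ∧ ∀ k l n : ℕ, 1 ≤ l → l < k → k < n →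
    ∀ G : SimpleGraph (Fin n), EC k G → ∃ H : SimpleGraph (Fin n), H ≤ G ∧ EC l H ∧
      (ec H : ℝ) + ((k : ℝ) - l) / 2 * n ≤ ec G + C * eps l * n :=
  all_steps_of one_step

end Pool.Agent.Work.MP_60abc6_co.DEL
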