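import Pool.Agent.Work.MP_60abc6_co.Lam

set_option autoImplicit false

/-! A set of vertices that spans no cycle spans few edges. -/

namespace Pool.Agent.Work.MP_60abc6_co.DEL

open Finset

theorem forest_pin {V : Type*} [Fintype V] [DecidableEq V] (J : SimpleGraph V) (S : Finset V)
    (hS : S.Nonempty)
    (hcyc : ∀ m : ℕ, 3 ≤ m → m ≤ S.card → ∀ f : ZMod m → V, Function.Injective f →
      (∀ i, f i ∈ S) → ¬ ∀ i, J.Adj (f i) (f (i + 1))) :
    pin J S + 2 ≤ 2 * S.card := by
  classical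
  set G' : SimpleGraph {x // x ∈ S} := J.comap (fun x => (x : V)) with hG'
  have hne : Nonempty {x // x ∈ S} := ⟨⟨hS.choose, hS.choose_spec⟩⟩
  have hac : G'.IsAcyclic := by
    rw [SimpleGraph.isAcyclic_iff_free_cycleGraph]
    rintro n hn ⟨φ⟩
    obtain ⟨m, rfl⟩ : ∃ m, n = m + 3 := ⟨n - 3, by omega⟩
    refine hcyc (m + 3) (by omega) ?_ (fun i : Fin (m + 3) => ((φ i : {x // x ∈ S}) : V)) ?_ ?_ ?_
    · have h1 := Fintype.card_le_of_injective (fun i : Fin (m + 3) => φ i) φ.injective
      rw [Fintype.card_fin, Fintype.card_coe] at h1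
      exact h1
    · intro a b hab
      exact φ.injective (Subtype.ext hab)
    · intro i
      exact (φ i).2
    · have h0 : ∀ i : Fin (m + 3), J.Adj (φ i : {x // x ∈ S}) (φ (i + 1) : {x // x ∈ S}) := by
        intro i
        have h1 : (SimpleGraph.cycleGraph (m + 3)).Adj i (i + 1) := by
          rw [SimpleGraph.cycleGraph_adj]
          right
          exact add_sub_cancel_left i 1
        exact φ.toHom.map_adj h1
      exact h0
  obtain ⟨F, hF, hFmax⟩ := Finite.exists_le_maximal (p := fun G : SimpleGraph {x // x ∈ S} =>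
    G.IsAcyclic) hac
  have hT : F.IsTree := SimpleGraph.isTree_iff_maximal_isAcyclic.mpr ⟨hne, hFmax⟩
  have h1 := hT.card_edgeFinset
  have h2 := F.two_mul_card_edgeFinset
  rw [Fintype.card_coe] at h1
  have h3 : pin J S ≤ (univ.filter fun p : {x // x ∈ S} × {x // x ∈ S} => F.Adj p.1 p.2).card := by
    unfold pin
    refine card_le_card_of_surjOn (fun p => ((p.1 : V), (p.2 : V))) ?_
    intro p hp
    rw [mem_coe, mem_filter, mem_product] at hp
    refine ⟨(⟨p.1, hp.1.1⟩, ⟨p.2, hp.1.2⟩), ?_, rfl⟩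
    rw [mem_coe, mem_filter]
    exact ⟨mem_univ _, hF hp.2⟩
  have h4 : (univ.filter fun p : {x // x ∈ S} × {x // x ∈ S} => F.Adj p.1 p.2).card =
      2 * F.edgeFinset.card := by
    rw [h2]
  omega

end Pool.Agent.Work.MP_60abc6_co.DEL
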