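import Pool.Agent.Work.MP_60abc6_co.Split

/-! A connected set of vertices of degree `l` which spans no cycle, and whose vertices do not close
a short cycle with one outer vertex, has at least `l` outer neighbours. -/

set_option autoImplicit false

namespace Pool.Agent.Work.MP_60abc6_co.DEL

open Finset

/-- a cycle as a cyclic function -/
theorem cyc_fun {V : Type*} {G : SimpleGraph V} {u : V} (w : G.Walk u u) (hw : w.IsCycle) :
    ∃ f : ZMod w.length → V, Function.Injective f ∧ (∀ i, G.Adj (f i) (f (i + 1))) ∧
      ∀ i, f i ∈ w.support := by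
  have h3 := hw.three_le_length
  have : NeZero w.length := ⟨by omega⟩
  refine ⟨fun i => w.getVert i.val, ?_, ?_, ?_⟩
  · intro i j hij
    have hi := ZMod.val_lt i
    have hj := ZMod.val_lt j
    have hi' : i.val ∈ {i | i ≤ w.length - 1} := by
      change i.val ≤ w.length - 1
      omega
    have hj' : j.val ∈ {i | i ≤ w.length - 1} := by
      change j.val ≤ w.length - 1
      omega
    exact ZMod.val_injective _ (hw.getVert_injOn' hi' hj' hij)
  · intro i
    have hi := ZMod.val_lt i
    have h1 : (i + 1).val = (i.val + 1) % w.length := by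
      rw [ZMod.val_add, ZMod.val_one'' (by omega)]
    simp only
    rw [h1]
    by_cases h : i.val + 1 < w.length
    · rw [Nat.mod_eq_of_lt h]
      exact w.adj_getVert_succ hi
    · have h2 : i.val + 1 = w.length := by omega
      rw [h2, Nat.mod_self, w.getVert_zero]
      have h4 := w.adj_getVert_succ hi
      rwa [h2, w.getVert_length] at h4
  · intro i
    exact w.getVert_mem_support _

theorem cyc_fun' {V : Type*} {G : SimpleGraph V} {u : V} (w : G.Walk u u) (hw : w.IsCycle) :
    ∃ m : ℕ, 3 ≤ m ∧ ∃ f : ZMod m → V, Function.Injective f ∧ (∀ i, G.Adj (f i) (f (i + 1))) ∧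
      ∀ i, f i ∈ w.support :=
  ⟨w.length, hw.three_le_length, cyc_fun w hw⟩

open Classical in
/-- A connected set `C` of vertices of degree `l ≥ 2` such that `F` has no short cycle with all but
at most one vertex in `C` has at least `l` outer neighbours. -/
theorem forest_out {V : Type*} [Fintype V] (F : SimpleGraph V) (C : Finset V)
    (l : ℕ) (hl : 2 ≤ l) (hC : C.Nonempty) (hconn : (F.induce (C : Set V)).Connected)
    (hdeg : ∀ v ∈ C, dgc F v = l)
    (hcyc : ∀ m : ℕ, 3 ≤ m → m ≤ C.card + 1 → ∀ f : ZMod m → V, Function.Injective f →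
      (∀ i, F.Adj (f i) (f (i + 1))) → ¬ ∃ i0, ∀ i, i ≠ i0 → f i ∈ C) :
    l ≤ (univ.filter fun y => y ∉ C ∧ ∃ v ∈ C, F.Adj v y).card := by
  -- the induced graph is a tree
  have hacyc : (F.induce (C : Set V)).IsAcyclic := by
    intro u w hw
    obtain ⟨f, hf, hadj, -⟩ := cyc_fun w hw
    have h3 := hw.three_le_length
    have : NeZero w.length := ⟨by omega⟩
    have hinj : Function.Injective (fun i => (f i : V)) := fun i j hij => hf (Subtype.ext hij)
    have hcard : w.length ≤ C.card := by
      have h1 := Finset.card_le_card_of_injOn (s := (univ : Finset (ZMod w.length))) (t := C)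
        (fun i => (f i : V)) (fun i _ => (f i).2) hinj.injOn
      rwa [card_univ, ZMod.card] at h1
    exact hcyc w.length h3 (by omega) (fun i => (f i : V)) hinj (fun i => hadj i)
      ⟨0, fun i _ => (f i).2⟩
  have htree : (F.induce (C : Set V)).IsTree := ⟨hconn, hacyc⟩
  have hedges := htree.card_edgeFinset
  have hcardC : Fintype.card (C : Set V) = C.card := by
    rw [← Fintype.card_coe]
    rfl
  rw [hcardC] at hedges
  -- inner degrees
  have hin : ∑ v ∈ C, (univ.filter fun y => F.Adj v y ∧ y ∈ C).card =
      2 * (F.induce (C : Set V)).edgeFinset.card := by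
    rw [← SimpleGraph.sum_degrees_eq_twice_card_edges, ← Finset.sum_coe_sort C]
    refine Fintype.sum_congr _ _ fun v => ?_
    rw [← SimpleGraph.card_neighborFinset_eq_degree]
    refine (Finset.card_bij (fun (y : (C : Set V)) _ => (y : V)) ?_ ?_ ?_).symm
    · intro y hy
      rw [SimpleGraph.mem_neighborFinset] at hy
      rw [mem_filter]
      exact ⟨mem_univ _, hy, y.2⟩
    · intro y _ y' _ h
      exact Subtype.ext h
    · intro y hy
      rw [mem_filter] at hy
      refine ⟨⟨y, hy.2.2⟩, ?_, rfl⟩
      rw [SimpleGraph.mem_neighborFinset]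
      exact hy.2.1
  have hsum : ∑ v ∈ C, (univ.filter fun y => F.Adj v y ∧ y ∈ C).card +
      ∑ v ∈ C, (univ.filter fun y => F.Adj v y ∧ y ∉ C).card = l * C.card := by
    rw [← Finset.sum_add_distrib]
    have h1 : ∀ v ∈ C, (univ.filter fun y => F.Adj v y ∧ y ∈ C).card +
        (univ.filter fun y => F.Adj v y ∧ y ∉ C).card = l := by
      intro v hv
      rw [← hdeg v hv]
      unfold dgc
      rw [← Finset.card_filter_add_card_filter_not (s := univ.filter (F.Adj v)) (fun y => y ∈ C),
        filter_filter, filter_filter]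
    rw [Finset.sum_congr rfl h1, Finset.sum_const, smul_eq_mul, mul_comm]
  -- outer ends are distinct
  have hout : ∑ v ∈ C, (univ.filter fun y => F.Adj v y ∧ y ∉ C).card ≤
      (univ.filter fun y => y ∉ C ∧ ∃ v ∈ C, F.Adj v y).card := by
    rw [← Finset.card_sigma]
    refine Finset.card_le_card_of_injOn (fun x => x.2) ?_ ?_
    · rintro ⟨v, y⟩ hx
      rw [mem_coe, mem_sigma, mem_filter] at hx
      rw [mem_coe, mem_filter]
      exact ⟨mem_univ _, hx.2.2.2, v, hx.1, hx.2.2.1⟩
    · rintro ⟨v, y⟩ hx ⟨v', y'⟩ hx' hyy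
      simp only at hyy
      subst hyy
      rw [mem_coe, mem_sigma, mem_filter] at hx hx'
      obtain ⟨hv, -, hvy, hy⟩ := hx
      obtain ⟨hv', -, hv'y, -⟩ := hx'
      simp only at hv hvy hy hv' hv'y
      by_contra hne
      have hvv : v ≠ v' := fun h => hne (by rw [h])
      obtain ⟨p⟩ := hconn.preconnected ⟨v, hv⟩ ⟨v', hv'⟩
      obtain ⟨q', hq'path, hsupp⟩ : ∃ q' : F.Walk v v', q'.IsPath ∧ ∀ z ∈ q'.support, z ∈ C := by
        let φ : F.induce (C : Set V) →g F := (SimpleGraph.Embedding.induce (C : Set V)).toHom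
        have hφ : Function.Injective φ := fun a b h => Subtype.ext h
        refine ⟨(p.toPath : (F.induce (C : Set V)).Walk ⟨v, hv⟩ ⟨v', hv'⟩).map φ,
          p.toPath.2.map hφ, ?_⟩
        intro z hz
        have hz' : z ∈ ((p.toPath : (F.induce (C : Set V)).Walk ⟨v, hv⟩ ⟨v', hv'⟩).map φ).support :=
          hz
        rw [SimpleGraph.Walk.support_map, List.mem_map] at hz'
        obtain ⟨z', -, rfl⟩ := hz'
        exact z'.2
      have hynot : y ∉ q'.support := fun h => hy (hsupp y h)
      have hcycle : (SimpleGraph.Walk.cons hvy.symm (q'.concat hv'y)).IsCycle := by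
        rw [SimpleGraph.Walk.cons_isCycle_iff]
        refine ⟨hq'path.concat hynot hv'y, ?_⟩
        rw [SimpleGraph.Walk.edges_concat, List.concat_eq_append, List.mem_append,
          List.mem_singleton, not_or]
        refine ⟨fun h => hynot (q'.fst_mem_support_of_mem_edges h), fun h => ?_⟩
        rw [Sym2.eq_iff] at h
        rcases h with ⟨h1, -⟩ | ⟨-, h2⟩
        · exact hy (h1 ▸ hv')
        · exact hvv h2
      obtain ⟨m, h3, f, hf, hadj, hfs⟩ := cyc_fun' _ hcycle
      have : NeZero m := ⟨by omega⟩
      have hfs' : ∀ i, f i = y ∨ f i ∈ C := by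
        intro i
        have h4 := hfs i
        rw [SimpleGraph.Walk.support_cons, SimpleGraph.Walk.support_concat, List.mem_cons,
          List.mem_append, List.mem_singleton] at h4
        rcases h4 with h4 | h4 | h4
        · exact Or.inl h4
        · exact Or.inr (hsupp _ h4)
        · exact Or.inl h4
      have hcard : m ≤ C.card + 1 := by
        have h1 := Finset.card_le_card_of_injOn (s := (univ : Finset (ZMod m)))
          (t := insert y C) f (fun i _ => by
            rcases hfs' i with h | h
            · rw [h]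
              exact mem_insert_self _ _
            · exact mem_insert_of_mem h) hf.injOn
        rw [card_univ, ZMod.card] at h1
        exact h1.trans (Finset.card_insert_le _ _)
      refine hcyc m h3 hcard f hf hadj ?_
      by_cases hex : ∃ i, f i = y
      · obtain ⟨i0, hi0⟩ := hex
        refine ⟨i0, fun i hi => (hfs' i).resolve_left fun h => hi (hf (h.trans hi0.symm))⟩
      · exact ⟨0, fun i _ => (hfs' i).resolve_left fun h => hex ⟨i, h⟩⟩
  have hC1 : 1 ≤ C.card := hC.card_pos
  rw [hin] at hsum
  have h5 : l + 2 * (C.card - 1) ≤ l * C.card := by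
    obtain ⟨c, hc⟩ : ∃ c, C.card = c + 1 := ⟨C.card - 1, by omega⟩
    rw [hc]
    simp only [Nat.add_sub_cancel]
    nlinarith [Nat.mul_le_mul_right c hl]
  omega

end Pool.Agent.Work.MP_60abc6_co.DEL
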