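import Mathlib
import Pool.Agent.Work.MP_60abc6_co.Cuts

set_option autoImplicit false

/-! PART T: a random sparse bipartite subgraph; its degrees. -/

namespace Pool.Agent.Work.MP_60abc6_co.DEL.TP

open Finset

section finite

variable {ι : Type*} [Fintype ι] [DecidableEq ι]

/-- the weight of a random subset of rate `q` -/
noncomputable def wt (q : ℝ) (S : Finset ι) : ℝ := (∏ _v ∈ S, q) * ∏ _v ∈ univ \ S, (1 - q)

lemma wt_pos {q : ℝ} (h0 : 0 < q) (h1 : q < 1) (S : Finset ι) : 0 < wt q S := by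
  unfold wt
  have : 0 < 1 - q := by linarith
  exact mul_pos (prod_pos fun _ _ => h0) (prod_pos fun _ _ => this)

lemma sum_wt_subset (q : ℝ) (Q : Finset ι) :
    ∑ S : Finset ι, (if Q ⊆ S then wt q S else 0) = q ^ Q.card := by
  have h : ∑ S : Finset ι, (∏ v ∈ S, q) * ∏ v ∈ univ \ S, (if v ∈ Q then 0 else 1 - q)
      = ∏ v, (q + if v ∈ Q then 0 else 1 - q) := by
    rw [prod_add, powerset_univ]
  have h1 : ∏ v : ι, (q + if v ∈ Q then 0 else 1 - q) = q ^ Q.card := by
    rw [← prod_const]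
    rw [← prod_mul_prod_compl Q]
    have h2 : ∏ i ∈ Q, (q + if i ∈ Q then 0 else 1 - q) = ∏ _i ∈ Q, q :=
      prod_congr rfl fun i hi => by rw [if_pos hi, add_zero]
    have h3 : ∏ i ∈ Qᶜ, (q + if i ∈ Q then 0 else 1 - q) = 1 := by
      refine prod_eq_one fun i hi => ?_
      rw [if_neg (mem_compl.1 hi)]
      ring
    rw [h2, h3, mul_one]
  rw [h1] at h
  refine Eq.trans (sum_congr rfl fun S _ => ?_) h
  by_cases hQ : Q ⊆ S
  · rw [if_pos hQ, wt]
    congr 1
    refine prod_congr rfl fun u hu => ?_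
    rw [if_neg fun h => (mem_sdiff.1 hu).2 (hQ h)]
  · rw [if_neg hQ]
    obtain ⟨i, hi, hiS⟩ := not_subset.1 hQ
    have h4 : ∏ v ∈ univ \ S, (if v ∈ Q then (0 : ℝ) else 1 - q) = 0 :=
      prod_eq_zero (i := i) (mem_sdiff.2 ⟨mem_univ i, hiS⟩) (if_pos hi)
    rw [h4, mul_zero]

lemma sum_wt (q : ℝ) : ∑ S : Finset ι, wt q S = 1 := by
  have h := sum_wt_subset q (∅ : Finset ι)
  simpa using h

end finite

variable {V : Type*} [Fintype V] [DecidableEq V]

omit [Fintype V] in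
lemma tog_inv (u : V) : Function.Involutive (fun C : Finset V => symmDiff C {u}) :=
  fun _ => symmDiff_symmDiff_cancel_right _ _

/-- toggling the membership of `u` -/
def tog (u : V) : Equiv.Perm (Finset V) := (tog_inv u).toPerm _

omit [Fintype V] in
lemma mem_tog_self (u : V) (C : Finset V) : u ∈ tog u C ↔ u ∉ C := by
  change u ∈ symmDiff C {u} ↔ _
  simp [mem_symmDiff]

omit [Fintype V] in
lemma mem_tog_ne {u v : V} (h : v ≠ u) (C : Finset V) : v ∈ tog u C ↔ v ∈ C := by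
  change v ∈ symmDiff C {u} ↔ _
  simp [mem_symmDiff, h]

/-- `C` separates `u` and `v` -/
def Sp (C : Finset V) (u v : V) : Prop := ¬ (u ∈ C ↔ v ∈ C)

instance (C : Finset V) (u v : V) : Decidable (Sp C u v) := inferInstanceAs (Decidable (¬ _))

lemma sum_sp {u v : V} (huv : v ≠ u) (f : Finset V → ℝ) (hf : ∀ C, f (tog u C) = f C) :
    ∑ C : Finset V, (if Sp C u v then f C else 0) = (∑ C : Finset V, f C) / 2 := by
  have h1 : ∑ C : Finset V, (if Sp C u v then f C else 0)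
      = ∑ C : Finset V, (if Sp C u v then 0 else f C) := by
    rw [← Equiv.sum_comp (tog u)]
    refine sum_congr rfl fun C _ => ?_
    rw [hf]
    have h2 : Sp (tog u C) u v ↔ ¬ Sp C u v := by
      unfold Sp
      rw [mem_tog_self, mem_tog_ne huv]
      tauto
    by_cases h : Sp C u v
    · rw [if_neg (by rw [h2]; exact not_not.2 h), if_pos h]
    · rw [if_pos (h2.2 h), if_neg h]
  have h2 : ∑ C : Finset V, f C = ∑ C : Finset V, (if Sp C u v then f C else 0)
      + ∑ C : Finset V, (if Sp C u v then 0 else f C) := by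
    rw [← sum_add_distrib]
    refine sum_congr rfl fun C _ => ?_
    split_ifs <;> ring
  rw [h2, ← h1]
  ring

lemma sum_sp_one {u v : V} (huv : v ≠ u) :
    ∑ C : Finset V, (if Sp C u v then (1 : ℝ) else 0) = 2 ^ Fintype.card V / 2 := by
  rw [sum_sp huv (fun _ => 1) (fun _ => rfl)]
  congr 1
  simp

lemma sum_sp_two {u u' v : V} (huv : v ≠ u) (huv' : v ≠ u') (huu' : u ≠ u') :
    ∑ C : Finset V, (if Sp C u v then (if Sp C u' v then (1 : ℝ) else 0) else 0)
      = 2 ^ Fintype.card V / 4 := by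
  rw [sum_sp huv (fun C => if Sp C u' v then (1 : ℝ) else 0) (fun C => by
    have h2 : Sp (tog u C) u' v ↔ Sp C u' v := by
      unfold Sp
      rw [mem_tog_ne huv, mem_tog_ne huu'.symm]
    simp only [h2]), sum_sp_one huv']
  ring

/-- the indicator of the edge `uv` -/
noncomputable def ind (C : Finset V) (S : Finset (Sym2 V)) (v u : V) : ℝ :=
  if s(v, u) ∈ S ∧ Sp C u v then 1 else 0

omit [Fintype V] in
lemma ind_sq (C : Finset V) (S : Finset (Sym2 V)) (v u : V) : ind C S v u * ind C S v u = ind C S v u := by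
  unfold ind
  split_ifs <;> simp

/-- expectation, unnormalised in `C` -/
noncomputable def Ex (q : ℝ) (f : Finset V → Finset (Sym2 V) → ℝ) : ℝ :=
  ∑ C : Finset V, ∑ S : Finset (Sym2 V), wt q S * f C S

lemma Ex_add (q : ℝ) (f g : Finset V → Finset (Sym2 V) → ℝ) :
    Ex q (fun C S => f C S + g C S) = Ex q f + Ex q g := by
  unfold Ex
  rw [← sum_add_distrib]
  refine sum_congr rfl fun C _ => ?_
  rw [← sum_add_distrib]
  exact sum_congr rfl fun S _ => by ring

lemma Ex_smul (q a : ℝ) (f : Finset V → Finset (Sym2 V) → ℝ) :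
    Ex q (fun C S => a * f C S) = a * Ex q f := by
  unfold Ex
  rw [mul_sum]
  refine sum_congr rfl fun C _ => ?_
  rw [mul_sum]
  exact sum_congr rfl fun S _ => by ring

lemma Ex_const (q a : ℝ) : Ex q (fun (_ : Finset V) _ => a) = a * 2 ^ Fintype.card V := by
  unfold Ex
  have h1 : ∀ C : Finset V, ∑ S : Finset (Sym2 V), wt q S * a = a := fun C => by
    rw [← sum_mul, sum_wt, one_mul]
  rw [sum_congr rfl fun C _ => h1 C]
  simp
  ring

lemma Ex_sum (q : ℝ) {κ : Type*} (A : Finset κ) (f : κ → Finset V → Finset (Sym2 V) → ℝ) :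
    Ex q (fun C S => ∑ i ∈ A, f i C S) = ∑ i ∈ A, Ex q (f i) := by
  unfold Ex
  simp only [mul_sum]
  have h1 : ∀ C : Finset V, ∑ S : Finset (Sym2 V), ∑ i ∈ A, wt q S * f i C S
      = ∑ i ∈ A, ∑ S : Finset (Sym2 V), wt q S * f i C S := fun C => sum_comm
  rw [sum_congr rfl fun C _ => h1 C]
  exact sum_comm

lemma Ex_mono {q : ℝ} (h0 : 0 < q) (h1 : q < 1) {f g : Finset V → Finset (Sym2 V) → ℝ}
    (h : ∀ C S, f C S ≤ g C S) : Ex q f ≤ Ex q g := by
  unfold Ex
  refine sum_le_sum fun C _ => sum_le_sum fun S _ => ?_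
  exact mul_le_mul_of_nonneg_left (h C S) (wt_pos h0 h1 S).le

lemma exists_le_of_Ex {q : ℝ} (h0 : 0 < q) (h1 : q < 1) {f : Finset V → Finset (Sym2 V) → ℝ}
    {b : ℝ} (h : Ex q f ≤ b * 2 ^ Fintype.card V) : ∃ C S, f C S ≤ b := by
  by_contra hcon
  push Not at hcon
  have h2 : Ex q (fun (_ : Finset V) _ => b) < Ex q f := by
    unfold Ex
    refine sum_lt_sum_of_nonempty univ_nonempty fun C _ => sum_lt_sum_of_nonempty univ_nonempty fun S _ => ?_
    exact mul_lt_mul_of_pos_left (hcon C S) (wt_pos h0 h1 S)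
  rw [Ex_const] at h2
  linarith

lemma Ex_ind (q : ℝ) {v u : V} (huv : v ≠ u) :
    Ex q (fun C S => ind C S v u) = q / 2 * 2 ^ Fintype.card V := by
  unfold Ex
  have h1 : ∀ C : Finset V, ∑ S : Finset (Sym2 V), wt q S * ind C S v u
      = q * (if Sp C u v then 1 else 0) := by
    intro C
    by_cases h : Sp C u v
    · rw [if_pos h, mul_one]
      have h2 := sum_wt_subset q ({s(v, u)} : Finset (Sym2 V))
      rw [card_singleton, pow_one] at h2
      refine Eq.trans (sum_congr rfl fun S _ => ?_) h2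
      unfold ind
      by_cases h3 : s(v, u) ∈ S
      · rw [if_pos ⟨h3, h⟩, if_pos (singleton_subset_iff.2 h3), mul_one]
      · rw [if_neg fun h4 => h3 h4.1, if_neg fun h4 => h3 (singleton_subset_iff.1 h4), mul_zero]
    · rw [if_neg h, mul_zero]
      refine sum_eq_zero fun S _ => ?_
      unfold ind
      rw [if_neg fun h4 => h h4.2, mul_zero]
  rw [sum_congr rfl fun C _ => h1 C, ← mul_sum, sum_sp_one huv]
  ring

lemma Ex_ind_two (q : ℝ) {v u u' : V} (huv : v ≠ u) (huv' : v ≠ u') (huu' : u ≠ u') :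
    Ex q (fun C S => ind C S v u * ind C S v u') = (q / 2) ^ 2 * 2 ^ Fintype.card V := by
  unfold Ex
  have hne : s(v, u) ≠ s(v, u') := by
    intro h
    rw [Sym2.eq_iff] at h
    rcases h with ⟨-, h⟩ | ⟨h, -⟩
    · exact huu' h
    · exact huv' h
  have h1 : ∀ C : Finset V, ∑ S : Finset (Sym2 V), wt q S * (ind C S v u * ind C S v u')
      = q ^ 2 * (if Sp C u v then (if Sp C u' v then 1 else 0) else 0) := by
    intro C
    by_cases h : Sp C u v ∧ Sp C u' v
    · rw [if_pos h.1, if_pos h.2, mul_one]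
      have h2 := sum_wt_subset q ({s(v, u), s(v, u')} : Finset (Sym2 V))
      rw [card_pair hne] at h2
      refine Eq.trans (sum_congr rfl fun S _ => ?_) h2
      unfold ind
      by_cases h3 : s(v, u) ∈ S ∧ s(v, u') ∈ S
      · rw [if_pos ⟨h3.1, h.1⟩, if_pos ⟨h3.2, h.2⟩, if_pos, mul_one, mul_one]
        intro e he
        rw [mem_insert, mem_singleton] at he
        rcases he with rfl | rfl
        · exact h3.1
        · exact h3.2
      · rw [if_neg (fun h4 : {s(v, u), s(v, u')} ⊆ S => h3 ⟨h4 (by simp), h4 (by simp)⟩)]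
        by_cases h5 : s(v, u) ∈ S
        · rw [if_neg (fun h6 : s(v, u') ∈ S ∧ Sp C u' v => h3 ⟨h5, h6.1⟩), mul_zero, mul_zero]
        · rw [if_neg (fun h6 : s(v, u) ∈ S ∧ Sp C u v => h5 h6.1), zero_mul, mul_zero]
    · have h2 : (if Sp C u v then (if Sp C u' v then (1 : ℝ) else 0) else 0) = 0 := by
        by_cases h5 : Sp C u v
        · rw [if_pos h5, if_neg fun h6 => h ⟨h5, h6⟩]
        · rw [if_neg h5]
      rw [h2, mul_zero]
      refine sum_eq_zero fun S _ => ?_
      unfold ind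
      by_cases h5 : Sp C u v
      · rw [if_neg (fun h6 : s(v, u') ∈ S ∧ Sp C u' v => h ⟨h5, h6.2⟩), mul_zero, mul_zero]
      · rw [if_neg (fun h6 : s(v, u) ∈ S ∧ Sp C u v => h5 h6.2), zero_mul, mul_zero]
  rw [sum_congr rfl fun C _ => h1 C, ← mul_sum, sum_sp_two huv huv' huu']
  ring

/-- second moment of a degree -/
lemma Ex_deg_sq (q : ℝ) (v : V) (N : Finset V) (hN : v ∉ N) :
    Ex q (fun C S => (∑ u ∈ N, ind C S v u - q / 2 * N.card) ^ 2)
      = (q / 2 - (q / 2) ^ 2) * N.card * 2 ^ Fintype.card V := by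
  have hne : ∀ u ∈ N, v ≠ u := fun u hu h => hN (h ▸ hu)
  have e1 : (fun (C : Finset V) (S : Finset (Sym2 V)) => (∑ u ∈ N, ind C S v u - q / 2 * N.card) ^ 2)
      = fun C S => (∑ u ∈ N, ∑ u' ∈ N, ind C S v u * ind C S v u')
        + ((-(q * N.card)) * (∑ u ∈ N, ind C S v u) + (q / 2 * N.card) ^ 2) := by
    funext C S
    rw [← sum_mul_sum]
    ring
  rw [e1, Ex_add, Ex_add, Ex_smul, Ex_const, Ex_sum, Ex_sum]
  have e2 : ∑ u ∈ N, Ex q (fun C S => ind C S v u) = N.card * (q / 2 * 2 ^ Fintype.card V) := by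
    rw [sum_congr rfl fun u hu => Ex_ind q (hne u hu), sum_const, nsmul_eq_mul]
  have e3 : ∀ u ∈ N, Ex q (fun C S => ∑ u' ∈ N, ind C S v u * ind C S v u')
      = q / 2 * 2 ^ Fintype.card V + ((N.card : ℝ) - 1) * ((q / 2) ^ 2 * 2 ^ Fintype.card V) := by
    intro u hu
    rw [Ex_sum, ← add_sum_erase N _ hu]
    have e4 : Ex q (fun C S => ind C S v u * ind C S v u) = q / 2 * 2 ^ Fintype.card V := by
      simp only [ind_sq]
      exact Ex_ind q (hne u hu)
    rw [e4, sum_congr rfl fun u' hu' => Ex_ind_two q (hne u hu) (hne u' (mem_of_mem_erase hu'))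
      (ne_of_mem_erase hu').symm, sum_const, nsmul_eq_mul, card_erase_of_mem hu]
    have h5 : 1 ≤ N.card := card_pos.2 ⟨u, hu⟩
    push_cast [Nat.cast_sub h5]
    ring
  rw [e2, sum_congr rfl e3, sum_const, nsmul_eq_mul]
  ring

/-- first absolute moment of a degree -/
lemma Ex_deg_abs {q t : ℝ} (h0 : 0 < q) (h1 : q < 1) (ht : 0 < t) (v : V) (N : Finset V)
    (hN : v ∉ N) :
    Ex q (fun C S => |∑ u ∈ N, ind C S v u - q / 2 * N.card|)
      ≤ (q / 2 * N.card / t + t) / 2 * 2 ^ Fintype.card V := by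
  have h2 : Ex q (fun C S => |∑ u ∈ N, ind C S v u - q / 2 * N.card|)
      ≤ Ex q (fun C S => 1 / (2 * t) * (∑ u ∈ N, ind C S v u - q / 2 * N.card) ^ 2 + t / 2) := by
    refine Ex_mono h0 h1 fun C S => ?_
    obtain ⟨x, hx⟩ : ∃ x, x = ∑ u ∈ N, ind C S v u - q / 2 * N.card := ⟨_, rfl⟩
    rw [← hx]
    have h3 : 1 / (2 * t) * x ^ 2 + t / 2 = (x ^ 2 + t ^ 2) / (2 * t) := by
      field_simp
    rw [h3, le_div_iff₀ (by positivity)]
    have h4 : |x| ^ 2 = x ^ 2 := sq_abs x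
    nlinarith [sq_nonneg (|x| - t)]
  refine h2.trans ?_
  rw [Ex_add, Ex_smul, Ex_const, Ex_deg_sq q v N hN]
  have h3 : 1 / (2 * t) * ((q / 2 - (q / 2) ^ 2) * N.card * 2 ^ Fintype.card V)
      ≤ q / 2 * N.card / t / 2 * 2 ^ Fintype.card V := by
    have h4 : 1 / (2 * t) * ((q / 2 - (q / 2) ^ 2) * N.card * 2 ^ Fintype.card V)
        = (q / 2 - (q / 2) ^ 2) * (N.card / (2 * t) * 2 ^ Fintype.card V) := by ring
    have h5 : q / 2 * N.card / t / 2 * 2 ^ Fintype.card V
        = q / 2 * (N.card / (2 * t) * 2 ^ Fintype.card V) := by ring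
    rw [h4, h5]
    refine mul_le_mul_of_nonneg_right ?_ (by positivity)
    nlinarith [sq_nonneg q]
  linarith

/-- the random subgraph -/
def rg (J : SimpleGraph V) (C : Finset V) (S : Finset (Sym2 V)) : SimpleGraph V where
  Adj u v := J.Adj u v ∧ s(u, v) ∈ S ∧ Sp C u v
  symm := ⟨fun u v h => ⟨h.1.symm, by rw [Sym2.eq_swap]; exact h.2.1, fun h2 => h.2.2 h2.symm⟩⟩
  loopless := ⟨fun u h => J.loopless.irrefl u h.1⟩

open Classical in
lemma dgc_rg (J : SimpleGraph V) (C : Finset V) (S : Finset (Sym2 V)) (v : V) :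
    (dgc (rg J C S) v : ℝ) = ∑ u ∈ univ.filter (J.Adj v), ind C S v u := by
  unfold dgc ind
  rw [sum_boole, filter_filter]
  congr 2
  ext u
  simp only [mem_filter, mem_univ, true_and]
  change (J.Adj v u ∧ s(v, u) ∈ S ∧ Sp C v u) ↔ _
  have : Sp C v u ↔ Sp C u v := ⟨fun h h2 => h h2.symm, fun h h2 => h h2.symm⟩
  rw [this]

lemma Ex_rg {q t : ℝ} (h0 : 0 < q) (h1 : q < 1) (ht : 0 < t) (J : SimpleGraph V) (v : V) :
    Ex q (fun C S => |(dgc (rg J C S) v : ℝ) - q / 2 * dgc J v|)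
      ≤ (q / 2 * dgc J v / t + t) / 2 * 2 ^ Fintype.card V := by
  classical
  have hN : v ∉ univ.filter (J.Adj v) := by
    rw [mem_filter]
    exact fun h => J.loopless.irrefl v h.2
  have h2 := Ex_deg_abs h0 h1 ht v (univ.filter (J.Adj v)) hN
  have h3 : (univ.filter (J.Adj v)).card = dgc J v := by
    unfold dgc
    congr
  rw [h3] at h2
  refine le_trans (le_of_eq ?_) h2
  congr 1
  funext C S
  rw [dgc_rg]

/-- all degrees together -/
lemma sum_dgc_le (J : SimpleGraph V) (Lo : Finset V) (hJ : ∀ u v, J.Adj u v → u ∈ Lo ∨ v ∈ Lo)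
    {d : ℕ} (hLo : ∀ v ∈ Lo, dgc J v ≤ d) : ∑ v, dgc J v ≤ 2 * d * Fintype.card V := by
  classical
  rw [sum_dgc]
  have h1 : ((univ : Finset (V × V)).filter fun p => J.Adj p.1 p.2)
      ⊆ ((univ : Finset (V × V)).filter fun p => p.1 ∈ Lo ∧ J.Adj p.1 p.2)
        ∪ ((univ : Finset (V × V)).filter fun p => p.2 ∈ Lo ∧ J.Adj p.2 p.1) := by
    intro p hp
    rw [mem_filter] at hp
    rw [mem_union, mem_filter, mem_filter]
    rcases hJ _ _ hp.2 with h | h
    · exact Or.inl ⟨mem_univ _, h, hp.2⟩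
    · exact Or.inr ⟨mem_univ _, h, hp.2.symm⟩
  have h2 : ((univ : Finset (V × V)).filter fun p => p.1 ∈ Lo ∧ J.Adj p.1 p.2).card
      ≤ d * Fintype.card V := by
    rw [card_filter, Fintype.sum_prod_type]
    calc ∑ x : V, ∑ y : V, (if x ∈ Lo ∧ J.Adj x y then 1 else 0)
        ≤ ∑ _x : V, d := by
          refine sum_le_sum fun x _ => ?_
          by_cases hx : x ∈ Lo
          · rw [← card_filter]
            refine le_trans (le_of_eq ?_) (hLo x hx)
            unfold dgc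
            congr 1
            ext y
            simp [hx]
          · simp [hx]
      _ = d * Fintype.card V := by rw [sum_const, card_univ, smul_eq_mul, mul_comm]
  have h3 : ((univ : Finset (V × V)).filter fun p => p.2 ∈ Lo ∧ J.Adj p.2 p.1).card
      = ((univ : Finset (V × V)).filter fun p => p.1 ∈ Lo ∧ J.Adj p.1 p.2).card := by
    refine card_bij (fun p _ => (p.2, p.1)) ?_ ?_ ?_
    · intro p hp
      rw [mem_filter] at hp ⊢
      exact ⟨mem_univ _, hp.2⟩
    · intro p _ p' _ h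
      simp only [Prod.mk.injEq] at h
      exact Prod.ext h.2 h.1
    · intro p hp
      refine ⟨(p.2, p.1), ?_, rfl⟩
      rw [mem_filter] at hp ⊢
      exact ⟨mem_univ _, hp.2⟩
  calc ((univ : Finset (V × V)).filter fun p => J.Adj p.1 p.2).card
      ≤ _ := card_le_card h1
    _ ≤ _ := card_union_le _ _
    _ ≤ 2 * d * Fintype.card V := by
      rw [h3]
      nlinarith

lemma Ex_dev {q t : ℝ} (h0 : 0 < q) (h1 : q < 1) (ht : 0 < t) (J : SimpleGraph V) (Lo : Finset V)
    (hJ : ∀ u v, J.Adj u v → u ∈ Lo ∨ v ∈ Lo) {d : ℕ} (hLo : ∀ v ∈ Lo, dgc J v ≤ d) :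
    Ex q (fun C S => ∑ v, |(dgc (rg J C S) v : ℝ) - q / 2 * dgc J v|)
      ≤ (q * d / t + t) / 2 * Fintype.card V * 2 ^ Fintype.card V := by
  rw [Ex_sum]
  refine (sum_le_sum fun v _ => Ex_rg h0 h1 ht J v).trans ?_
  rw [← sum_mul]
  refine mul_le_mul_of_nonneg_right ?_ (by positivity)
  rw [← sum_div, sum_add_distrib, sum_const, card_univ, nsmul_eq_mul, ← sum_div, ← mul_sum]
  have h2 : (∑ v, (dgc J v : ℝ)) ≤ 2 * d * Fintype.card V := by
    exact_mod_cast sum_dgc_le J Lo hJ hLo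
  have h3 : q / 2 * ∑ v, (dgc J v : ℝ) / t ≤ 0 + q / 2 * ∑ v, (dgc J v : ℝ) / t := by linarith
  have h4 : q / 2 * (∑ v, (dgc J v : ℝ)) / t ≤ q * d * Fintype.card V / t := by
    refine div_le_div_of_nonneg_right ?_ ht.le
    nlinarith
  have h5 : (q * d / t + t) / 2 * Fintype.card V
      = (q * d * Fintype.card V / t + Fintype.card V * t) / 2 := by ring
  rw [h5]
  linarith

end Pool.Agent.Work.MP_60abc6_co.DEL.TP
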