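import Mathlib
import Pool.Agent.Work.MP_60abc6_co.DEL.TExp

set_option autoImplicit false

/-! PART T: a random sparse bipartite subgraph with nearly prescribed degrees and few short cycles. -/

namespace Pool.Agent.Work.MP_60abc6_co.DEL.TP

open Finset

variable {V : Type*} [Fintype V] [DecidableEq V]

/-! ### cycles -/

open Classical in
/-- paths starting in `Lo` and staying there, except perhaps at the end -/
noncomputable def pth (J : SimpleGraph V) (Lo : Finset V) (t : ℕ) : Finset (Fin (t + 1) → V) :=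
  univ.filter fun f => ∀ i : Fin t, f i.castSucc ∈ Lo ∧ J.Adj (f i.castSucc) (f i.succ)

lemma mem_pth {J : SimpleGraph V} {Lo : Finset V} {t : ℕ} {f : Fin (t + 1) → V} :
    f ∈ pth J Lo t ↔ ∀ i : Fin t, f i.castSucc ∈ Lo ∧ J.Adj (f i.castSucc) (f i.succ) := by
  unfold pth
  simp only [mem_filter, mem_univ, true_and]

lemma card_pth (J : SimpleGraph V) (Lo : Finset V) {d : ℕ} (hLo : ∀ v ∈ Lo, dgc J v ≤ d) :
    ∀ t : ℕ, (pth J Lo t).card ≤ d ^ t * Fintype.card V := by
  classical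
  intro t
  induction t with
  | zero =>
    refine (card_le_univ _).trans (le_of_eq ?_)
    rw [Fintype.card_fun]
    simp
  | succ t ih =>
    have h1 : (pth J Lo (t + 1)).card ≤ d * (pth J Lo t).card := by
      refine card_le_mul_card_image_of_maps_to (f := fun f : Fin (t + 2) → V => fun i : Fin (t + 1) =>
        f i.castSucc) ?_ d ?_
      · intro f hf
        rw [mem_pth] at hf ⊢
        intro i
        exact hf i.castSucc
      · intro b hb
        by_cases hbl : b (Fin.last t) ∈ Lo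
        · refine le_trans (card_le_card_of_injOn (t := univ.filter (J.Adj (b (Fin.last t))))
            (fun f => f (Fin.last (t + 1))) ?_ ?_) ?_
          · intro f hf
            obtain ⟨h2, h3⟩ := mem_filter.1 hf
            have h4 := (mem_pth.1 h2 (Fin.last t)).2
            rw [mem_coe, mem_filter]
            refine ⟨mem_univ _, ?_⟩
            rw [← h3]
            exact h4
          · intro f hf f' hf' hff
            obtain ⟨-, h3⟩ := mem_filter.1 hf
            obtain ⟨-, h3'⟩ := mem_filter.1 hf'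
            funext i
            refine Fin.lastCases ?_ (fun j => ?_) i
            · exact hff
            · have h4 : f j.castSucc = b j := congrFun h3 j
              have h5 : f' j.castSucc = b j := congrFun h3' j
              rw [h4, h5]
          · refine le_trans (le_of_eq ?_) (hLo _ hbl)
            unfold dgc
            congr
        · rw [card_eq_zero.2]
          · exact Nat.zero_le _
          · rw [filter_eq_empty_iff]
            intro f hf h3
            apply hbl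
            rw [← h3]
            exact (mem_pth.1 hf (Fin.last t)).1
    calc (pth J Lo (t + 1)).card ≤ d * (pth J Lo t).card := h1
      _ ≤ d * (d ^ t * Fintype.card V) := Nat.mul_le_mul_left _ ih
      _ = d ^ (t + 1) * Fintype.card V := by ring

open Classical in
/-- cyclic injective sequences, all vertices except perhaps the last one in `Lo` -/
noncomputable def cyc (J : SimpleGraph V) (Lo : Finset V) (t : ℕ) : Finset (ZMod (t + 1) → V) :=
  univ.filter fun f => Function.Injective f ∧ (∀ i, J.Adj (f i) (f (i + 1))) ∧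
    ∀ i, i + 1 ≠ 0 → f i ∈ Lo

lemma mem_cyc {J : SimpleGraph V} {Lo : Finset V} {t : ℕ} {f : ZMod (t + 1) → V} :
    f ∈ cyc J Lo t ↔ Function.Injective f ∧ (∀ i, J.Adj (f i) (f (i + 1))) ∧
      ∀ i, i + 1 ≠ 0 → f i ∈ Lo := by
  unfold cyc
  simp only [mem_filter, mem_univ, true_and]

lemma card_cyc (J : SimpleGraph V) (Lo : Finset V) {d : ℕ} (hLo : ∀ v ∈ Lo, dgc J v ≤ d)
    (t : ℕ) : (cyc J Lo t).card ≤ d ^ t * Fintype.card V := by
  refine le_trans ?_ (card_pth J Lo hLo t)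
  refine card_le_card (fun f hf => ?_)
  obtain ⟨-, h1, h2⟩ := mem_cyc.1 hf
  refine mem_pth.2 fun i => ?_
  have e : (show ZMod (t + 1) from i.castSucc) + 1 = (show ZMod (t + 1) from i.succ) :=
    Fin.coeSucc_eq_succ
  constructor
  · refine h2 i.castSucc ?_
    rw [e]
    exact Fin.succ_ne_zero i
  · have h3 := h1 (show ZMod (t + 1) from i.castSucc)
    rw [e] at h3
    exact h3

/-- the edges of a cyclic sequence -/
def edg {t : ℕ} (f : ZMod (t + 1) → V) : Finset (Sym2 V) :=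
  univ.image fun i => s(f i, f (i + 1))

omit [Fintype V] in
lemma card_edg {t : ℕ} (ht : 2 ≤ t) {f : ZMod (t + 1) → V} (hf : Function.Injective f) :
    (edg f).card = t + 1 := by
  unfold edg
  rw [card_image_of_injective]
  · rw [card_univ, ZMod.card]
  · intro i j hij
    simp only [Sym2.eq_iff] at hij
    rcases hij with ⟨h, -⟩ | ⟨h1, h2⟩
    · exact hf h
    · exfalso
      have h3 := hf h1
      have h4 := hf h2
      rw [h3] at h4
      have h5 : (2 : ZMod (t + 1)) = 0 := by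
        have h6 : j + (1 + 1) = j + 0 := by rw [← add_assoc, h4, add_zero]
        have h7 := add_left_cancel h6
        rw [← h7]
        norm_num
      have h6 : ((2 : ℕ) : ZMod (t + 1)) = 0 := by exact_mod_cast h5
      rw [ZMod.natCast_eq_zero_iff] at h6
      have := Nat.le_of_dvd (by norm_num) h6
      omega

open Classical in
/-- the vertices of the short cycles -/
noncomputable def Zs (J : SimpleGraph V) (Lo : Finset V) (g : ℕ) (C : Finset V)
    (S : Finset (Sym2 V)) : Finset V :=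
  (Ico 2 g).biUnion fun t => ((cyc J Lo t).filter fun f =>
    ∀ i, (rg J C S).Adj (f i) (f (i + 1))).biUnion fun f => univ.image f

lemma Ex_Zs {q : ℝ} (h0 : 0 < q) (h1 : q < 1) (J : SimpleGraph V) (Lo : Finset V) {d : ℕ}
    (hLo : ∀ v ∈ Lo, dgc J v ≤ d) (g : ℕ) :
    Ex q (fun C S => ((Zs J Lo g C S).card : ℝ))
      ≤ ∑ t ∈ Ico 2 g, ((t + 1 : ℕ) : ℝ) * (d ^ t * Fintype.card V) * q ^ (t + 1)
        * 2 ^ Fintype.card V := by
  classical
  have h2 : Ex q (fun C S => ((Zs J Lo g C S).card : ℝ))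
      ≤ Ex q (fun C S => ∑ t ∈ Ico 2 g, ∑ f ∈ cyc J Lo t,
        ((t + 1 : ℕ) : ℝ) * (if edg f ⊆ S then 1 else 0)) := by
    refine Ex_mono h0 h1 fun C S => ?_
    unfold Zs
    have h3 : ((Ico 2 g).biUnion fun t => ((cyc J Lo t).filter fun f =>
        ∀ i, (rg J C S).Adj (f i) (f (i + 1))).biUnion fun f => univ.image f).card
        ≤ ∑ t ∈ Ico 2 g, ∑ f ∈ (cyc J Lo t).filter (fun f =>
          ∀ i, (rg J C S).Adj (f i) (f (i + 1))), (t + 1) := by
      refine card_biUnion_le.trans (sum_le_sum fun t _ => card_biUnion_le.trans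
        (sum_le_sum fun f _ => ?_))
      refine card_image_le.trans ?_
      rw [card_univ, ZMod.card]
    have h4 : ((∑ t ∈ Ico 2 g, ∑ f ∈ (cyc J Lo t).filter (fun f =>
          ∀ i, (rg J C S).Adj (f i) (f (i + 1))), (t + 1) : ℕ) : ℝ)
        ≤ ∑ t ∈ Ico 2 g, ∑ f ∈ cyc J Lo t, ((t + 1 : ℕ) : ℝ) * (if edg f ⊆ S then 1 else 0) := by
      push_cast
      refine sum_le_sum fun t _ => ?_
      rw [sum_filter]
      refine sum_le_sum fun f _ => ?_
      by_cases h5 : ∀ i, (rg J C S).Adj (f i) (f (i + 1))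
      · rw [if_pos h5, if_pos, mul_one]
        intro e he
        unfold edg at he
        rw [mem_image] at he
        obtain ⟨i, -, rfl⟩ := he
        exact (h5 i).2.1
      · rw [if_neg h5]
        positivity
    refine le_trans ?_ h4
    exact_mod_cast h3
  refine h2.trans ?_
  rw [Ex_sum]
  refine sum_le_sum fun t ht => ?_
  rw [Ex_sum]
  have ht2 : 2 ≤ t := (mem_Ico.1 ht).1
  have h3 : ∀ f ∈ cyc J Lo t, Ex q (fun (_ : Finset V) (S : Finset (Sym2 V)) =>
      ((t + 1 : ℕ) : ℝ) * (if edg f ⊆ S then 1 else 0))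
      = ((t + 1 : ℕ) : ℝ) * (q ^ (t + 1) * 2 ^ Fintype.card V) := by
    intro f hf
    rw [Ex_smul]
    congr 1
    unfold Ex
    have h4 : ∑ S : Finset (Sym2 V), wt q S * (if edg f ⊆ S then 1 else 0) = q ^ (t + 1) := by
      have h5 := sum_wt_subset q (edg f)
      rw [card_edg ht2 (mem_cyc.1 hf).1] at h5
      rw [← h5]
      refine sum_congr rfl fun S _ => ?_
      split_ifs <;> simp
    rw [sum_congr rfl fun C _ => h4]
    simp
    ring
  rw [sum_congr rfl h3, sum_const, nsmul_eq_mul]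
  have h4 : ((cyc J Lo t).card : ℝ) ≤ d ^ t * Fintype.card V := by
    exact_mod_cast card_cyc J Lo hLo t
  have h5 : (0 : ℝ) ≤ ((t + 1 : ℕ) : ℝ) * (q ^ (t + 1) * 2 ^ Fintype.card V) := by positivity
  calc ((cyc J Lo t).card : ℝ) * (((t + 1 : ℕ) : ℝ) * (q ^ (t + 1) * 2 ^ Fintype.card V))
      ≤ (d ^ t * Fintype.card V) * (((t + 1 : ℕ) : ℝ) * (q ^ (t + 1) * 2 ^ Fintype.card V)) :=
        mul_le_mul_of_nonneg_right h4 h5
    _ = _ := by ring

lemma mem_Zs {J : SimpleGraph V} {Lo : Finset V} {g : ℕ} {C : Finset V} {S : Finset (Sym2 V)}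
    {m : ℕ} (hm : 3 ≤ m) (hmg : m ≤ g) (f : ZMod m → V) (hf : Function.Injective f)
    (hadj : ∀ i, (rg J C S).Adj (f i) (f (i + 1)))
    (hlow : ∀ i j, f i ∉ Lo → f j ∉ Lo → i = j) (i : ZMod m) : f i ∈ Zs J Lo g C S := by
  classical
  obtain ⟨t, rfl⟩ : ∃ t, m = t + 1 := ⟨m - 1, by omega⟩
  obtain ⟨i0, hi0⟩ : ∃ i0, ∀ j, j ≠ i0 → f j ∈ Lo := by
    by_cases h : ∃ i0, f i0 ∉ Lo
    · obtain ⟨i0, h⟩ := h
      refine ⟨i0, fun j hj => ?_⟩
      by_contra hcon
      exact hj (hlow j i0 hcon h)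
    · push Not at h
      exact ⟨0, fun j _ => h j⟩
  unfold Zs
  rw [mem_biUnion]
  refine ⟨t, mem_Ico.2 ⟨by omega, by omega⟩, ?_⟩
  rw [mem_biUnion]
  refine ⟨fun j => f (j + 1 + i0), ?_, ?_⟩
  · rw [mem_filter, mem_cyc]
    have e : ∀ j : ZMod (t + 1), j + 1 + 1 + i0 = (j + 1 + i0) + 1 := fun j => by ring
    refine ⟨⟨fun j j' h => ?_, fun j => ?_, fun j hj => hi0 _ fun h => hj ?_⟩, fun j => ?_⟩
    · have h1 := hf h
      exact add_right_cancel (add_right_cancel h1)
    · rw [e]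
      exact (hadj _).1
    · have h1 : j + 1 + i0 = 0 + i0 := by rw [h, zero_add]
      exact add_right_cancel h1
    · change (rg J C S).Adj (f (j + 1 + i0)) (f (j + 1 + 1 + i0))
      rw [e]
      exact hadj _
  · rw [mem_image]
    refine ⟨i - i0 - 1, mem_univ _, ?_⟩
    congr 1
    ring

/-- the experiment -/
theorem experiment (J : SimpleGraph V) (Lo : Finset V) {K k g : ℕ} (hK : 1 ≤ K) (hKk : 2 * K < k)
    (hJ : ∀ u v, J.Adj u v → u ∈ Lo ∨ v ∈ Lo) (hLo : ∀ v ∈ Lo, dgc J v ≤ 2 * k) {a : ℝ}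
    (ha : 0 ≤ a) :
    ∃ (C : Finset V) (S : Finset (Sym2 V)),
      a * ∑ v, |(dgc (rg J C S) v : ℝ) - (K : ℝ) / k * dgc J v| + (Zs J Lo g C S).card
        ≤ (a * (5 / 2 * √(K : ℝ)) + (g : ℝ) ^ 2 * (4 * K) ^ g / k) * Fintype.card V := by
  have hK0 : (0 : ℝ) < K := by exact_mod_cast hK
  have hk0 : (0 : ℝ) < k := by exact_mod_cast (by omega : 0 < k)
  have hKk' : 2 * (K : ℝ) < k := by exact_mod_cast hKk
  obtain ⟨q, hq⟩ : ∃ q : ℝ, q = 2 * K / k := ⟨_, rfl⟩
  have h0 : 0 < q := by rw [hq]; positivity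
  have h1 : q < 1 := by rw [hq, div_lt_one hk0]; exact hKk'
  have hs : 0 < √(K : ℝ) := Real.sqrt_pos.2 hK0
  have hq2 : q / 2 = (K : ℝ) / k := by rw [hq]; ring
  have h2 := Ex_dev h0 h1 hs J Lo hJ hLo
  have h3 := Ex_Zs h0 h1 J Lo hLo g
  rw [hq2] at h2
  have h4 : (q * ((2 * k : ℕ) : ℝ) / √(K : ℝ) + √(K : ℝ)) / 2 = 5 / 2 * √(K : ℝ) := by
    rw [hq]
    push_cast
    have h5 : 2 * (K : ℝ) / k * (2 * k) = 4 * (√(K : ℝ) * √(K : ℝ)) := by
      rw [Real.mul_self_sqrt hK0.le]
      field_simp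
      ring
    rw [h5]
    field_simp
    ring
  rw [h4] at h2
  have h5 : ∑ t ∈ Ico 2 g, ((t + 1 : ℕ) : ℝ) * (((2 * k : ℕ) : ℝ) ^ t * Fintype.card V) * q ^ (t + 1)
        * 2 ^ Fintype.card V
      ≤ (g : ℝ) ^ 2 * (4 * K) ^ g / k * Fintype.card V * 2 ^ Fintype.card V := by
    have h6 : ∀ t ∈ Ico 2 g, ((t + 1 : ℕ) : ℝ) * (((2 * k : ℕ) : ℝ) ^ t * Fintype.card V)
        * q ^ (t + 1) * 2 ^ Fintype.card V
        ≤ (g : ℝ) * (4 * K) ^ g / k * Fintype.card V * 2 ^ Fintype.card V := by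
      intro t ht
      have htg : t + 1 ≤ g := (mem_Ico.1 ht).2
      have h7 : (((2 * k : ℕ) : ℝ) ^ t) * q ^ (t + 1) = (4 * K) ^ (t + 1) / (2 * k) := by
        rw [hq]
        push_cast
        rw [eq_div_iff (by positivity)]
        have h8 : ∀ y x : ℝ, y ^ t * x ^ (t + 1) * y = (y * x) ^ (t + 1) := fun y x => by
          rw [mul_pow y x]
          ring
        rw [h8]
        congr 1
        field_simp
        ring
      have h8 : (4 * (K : ℝ)) ^ (t + 1) ≤ (4 * K) ^ g := by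
        refine pow_le_pow_right₀ ?_ htg
        have : (1 : ℝ) ≤ K := by exact_mod_cast hK
        linarith
      have h9 : ((t + 1 : ℕ) : ℝ) ≤ g := by exact_mod_cast htg
      calc ((t + 1 : ℕ) : ℝ) * (((2 * k : ℕ) : ℝ) ^ t * Fintype.card V)
            * q ^ (t + 1) * 2 ^ Fintype.card V
          = ((t + 1 : ℕ) : ℝ) * ((((2 * k : ℕ) : ℝ) ^ t) * q ^ (t + 1)) * Fintype.card V
            * 2 ^ Fintype.card V := by ring
        _ = ((t + 1 : ℕ) : ℝ) * ((4 * K) ^ (t + 1) / (2 * k)) * Fintype.card V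
            * 2 ^ Fintype.card V := by rw [h7]
        _ ≤ (g : ℝ) * ((4 * K) ^ g / k) * Fintype.card V * 2 ^ Fintype.card V := by
            have h10 : (4 * (K : ℝ)) ^ (t + 1) / (2 * k) ≤ (4 * K) ^ g / k := by
              refine div_le_div₀ (by positivity) h8 hk0 ?_
              linarith
            gcongr
        _ = _ := by ring
    refine (sum_le_sum h6).trans ?_
    rw [sum_const, Nat.card_Ico, nsmul_eq_mul]
    have h7 : ((g - 2 : ℕ) : ℝ) ≤ g := by exact_mod_cast Nat.sub_le g 2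
    have h8 : 0 ≤ (g : ℝ) * (4 * K) ^ g / k * Fintype.card V * 2 ^ Fintype.card V := by positivity
    calc ((g - 2 : ℕ) : ℝ) * ((g : ℝ) * (4 * K) ^ g / k * Fintype.card V * 2 ^ Fintype.card V)
        ≤ g * ((g : ℝ) * (4 * K) ^ g / k * Fintype.card V * 2 ^ Fintype.card V) :=
          mul_le_mul_of_nonneg_right h7 h8
      _ = _ := by ring
  refine exists_le_of_Ex h0 h1 ?_
  rw [Ex_add, Ex_smul]
  have h6 := mul_le_mul_of_nonneg_left h2 ha
  calc a * Ex q (fun C S => ∑ v, |(dgc (rg J C S) v : ℝ) - (K : ℝ) / k * dgc J v|)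
        + Ex q (fun C S => ((Zs J Lo g C S).card : ℝ))
      ≤ a * (5 / 2 * √(K : ℝ) * Fintype.card V * 2 ^ Fintype.card V)
        + (g : ℝ) ^ 2 * (4 * K) ^ g / k * Fintype.card V * 2 ^ Fintype.card V :=
        add_le_add h6 (h3.trans h5)
    _ = _ := by ring

end Pool.Agent.Work.MP_60abc6_co.DEL.TP

namespace Pool.Agent.Work.MP_60abc6_co.DEL

open Finset

variable {V : Type*} [Fintype V] [DecidableEq V]

open Classical in
/-- the number of neighbours of degree less than `b` -/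
noncomputable def dlow (G : SimpleGraph V) (b : ℕ) (v : V) : ℕ :=
  (univ.filter fun u => G.Adj v u ∧ dgc G u < b).card

/-- the prescribed degrees -/
noncomputable def kap (G : SimpleGraph V) (l k b : ℕ) (v : V) : ℕ :=
  if dgc G v < b then l else l * dlow G b v / k

/-- the edges with an end of degree less than `b` -/
def lowG (G : SimpleGraph V) (b : ℕ) : SimpleGraph V where
  Adj u v := G.Adj u v ∧ (dgc G u < b ∨ dgc G v < b)
  symm := ⟨fun _ _ h => ⟨h.1.symm, h.2.symm⟩⟩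
  loopless := ⟨fun u h => G.loopless.irrefl u h.1⟩

omit [DecidableEq V] in
lemma dgc_lowG_low {G : SimpleGraph V} {b : ℕ} {v : V} (hv : dgc G v < b) :
    dgc (lowG G b) v = dgc G v := by
  classical
  unfold dgc
  congr 1
  ext u
  simp only [mem_filter, mem_univ, true_and]
  exact ⟨fun h => h.1, fun h => ⟨h, Or.inl hv⟩⟩

omit [DecidableEq V] in
lemma dgc_lowG_hub {G : SimpleGraph V} {b : ℕ} {v : V} (hv : ¬ dgc G v < b) :
    dgc (lowG G b) v = dlow G b v := by
  classical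
  unfold dgc dlow
  congr 1
  ext u
  simp only [mem_filter, mem_univ, true_and]
  change (G.Adj v u ∧ (dgc G v < b ∨ dgc G u < b)) ↔ _
  constructor
  · rintro ⟨h1, h2 | h2⟩
    · exact absurd h2 hv
    · exact ⟨h1, h2⟩
  · rintro ⟨h1, h2⟩
    exact ⟨h1, Or.inr h2⟩

omit [DecidableEq V] in
lemma kap_close {G : SimpleGraph V} {l k b : ℕ} (hk : 0 < k) (hdeg : ∀ v, k ≤ dgc G v) (v : V) :
    |(kap G l k b v : ℝ) - (l : ℝ) / k * dgc (lowG G b) v|
      ≤ (if dgc G v < b then (l : ℝ) * (b - k) / k else 1) := by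
  have hk0 : (0 : ℝ) < k := by exact_mod_cast hk
  have hl0 : (0 : ℝ) ≤ l := Nat.cast_nonneg l
  unfold kap
  by_cases hv : dgc G v < b
  · rw [if_pos hv, if_pos hv, dgc_lowG_low hv]
    have h1 : (k : ℝ) ≤ dgc G v := by exact_mod_cast hdeg v
    have h2 : (dgc G v : ℝ) ≤ b := by exact_mod_cast hv.le
    have h3 : (l : ℝ) - l / k * dgc G v = -(l * (dgc G v - k) / k) := by
      field_simp
      ring
    rw [h3, abs_neg, abs_of_nonneg (div_nonneg (mul_nonneg hl0 (by linarith)) hk0.le)]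
    refine div_le_div_of_nonneg_right ?_ hk0.le
    exact mul_le_mul_of_nonneg_left (by linarith) hl0
  · rw [if_neg hv, if_neg hv, dgc_lowG_hub hv]
    obtain ⟨x, hx⟩ : ∃ x, x = l * dlow G b v := ⟨_, rfl⟩
    have h1 : (l : ℝ) / k * dlow G b v = (x : ℝ) / k := by
      rw [hx]
      push_cast
      ring
    rw [h1, ← hx]
    have h2 : ((x / k : ℕ) : ℝ) ≤ (x : ℝ) / k := Nat.cast_div_le
    have h3 : (x : ℝ) / k < ((x / k : ℕ) : ℝ) + 1 := by
      rw [div_lt_iff₀ hk0]
      have h4 := Nat.lt_div_mul_add (a := x) hk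
      have h5 : ((x / k : ℕ) : ℝ) * k + k = ((x / k * k + k : ℕ) : ℝ) := by push_cast; ring
      have h6 : (((x / k : ℕ) : ℝ) + 1) * k = ((x / k : ℕ) : ℝ) * k + k := by ring
      rw [h6, h5]
      exact_mod_cast h4
    rw [abs_le]
    constructor <;> linarith

/-- **The experiment of part T.** -/
theorem trand (G : SimpleGraph V) (l k K g b : ℕ) (hK : 1 ≤ K) (hKk : 2 * K < k) (hkb : k ≤ b)
    (hb : b ≤ 2 * k) (hdeg : ∀ v, k ≤ dgc G v) :
    ∃ (G' : SimpleGraph V) (c : V → Bool) (Z : Finset V), G' ≤ G ∧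
      (∀ u v, G'.Adj u v → c u ≠ c v) ∧
      (∀ u v, G'.Adj u v → dgc G u < b ∨ dgc G v < b) ∧
      3 * ∑ v, |(kap G l k b v : ℝ) - (l : ℝ) / K * dgc G' v| + Z.card
        ≤ 3 * (univ.filter fun v => ¬ dgc G v < b).card
          + (3 * l * (b - k) / k + 8 * l / √K + g ^ 2 * (4 * K) ^ g / k) * Fintype.card V ∧
      (∀ m, 3 ≤ m → m ≤ g → ∀ f : ZMod m → V, Function.Injective f →
        (∀ i, G'.Adj (f i) (f (i + 1))) →
        (∀ i j, ¬ dgc G (f i) < b → ¬ dgc G (f j) < b → i = j) →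
        ∀ i, dgc G (f i) < b → f i ∈ Z) := by
  classical
  have hK0 : (0 : ℝ) < K := by exact_mod_cast hK
  have hk : 0 < k := by omega
  have hk0 : (0 : ℝ) < k := by exact_mod_cast hk
  have hkb' : (k : ℝ) ≤ b := by exact_mod_cast hkb
  have hl0 : (0 : ℝ) ≤ l := Nat.cast_nonneg l
  obtain ⟨Lo, hLo⟩ : ∃ Lo : Finset V, Lo = univ.filter fun v => dgc G v < b := ⟨_, rfl⟩
  have hmem : ∀ v, v ∈ Lo ↔ dgc G v < b := by
    intro v
    rw [hLo, mem_filter]
    exact ⟨fun h => h.2, fun h => ⟨mem_univ _, h⟩⟩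
  obtain ⟨C, S, hCS⟩ := TP.experiment (lowG G b) Lo (K := K) (k := k) (g := g) hK hKk
    (fun u v h => by
      rw [hmem, hmem]
      exact h.2)
    (fun v hv => by
      rw [hmem] at hv
      rw [dgc_lowG_low hv]
      omega) (a := 3 * l / K) (by positivity)
  refine ⟨TP.rg (lowG G b) C S, fun v => decide (v ∈ C), TP.Zs (lowG G b) Lo g C S,
    fun u v h => h.1.1, ?_, fun u v h => h.1.2, ?_, ?_⟩
  · intro u v h hcon
    apply h.2.2
    simpa using hcon
  · have h1 : ∀ v, |(kap G l k b v : ℝ) - (l : ℝ) / K * dgc (TP.rg (lowG G b) C S) v|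
        ≤ (if dgc G v < b then (l : ℝ) * (b - k) / k else 1)
          + (l : ℝ) / K * |(dgc (TP.rg (lowG G b) C S) v : ℝ) - (K : ℝ) / k * dgc (lowG G b) v| := by
      intro v
      have h2 := kap_close (l := l) (b := b) hk hdeg v
      have h3 : (kap G l k b v : ℝ) - (l : ℝ) / K * dgc (TP.rg (lowG G b) C S) v
          = ((kap G l k b v : ℝ) - (l : ℝ) / k * dgc (lowG G b) v)
            - (l : ℝ) / K * ((dgc (TP.rg (lowG G b) C S) v : ℝ)
              - (K : ℝ) / k * dgc (lowG G b) v) := by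
        field_simp
        ring
      rw [h3]
      refine (abs_sub _ _).trans ?_
      rw [abs_mul, abs_of_nonneg (div_nonneg hl0 hK0.le)]
      linarith
    have h2 := sum_le_sum fun v (_ : v ∈ (univ : Finset V)) => h1 v
    rw [sum_add_distrib, ← mul_sum, sum_ite, sum_const, sum_const, nsmul_eq_mul, nsmul_eq_mul,
      mul_one] at h2
    have h3 : ((univ.filter fun v => dgc G v < b).card : ℝ) * ((l : ℝ) * (b - k) / k)
        ≤ Fintype.card V * ((l : ℝ) * (b - k) / k) := by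
      refine mul_le_mul_of_nonneg_right ?_ ?_
      · exact_mod_cast (card_le_univ _)
      · exact div_nonneg (mul_nonneg hl0 (by linarith)) hk0.le
    have h4 : 3 * (l : ℝ) / K * (5 / 2 * √(K : ℝ)) ≤ 8 * l / √(K : ℝ) := by
      have hs : 0 < √(K : ℝ) := Real.sqrt_pos.2 hK0
      have h5 : 3 * (l : ℝ) / K * (5 / 2 * √(K : ℝ)) = 15 / 2 * l / √(K : ℝ) := by
        have h6 : (K : ℝ) = √(K : ℝ) * √(K : ℝ) := (Real.mul_self_sqrt hK0.le).symm
        rw [eq_div_iff hs.ne']
        conv_lhs => rw [h6]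
        have h7 : √(√(K : ℝ) * √(K : ℝ)) = √(K : ℝ) := by rw [Real.sqrt_mul_self hs.le]
        rw [h7]
        field_simp
        ring
      rw [h5]
      refine div_le_div_of_nonneg_right ?_ hs.le
      linarith
    have h5 : (3 * (l : ℝ) / K * (5 / 2 * √(K : ℝ)) + (g : ℝ) ^ 2 * (4 * K) ^ g / k)
        * Fintype.card V
        ≤ (8 * l / √(K : ℝ) + (g : ℝ) ^ 2 * (4 * K) ^ g / k) * Fintype.card V :=
      mul_le_mul_of_nonneg_right (by linarith) (Nat.cast_nonneg _)
    have h6 : 3 * ((l : ℝ) / K * ∑ v, |(dgc (TP.rg (lowG G b) C S) v : ℝ)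
          - (K : ℝ) / k * dgc (lowG G b) v|)
        = 3 * (l : ℝ) / K * ∑ v, |(dgc (TP.rg (lowG G b) C S) v : ℝ)
          - (K : ℝ) / k * dgc (lowG G b) v| := by ring
    have h7 : (3 * (l : ℝ) * (b - k) / k + 8 * l / √K + g ^ 2 * (4 * K) ^ g / k) * Fintype.card V
        = 3 * (Fintype.card V * ((l : ℝ) * (b - k) / k))
          + (8 * l / √(K : ℝ) + (g : ℝ) ^ 2 * (4 * K) ^ g / k) * Fintype.card V := by ring
    rw [h7]
    linarith
  · intro m hm hmg f hf hadj hlow i _
    exact TP.mem_Zs hm hmg f hf hadj (fun i j hi hj => hlow i j (fun h => hi ((hmem _).2 h))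
      (fun h => hj ((hmem _).2 h))) i

end Pool.Agent.Work.MP_60abc6_co.DEL
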