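import Mathlib
import Pool.Agent.Work.MP_60abc6_co.EdgeB
import Pool.Agent.Work.MP_60abc6_co.Lam
import Pool.Agent.Work.MP_60abc6_co.DEL.BipFlow
import Pool.Agent.Work.MP_60abc6_co.DEL.ForestPin
import Pool.Agent.Work.MP_60abc6_co.DEL.TForest
import Pool.Agent.Work.MP_60abc6_co.DEL.TRand

set_option autoImplicit false

/-! The core of the case of fixed `l ≥ 2`: a spanning subgraph `F0` with about `l n / 2` edges, degrees
equal to `l` outside a small set of marked vertices, and no short cycle with at most one vertex outside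
the unmarked ones; every marked vertex is paid `c1` times. -/

namespace Pool.Agent.Work.MP_60abc6_co.DEL

open Finset

section

variable {V : Type*} [Fintype V] [DecidableEq V]

omit [DecidableEq V] in
lemma kap_low {G : SimpleGraph V} {l k b : ℕ} {v : V} (h : dgc G v < b) : kap G l k b v = l := by
  unfold kap
  rw [if_pos h]

omit [DecidableEq V] in
lemma dlow_le (G : SimpleGraph V) (b : ℕ) (v : V) : dlow G b v ≤ dgc G v := by
  classical
  unfold dlow dgc
  refine card_le_card fun u hu => ?_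
  rw [mem_filter] at hu ⊢
  exact ⟨hu.1, hu.2.1⟩

omit [DecidableEq V] in
/-- every vertex pays `k - l`, and a hub pays `8 c1` more -/
lemma kap_pay {G : SimpleGraph V} {l k b : ℕ} {c1 : ℝ} (hk : 0 < k) (hlk : 2 * l ≤ k)
    (hb : (k : ℝ) + 16 * c1 ≤ b) (hc : 0 ≤ c1) (hdeg : ∀ v, k ≤ dgc G v) (v : V) :
    (kap G l k b v : ℝ) + ((k : ℝ) - l) + (if dgc G v < b then 0 else 8 * c1) ≤ dgc G v := by
  by_cases h : dgc G v < b
  · rw [kap_low h, if_pos h]
    have : (k : ℝ) ≤ dgc G v := by exact_mod_cast hdeg v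
    linarith
  · rw [if_neg h]
    have hk' : (0 : ℝ) < k := by exact_mod_cast hk
    have h1 : (kap G l k b v : ℝ) ≤ l * dgc G v / k := by
      unfold kap
      rw [if_neg h]
      refine Nat.cast_div_le.trans ?_
      push_cast
      have h2 : (dlow G b v : ℝ) ≤ dgc G v := by exact_mod_cast dlow_le G b v
      gcongr
    have h2 : (k : ℝ) + 16 * c1 ≤ dgc G v := by
      refine hb.trans ?_
      push Not at h
      exact_mod_cast h
    have h3 : (2 : ℝ) * l ≤ k := by exact_mod_cast hlk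
    have h4 : (l : ℝ) * dgc G v / k + ((k : ℝ) - l) + 8 * c1 ≤ dgc G v := by
      rw [div_add' _ _ _ hk'.ne', div_add' _ _ _ hk'.ne', div_le_iff₀ hk']
      nlinarith [mul_le_mul_of_nonneg_right h2 (by linarith : (0 : ℝ) ≤ (k : ℝ) - l),
        mul_nonneg hc (by linarith : (0 : ℝ) ≤ (k : ℝ) - 2 * l)]
    linarith

/-- the deterministic part -/
theorem core_det (G : SimpleGraph V) {l k K g b : ℕ} {δ c1 : ℝ} (hlK : l ≤ K)
    (hK : 1 ≤ K) (hk : 0 < k) (hlk : 2 * l ≤ k) (hb : (k : ℝ) + 16 * c1 ≤ b) (hc : 0 ≤ c1)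
    (hdeg : ∀ v, k ≤ dgc G v) (G' : SimpleGraph V) (c : V → Bool) (Z : Finset V) (hG' : G' ≤ G)
    (hcol : ∀ u v, G'.Adj u v → c u ≠ c v)
    (hZ : 3 * ∑ v, |(kap G l k b v : ℝ) - (l : ℝ) / K * dgc G' v| + Z.card ≤
        3 * (univ.filter fun v => ¬ dgc G v < b).card + δ * Fintype.card V)
    (hcyc : ∀ m, 3 ≤ m → m ≤ g + 1 → ∀ f : ZMod m → V, Function.Injective f →
        (∀ i, G'.Adj (f i) (f (i + 1))) →
        (∀ i j, ¬ dgc G (f i) < b → ¬ dgc G (f j) < b → i = j) →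
        ∀ i, dgc G (f i) < b → f i ∈ Z) :
    ∃ (F0 : SimpleGraph V) (Mk : Finset V), F0 ≤ G ∧ (∀ v, v ∉ Mk → dgc F0 v = l) ∧
      (∀ m, 3 ≤ m → m ≤ g + 1 → ∀ f : ZMod m → V, Function.Injective f →
        (∀ i, F0.Adj (f i) (f (i + 1))) → ¬ ∃ i0, ∀ i, i ≠ i0 → f i ∉ Mk) ∧
      (ec F0 : ℝ) + c1 * Mk.card + ((k : ℝ) - l) / 2 * Fintype.card V ≤
        ec G + c1 * δ * Fintype.card V := by
  classical
  have hK' : (0 : ℝ) < K := by exact_mod_cast hK
  obtain ⟨F0, hF0, hF0deg, hF0ec⟩ := bip_flow G' c hcol (kap G l k b) ((l : ℝ) / K)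
    (∑ v, |(kap G l k b v : ℝ) - (l : ℝ) / K * dgc G' v|) (by positivity)
    (by
      rw [div_le_one hK']
      exact_mod_cast hlK) le_rfl
  set dev : ℝ := ∑ v, |(kap G l k b v : ℝ) - (l : ℝ) / K * dgc G' v| with hdev
  set hubs : Finset V := univ.filter fun v => ¬ dgc G v < b with hhubs
  set lows : Finset V := univ.filter fun v => dgc G v < b ∧ dgc F0 v < l with hlows
  set Mk : Finset V := hubs ∪ lows ∪ Z with hMk
  have hnot : ∀ v, v ∉ Mk → dgc G v < b ∧ l ≤ dgc F0 v ∧ v ∉ Z := by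
    intro v hv
    rw [hMk, mem_union, mem_union, hhubs, hlows, mem_filter, mem_filter] at hv
    push Not at hv
    have h1 := hv.1.1 (mem_univ _)
    exact ⟨h1, hv.1.2 (mem_univ _) h1, hv.2⟩
  have h2ec : (2 : ℝ) * ec F0 = ∑ v, (dgc F0 v : ℝ) := by
    have := two_mul_ec F0
    exact_mod_cast this
  have h2ecG : (2 : ℝ) * ec G = ∑ v, (dgc G v : ℝ) := by
    have := two_mul_ec G
    exact_mod_cast this
  refine ⟨F0, Mk, hF0.trans hG', ?_, ?_, ?_⟩
  · intro v hv
    obtain ⟨h1, h2, -⟩ := hnot v hv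
    have h3 := hF0deg v
    rw [kap_low h1] at h3
    omega
  · intro m hm3 hm f hf hcycle
    rintro ⟨i0, hi0⟩
    have hlow : ∀ i, i ≠ i0 → dgc G (f i) < b := fun i hi => (hnot _ (hi0 i hi)).1
    have hZf := hcyc m hm3 hm f hf (fun i => hF0 (hcycle i)) (by
      intro i j hi hj
      have h1 : i = i0 := by
        by_contra h
        exact hi (hlow i h)
      have h2 : j = i0 := by
        by_contra h
        exact hj (hlow j h)
      rw [h1, h2])
    have : Fact (1 < m) := ⟨by omega⟩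
    have h1 : i0 + 1 ≠ i0 := by
      intro h
      exact one_ne_zero (add_left_cancel (h.trans (add_zero i0).symm))
    exact (hnot _ (hi0 _ h1)).2.2 (hZf _ (hlow _ h1))
  · -- the number of marked vertices
    have h1 : (lows.card : ℝ) ≤ 3 * dev := by
      have h2 : (lows.card : ℝ) ≤ ∑ v, ((kap G l k b v : ℝ) - dgc F0 v) := by
        rw [card_eq_sum_ones]
        push_cast
        refine (sum_le_sum (f := fun _ => (1 : ℝ))
          (g := fun v => (kap G l k b v : ℝ) - dgc F0 v) fun v hv => ?_).trans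
          (sum_le_sum_of_subset_of_nonneg (subset_univ _) fun v _ _ => ?_)
        · rw [hlows, mem_filter] at hv
          rw [kap_low hv.2.1]
          have : (dgc F0 v : ℝ) + 1 ≤ l := by exact_mod_cast hv.2.2
          linarith
        · have : (dgc F0 v : ℝ) ≤ kap G l k b v := by exact_mod_cast hF0deg v
          linarith
      rw [sum_sub_distrib] at h2
      linarith
    have h3 : (Mk.card : ℝ) ≤ hubs.card + lows.card + Z.card := by
      have h4 : Mk.card ≤ hubs.card + lows.card + Z.card :=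
        (card_union_le _ _).trans (Nat.add_le_add_right (card_union_le _ _) _)
      exact_mod_cast h4
    have h4 : (Mk.card : ℝ) ≤ 4 * hubs.card + δ * Fintype.card V := by linarith
    -- the payments
    have h5 : ∑ v, (kap G l k b v : ℝ) + ((k : ℝ) - l) * Fintype.card V + 8 * c1 * hubs.card ≤
        2 * ec G := by
      rw [h2ecG]
      have h6 : ∑ v, ((kap G l k b v : ℝ) + ((k : ℝ) - l) +
          (if dgc G v < b then 0 else 8 * c1)) ≤ ∑ v, (dgc G v : ℝ) :=
        sum_le_sum fun v _ => kap_pay hk hlk hb hc hdeg v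
      rw [sum_add_distrib, sum_add_distrib, sum_const, card_univ, nsmul_eq_mul] at h6
      have h7 : ∑ v, (if dgc G v < b then (0 : ℝ) else 8 * c1) = 8 * c1 * hubs.card := by
        rw [hhubs, card_filter]
        push_cast
        rw [mul_sum]
        refine sum_congr rfl fun v _ => ?_
        by_cases h : dgc G v < b <;> simp [h]
      rw [h7] at h6
      linarith
    have h6 : (2 : ℝ) * ec F0 ≤ ∑ v, (kap G l k b v : ℝ) := by
      rw [h2ec]
      exact sum_le_sum fun v _ => by exact_mod_cast hF0deg v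
    have h7 := mul_le_mul_of_nonneg_left h4 hc
    linarith

end

/-- the core, in terms of the cycles with at most one marked vertex -/
theorem core_cyc (l : ℕ) (hl : 2 ≤ l) (c1 : ℝ) (hc : 0 ≤ c1) (g : ℕ) (e : ℝ)
    (he : 0 < e) : ∃ k0 : ℕ, ∀ k ≥ k0, ∀ n > k, ∀ G : SimpleGraph (Fin n), (∀ v, k ≤ dgc G v) →
      ∃ (F0 : SimpleGraph (Fin n)) (Mk : Finset (Fin n)), F0 ≤ G ∧
        (∀ v, v ∉ Mk → dgc F0 v = l) ∧
        (∀ m, 3 ≤ m → m ≤ g + 1 → ∀ f : ZMod m → Fin n, Function.Injective f →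
          (∀ i, F0.Adj (f i) (f (i + 1))) → ¬ ∃ i0, ∀ i, i ≠ i0 → f i ∉ Mk) ∧
        (ec F0 : ℝ) + c1 * Mk.card + ((k : ℝ) - l) / 2 * n ≤ ec G + e * n := by
  have hl' : (0 : ℝ) < l := by exact_mod_cast (by omega : 0 < l)
  obtain ⟨H, hH⟩ := exists_nat_ge (16 * c1)
  set δ : ℝ := e / (c1 + 1) with hδ
  have hδ0 : 0 < δ := by positivity
  have hcδ : c1 * δ ≤ e := by
    rw [hδ, mul_div_assoc', div_le_iff₀ (by positivity)]
    nlinarith
  obtain ⟨K0, hK0⟩ := exists_nat_ge ((24 * l / δ) ^ 2)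
  set K : ℕ := max K0 l with hK
  have hlK : l ≤ K := le_max_right _ _
  have hK1 : 1 ≤ K := le_trans (by omega) hlK
  have hKr : (24 * l / δ) ^ 2 ≤ (K : ℝ) := hK0.trans (by exact_mod_cast le_max_left _ _)
  obtain ⟨k1, hk1⟩ := exists_nat_ge (9 * l * H / δ)
  obtain ⟨k2, hk2⟩ := exists_nat_ge (3 * (((g + 1 : ℕ) : ℝ) ^ 2 * (4 * K) ^ (g + 1)) / δ)
  refine ⟨k1 + k2 + 2 * K + 1 + H + 2 * l, fun k hk n hn G hdeg => ?_⟩
  have hk0 : 0 < k := by omega
  have hk' : (0 : ℝ) < k := by exact_mod_cast hk0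
  obtain ⟨G', c, Z, h1, h2, -, h4, h5⟩ := trand G l k K (g + 1) (k + H) hK1 (by omega) (by omega)
    (by omega) hdeg
  have hbr : (k : ℝ) + 16 * c1 ≤ ((k + H : ℕ) : ℝ) := by
    push_cast
    linarith
  have hδ' : 3 * l * (((k + H : ℕ) : ℝ) - k) / k + 8 * l / √K +
      (((g + 1 : ℕ) : ℝ)) ^ 2 * (4 * K) ^ (g + 1) / k ≤ δ := by
    have e1 : 3 * l * (((k + H : ℕ) : ℝ) - k) / k ≤ δ / 3 := by
      rw [div_le_iff₀ hk']
      push_cast
      have h6 : (k1 : ℝ) ≤ k := by exact_mod_cast (by omega : k1 ≤ k)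
      have h7 := hk1.trans h6
      rw [div_le_iff₀ hδ0] at h7
      nlinarith
    have e2 : 8 * l / √K ≤ δ / 3 := by
      have hKpos : (0 : ℝ) < √K := by
        rw [Real.sqrt_pos]
        exact_mod_cast hK1
      have h6 : 24 * l / δ ≤ √K := by
        rw [show 24 * (l : ℝ) / δ = √((24 * l / δ) ^ 2) from
          (Real.sqrt_sq (by positivity)).symm]
        exact Real.sqrt_le_sqrt hKr
      rw [div_le_iff₀ hKpos]
      rw [div_le_iff₀ hδ0] at h6
      linarith
    have e3 : (((g + 1 : ℕ) : ℝ)) ^ 2 * (4 * K) ^ (g + 1) / k ≤ δ / 3 := by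
      rw [div_le_iff₀ hk']
      have h6 : (k2 : ℝ) ≤ k := by exact_mod_cast (by omega : k2 ≤ k)
      have h7 := hk2.trans h6
      rw [div_le_iff₀ hδ0] at h7
      linarith
    linarith
  obtain ⟨F0, Mk, h6, h7, h8, h9⟩ := core_det G (δ := δ) (c1 := c1) (g := g) hlK hK1 hk0 (by omega)
    hbr hc hdeg G' c Z h1 h2
    (h4.trans (by
      have : (0 : ℝ) ≤ Fintype.card (Fin n) := Nat.cast_nonneg _
      nlinarith [mul_le_mul_of_nonneg_right hδ' this])) h5
  rw [Fintype.card_fin] at h9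
  refine ⟨F0, Mk, h6, h7, h8, h9.trans ?_⟩
  have : (0 : ℝ) ≤ n := Nat.cast_nonneg _
  nlinarith [mul_le_mul_of_nonneg_right hcδ this]

/-- the core, in terms of the number of edges inside small sets -/
theorem core_t (l : ℕ) (hl : 2 ≤ l) (c1 : ℝ) (hc : 0 ≤ c1) (g : ℕ) (_hg : 1 ≤ g) (e : ℝ)
    (he : 0 < e) : ∃ k0 : ℕ, ∀ k ≥ k0, ∀ n > k, ∀ G : SimpleGraph (Fin n), (∀ v, k ≤ dgc G v) →
      ∃ (F0 : SimpleGraph (Fin n)) (Mk : Finset (Fin n)), F0 ≤ G ∧
        (∀ v, v ∉ Mk → dgc F0 v = l) ∧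
        (∀ (S : Finset (Fin n)) (y : Fin n), Disjoint S Mk → S.card ≤ g → S.Nonempty →
          pin F0 (insert y S) + 2 ≤ 2 * (insert y S).card) ∧
        (ec F0 : ℝ) + c1 * Mk.card + ((k : ℝ) - l) / 2 * n ≤ ec G + e * n := by
  obtain ⟨k0, hk0⟩ := core_cyc l hl c1 hc g e he
  refine ⟨k0, fun k hk n hn G hdeg => ?_⟩
  obtain ⟨F0, Mk, h1, h2, h3, h4⟩ := hk0 k hk n hn G hdeg
  refine ⟨F0, Mk, h1, h2, fun S y hS hSg hSne => ?_, h4⟩
  refine forest_pin F0 (insert y S) (insert_nonempty _ _) ?_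
  intro m hm3 hm f hf hfS hcycle
  have hm' : m ≤ g + 1 := hm.trans ((card_insert_le _ _).trans (by omega))
  refine h3 m hm3 hm' f hf hcycle ?_
  have hmem : ∀ i, f i = y ∨ f i ∈ S := fun i => mem_insert.mp (hfS i)
  by_cases hy : ∃ i0, f i0 = y
  · obtain ⟨i0, hi0⟩ := hy
    refine ⟨i0, fun i hi => ?_⟩
    rcases hmem i with h5 | h5
    · exact absurd (hf (h5.trans hi0.symm)) hi
    · exact disjoint_left.mp hS h5
  · push Not at hy
    exact ⟨0, fun i _ => disjoint_left.mp hS ((hmem i).resolve_left (hy i))⟩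

open Classical in
/-- the core, in terms of the outer neighbours of small connected sets -/
theorem coreT (l : ℕ) (hl : 2 ≤ l) (c1 : ℝ) (g : ℕ) (e : ℝ) (he : 0 < e) :
    ∃ k0 : ℕ, ∀ k ≥ k0, ∀ n > k, ∀ G : SimpleGraph (Fin n), (∀ v, k ≤ dgc G v) →
      ∃ (F0 : SimpleGraph (Fin n)) (Mk : Finset (Fin n)), F0 ≤ G ∧
        (∀ v, v ∉ Mk → dgc F0 v = l) ∧
        (∀ C : Finset (Fin n), C.Nonempty → Disjoint C Mk → C.card < g →
          (F0.induce (C : Set (Fin n))).Connected →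
          l ≤ (univ.filter fun y => y ∉ C ∧ ∃ v ∈ C, F0.Adj v y).card) ∧
        (ec F0 : ℝ) + c1 * Mk.card + ((k : ℝ) - l) / 2 * n ≤ ec G + e * n := by
  obtain ⟨k0, hk0⟩ := core_cyc l hl (max c1 0) (le_max_right _ _) g e he
  refine ⟨k0, fun k hk n hn G hdeg => ?_⟩
  obtain ⟨F0, Mk, h1, h2, h3, h4⟩ := hk0 k hk n hn G hdeg
  refine ⟨F0, Mk, h1, h2, fun C hC hCM hCg hconn => ?_, ?_⟩
  · have h5 := forest_out F0 C l hl hC hconn (fun v hv => h2 v (disjoint_left.mp hCM hv)) (by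
      intro m hm3 hm f hf hcycle
      rintro ⟨i0, hi0⟩
      exact h3 m hm3 (by omega) f hf hcycle ⟨i0, fun i hi => disjoint_left.mp hCM (hi0 i hi)⟩)
    convert h5
  · have h5 : c1 * (Mk.card : ℝ) ≤ max c1 0 * Mk.card :=
      mul_le_mul_of_nonneg_right (le_max_left _ _) (Nat.cast_nonneg _)
    linarith

end Pool.Agent.Work.MP_60abc6_co.DEL
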