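import Pool.Agent.Work.MP_60abc6_co.Bounds
import Pool.Agent.Work.MP_60abc6_co.Conv

set_option autoImplicit false

/-! The critical edges between vertices of large degree form a forest; the number of edges of a
minimally `k`-connected graph. -/

namespace Pool.Agent.Work.MP_60abc6_co.DEL

open Finset

variable {V : Type*} [Fintype V] [DecidableEq V]

/-- the `l`-critical edges between vertices of degree more than `l` -/
def cg (l : ℕ) (H : SimpleGraph V) : SimpleGraph V where
  Adj u v := H.Adj u v ∧ l < dgc H u ∧ l < dgc H v ∧ ¬ KC l (H.deleteEdges {s(u, v)})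
  symm := ⟨fun u v h => ⟨h.1.symm, h.2.2.1, h.2.1, by rw [Sym2.eq_swap]; exact h.2.2.2⟩⟩
  loopless := ⟨fun u h => H.loopless.irrefl u h.1⟩

lemma prs_eq_two_mul_ec (J : SimpleGraph V) : prs J.Adj univ = 2 * ec J := by
  rw [two_mul_ec, ← sum_nbr]
  rfl

/-- **Mader**: these edges form a forest -/
theorem ec_cg_le {l : ℕ} {H : SimpleGraph V} (hH : KC l H) : ec (cg l H) ≤ Fintype.card V := by
  classical
  have hne : (univ : Finset V).Nonempty := by
    rw [← card_pos, card_univ]
    have := hH.1
    omega
  have h1 := forest_count (cg l H).Adj (fun v h => (cg l H).loopless.irrefl v h)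
    (fun u v h => SimpleGraph.Adj.symm h) univ (by
      intro C _ hC
      by_contra hcon
      push Not at hcon
      refine mader_core hH (cg l H).Adj (fun x y h => h.1)
        (fun x y h => exists_MSep hH h.1 h.2.2.2) C hC (fun v hv => ?_) (fun v hv => ?_)
      · have h2 := hcon v hv
        unfold nbr at h2
        obtain ⟨a, ha, b, hb, hab⟩ := one_lt_card.mp h2
        simp only [mem_filter] at ha hb
        exact ⟨a, ha.1, b, hb.1, hab, ha.2, hb.2⟩
      · have h2 := hcon v hv
        unfold nbr at h2
        obtain ⟨a, ha, -⟩ := one_lt_card.mp h2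
        simp only [mem_filter] at ha
        have h3 := ha.2.2.1
        unfold dgc at h3
        convert h3) univ (subset_univ _) hne
  rw [prs_eq_two_mul_ec, card_univ] at h1
  omega

/-- the number of edges of a minimally `k`-connected graph -/
theorem ec_minimal_le {k : ℕ} {G : SimpleGraph V} (hG : KC k G)
    (hmin : ∀ x y, G.Adj x y → ¬ KC k (G.deleteEdges {s(x, y)})) :
    ec G ≤ (k + 1) * Fintype.card V := by
  classical
  have h1 := prs_eq_two_mul_ec G
  have h2 := prs_eq_two_mul_ec (cg k G)
  have h3 := ec_cg_le hG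
  obtain ⟨D, hD⟩ : ∃ D : Finset V, D = univ.filter fun v => dgc G v ≤ k := ⟨_, rfl⟩
  have hmem : ∀ v, v ∈ D ↔ dgc G v ≤ k := by
    intro v
    rw [hD, mem_filter]
    exact ⟨fun h => h.2, fun h => ⟨mem_univ _, h⟩⟩
  have h4 : prs G.Adj univ ≤ prs (cg k G).Adj univ + (k * D.card + k * D.card) := by
    have hsub : (univ ×ˢ univ : Finset (V × V)).filter (fun p => G.Adj p.1 p.2) ⊆
        ((univ ×ˢ univ : Finset (V × V)).filter fun p => (cg k G).Adj p.1 p.2) ∪
        ((D ×ˢ univ : Finset (V × V)).filter (fun p => G.Adj p.1 p.2) ∪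
          (univ ×ˢ D : Finset (V × V)).filter (fun p => G.Adj p.1 p.2)) := by
      rintro ⟨u, v⟩ hp
      simp only [mem_filter, mem_product, mem_univ, true_and, mem_union] at hp ⊢
      by_cases hu : u ∈ D
      · exact Or.inr (Or.inl ⟨⟨hu, trivial⟩, hp⟩)
      · by_cases hv : v ∈ D
        · exact Or.inr (Or.inr ⟨hv, hp⟩)
        · rw [hmem, not_le] at hu hv
          exact Or.inl ⟨hp, hu, hv, hmin u v hp⟩
    have e1 : ((D ×ˢ univ : Finset (V × V)).filter (fun p => G.Adj p.1 p.2)).card ≤ k * D.card := by
      rw [card_filter, sum_product]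
      calc ∑ x ∈ D, ∑ y, (if G.Adj x y then 1 else 0) ≤ ∑ _x ∈ D, k := by
            refine sum_le_sum fun x hx => ?_
            rw [← card_filter]
            have := (hmem x).1 hx
            unfold dgc at this
            convert this
        _ = k * D.card := by rw [sum_const, smul_eq_mul, mul_comm]
    have e2 : ((univ ×ˢ D : Finset (V × V)).filter (fun p => G.Adj p.1 p.2)).card
        = ((D ×ˢ univ : Finset (V × V)).filter (fun p => G.Adj p.1 p.2)).card := by
      refine card_bij (fun p _ => (p.2, p.1)) ?_ ?_ ?_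
      · rintro ⟨u, v⟩ hp
        simp only [mem_filter, mem_product, mem_univ, true_and, and_true] at hp ⊢
        exact ⟨hp.1, hp.2.symm⟩
      · rintro ⟨u, v⟩ _ ⟨u', v'⟩ _ h
        simp only [Prod.mk.injEq] at h
        exact Prod.ext h.2 h.1
      · rintro ⟨u, v⟩ hp
        simp only [mem_filter, mem_product, mem_univ, true_and, and_true] at hp
        refine ⟨(v, u), ?_, rfl⟩
        simp only [mem_filter, mem_product, mem_univ, true_and]
        exact ⟨hp.1, hp.2.symm⟩
    have e3 := (card_le_card hsub).trans (card_union_le _ _)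
    have e4 := card_union_le ((D ×ˢ univ : Finset (V × V)).filter (fun p => G.Adj p.1 p.2))
      ((univ ×ˢ D : Finset (V × V)).filter (fun p => G.Adj p.1 p.2))
    have e5 : prs G.Adj univ = ((univ ×ˢ univ : Finset (V × V)).filter
        (fun p => G.Adj p.1 p.2)).card := by
      unfold prs
      convert rfl
    have e6 : prs (cg k G).Adj univ = ((univ ×ˢ univ : Finset (V × V)).filter
        (fun p => (cg k G).Adj p.1 p.2)).card := by
      unfold prs
      convert rfl
    rw [e5, e6]
    omega
  have h5 : D.card ≤ Fintype.card V := card_le_univ D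
  have h6 : k * D.card ≤ k * Fintype.card V := Nat.mul_le_mul_left _ h5
  have h7 : (k + 1) * Fintype.card V = k * Fintype.card V + Fintype.card V := by ring
  omega

end Pool.Agent.Work.MP_60abc6_co.DEL
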