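import Pool.Agent.Work.MP_60abc6_co.DEL.TExp
import Pool.Agent.Work.MP_60abc6_co.DEL.DCrit

set_option autoImplicit false

/-! A random sparse set of edges such that no subset of it makes many others critical. -/

namespace Pool.Agent.Work.MP_60abc6_co.DEL

open Finset

variable {V : Type*} [Fintype V] [DecidableEq V]

open Classical in
/-- the `m`-sets of critical edges after the deletion of `R` -/
noncomputable def Yset (G : SimpleGraph V) (l m : ℕ) (R : Finset (Sym2 V)) :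
    Finset (Finset (Sym2 V)) :=
  if KC l (G.deleteEdges (R : Set (Sym2 V))) then
    ((cg l (G.deleteEdges (R : Set (Sym2 V)))).edgeSet.toFinset).powersetCard m
  else ∅

lemma card_Yset (G : SimpleGraph V) (l m : ℕ) (R : Finset (Sym2 V)) :
    (Yset G l m R).card ≤ 2 ^ Fintype.card V := by
  classical
  unfold Yset
  split_ifs with h
  · refine (card_le_card (fun Y hY => mem_powerset.2 (mem_powersetCard.1 hY).1)).trans
      (card_powerset _).le |>.trans ?_
    refine pow_le_pow_right₀ (by norm_num) ?_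
    have h1 := ec_cg_le h
    unfold ec at h1
    rw [Set.ncard_eq_toFinset_card'] at h1
    exact h1
  · simp

lemma mem_Yset {G : SimpleGraph V} {l m : ℕ} {R Y : Finset (Sym2 V)} :
    Y ∈ Yset G l m R ↔ KC l (G.deleteEdges (R : Set (Sym2 V))) ∧
      (Y : Set (Sym2 V)) ⊆ (cg l (G.deleteEdges (R : Set (Sym2 V)))).edgeSet ∧ Y.card = m := by
  classical
  unfold Yset
  split_ifs with h
  · rw [mem_powersetCard]
    constructor
    · rintro ⟨h1, h2⟩
      exact ⟨h, fun e he => Set.mem_toFinset.1 (h1 he), h2⟩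
    · rintro ⟨-, h1, h2⟩
      exact ⟨fun e he => Set.mem_toFinset.2 (h1 he), h2⟩
  · simp [h]

lemma disj_Yset {G : SimpleGraph V} {l m : ℕ} {R Y : Finset (Sym2 V)} (h : Y ∈ Yset G l m R) :
    (R ∪ Y).card = R.card + m := by
  rw [mem_Yset] at h
  rw [card_union_of_disjoint, h.2.2]
  rw [disjoint_left]
  intro e he he'
  have h1 := h.2.1 he'
  induction e using Sym2.ind with
  | _ u v =>
    have h2 : (G.deleteEdges (R : Set (Sym2 V))).Adj u v := h1.1
    rw [SimpleGraph.deleteEdges_adj] at h2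
    exact h2.2 he

/-- the number of bad pairs -/
noncomputable def Bd (G : SimpleGraph V) (l m : ℕ) (E : Finset (Sym2 V)) (S : Finset (Sym2 V)) : ℝ :=
  ∑ R ∈ E.powerset, ∑ Y ∈ Yset G l m R, if R ∪ Y ⊆ S then 1 else 0

lemma Ex_Bd {q : ℝ} (h0 : 0 < q) (G : SimpleGraph V) (l m : ℕ) (E : Finset (Sym2 V)) :
    TP.Ex q (fun (_ : Finset V) S => Bd G l m E S)
      ≤ (1 + q) ^ E.card * 2 ^ Fintype.card V * q ^ m * 2 ^ Fintype.card V := by
  unfold Bd
  rw [TP.Ex_sum]
  have h1 : ∀ R ∈ E.powerset, TP.Ex q (fun (_ : Finset V) (S : Finset (Sym2 V)) =>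
      ∑ Y ∈ Yset G l m R, (if R ∪ Y ⊆ S then (1 : ℝ) else 0))
      ≤ q ^ R.card * (2 ^ Fintype.card V * q ^ m * 2 ^ Fintype.card V) := by
    intro R _
    rw [TP.Ex_sum]
    have h2 : ∀ Y ∈ Yset G l m R, TP.Ex q (fun (_ : Finset V) (S : Finset (Sym2 V)) =>
        (if R ∪ Y ⊆ S then (1 : ℝ) else 0)) = q ^ (R.card + m) * 2 ^ Fintype.card V := by
      intro Y hY
      unfold TP.Ex
      have h3 : ∑ S : Finset (Sym2 V), TP.wt q S * (if R ∪ Y ⊆ S then (1 : ℝ) else 0)
          = q ^ (R.card + m) := by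
        rw [← disj_Yset hY, ← TP.sum_wt_subset q (R ∪ Y)]
        refine sum_congr rfl fun S _ => ?_
        split_ifs <;> simp
      rw [sum_congr rfl fun C _ => h3]
      simp
      ring
    rw [sum_congr rfl h2, sum_const, nsmul_eq_mul]
    have h3 : ((Yset G l m R).card : ℝ) ≤ 2 ^ Fintype.card V := by
      exact_mod_cast card_Yset G l m R
    calc ((Yset G l m R).card : ℝ) * (q ^ (R.card + m) * 2 ^ Fintype.card V)
        ≤ 2 ^ Fintype.card V * (q ^ (R.card + m) * 2 ^ Fintype.card V) :=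
          mul_le_mul_of_nonneg_right h3 (by positivity)
      _ = _ := by
          rw [pow_add]
          ring
  refine (sum_le_sum h1).trans (le_of_eq ?_)
  rw [← sum_mul]
  have h2 : ∑ R ∈ E.powerset, q ^ R.card = (1 + q) ^ E.card := by
    have h3 := sum_pow_mul_eq_add_pow q (1 : ℝ) E
    simp only [one_pow, mul_one] at h3
    rw [h3, add_comm]
  rw [h2]
  ring

lemma Ex_dev_all {q t : ℝ} (h0 : 0 < q) (h1 : q < 1) (ht : 0 < t) (J : SimpleGraph V) {D : ℝ}
    (hD : (2 * ec J : ℝ) ≤ D * Fintype.card V) :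
    TP.Ex q (fun C S => ∑ v, |(dgc (TP.rg J C S) v : ℝ) - q / 2 * dgc J v|)
      ≤ (q / 2 * D / t + t) / 2 * Fintype.card V * 2 ^ Fintype.card V := by
  rw [TP.Ex_sum]
  refine (sum_le_sum fun v _ => TP.Ex_rg h0 h1 ht J v).trans ?_
  rw [← sum_mul]
  refine mul_le_mul_of_nonneg_right ?_ (by positivity)
  rw [← sum_div, sum_add_distrib, sum_const, card_univ, nsmul_eq_mul, ← sum_div, ← mul_sum]
  have h2 : (∑ v, (dgc J v : ℝ)) = 2 * ec J := by
    have := two_mul_ec J
    exact_mod_cast this.symm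
  rw [h2]
  have h4 : q / 2 * (2 * ec J : ℝ) / t ≤ q / 2 * (D * Fintype.card V) / t := by
    refine div_le_div_of_nonneg_right ?_ ht.le
    exact mul_le_mul_of_nonneg_left hD (by positivity)
  have h5 : (q / 2 * D / t + t) / 2 * Fintype.card V
      = (q / 2 * (D * Fintype.card V) / t + Fintype.card V * t) / 2 := by ring
  rw [h5]
  linarith

/-- **The experiment.** -/
theorem dexp [Nonempty V] (G : SimpleGraph V) (l k K m : ℕ) (hK : 1 ≤ K) (hKk : 2 * K < k)
    (hec : ec G ≤ 2 * k * Fintype.card V)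
    (hq : 4 * (1 + 2 * (K : ℝ) / k) ^ (ec G) * 2 ^ (Fintype.card V) * (2 * (K : ℝ) / k) ^ m ≤ 1) :
    ∃ (C : Finset V) (S : Finset (Sym2 V)),
      ∑ v, |(dgc (TP.rg G C S) v : ℝ) - (K : ℝ) / k * dgc G v| ≤ 12 * √K * Fintype.card V ∧
      ∀ R Y : Finset (Sym2 V), (R : Set (Sym2 V)) ⊆ G.edgeSet → R ⊆ S → Y ⊆ S →
        KC l (G.deleteEdges (R : Set (Sym2 V))) →
        (Y : Set (Sym2 V)) ⊆ (cg l (G.deleteEdges (R : Set (Sym2 V)))).edgeSet → Y.card < m := by
  classical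
  have hK0 : (0 : ℝ) < K := by exact_mod_cast hK
  have hk0 : (0 : ℝ) < k := by exact_mod_cast (by omega : 0 < k)
  have hKk' : 2 * (K : ℝ) < k := by exact_mod_cast hKk
  have hn0 : (0 : ℝ) < Fintype.card V := by exact_mod_cast Fintype.card_pos
  obtain ⟨q, hqd⟩ : ∃ q : ℝ, q = 2 * K / k := ⟨_, rfl⟩
  have h0 : 0 < q := by rw [hqd]; positivity
  have h1 : q < 1 := by rw [hqd, div_lt_one hk0]; exact hKk'
  have hs : 0 < √(K : ℝ) := Real.sqrt_pos.2 hK0
  have hq2 : q / 2 = (K : ℝ) / k := by rw [hqd]; ring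
  obtain ⟨E, hE⟩ : ∃ E : Finset (Sym2 V), E = G.edgeSet.toFinset := ⟨_, rfl⟩
  have hEc : E.card = ec G := by
    unfold ec
    rw [Set.ncard_eq_toFinset_card', hE]
  have h2 := Ex_dev_all h0 h1 hs G (D := 4 * k) (by
    have : (ec G : ℝ) ≤ 2 * k * Fintype.card V := by exact_mod_cast hec
    linarith)
  have h3 := Ex_Bd h0 G l m E
  rw [hq2] at h2
  have h4 : ((K : ℝ) / k * (4 * k) / √(K : ℝ) + √(K : ℝ)) / 2 = 5 / 2 * √(K : ℝ) := by
    have h5 : (K : ℝ) / k * (4 * k) = 4 * (√(K : ℝ) * √(K : ℝ)) := by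
      rw [Real.mul_self_sqrt hK0.le]
      field_simp
    rw [h5]
    field_simp
    ring
  rw [h4] at h2
  rw [← hqd] at hq
  have h5 : (1 + q) ^ E.card * 2 ^ Fintype.card V * q ^ m ≤ 1 / 4 := by
    rw [hEc]
    linarith
  have h6 : TP.Ex q (fun (_ : Finset V) S => Bd G l m E S) ≤ 1 / 4 * 2 ^ Fintype.card V :=
    h3.trans (mul_le_mul_of_nonneg_right h5 (by positivity))
  obtain ⟨B, hB⟩ : ∃ B : ℝ, B = 12 * √K * Fintype.card V := ⟨_, rfl⟩
  have hB0 : 0 < B := by rw [hB]; positivity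
  obtain ⟨C, S, hCS⟩ : ∃ C S, ∑ v, |(dgc (TP.rg G C S) v : ℝ) - (K : ℝ) / k * dgc G v|
      + B * Bd G l m E S ≤ 11 / 24 * B := by
    refine TP.exists_le_of_Ex h0 h1 ?_
    rw [TP.Ex_add, TP.Ex_smul]
    have h7 := mul_le_mul_of_nonneg_left h6 hB0.le
    have h8 : 5 / 2 * √(K : ℝ) * Fintype.card V * 2 ^ Fintype.card V
        = 5 / 24 * B * 2 ^ Fintype.card V := by
      rw [hB]
      ring
    rw [h8] at h2
    linarith
  have hdev0 : 0 ≤ ∑ v, |(dgc (TP.rg G C S) v : ℝ) - (K : ℝ) / k * dgc G v| :=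
    sum_nonneg fun v _ => abs_nonneg _
  have hBd0 : 0 ≤ Bd G l m E S := by
    unfold Bd
    exact sum_nonneg fun R _ => sum_nonneg fun Y _ => by split_ifs <;> norm_num
  have hBd1 : Bd G l m E S < 1 := by
    by_contra hcon
    push Not at hcon
    nlinarith
  refine ⟨C, S, ?_, fun R Y hRG hRS hYS hKC hYc => ?_⟩
  · have := mul_nonneg hB0.le hBd0
    rw [← hB]
    linarith
  · by_contra hcon
    push Not at hcon
    obtain ⟨Y', hY'Y, hY'm⟩ := exists_subset_card_eq hcon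
    have hR : R ∈ E.powerset := by
      rw [mem_powerset, hE]
      intro e he
      exact Set.mem_toFinset.2 (hRG he)
    have hY : Y' ∈ Yset G l m R := mem_Yset.2 ⟨hKC, fun e he => hYc (hY'Y he), hY'm⟩
    have h7 : (1 : ℝ) ≤ Bd G l m E S := by
      unfold Bd
      have h8 : ∀ R ∈ E.powerset, (0 : ℝ) ≤ ∑ Y ∈ Yset G l m R, (if R ∪ Y ⊆ S then (1 : ℝ) else 0) :=
        fun R _ => sum_nonneg fun Y _ => by split_ifs <;> norm_num
      refine le_trans ?_ (single_le_sum h8 hR)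
      have h9 : ∀ Y ∈ Yset G l m R, (0 : ℝ) ≤ (if R ∪ Y ⊆ S then (1 : ℝ) else 0) :=
        fun Y _ => by split_ifs <;> norm_num
      refine le_trans (le_of_eq ?_) (single_le_sum h9 hY)
      rw [if_pos (union_subset hRS (hY'Y.trans hYS))]
    linarith

end Pool.Agent.Work.MP_60abc6_co.DEL
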