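import Mathlib
import Pool.Agent.Work.MP_60abc6_co.Conv
import Pool.Agent.Work.MP_60abc6_co.DEL.Flow
import Pool.Agent.Work.MP_60abc6_co.DEL.BipFlow

set_option autoImplicit false

/-! The one-sided flow: a bipartite graph whose degrees are nearly proportional to the degrees of `G`
has a subgraph with degrees at most `⌈r d(v) / k⌉` and nearly `r n / 2` edges. -/

namespace Pool.Agent.Work.MP_60abc6_co.DEL

open Finset

section

variable {V : Type*} [Fintype V] [DecidableEq V]

/-- the graph of a set of arcs which start in one colour class -/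
lemma dflow_graph (J : SimpleGraph V) (c : V → Bool) (hc : ∀ u v, J.Adj u v → c u ≠ c v)
    (b0 : Bool) (F : Finset (V × V)) (hF : ∀ p ∈ F, J.Adj p.1 p.2 ∧ c p.1 = b0) :
    ∃ R : SimpleGraph V, R ≤ J ∧
      (∀ v, c v = b0 → dgc R v ≤ (F.filter fun e => e.1 = v).card) ∧
      (∀ v, c v ≠ b0 → dgc R v ≤ (F.filter fun e => e.2 = v).card) ∧ F.card ≤ ec R := by
  classical
  obtain ⟨Fg, hadj⟩ : ∃ Fg : SimpleGraph V, ∀ u v, Fg.Adj u v ↔ (u, v) ∈ F ∨ (v, u) ∈ F :=
    ⟨{ Adj := fun u v => (u, v) ∈ F ∨ (v, u) ∈ F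
       symm := ⟨fun u v h => h.symm⟩
       loopless := ⟨fun u h => by
        have h2 : (u, u) ∈ F := h.elim id id
        exact (hF _ h2).1.ne rfl⟩ }, fun u v => Iff.rfl⟩
  have hFcol : ∀ u v, (u, v) ∈ F → c u = b0 ∧ c v ≠ b0 := fun u v h => by
    have h1 := hF _ h
    refine ⟨h1.2, fun h2 => ?_⟩
    exact hc _ _ h1.1 (h1.2.trans h2.symm)
  refine ⟨Fg, ?_, ?_, ?_, ?_⟩
  · intro u v huv
    rw [hadj] at huv
    rcases huv with h | h
    · exact (hF _ h).1
    · exact (hF _ h).1.symm
  · intro v hv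
    unfold dgc
    refine card_le_card_of_injOn (fun u => (v, u)) ?_ ?_
    · intro u hu
      rw [mem_coe, mem_filter, hadj] at hu
      rw [mem_coe, mem_filter]
      refine ⟨?_, rfl⟩
      rcases hu.2 with h | h
      · exact h
      · exact absurd hv (hFcol _ _ h).2
    · intro u _ u' _ h
      exact (Prod.mk.inj h).2
  · intro v hv
    unfold dgc
    refine card_le_card_of_injOn (fun u => (u, v)) ?_ ?_
    · intro u hu
      rw [mem_coe, mem_filter, hadj] at hu
      rw [mem_coe, mem_filter]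
      refine ⟨?_, rfl⟩
      rcases hu.2 with h | h
      · exact absurd (hFcol _ _ h).1 hv
      · exact h
    · intro u _ u' _ h
      exact (Prod.mk.inj h).1
  · have h2 : 2 * F.card ≤ 2 * ec Fg := by
      rw [two_mul_ec, bipflow_sum_dgc Fg univ]
      have h4 : Disjoint F (F.image Prod.swap) := by
        rw [disjoint_left]
        rintro ⟨u, v⟩ hp hp'
        rw [mem_image] at hp'
        obtain ⟨⟨x, y⟩, hq, hqp⟩ := hp'
        simp only [Prod.swap_prod_mk, Prod.mk.injEq] at hqp
        obtain ⟨rfl, rfl⟩ := hqp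
        exact (hFcol _ _ hq).2 (hFcol _ _ hp).1
      have h5 : (F ∪ F.image Prod.swap).card = 2 * F.card := by
        rw [card_union_of_disjoint h4, card_image_of_injective _ Prod.swap_injective]
        ring
      rw [← h5]
      refine card_le_card ?_
      rintro ⟨u, v⟩ hp
      rw [mem_union, mem_image] at hp
      rw [mem_filter, hadj]
      refine ⟨mem_univ _, ?_, mem_univ _⟩
      rcases hp with h | ⟨⟨x, y⟩, h, h6⟩
      · exact Or.inl h
      · simp only [Prod.swap_prod_mk, Prod.mk.injEq] at h6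
        obtain ⟨rfl, rfl⟩ := h6
        exact Or.inr h
    omega

end

theorem dflow {V : Type*} [Fintype V] [DecidableEq V] (J G : SimpleGraph V) (c : V → Bool)
    (hc : ∀ u v, J.Adj u v → c u ≠ c v) (r k K : ℕ) (hrK : r ≤ K) (hK : 0 < K) (hk : 0 < k)
    (hdeg : ∀ v, k ≤ dgc G v) :
    ∃ R : SimpleGraph V, R ≤ J ∧ (∀ v, k * dgc R v < r * dgc G v + k) ∧
      (r : ℝ) / 2 * Fintype.card V ≤
        ec R + (r : ℝ) / K * ∑ v, |(dgc J v : ℝ) - (K : ℝ) / k * dgc G v| := by
  classical
  have hKr : (0 : ℝ) < K := by exact_mod_cast hK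
  have hkr : (0 : ℝ) < k := by exact_mod_cast hk
  have hrK' : (r : ℝ) / K ≤ 1 := by
    rw [div_le_one hKr]
    exact_mod_cast hrK
  have hrK0 : (0 : ℝ) ≤ (r : ℝ) / K := by positivity
  -- the larger colour class
  obtain ⟨b0, hb0⟩ : ∃ b0 : Bool, Fintype.card V ≤ 2 * (univ.filter fun v => c v = b0).card := by
    have h1 : (univ.filter fun v => c v = true).card + (univ.filter fun v => c v = false).card =
        Fintype.card V := by
      rw [← card_univ, ← card_filter_add_card_filter_not (s := (univ : Finset V))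
        (fun v => c v = true)]
      congr 2
      ext v
      simp
    rcases le_total (univ.filter fun v => c v = true).card (univ.filter fun v => c v = false).card
      with h | h
    · exact ⟨false, by omega⟩
    · exact ⟨true, by omega⟩
  set dv : V → ℝ := fun v => |(dgc J v : ℝ) - (K : ℝ) / k * dgc G v| with hdv
  set dev : ℝ := (r : ℝ) / K * ∑ v, dv v with hdev
  have hdv0 : ∀ v, 0 ≤ dv v := fun v => abs_nonneg _
  have hdev0 : 0 ≤ dev := mul_nonneg hrK0 (sum_nonneg fun v _ => hdv0 v)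
  set cap : V → ℕ := fun v => (r * dgc G v + k - 1) / k with hcap
  have hcap1 : ∀ v, k * cap v < r * dgc G v + k := by
    intro v
    have h1 : k * cap v ≤ r * dgc G v + k - 1 := Nat.mul_div_le _ _
    omega
  have hcap2 : ∀ v, (r : ℝ) / k * dgc G v ≤ cap v := by
    intro v
    have h1 : r * dgc G v ≤ k * cap v := by
      have h2 := Nat.lt_mul_div_succ (r * dgc G v + k - 1) hk
      have h3 : k * ((r * dgc G v + k - 1) / k + 1) = k * cap v + k := by
        rw [hcap]
        ring
      rw [h3] at h2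
      omega
    have h2 : (r : ℝ) * dgc G v ≤ k * cap v := by exact_mod_cast h1
    rw [div_mul_eq_mul_div, div_le_iff₀ hkr]
    linarith
  set E : Finset (V × V) := univ.filter fun p => J.Adj p.1 p.2 ∧ c p.1 = b0 with hE
  have hEc : ∀ p ∈ E, J.Adj p.1 p.2 ∧ c p.1 = b0 := by
    intro p hp
    rw [hE, mem_filter] at hp
    exact hp.2
  set a : V → ℕ := fun v => if c v = b0 then r else 0 with ha
  set b : V → ℕ := fun v => if c v ≠ b0 then cap v else 0 with hb
  have hcut : ∀ (A B : Finset V), ∑ v ∈ A, a v ≤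
      ∑ w ∈ B, b w + (E.filter fun e => e.1 ∈ A ∧ e.2 ∉ B).card + ⌊dev⌋₊ := by
    intro A B
    set A0 := A.filter (fun v => c v = b0) with hA0
    set B1 := B.filter (fun v => c v ≠ b0) with hB1
    have e1 : ∑ v ∈ A, a v = ∑ v ∈ A0, r := by
      rw [hA0, sum_filter]
    have e2 : ∑ v ∈ B, b v = ∑ v ∈ B1, cap v := by
      rw [hB1, sum_filter]
    rw [e1, e2]
    have hdisj : Disjoint A0 B1 := by
      rw [disjoint_left]
      intro v hv hv'
      rw [hA0, mem_filter] at hv
      rw [hB1, mem_filter] at hv'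
      exact hv'.2 hv.2
    have h1 : ∑ v ∈ A0, dv v + ∑ v ∈ B1, dv v ≤ ∑ v, dv v := by
      rw [← sum_union hdisj]
      exact sum_le_sum_of_subset_of_nonneg (subset_univ _) fun v _ _ => hdv0 v
    -- demands against degrees
    have h2 : ∑ v ∈ A0, (r : ℝ) ≤ (r : ℝ) / K * (∑ v ∈ A0, (dgc J v : ℝ) + ∑ v ∈ A0, dv v) := by
      rw [← sum_add_distrib, mul_sum]
      refine sum_le_sum fun v _ => ?_
      have h3 : (K : ℝ) / k * dgc G v ≤ dgc J v + dv v := by
        have := neg_abs_le ((dgc J v : ℝ) - (K : ℝ) / k * dgc G v)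
        simp only [hdv]
        linarith
      have h4 : (k : ℝ) ≤ dgc G v := by exact_mod_cast hdeg v
      have h5 : (r : ℝ) ≤ (r : ℝ) / K * ((K : ℝ) / k * dgc G v) := by
        have h6 : (r : ℝ) / K * ((K : ℝ) / k * dgc G v) = (r : ℝ) * (dgc G v / k) := by
          field_simp
        rw [h6]
        have h7 : 1 ≤ (dgc G v : ℝ) / k := by
          rw [le_div_iff₀ hkr]
          linarith
        nlinarith [(Nat.cast_nonneg r : (0 : ℝ) ≤ r)]
      exact h5.trans (mul_le_mul_of_nonneg_left h3 hrK0)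
    have h3 : (r : ℝ) / K * ∑ v ∈ B1, (dgc J v : ℝ) ≤
        ∑ v ∈ B1, (cap v : ℝ) + (r : ℝ) / K * ∑ v ∈ B1, dv v := by
      rw [mul_sum, mul_sum, ← sum_add_distrib]
      refine sum_le_sum fun v _ => ?_
      have h4 : (dgc J v : ℝ) ≤ (K : ℝ) / k * dgc G v + dv v := by
        have := le_abs_self ((dgc J v : ℝ) - (K : ℝ) / k * dgc G v)
        simp only [hdv]
        linarith
      have h5 : (r : ℝ) / K * ((K : ℝ) / k * dgc G v) = (r : ℝ) / k * dgc G v := by
        field_simp
      have h6 := mul_le_mul_of_nonneg_left h4 hrK0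
      rw [mul_add, h5] at h6
      linarith [hcap2 v]
    have h4 : ∑ v ∈ A0, (dgc J v : ℝ) ≤ ∑ v ∈ B1, (dgc J v : ℝ) +
        (E.filter fun e => e.1 ∈ A ∧ e.2 ∉ B).card := by
      rw [← Nat.cast_sum, ← Nat.cast_sum, bipflow_sum_dgc, bipflow_sum_dgc', ← Nat.cast_add,
        Nat.cast_le]
      refine (card_le_card fun p hp => ?_).trans (card_union_le _ _)
      rw [mem_filter, hA0, mem_filter] at hp
      rw [mem_union, mem_filter, hB1, mem_filter, mem_filter]
      have hpE : p ∈ E := by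
        rw [hE, mem_filter]
        exact ⟨mem_univ _, hp.2.1, hp.2.2.2⟩
      have hp2 : c p.2 ≠ b0 := fun h => hc _ _ hp.2.1 (hp.2.2.2.trans h.symm)
      by_cases hpB : p.2 ∈ B
      · left
        exact ⟨mem_univ _, hp.2.1, hpB, hp2⟩
      · right
        exact ⟨hpE, hp.2.2.1, hpB⟩
    have h5 : (∑ v ∈ A0, (r : ℝ)) -
        (∑ v ∈ B1, (cap v : ℝ) + (E.filter fun e => e.1 ∈ A ∧ e.2 ∉ B).card) ≤ dev := by
      have h7 : (0 : ℝ) ≤ ((E.filter fun e => e.1 ∈ A ∧ e.2 ∉ B).card : ℝ) := Nat.cast_nonneg _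
      have h8 := mul_le_mul_of_nonneg_left h4 hrK0
      have h9 := mul_le_mul_of_nonneg_right hrK' h7
      have h10 := mul_le_mul_of_nonneg_left h1 hrK0
      rw [hdev]
      rw [mul_add] at h2 h8 h10
      linarith
    have h8 : ((∑ v ∈ A0, r) - (∑ v ∈ B1, cap v +
          (E.filter fun e => e.1 ∈ A ∧ e.2 ∉ B).card) : ℕ) ≤ ⌊dev⌋₊ := by
      rw [Nat.le_floor_iff hdev0]
      rcases le_total (∑ v ∈ A0, r) (∑ v ∈ B1, cap v +
          (E.filter fun e => e.1 ∈ A ∧ e.2 ∉ B).card) with h9 | h9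
      · rw [Nat.sub_eq_zero_of_le h9]
        simpa using hdev0
      · rw [Nat.cast_sub h9]
        push_cast
        exact h5
    omega
  obtain ⟨F, hFE, hF1, hF2, hF3⟩ := flow_lemma E a b ⌊dev⌋₊ hcut
  obtain ⟨R, hRJ, hR1, hR2, hR3⟩ := dflow_graph J c hc b0 F (fun p hp => hEc p (hFE hp))
  refine ⟨R, hRJ, ?_, ?_⟩
  · intro v
    by_cases hv : c v = b0
    · have h1 := (hR1 v hv).trans (hF1 v)
      simp only [ha, hv, if_true] at h1
      have h2 : k * dgc R v ≤ k * r := Nat.mul_le_mul_left _ h1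
      have h3 : k * r ≤ r * dgc G v := by
        rw [mul_comm]
        exact Nat.mul_le_mul_left _ (hdeg v)
      omega
    · have h1 := (hR2 v hv).trans (hF2 v)
      simp only [hb, ne_eq, hv, not_false_eq_true, if_true] at h1
      exact lt_of_le_of_lt (Nat.mul_le_mul_left _ h1) (hcap1 v)
  · have h1 : ∑ v, a v = r * (univ.filter fun v => c v = b0).card := by
      simp only [ha]
      rw [← sum_filter, sum_const, smul_eq_mul, mul_comm]
    rw [h1] at hF3
    have h2 : ((r * (univ.filter fun v => c v = b0).card : ℕ) : ℝ) ≤ F.card + (⌊dev⌋₊ : ℕ) := by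
      exact_mod_cast hF3
    have h3 := Nat.floor_le hdev0
    have h4 : (Fintype.card V : ℝ) ≤ 2 * (univ.filter fun v => c v = b0).card := by
      exact_mod_cast hb0
    have h5 : (F.card : ℝ) ≤ ec R := by exact_mod_cast hR3
    push_cast at h2
    have h6 : (r : ℝ) / 2 * Fintype.card V ≤ r * (univ.filter fun v => c v = b0).card := by
      nlinarith [(Nat.cast_nonneg r : (0 : ℝ) ≤ r)]
    linarith

end Pool.Agent.Work.MP_60abc6_co.DEL
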