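import Pool.Agent.Work.MP_60abc6_co.DEL.Count
import Pool.Agent.Work.MP_60abc6_co.DEL.Par

/-! U1 (c): the count in the bipartite double cover. -/

set_option autoImplicit false

namespace Pool.Agent.Work.MP_60abc6_co.DEL

open Finset

/-- the bipartite double cover -/
def dbl {V : Type*} (G : SimpleGraph V) : SimpleGraph (V ⊕ V) where
  Adj a b := match a, b with
    | Sum.inl u, Sum.inr v => G.Adj u v
    | Sum.inr v, Sum.inl u => G.Adj u v
    | _, _ => False
  symm := ⟨fun a b h => by
    rcases a with a | a <;> rcases b with b | b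
    · exact h
    · exact h
    · exact h
    · exact h⟩
  loopless := ⟨fun a h => by
    rcases a with a | a
    · exact h
    · exact h⟩

variable {V : Type*} [Fintype V] [DecidableEq V]

theorem dbl_dgc (G : SimpleGraph V) (a : V ⊕ V) :
    dgc (dbl G) a = dgc G (Sum.elim id id a) := by
  classical
  unfold dgc
  rcases a with u | v
  · symm
    refine card_bij (fun w _ => Sum.inr w) ?_ ?_ ?_
    · intro w hw
      simp only [mem_filter, mem_univ, true_and] at hw ⊢
      exact hw
    · intro w _ w' _ h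
      exact Sum.inr_injective h
    · intro b hb
      simp only [mem_filter, mem_univ, true_and] at hb
      rcases b with b | b
      · exact hb.elim
      · exact ⟨b, by simp only [mem_filter, mem_univ, true_and]; exact hb, rfl⟩
  · symm
    refine card_bij (fun w _ => Sum.inl w) ?_ ?_ ?_
    · intro w hw
      simp only [mem_filter, mem_univ, true_and] at hw ⊢
      exact hw.symm
    · intro w _ w' _ h
      exact Sum.inl_injective h
    · intro b hb
      simp only [mem_filter, mem_univ, true_and] at hb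
      rcases b with b | b
      · have hb' : G.Adj b v := hb
        exact ⟨b, by simp only [mem_filter, mem_univ, true_and]; exact hb'.symm, rfl⟩
      · exact hb.elim

theorem dbl_dX (G : SimpleGraph V) (A B : Finset V) :
    dX (dbl G) (A.disjSum B) = E1 G A B + E1 G B A := by
  classical
  rw [dX_eq_sum, Fintype.sum_prod_type, Fintype.sum_sum_type]
  simp only [Fintype.sum_sum_type]
  have h1 : ∀ u v : V, (dbl G).Adj (Sum.inl u) (Sum.inr v) ↔ G.Adj u v := fun u v => Iff.rfl
  have h2 : ∀ u v : V, (dbl G).Adj (Sum.inr v) (Sum.inl u) ↔ G.Adj v u := fun u v =>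
    ⟨fun h => (show G.Adj u v from h).symm, fun h => h.symm⟩
  have h3 : ∀ u v : V, (dbl G).Adj (Sum.inl u) (Sum.inl v) ↔ False := fun u v => Iff.rfl
  have h4 : ∀ u v : V, (dbl G).Adj (Sum.inr u) (Sum.inr v) ↔ False := fun u v => Iff.rfl
  have hE : ∀ A B : Finset V, E1 G A B = ∑ u : V, ∑ v : V,
      if G.Adj u v ∧ u ∈ A ∧ v ∉ B then 1 else 0 := by
    intro A B
    unfold E1
    rw [card_filter, Fintype.sum_prod_type]
    refine sum_congr rfl fun u _ => sum_congr rfl fun v _ => ?_
    congr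
  rw [hE, hE]
  simp only [h1, h2, h3, h4, inl_mem_disjSum, inr_mem_disjSum, false_and, if_false,
    sum_const_zero, zero_add, add_zero]

theorem dbl_big {k : ℕ} (hk : 65536 ≤ k) :
    2 * Real.exp (-((1 / √(k : ℝ)) * k / 8)) ≤ 1 / √(k : ℝ) := by
  have hk' : (65536 : ℝ) ≤ k := by exact_mod_cast hk
  have hs : (256 : ℝ) ≤ √(k : ℝ) := by
    apply Real.le_sqrt_of_sq_le
    norm_num
    exact hk
  have hs0 : 0 < √(k : ℝ) := by linarith
  have h1 : (1 / √(k : ℝ)) * k / 8 = √(k : ℝ) / 8 := by
    have h2 : √(k : ℝ) * √(k : ℝ) = k := Real.mul_self_sqrt (by linarith)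
    field_simp
    nlinarith
  rw [h1, le_div_iff₀ hs0, Real.exp_neg]
  have h3 := Real.quadratic_le_exp_of_nonneg (show 0 ≤ √(k : ℝ) / 8 by positivity)
  have h4 : 2 * √(k : ℝ) ≤ Real.exp (√(k : ℝ) / 8) := by nlinarith
  have h5 : 0 < Real.exp (√(k : ℝ) / 8) := Real.exp_pos _
  calc 2 * (Real.exp (√(k : ℝ) / 8))⁻¹ * √(k : ℝ)
      = (2 * √(k : ℝ)) * (Real.exp (√(k : ℝ) / 8))⁻¹ := by ring
    _ ≤ Real.exp (√(k : ℝ) / 8) * (Real.exp (√(k : ℝ) / 8))⁻¹ :=
        mul_le_mul_of_nonneg_right h4 (inv_nonneg.2 h5.le)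
    _ = 1 := mul_inv_cancel₀ h5.ne'

theorem count_pairs : ∃ k₀ : ℕ, ∀ k ≥ k₀, ∀ (V : Type) [Fintype V] [DecidableEq V]
    (G : SimpleGraph V), (∀ v, k ≤ dgc G v) → ∀ E0 : ℕ,
    (((univ : Finset (Finset V × Finset V)).filter
      fun q => E1 G q.1 q.2 + E1 G q.2 q.1 ≤ E0).card : ℝ) ≤
      Real.exp (4 * Real.log k * (2 * Fintype.card V / Real.sqrt k + E0 / k)) := by
  refine ⟨65536, fun k hk V _ _ G hG E0 => ?_⟩
  classical
  have h := card_cuts_le (dbl G) (k := k) (by omega) (fun a => by rw [dbl_dgc]; exact hG _)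
    (dbl_big hk) E0 (Nat.cast_nonneg _)
  have hcard : (Fintype.card (V ⊕ V) : ℝ) = 2 * Fintype.card V := by
    rw [Fintype.card_sum]
    push_cast
    ring
  rw [hcard] at h
  refine le_trans ?_ h
  have h2 : ((univ : Finset (Finset V × Finset V)).filter
      fun q => E1 G q.1 q.2 + E1 G q.2 q.1 ≤ E0).card ≤
      (univ.filter fun U : Finset (V ⊕ V) => (dX (dbl G) U : ℝ) ≤ E0).card := by
    refine card_le_card_of_injOn (fun q => q.1.disjSum q.2) ?_ ?_
    · intro q hq
      simp only [coe_filter, mem_univ, true_and, Set.mem_setOf_eq] at hq ⊢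
      rw [dbl_dX]
      exact_mod_cast hq
    · intro q _ q' _ h
      have h' : q.1.disjSum q.2 = q'.1.disjSum q'.2 := h
      have h5 : q.1 = q'.1 := by
        ext v
        rw [← inl_mem_disjSum (t := q.2), h', inl_mem_disjSum]
      have h6 : q.2 = q'.2 := by
        ext v
        rw [← inr_mem_disjSum (s := q.1), h', inr_mem_disjSum]
      exact Prod.ext h5 h6
  exact_mod_cast h2

end Pool.Agent.Work.MP_60abc6_co.DEL
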