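import Pool.Agent.Work.MP_60abc6_co.Trans

set_option autoImplicit false

/-! Harary graphs: `k`-connected graphs with at most `(k n + 1) / 2` edges. -/

namespace Pool.Agent.Work.MP_60abc6_co.DEL.Har

open Finset

/-- `x` and `y` have cyclic distance between `1` and `r`. -/
def near {n : ℕ} (r : ℕ) (x y : ZMod n) : Prop :=
  ∃ t : ℕ, 1 ≤ t ∧ t ≤ r ∧ (y = x + t ∨ x = y + t)

lemma near.symm {n r : ℕ} {x y : ZMod n} (h : near r x y) : near r y x := by
  obtain ⟨t, h1, h2, h3⟩ := h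
  exact ⟨t, h1, h2, h3.symm⟩

/-- the circulant graph -/
def circ (n r : ℕ) : SimpleGraph (ZMod n) where
  Adj x y := x ≠ y ∧ near r x y
  symm := ⟨fun _ _ h => ⟨h.1.symm, h.2.symm⟩⟩
  loopless := ⟨fun _ h => h.1 rfl⟩

/-- the near diameters -/
def diam (n : ℕ) : SimpleGraph (ZMod n) where
  Adj x y := x ≠ y ∧ (y.val = x.val + n / 2 ∨ x.val = y.val + n / 2)
  symm := ⟨fun _ _ h => ⟨h.1.symm, h.2.symm⟩⟩
  loopless := ⟨fun _ h => h.1 rfl⟩

variable {n : ℕ} [NeZero n]

lemma exists_end {P : Finset (ZMod n)} (hP : P.Nonempty) (hu : P ≠ univ) :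
    ∃ y ∈ P, y + 1 ∉ P := by
  by_contra hcon
  push Not at hcon
  apply hu
  obtain ⟨y, hy⟩ := hP
  have h1 : ∀ t : ℕ, y + t ∈ P := by
    intro t
    induction t with
    | zero => simpa using hy
    | succ t ih =>
      have := hcon _ ih
      push_cast
      rwa [← add_assoc]
  rw [eq_univ_iff_forall]
  intro z
  have h2 := h1 (z - y).val
  rwa [ZMod.natCast_zmod_val, add_sub_cancel] at h2

/-- the set `P + {0, 1, ..., i}` -/
def fwd (P : Finset (ZMod n)) (i : ℕ) : Finset (ZMod n) :=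
  P.biUnion fun a => (range (i + 1)).image fun t : ℕ => a + t

omit [NeZero n] in
lemma mem_fwd {P : Finset (ZMod n)} {i : ℕ} {y : ZMod n} :
    y ∈ fwd P i ↔ ∃ a ∈ P, ∃ t : ℕ, t ≤ i ∧ y = a + t := by
  unfold fwd
  simp only [mem_biUnion, mem_image, mem_range]
  constructor
  · rintro ⟨a, ha, t, ht, rfl⟩
    exact ⟨a, ha, t, by omega, rfl⟩
  · rintro ⟨a, ha, t, ht, rfl⟩
    exact ⟨a, ha, t, by omega, rfl⟩

omit [NeZero n] in
lemma subset_fwd (P : Finset (ZMod n)) (i : ℕ) : P ⊆ fwd P i :=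
  fun a ha => mem_fwd.2 ⟨a, ha, 0, Nat.zero_le _, by simp⟩

omit [NeZero n] in
lemma fwd_mono (P : Finset (ZMod n)) {i j : ℕ} (h : i ≤ j) : fwd P i ⊆ fwd P j := by
  intro y hy
  obtain ⟨a, ha, t, ht, rfl⟩ := mem_fwd.1 hy
  exact mem_fwd.2 ⟨a, ha, t, ht.trans h, rfl⟩

omit [NeZero n] in
lemma fwd_fwd (P : Finset (ZMod n)) (i j : ℕ) : fwd (fwd P i) j ⊆ fwd P (i + j) := by
  intro y hy
  obtain ⟨b, hb, t, ht, rfl⟩ := mem_fwd.1 hy
  obtain ⟨a, ha, s, hs, rfl⟩ := mem_fwd.1 hb
  refine mem_fwd.2 ⟨a, ha, s + t, by omega, ?_⟩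
  push_cast
  ring

lemma growth {P : Finset (ZMod n)} (hP : P.Nonempty) {r : ℕ} (hu : fwd P r ≠ univ) :
    P.card + r ≤ (fwd P r).card := by
  induction r with
  | zero => exact card_le_card (subset_fwd P 0)
  | succ r ih =>
    have hu' : fwd P r ≠ univ := by
      intro h
      apply hu
      rw [eq_univ_iff_forall] at h ⊢
      exact fun x => fwd_mono P (Nat.le_succ r) (h x)
    have h1 := ih hu'
    obtain ⟨y, hy, hy1⟩ := exists_end (hP.mono (subset_fwd P r)) hu'
    have h2 : insert (y + 1) (fwd P r) ⊆ fwd P (r + 1) := by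
      rw [insert_subset_iff]
      refine ⟨?_, fwd_mono P (Nat.le_succ r)⟩
      refine fwd_fwd P r 1 (mem_fwd.2 ⟨y, hy, 1, le_rfl, by simp⟩)
    have h3 := card_le_card h2
    rw [card_insert_of_notMem hy1] at h3
    omega

section sep

variable {A B : Finset (ZMod n)} {r : ℕ}

lemma bd_subset (hs : ∀ a ∈ A, ∀ b ∈ B, ¬ near r a b) : fwd A r \ A ⊆ univ \ (A ∪ B) := by
  intro y hy
  rw [mem_sdiff] at hy
  obtain ⟨a, ha, t, ht, rfl⟩ := mem_fwd.1 hy.1
  rw [mem_sdiff, mem_union, not_or]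
  refine ⟨mem_univ _, hy.2, fun hb => ?_⟩
  rcases Nat.eq_zero_or_pos t with rfl | h0
  · apply hy.2
    simpa using ha
  · exact hs a ha _ hb ⟨t, h0, ht, Or.inl rfl⟩

lemma fwd_ne_univ (hB : B.Nonempty) (hd : Disjoint A B) (hs : ∀ a ∈ A, ∀ b ∈ B, ¬ near r a b) :
    fwd A r ≠ univ := by
  intro h
  obtain ⟨b, hb⟩ := hB
  have hbA : b ∉ A := fun h => (disjoint_left.1 hd) h hb
  have h1 := bd_subset hs (mem_sdiff.2 ⟨by rw [h]; exact mem_univ b, hbA⟩)
  rw [mem_sdiff, mem_union, not_or] at h1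
  exact h1.2.2 hb

omit [NeZero n] in
lemma bd_disjoint (hd : Disjoint A B) (hs : ∀ a ∈ A, ∀ b ∈ B, ¬ near r a b) :
    Disjoint (fwd A r \ A) (fwd B r \ B) := by
  rw [disjoint_left]
  intro y hyA hyB
  rw [mem_sdiff] at hyA hyB
  obtain ⟨a, ha, t, ht, h1⟩ := mem_fwd.1 hyA.1
  obtain ⟨b, hb, s, hs', h2⟩ := mem_fwd.1 hyB.1
  rw [h1] at h2
  rcases lt_trichotomy t s with h | h | h
  · refine hs a ha b hb ⟨s - t, by omega, by omega, Or.inr ?_⟩
    rw [Nat.cast_sub h.le, ← add_sub_assoc, ← h2, add_sub_cancel_right]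
  · rw [h] at h2
    have h3 := add_right_cancel h2
    rw [h3] at ha
    exact (disjoint_left.1 hd) ha hb
  · refine hs a ha b hb ⟨t - s, by omega, by omega, Or.inl ?_⟩
    rw [Nat.cast_sub h.le, ← add_sub_assoc, h2, add_sub_cancel_right]

lemma card_bd_add (hd : Disjoint A B) (hs : ∀ a ∈ A, ∀ b ∈ B, ¬ near r a b) :
    ((fwd A r).card - A.card) + ((fwd B r).card - B.card) ≤ (univ \ (A ∪ B)).card := by
  have hs' : ∀ b ∈ B, ∀ a ∈ A, ¬ near r b a := fun b hb a ha h => hs a ha b hb h.symm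
  have h1 : (fwd A r \ A) ∪ (fwd B r \ B) ⊆ univ \ (A ∪ B) := by
    refine union_subset (bd_subset hs) ?_
    rw [union_comm A B]
    exact bd_subset hs'
  have h2 := card_le_card h1
  rw [card_union_of_disjoint (bd_disjoint hd hs), card_sdiff_of_subset (subset_fwd A r),
    card_sdiff_of_subset (subset_fwd B r)] at h2
  exact h2

lemma sep_even (hA : A.Nonempty) (hB : B.Nonempty) (hd : Disjoint A B)
    (hs : ∀ a ∈ A, ∀ b ∈ B, ¬ near r a b) : 2 * r ≤ (univ \ (A ∪ B)).card := by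
  have hs' : ∀ b ∈ B, ∀ a ∈ A, ¬ near r b a := fun b hb a ha h => hs a ha b hb h.symm
  have h1 := growth hA (fwd_ne_univ hB hd hs)
  have h2 := growth hB (fwd_ne_univ hA hd.symm hs')
  have h3 := card_bd_add hd hs
  omega

/-- In the tight case `A` has only one end. -/
lemma unique_end (hr : 1 ≤ r) (hA : A.Nonempty) (hB : B.Nonempty) (hd : Disjoint A B)
    (hs : ∀ a ∈ A, ∀ b ∈ B, ¬ near r a b) (ht : (univ \ (A ∪ B)).card ≤ 2 * r)
    {e e' : ZMod n} (he : e ∈ A) (he1 : e + 1 ∉ A) (he' : e' ∈ A) (he1' : e' + 1 ∉ A) : e = e' := by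
  by_contra hne
  have hs' : ∀ b ∈ B, ∀ a ∈ A, ¬ near r b a := fun b hb a ha h => hs a ha b hb h.symm
  have h2 := growth hB (fwd_ne_univ hA hd.symm hs')
  have h3 := card_bd_add hd hs
  have hu := fwd_ne_univ hB hd hs
  have h4 : insert (e + 1) (insert (e' + 1) A) ⊆ fwd A 1 := by
    rw [insert_subset_iff, insert_subset_iff]
    exact ⟨mem_fwd.2 ⟨e, he, 1, le_rfl, by simp⟩, mem_fwd.2 ⟨e', he', 1, le_rfl, by simp⟩,
      subset_fwd A 1⟩
  have h5 := card_le_card h4
  rw [card_insert_of_notMem, card_insert_of_notMem he1'] at h5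
  · have h6 : fwd (fwd A 1) (r - 1) ⊆ fwd A r := by
      have := fwd_fwd A 1 (r - 1)
      rwa [Nat.add_sub_cancel' hr] at this
    have h7 := growth (P := fwd A 1) (r := r - 1) (hA.mono (subset_fwd A 1)) (by
      intro h
      apply hu
      rw [eq_univ_iff_forall] at h ⊢
      exact fun x => h6 (h x))
    have h8 := card_le_card h6
    omega
  · rw [mem_insert, not_or]
    exact ⟨fun h => hne (add_right_cancel h), he1⟩

end sep

omit [NeZero n] in
lemma cast_inj_of_lt {a b : ℕ} (ha : a < n) (hb : b < n) (h : (a : ZMod n) = b) : a = b := by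
  have := congrArg ZMod.val h
  rwa [ZMod.val_cast_of_lt ha, ZMod.val_cast_of_lt hb] at this

/-- A set with one end is an interval. -/
lemma interval {A : Finset (ZMod n)} (hA : A.Nonempty) (hu : A ≠ univ)
    (hend : ∀ e ∈ A, e + 1 ∉ A → ∀ e' ∈ A, e' + 1 ∉ A → e = e') :
    ∃ x : ZMod n, ∀ j : ℕ, j < n → (x + j ∈ A ↔ j < A.card) := by
  classical
  obtain ⟨e, he, he1⟩ := exists_end hA hu
  have hstop : ∀ a : ZMod n, ∃ t : ℕ, a + t + 1 ∉ A := by
    intro a
    refine ⟨(e - a).val, ?_⟩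
    rwa [ZMod.natCast_zmod_val, add_sub_cancel]
  let τ : ZMod n → ℕ := fun a => Nat.find (hstop a)
  have hτ1 : ∀ a ∈ A, ∀ s ≤ τ a, a + s ∈ A := by
    intro a ha s
    induction s with
    | zero => intro _; simpa using ha
    | succ s ih =>
      intro hs
      have h1 := Nat.find_min (hstop a) (m := s) (by
        show s < τ a
        omega)
      rw [not_not] at h1
      push_cast
      rwa [← add_assoc]
  have hτ2 : ∀ a ∈ A, a + τ a = e := by
    intro a ha
    exact hend _ (hτ1 a ha _ le_rfl) (Nat.find_spec (hstop a)) e he he1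
  obtain ⟨x, hx, hmax⟩ := exists_max_image A τ hA
  have hlt : τ x + 1 < n := by
    by_contra hcon
    apply hu
    rw [eq_univ_iff_forall]
    intro z
    have h1 := hτ1 x hx (z - x).val (by
      have h3 := ZMod.val_lt (z - x)
      omega)
    rwa [ZMod.natCast_zmod_val, add_sub_cancel] at h1
  have hiff : ∀ j : ℕ, j < n → (x + j ∈ A ↔ j ≤ τ x) := by
    intro j hj
    refine ⟨fun h => ?_, hτ1 x hx j⟩
    by_contra hcon
    push Not at hcon
    have h1 := hτ2 _ h
    have h2 := hτ2 x hx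
    rw [← h2, add_assoc] at h1
    have h3 := add_left_cancel h1
    have h4 := hmax _ h
    rw [← Nat.cast_add, ZMod.natCast_eq_natCast_iff'] at h3
    have h5 := Nat.sub_mod_eq_zero_of_mod_eq h3
    rw [Nat.mod_eq_of_lt (by omega)] at h5
    omega
  have hcard : A.card = τ x + 1 := by
    have h1 : A = (range (τ x + 1)).image fun j : ℕ => x + (j : ZMod n) := by
      ext z
      rw [mem_image]
      constructor
      · intro hz
        refine ⟨(z - x).val, ?_, ?_⟩
        · rw [mem_range, Nat.lt_succ_iff, ← hiff _ (ZMod.val_lt _), ZMod.natCast_zmod_val,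
            add_sub_cancel]
          exact hz
        · rw [ZMod.natCast_zmod_val, add_sub_cancel]
      · rintro ⟨j, hj, rfl⟩
        rw [mem_range, Nat.lt_succ_iff] at hj
        exact hτ1 x hx j hj
    rw [h1, card_image_of_injOn, card_range]
    intro a ha b hb hab
    rw [mem_coe, mem_range] at ha hb
    exact cast_inj_of_lt (by omega) (by omega) (add_left_cancel hab)
  refine ⟨x, fun j hj => ?_⟩
  rw [hiff j hj, hcard, Nat.lt_succ_iff]

/-- Every vertex has a near diameter. -/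
lemma exists_diam (hn : 2 ≤ n) (x : ZMod n) :
    ∃ d : ℕ, n / 2 ≤ d ∧ d ≤ n - n / 2 ∧ (diam n).Adj x (x + d) := by
  have hx := ZMod.val_lt x
  have hne : ∀ d : ℕ, 1 ≤ d → d < n → x ≠ x + d := by
    intro d hd hdn h
    have h1 : ((0 : ℕ) : ZMod n) = d := by
      rw [Nat.cast_zero]
      exact (add_left_cancel (a := x) (by rw [add_zero]; exact h))
    have := cast_inj_of_lt (by omega) hdn h1
    omega
  by_cases h : x.val + n / 2 < n
  · refine ⟨n / 2, le_rfl, by omega, hne _ (by omega) (by omega), Or.inl ?_⟩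
    have h1 : x + ((n / 2 : ℕ) : ZMod n) = ((x.val + n / 2 : ℕ) : ZMod n) := by
      rw [Nat.cast_add, ZMod.natCast_zmod_val]
    rw [h1, ZMod.val_cast_of_lt h]
  · refine ⟨n - n / 2, by omega, le_rfl, hne _ (by omega) (by omega), Or.inr ?_⟩
    have h1 : x + ((n - n / 2 : ℕ) : ZMod n) = ((x.val - n / 2 : ℕ) : ZMod n) := by
      have h2 : ((x.val - n / 2 : ℕ) : ZMod n) = ((x.val - n / 2 + n : ℕ) : ZMod n) := by
        rw [Nat.cast_add, ZMod.natCast_self, add_zero]
      have h3 : x.val - n / 2 + n = x.val + (n - n / 2) := by omega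
      rw [h2, h3, Nat.cast_add, ZMod.natCast_zmod_val]
    rw [h1, ZMod.val_cast_of_lt (by omega)]
    omega

/-- The separations of the circulant graph together with the near diameters. -/
lemma sep_odd {A B : Finset (ZMod n)} {r : ℕ} (hr : 1 ≤ r) (hrn : 2 * r + 2 ≤ n) (hA : A.Nonempty)
    (hB : B.Nonempty) (hd : Disjoint A B) (hs : ∀ a ∈ A, ∀ b ∈ B, ¬ near r a b)
    (hs' : ∀ a ∈ A, ∀ b ∈ B, ¬ (diam n).Adj a b) (hle : A.card ≤ B.card) :
    2 * r + 1 ≤ (univ \ (A ∪ B)).card := by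
  by_contra hcon
  have ht : (univ \ (A ∪ B)).card ≤ 2 * r := by omega
  have hge := sep_even hA hB hd hs
  have htot : (univ \ (A ∪ B)).card + (A.card + B.card) = n := by
    rw [← card_union_of_disjoint hd, card_sdiff_add_card_eq_card (subset_univ _), card_univ,
      ZMod.card]
  have hApos : 1 ≤ A.card := hA.card_pos
  have hAne : A ≠ univ := by
    intro h
    obtain ⟨b, hb⟩ := hB
    exact (disjoint_left.1 hd) (by rw [h]; exact mem_univ b) hb
  obtain ⟨x, hx⟩ := interval hA hAne fun e he he1 e' he' he1' =>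
    unique_end hr hA hB hd hs ht he he1 he' he1'
  obtain ⟨d, hd1, hd2, hadj⟩ := exists_diam (by omega) x
  have hxA : x ∈ A := by
    have := (hx 0 (by omega)).2 hApos
    simpa using this
  have hnB : ∀ j : ℕ, j ∈ insert d (Ico A.card (A.card + r) ∪ Ico (n - r) n) →
      x + (j : ZMod n) ∈ univ \ (A ∪ B) := by
    intro j hj
    rw [mem_sdiff, mem_union, not_or]
    rw [mem_insert, mem_union, mem_Ico, mem_Ico] at hj
    refine ⟨mem_univ _, ?_, ?_⟩
    · rw [hx j (by omega)]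
      omega
    · intro hb
      rcases hj with rfl | hj | hj
      · exact hs' x hxA _ hb hadj
      · have hl := (hx (A.card - 1) (by omega)).2 (by omega)
        refine hs _ hl _ hb ⟨j - (A.card - 1), by omega, by omega, Or.inl ?_⟩
        rw [add_assoc, ← Nat.cast_add]
        congr 2
        omega
      · refine hs x hxA _ hb ⟨n - j, by omega, by omega, Or.inr ?_⟩
        rw [add_assoc, ← Nat.cast_add, Nat.add_sub_cancel' hj.2.le, ZMod.natCast_self, add_zero]
  have h1 : ((insert d (Ico A.card (A.card + r) ∪ Ico (n - r) n)).image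
      fun j : ℕ => x + (j : ZMod n)) ⊆ univ \ (A ∪ B) := by
    intro y hy
    obtain ⟨j, hj, rfl⟩ := mem_image.1 hy
    exact hnB j hj
  have h2 := card_le_card h1
  rw [card_image_of_injOn, card_insert_of_notMem, card_union_of_disjoint, Nat.card_Ico,
    Nat.card_Ico] at h2
  · omega
  · rw [disjoint_left]
    intro j hj hj'
    rw [mem_Ico] at hj hj'
    omega
  · rw [mem_union, mem_Ico, mem_Ico]
    omega
  · intro a ha b hb hab
    rw [mem_coe, mem_insert, mem_union, mem_Ico, mem_Ico] at ha hb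
    exact cast_inj_of_lt (by omega) (by omega) (add_left_cancel hab)

lemma KC_circ {r : ℕ} (hr : 2 * r < n) : KC (2 * r) (circ n r) := by
  refine ⟨by rw [ZMod.card]; exact hr, fun A B hA hB hd hs => sep_even hA hB hd ?_⟩
  intro a ha b hb h
  refine hs a ha b hb ⟨?_, h⟩
  rintro rfl
  exact (disjoint_left.1 hd) ha hb

lemma KC_circ_diam {r : ℕ} (hr : 1 ≤ r) (hrn : 2 * r + 1 < n) :
    KC (2 * r + 1) (circ n r ⊔ diam n) := by
  refine ⟨by rw [ZMod.card]; exact hrn, fun A B hA hB hd hs => ?_⟩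
  have h1 : ∀ a ∈ A, ∀ b ∈ B, ¬ near r a b := by
    intro a ha b hb h
    refine hs a ha b hb (Or.inl ⟨?_, h⟩)
    rintro rfl
    exact (disjoint_left.1 hd) ha hb
  have h2 : ∀ a ∈ A, ∀ b ∈ B, ¬ (diam n).Adj a b := fun a ha b hb h => hs a ha b hb (Or.inr h)
  rcases le_total A.card B.card with hle | hle
  · exact sep_odd hr (by omega) hA hB hd h1 h2 hle
  · rw [union_comm]
    exact sep_odd hr (by omega) hB hA hd.symm (fun b hb a ha h => h1 a ha b hb h.symm)
      (fun b hb a ha h => h2 a ha b hb h.symm) hle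

lemma dgc_circ_le (r : ℕ) (x : ZMod n) : dgc (circ n r) x ≤ 2 * r := by
  classical
  have h1 : (univ.filter ((circ n r).Adj x)) ⊆
      ((Icc 1 r).image fun t : ℕ => x + (t : ZMod n)) ∪
        ((Icc 1 r).image fun t : ℕ => x - (t : ZMod n)) := by
    intro y hy
    obtain ⟨-, t, ht1, ht2, h⟩ := (mem_filter.1 hy).2
    rw [mem_union, mem_image, mem_image]
    rcases h with h | h
    · exact Or.inl ⟨t, mem_Icc.2 ⟨ht1, ht2⟩, h.symm⟩
    · exact Or.inr ⟨t, mem_Icc.2 ⟨ht1, ht2⟩, by rw [h, add_sub_cancel_right]⟩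
  unfold dgc
  have h2 := card_le_card h1
  have h3 := card_union_le ((Icc 1 r).image fun t : ℕ => x + (t : ZMod n))
    ((Icc 1 r).image fun t : ℕ => x - (t : ZMod n))
  have h4 : ((Icc 1 r).image fun t : ℕ => x + (t : ZMod n)).card ≤ r := by
    refine card_image_le.trans ?_
    rw [Nat.card_Icc]; omega
  have h5 : ((Icc 1 r).image fun t : ℕ => x - (t : ZMod n)).card ≤ r := by
    refine card_image_le.trans ?_
    rw [Nat.card_Icc]; omega
  refine (le_of_eq ?_).trans (h2.trans (h3.trans (by omega)))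
  congr

lemma dgc_diam_le (x : ZMod n) : dgc (diam n) x ≤
    (if x.val < n - n / 2 then 1 else 0) + (if n / 2 ≤ x.val then 1 else 0) := by
  classical
  have h1 : (univ.filter ((diam n).Adj x)) ⊆
      (if x.val < n - n / 2 then {((x.val + n / 2 : ℕ) : ZMod n)} else ∅) ∪
      (if n / 2 ≤ x.val then {((x.val - n / 2 : ℕ) : ZMod n)} else ∅) := by
    intro y hy
    obtain ⟨-, h⟩ := (mem_filter.1 hy).2
    have hy := ZMod.val_lt y
    have hx := ZMod.val_lt x
    rw [mem_union]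
    rcases h with h | h
    · left
      rw [if_pos (by omega), mem_singleton, ← h, ZMod.natCast_zmod_val]
    · right
      have h2 : x.val - n / 2 = y.val := by omega
      rw [if_pos (by omega), mem_singleton, h2, ZMod.natCast_zmod_val]
  have h2 := (card_le_card h1).trans (card_union_le _ _)
  unfold dgc
  refine (le_of_eq ?_).trans (h2.trans (add_le_add ?_ ?_))
  · congr
  · split_ifs <;> simp
  · split_ifs <;> simp

lemma sum_val (f : ℕ → ℕ) : ∑ x : ZMod n, f x.val = ∑ i ∈ range n, f i := by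
  refine sum_bij' (fun x _ => x.val) (fun i _ => (i : ZMod n)) ?_ ?_ ?_ ?_ ?_
  · intro x _; exact mem_range.2 (ZMod.val_lt x)
  · intro i _; exact mem_univ _
  · intro x _; exact ZMod.natCast_zmod_val x
  · intro i hi; exact ZMod.val_cast_of_lt (mem_range.1 hi)
  · intro x _; rfl

lemma ec_diam : 2 * ec (diam n) ≤ n + 1 := by
  rw [two_mul_ec]
  have h1 : ∑ x : ZMod n, dgc (diam n) x ≤ ∑ x : ZMod n,
      ((if x.val < n - n / 2 then 1 else 0) + (if n / 2 ≤ x.val then 1 else 0)) :=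
    sum_le_sum fun x _ => dgc_diam_le x
  refine h1.trans ?_
  rw [sum_val (fun i => (if i < n - n / 2 then 1 else 0) + (if n / 2 ≤ i then 1 else 0)),
    sum_add_distrib, ← card_filter, ← card_filter]
  have h2 : ((range n).filter fun i => i < n - n / 2) ⊆ range (n - n / 2) := by
    intro i hi
    rw [mem_filter] at hi
    exact mem_range.2 hi.2
  have h3 : ((range n).filter fun i => n / 2 ≤ i) ⊆ Ico (n / 2) n := by
    intro i hi
    rw [mem_filter, mem_range] at hi
    exact mem_Ico.2 ⟨hi.2, hi.1⟩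
  have h4 := card_le_card h2
  have h5 := card_le_card h3
  rw [card_range] at h4
  rw [Nat.card_Ico] at h5
  omega

lemma ec_circ (r : ℕ) : 2 * ec (circ n r) ≤ 2 * r * n := by
  rw [two_mul_ec]
  have h1 : ∑ x : ZMod n, dgc (circ n r) x ≤ ∑ x : ZMod n, 2 * r :=
    sum_le_sum fun x _ => dgc_circ_le r x
  refine h1.trans ?_
  rw [sum_const, card_univ, ZMod.card, smul_eq_mul, mul_comm]

omit [NeZero n] in
lemma ec_sup_le' (G H : SimpleGraph (ZMod n)) : ec (G ⊔ H) ≤ ec G + ec H := by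
  unfold ec
  rw [SimpleGraph.edgeSet_sup]
  exact Set.ncard_union_le _ _

end Pool.Agent.Work.MP_60abc6_co.DEL.Har

namespace Pool.Agent.Work.MP_60abc6_co.DEL

open Finset Har

/-- **Harary graphs**: `k`-connected graphs with at most `(k n + 1) / 2` edges. -/
theorem harary {k n : ℕ} (hk : 2 ≤ k) (hkn : k < n) :
    ∃ G : SimpleGraph (Fin n), KC k G ∧ 2 * ec G ≤ k * n + 1 := by
  have : NeZero n := ⟨by omega⟩
  obtain ⟨G, hG, hec⟩ : ∃ G : SimpleGraph (ZMod n), KC k G ∧ 2 * ec G ≤ k * n + 1 := by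
    rcases Nat.even_or_odd' k with ⟨r, rfl | rfl⟩
    · exact ⟨circ n r, KC_circ hkn, (ec_circ r).trans (Nat.le_succ _)⟩
    · refine ⟨circ n r ⊔ diam n, KC_circ_diam (by omega) hkn, ?_⟩
      have h1 := ec_sup_le' (circ n r) (diam n)
      have h2 := ec_circ (n := n) r
      have h3 := ec_diam (n := n)
      have h4 : (2 * r + 1) * n + 1 = 2 * r * n + (n + 1) := by ring
      omega
  obtain ⟨e⟩ : Nonempty (Fin n ≃ ZMod n) := ⟨(ZMod.finEquiv n).toEquiv⟩
  exact ⟨G.comap e, hG.comap_equiv e, by rw [ec_comap_equiv]; exact hec⟩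

end Pool.Agent.Work.MP_60abc6_co.DEL
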