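import Mathlib
import Pool.Agent.Work.MP_60abc6_co.DEL.Greedy

set_option autoImplicit false

/-! The number of members of a laminar family, counted by a weight on the points. -/

namespace Pool.Agent.Work.MP_60abc6_co.DEL

open Finset

variable {V : Type*} [DecidableEq V]

/-- `Y` is the only maximal member of `T` strictly inside `X` -/
def OnlyChild (T : Finset (Finset V)) (X Y : Finset V) : Prop :=
  Y ∈ T ∧ Y ⊂ X ∧ ∀ Z ∈ T, Z ⊂ X → Z ⊆ Y

/-- the maximal members of a family -/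
def maxF (S : Finset (Finset V)) : Finset (Finset V) :=
  S.filter fun Y => ∀ Z ∈ S, Y ⊆ Z → Y = Z

lemma maxF_subset (S : Finset (Finset V)) : maxF S ⊆ S := filter_subset _ _

lemma exists_maxF {S : Finset (Finset V)} {Y : Finset V} (hY : Y ∈ S) : ∃ M ∈ maxF S, Y ⊆ M := by
  obtain ⟨M, hM, hmax⟩ := exists_max_image (S.filter fun Z => Y ⊆ Z) Finset.card
    ⟨Y, mem_filter.mpr ⟨hY, subset_rfl⟩⟩
  rw [mem_filter] at hM
  refine ⟨M, mem_filter.mpr ⟨hM.1, fun Z hZ hMZ => ?_⟩, hM.2⟩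
  exact eq_of_subset_of_card_le hMZ (hmax Z (mem_filter.mpr ⟨hZ, hM.2.trans hMZ⟩))

lemma maxF_disjoint {S : Finset (Finset V)} (hS : Laminar S) :
    ∀ M ∈ maxF S, ∀ N ∈ maxF S, M ≠ N → Disjoint M N := by
  intro M hM N hN hne
  rw [maxF, mem_filter] at hM hN
  rcases hS M hM.1 N hN.1 with h | h | h
  · exact absurd (hM.2 N hN.1 h) hne
  · exact absurd (hN.2 M hM.1 h).symm hne
  · exact h

lemma card_maxF {S : Finset (Finset V)} (hS : Laminar S) (hne : ∀ X ∈ S, X.Nonempty) :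
    S.card = ∑ M ∈ maxF S, (S.filter fun Y => Y ⊆ M).card := by
  rw [← card_biUnion]
  · congr 1
    ext Y
    simp only [mem_biUnion, mem_filter]
    constructor
    · intro hY
      obtain ⟨M, hM, hYM⟩ := exists_maxF hY
      exact ⟨M, hM, hY, hYM⟩
    · rintro ⟨M, _, hY, _⟩
      exact hY
  · intro M hM N hN hMN
    refine disjoint_left.mpr ?_
    intro Y hYM hYN
    rw [mem_filter] at hYM hYN
    obtain ⟨x, hx⟩ := hne Y hYM.1
    exact disjoint_left.mp (maxF_disjoint hS M hM N hN hMN) (hYM.2 hx) (hYN.2 hx)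

lemma sum_maxF {S : Finset (Finset V)} (hS : Laminar S) {μ : V → ℝ} (hμ : ∀ v, 0 ≤ μ v)
    {U : Finset V} (hU : ∀ X ∈ S, X ⊆ U) : ∑ M ∈ maxF S, ∑ v ∈ M, μ v ≤ ∑ v ∈ U, μ v := by
  rw [← sum_biUnion]
  · refine sum_le_sum_of_subset_of_nonneg ?_ fun v _ _ => hμ v
    intro v hv
    rw [mem_biUnion] at hv
    obtain ⟨M, hM, hv⟩ := hv
    exact hU M (maxF_subset S hM) hv
  · intro M hM N hN hMN
    exact maxF_disjoint hS M hM N hN hMN

section

variable {T : Finset (Finset V)} {μ : V → ℝ}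

lemma filter_subset_eq_insert {X : Finset V} (hX : X ∈ T) :
    (T.filter fun Y => Y ⊆ X) = insert X (T.filter fun Y => Y ⊂ X) := by
  ext Y
  simp only [mem_filter, mem_insert]
  constructor
  · rintro ⟨h1, h2⟩
    by_cases h : Y = X
    · exact Or.inl h
    · exact Or.inr ⟨h1, Finset.ssubset_iff_subset_ne.mpr ⟨h2, h⟩⟩
  · rintro (rfl | ⟨h1, h2⟩)
    · exact ⟨hX, subset_rfl⟩
    · exact ⟨h1, h2.1⟩

lemma card_filter_subset {X : Finset V} (hX : X ∈ T) :
    (T.filter fun Y => Y ⊆ X).card = 1 + (T.filter fun Y => Y ⊂ X).card := by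
  rw [filter_subset_eq_insert hX, card_insert_of_notMem, add_comm]
  intro h
  rw [mem_filter] at h
  exact (lt_irrefl X) h.2

lemma OnlyChild.card {X Y : Finset V} (hX : X ∈ T) (h : OnlyChild T X Y) :
    (T.filter fun Z => Z ⊆ X).card = 1 + (T.filter fun Z => Z ⊆ Y).card := by
  rw [card_filter_subset hX]
  congr 2
  ext Z
  simp only [mem_filter]
  constructor
  · rintro ⟨h1, h2⟩
    exact ⟨h1, h.2.2 Z h1 h2⟩
  · rintro ⟨h1, h2⟩
    exact ⟨h1, lt_of_le_of_lt h2 h.2.1⟩

lemma lam_ind (hL : Laminar T) (hne : ∀ X ∈ T, X.Nonempty) (hμ : ∀ v, 0 ≤ μ v)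
    (P1 : ∀ X ∈ T, 1 ≤ ∑ v ∈ X, μ v)
    (P2 : ∀ X0 ∈ T, ∀ X1 X2 X3, OnlyChild T X0 X1 → OnlyChild T X1 X2 → OnlyChild T X2 X3 →
      1 ≤ ∑ v ∈ X0 \ X3, μ v) (X : Finset V) (hX : X ∈ T) :
    ((T.filter fun Y => Y ⊆ X).card : ℝ) ≤ 6 * ∑ v ∈ X, μ v - 3 ∧
      ((¬ ∃ Y, OnlyChild T X Y) →
        ((T.filter fun Y => Y ⊆ X).card : ℝ) ≤ 6 * ∑ v ∈ X, μ v - 5) := by
  induction X using Finset.strongInduction with
  | H X ih =>
    have hmono : ∀ Y, Y ⊆ X → ∑ v ∈ Y, μ v ≤ ∑ v ∈ X, μ v := fun Y hY =>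
      sum_le_sum_of_subset_of_nonneg hY fun v _ _ => hμ v
    by_cases hch : ∃ Y, OnlyChild T X Y
    · refine ⟨?_, fun h => absurd hch h⟩
      obtain ⟨X1, h1⟩ := hch
      have c1 := h1.card hX
      have i1 := ih X1 h1.2.1 h1.1
      have m1 := hmono X1 h1.2.1.1
      by_cases hch2 : ∃ Y, OnlyChild T X1 Y
      · obtain ⟨X2, h2⟩ := hch2
        have c2 := h2.card h1.1
        have hX2 : X2 ⊂ X := h2.2.1.trans h1.2.1
        have i2 := ih X2 hX2 h2.1
        have m2 := hmono X2 hX2.1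
        by_cases hch3 : ∃ Y, OnlyChild T X2 Y
        · obtain ⟨X3, h3⟩ := hch3
          have c3 := h3.card h2.1
          have hX3 : X3 ⊂ X := h3.2.1.trans hX2
          have i3 := ih X3 hX3 h3.1
          have p := P2 X hX X1 X2 X3 h1 h2 h3
          have hs := sum_sdiff (f := μ) hX3.1
          rw [c1, c2, c3]
          push_cast
          linarith [i3.1]
        · have := i2.2 hch3
          rw [c1, c2]
          push_cast
          linarith
      · have := i1.2 hch2
        rw [c1]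
        push_cast
        linarith
    · suffices h : ((T.filter fun Y => Y ⊆ X).card : ℝ) ≤ 6 * ∑ v ∈ X, μ v - 5 from
        ⟨by linarith, fun _ => h⟩
      rw [card_filter_subset hX]
      set S := T.filter fun Y => Y ⊂ X with hS
      have hST : S ⊆ T := filter_subset _ _
      have hSX : ∀ Y ∈ S, Y ⊂ X := fun Y hY => (mem_filter.mp hY).2
      rcases S.eq_empty_or_nonempty with hSe | hSn
      · rw [hSe, card_empty]
        push_cast
        linarith [P1 X hX]
      · have hLS : Laminar S := hL.mono hST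
        have hcard := card_maxF hLS (fun Y hY => hne Y (hST hY))
        have hsum := sum_maxF hLS hμ (fun Y hY => (hSX Y hY).1)
        have hterm : ∀ M ∈ maxF S, ((S.filter fun Y => Y ⊆ M).card : ℝ) ≤
            6 * ∑ v ∈ M, μ v - 3 := by
          intro M hM
          have hMS := maxF_subset S hM
          have h1 : (S.filter fun Y => Y ⊆ M) = T.filter fun Y => Y ⊆ M := by
            ext Y
            simp only [hS, mem_filter]
            constructor
            · rintro ⟨⟨h1, _⟩, h3⟩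
              exact ⟨h1, h3⟩
            · rintro ⟨h1, h3⟩
              exact ⟨⟨h1, lt_of_le_of_lt h3 (hSX M hMS)⟩, h3⟩
          rw [h1]
          exact (ih M (hSX M hMS) (hST hMS)).1
        have htwo : 2 ≤ (maxF S).card := by
          by_contra hlt
          push Not at hlt
          apply hch
          obtain ⟨Y, hY⟩ := hSn
          obtain ⟨M, hM, _⟩ := exists_maxF hY
          refine ⟨M, hST (maxF_subset S hM), hSX M (maxF_subset S hM), fun Z hZ hZX => ?_⟩
          obtain ⟨N, hN, hZN⟩ := exists_maxF (S := S) (mem_filter.mpr ⟨hZ, hZX⟩)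
          have : N = M := by
            have h1 : (maxF S).card ≤ 1 := by omega
            exact card_le_one.mp h1 N hN M hM
          rw [← this]
          exact hZN
        have h1 : (S.card : ℝ) ≤ ∑ M ∈ maxF S, (6 * ∑ v ∈ M, μ v - 3) := by
          rw [hcard]
          push_cast
          exact sum_le_sum hterm
        rw [sum_sub_distrib, ← mul_sum, sum_const, nsmul_eq_mul] at h1
        have h2 : (2 : ℝ) ≤ (maxF S).card := by exact_mod_cast htwo
        push_cast
        linarith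

/-- the number of members of a laminar family -/
theorem lam_count (hL : Laminar T) (hne : ∀ X ∈ T, X.Nonempty) (hμ : ∀ v, 0 ≤ μ v)
    (P1 : ∀ X ∈ T, 1 ≤ ∑ v ∈ X, μ v)
    (P2 : ∀ X0 ∈ T, ∀ X1 X2 X3, OnlyChild T X0 X1 → OnlyChild T X1 X2 → OnlyChild T X2 X3 →
      1 ≤ ∑ v ∈ X0 \ X3, μ v) {U : Finset V} (hU : ∀ X ∈ T, X ⊆ U) :
    (T.card : ℝ) ≤ 6 * ∑ v ∈ U, μ v := by
  have h1 := card_maxF hL hne
  have h2 := sum_maxF hL hμ hU
  have h3 : (T.card : ℝ) ≤ ∑ M ∈ maxF T, 6 * ∑ v ∈ M, μ v := by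
    rw [h1]
    push_cast
    refine sum_le_sum fun M hM => ?_
    have := (lam_ind hL hne hμ P1 P2 M (maxF_subset T hM)).1
    linarith
  rw [← mul_sum] at h3
  linarith

end

end Pool.Agent.Work.MP_60abc6_co.DEL
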