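import Mathlib
import Pool.Agent.Work.MP_60abc6_co.Cuts
import Pool.Agent.Work.MP_60abc6_co.DEL.Greedy

set_option autoImplicit false

/-! The phases: from a `j`-edge-connected spanning subgraph to a `(j+1)`-edge-connected one, at the
price of a laminar family. -/

namespace Pool.Agent.Work.MP_60abc6_co.DEL

open Finset

variable {V : Type*} [Fintype V] [DecidableEq V]

open Classical in
/-- the arcs of a graph -/
noncomputable def arcs (D : SimpleGraph V) : Finset (V × V) := univ.filter fun a => D.Adj a.1 a.2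

omit [DecidableEq V] in
lemma mem_arcs {D : SimpleGraph V} {a : V × V} : a ∈ arcs D ↔ D.Adj a.1 a.2 := by
  unfold arcs
  simp

/-- the laminar families of phase `j` -/
def PhaseFam (G F : SimpleGraph V) (r : V) (j : ℕ) (T : Finset (Finset V)) : Prop :=
  Laminar T ∧ (∀ X ∈ T, X.Nonempty ∧ r ∉ X ∧ dX F X = j) ∧
    ∀ a ∈ arcs (G \ F), ∀ X ∈ T, ∀ Y ∈ T, Enters a X → Enters a Y → X = Y

lemma EC.mono {j k : ℕ} {G : SimpleGraph V} (h : EC k G) (hjk : j ≤ k) : EC j G :=
  ⟨h.1, fun X hX hXu => hjk.trans (h.2 X hX hXu)⟩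

lemma dX_lt_of_enters {F F' : SimpleGraph V} (h : F ≤ F') {X : Finset V} {a : V × V}
    (ha : F'.Adj a.1 a.2) (ha' : ¬ F.Adj a.1 a.2) (hX : Enters a X) : dX F X < dX F' X := by
  classical
  unfold dX
  apply card_lt_card
  rw [Finset.ssubset_iff_of_subset]
  · refine ⟨(a.2, a.1), ?_, ?_⟩
    · rw [mem_filter, mem_product, mem_sdiff]
      exact ⟨⟨hX.1, mem_univ _, hX.2⟩, ha.symm⟩
    · rw [mem_filter, not_and]
      intro _ hh
      exact ha' hh.symm
  · intro p hp
    rw [mem_filter] at hp ⊢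
    exact ⟨hp.1, h hp.2⟩

lemma exists_arc_of_lt {F G : SimpleGraph V} {X : Finset V} (h : dX F X < dX G X) :
    ∃ a ∈ arcs (G \ F), Enters a X := by
  classical
  by_contra hcon
  push Not at hcon
  apply absurd h
  push Not
  unfold dX
  apply card_le_card
  intro p hp
  rw [mem_filter, mem_product, mem_sdiff] at hp ⊢
  refine ⟨hp.1, ?_⟩
  by_contra hF
  refine hcon (p.2, p.1) ?_ ⟨hp.1.1, hp.1.2.2⟩
  rw [mem_arcs, SimpleGraph.sdiff_adj]
  exact ⟨hp.2.symm, fun hh => hF hh.symm⟩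

omit [DecidableEq V] in
lemma ec_sup_le [DecidableEq V] (F : SimpleGraph V) (Z : Finset (V × V)) :
    ec (F ⊔ SimpleGraph.fromEdgeSet ((Z.image fun a => s(a.1, a.2) : Finset (Sym2 V)) : Set (Sym2 V)))
      ≤ ec F + Z.card := by
  classical
  unfold ec
  rw [SimpleGraph.edgeSet_sup, SimpleGraph.edgeSet_fromEdgeSet]
  refine (Set.ncard_union_le _ _).trans ?_
  have h1 : (((Z.image fun a => s(a.1, a.2) : Finset (Sym2 V)) : Set (Sym2 V)) \
      Sym2.diagSet).ncard ≤ Z.card := by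
    refine (Set.ncard_le_ncard Set.sdiff_subset (Set.toFinite _)).trans ?_
    rw [Set.ncard_coe_finset]
    exact card_image_le
  omega

/-- one phase -/
theorem phase {G F : SimpleGraph V} {j : ℕ} (r : V) (hFG : F ≤ G) (hG : EC (j + 1) G)
    (hF : EC j F) :
    ∃ T, PhaseFam G F r j T ∧ ∃ F', F ≤ F' ∧ F' ≤ G ∧ EC (j + 1) F' ∧ ec F' ≤ ec F + T.card := by
  classical
  set C : Finset (Finset V) := univ.filter fun X => X.Nonempty ∧ r ∉ X ∧ dX F X = j with hC
  have hCne : ∀ X ∈ C, X.Nonempty := fun X hX => (mem_filter.mp hX).2.1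
  have hnu : ∀ X : Finset V, r ∉ X → X ≠ univ := fun X hX h => hX (h ▸ mem_univ r)
  obtain ⟨Z, hZ, T, hT, hlam, hcard, hcov, hone⟩ := greedy (arcs (G \ F)) C hCne
    (by
      intro X hX Y hY hXY
      rw [hC, mem_filter] at hX hY
      rw [hC, mem_filter, mem_filter]
      have h1 := dX_submod F X Y
      have hrU : r ∉ X ∪ Y := by
        rw [notMem_union]
        exact ⟨hX.2.2.1, hY.2.2.1⟩
      have hrI : r ∉ X ∩ Y := fun h => hX.2.2.1 (mem_inter.mp h).1
      have h2 := hF.2 (X ∩ Y) hXY (hnu _ hrI)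
      have hUne : (X ∪ Y).Nonempty := hX.2.1.mono subset_union_left
      have h3 := hF.2 (X ∪ Y) hUne (hnu _ hrU)
      have h4 := hX.2.2.2
      have h5 := hY.2.2.2
      exact ⟨⟨mem_univ _, hXY, hrI, by omega⟩, mem_univ _, hUne, hrU, by omega⟩)
    (by
      intro X hX
      rw [hC, mem_filter] at hX
      apply exists_arc_of_lt
      have := hG.2 X hX.2.1 (hnu _ hX.2.2.1)
      have h4 := hX.2.2.2
      omega)
  refine ⟨T, ⟨hlam, fun X hX => (mem_filter.mp (hT hX)).2, hone⟩, ?_⟩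
  set F' : SimpleGraph V := F ⊔ SimpleGraph.fromEdgeSet
    ((Z.image fun a => s(a.1, a.2) : Finset (Sym2 V)) : Set (Sym2 V)) with hF'
  have hle : F ≤ F' := le_sup_left
  have hadj : ∀ a ∈ Z, F'.Adj a.1 a.2 := by
    intro a ha
    have h1 := hZ ha
    rw [mem_arcs] at h1
    rw [hF', SimpleGraph.sup_adj, SimpleGraph.fromEdgeSet_adj]
    right
    refine ⟨?_, h1.ne⟩
    rw [mem_coe, mem_image]
    exact ⟨a, ha, rfl⟩
  refine ⟨F', hle, ?_, ⟨hG.1, ?_⟩, ?_⟩
  · intro u v huv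
    rw [hF', SimpleGraph.sup_adj, SimpleGraph.fromEdgeSet_adj] at huv
    rcases huv with h | ⟨h, _⟩
    · exact hFG h
    · rw [mem_coe, mem_image] at h
      obtain ⟨a, ha, hae⟩ := h
      have h1 := hZ ha
      rw [mem_arcs, SimpleGraph.sdiff_adj] at h1
      rw [Sym2.eq_iff] at hae
      rcases hae with ⟨h2, h3⟩ | ⟨h2, h3⟩
      · rw [← h2, ← h3]
        exact h1.1
      · rw [← h2, ← h3]
        exact h1.1.symm
  · -- all cuts
    have key : ∀ X : Finset V, X.Nonempty → r ∉ X → j + 1 ≤ dX F' X := by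
      intro X hX hr
      have h1 := hF.2 X hX (hnu _ hr)
      by_cases hj : dX F X = j
      · obtain ⟨a, ha, haX⟩ := hcov X (mem_filter.mpr ⟨mem_univ _, hX, hr, hj⟩)
        have h2 := hZ ha
        rw [mem_arcs, SimpleGraph.sdiff_adj] at h2
        have := dX_lt_of_enters hle (hadj a ha) h2.2 haX
        omega
      · have h3 : dX F X ≤ dX F' X := by
          rw [dX_split hle]
          omega
        omega
    intro X hX hXu
    by_cases hr : r ∈ X
    · rw [← dX_compl]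
      refine key Xᶜ ?_ ?_
      · rw [nonempty_iff_ne_empty, ne_eq, compl_eq_empty_iff]
        exact hXu
      · rw [mem_compl, not_not]
        exact hr
    · exact key X hX hr
  · have := ec_sup_le F Z
    rw [← hF'] at this
    omega

/-- all phases -/
theorem phases {G M : SimpleGraph V} {l : ℕ} (r : V) (hMG : M ≤ G) (hG : EC l G) (B : ℕ → ℝ)
    (h : ∀ j < l, ∀ F, M ≤ F → F ≤ G → EC j F → (ec F : ℝ) ≤ ec M + ∑ i ∈ range j, B i →
      ∀ T, PhaseFam G F r j T → (T.card : ℝ) ≤ B j) :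
    ∃ H, M ≤ H ∧ H ≤ G ∧ EC l H ∧ (ec H : ℝ) ≤ ec M + ∑ i ∈ range l, B i := by
  have key : ∀ j ≤ l, ∃ F, M ≤ F ∧ F ≤ G ∧ EC j F ∧ (ec F : ℝ) ≤ ec M + ∑ i ∈ range j, B i := by
    intro j
    induction j with
    | zero =>
      intro _
      exact ⟨M, le_rfl, hMG, ⟨hG.1, fun X _ _ => Nat.zero_le _⟩, by simp⟩
    | succ j ih =>
      intro hj
      obtain ⟨F, hMF, hFG, hF, hec⟩ := ih (by omega)
      obtain ⟨T, hT, F', hFF', hF'G, hF', hec'⟩ := phase r hFG (EC.mono hG hj) hF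
      have h1 := h j (by omega) F hMF hFG hF hec T hT
      refine ⟨F', hMF.trans hFF', hF'G, hF', ?_⟩
      rw [sum_range_succ]
      have h2 : (ec F' : ℝ) ≤ ec F + T.card := by exact_mod_cast hec'
      linarith
  exact key l le_rfl

end Pool.Agent.Work.MP_60abc6_co.DEL
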