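import Mathlib
import Pool.Agent.Work.MP_60abc6_co.DEL.Phases
import Pool.Agent.Work.MP_60abc6_co.DEL.LamCount
import Pool.Agent.Work.MP_60abc6_co.EdgeB

set_option autoImplicit false

/-! Fixed `l`: from a subgraph `F0` which has degree `l` outside a set `Mk` of few marked vertices,
and whose small connected sets without marked vertices have at least `l` outer neighbours, to an
`l`-edge-connected subgraph. -/

namespace Pool.Agent.Work.MP_60abc6_co.DEL

open Finset

section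

variable {V : Type*} [Fintype V] [DecidableEq V]

omit [Fintype V] in
/-- a connected component inside `X` -/
lemma lamT_exists_comp (F : SimpleGraph V) {X : Finset V} (hX : X.Nonempty) :
    ∃ C : Finset V, C.Nonempty ∧ C ⊆ X ∧ (F.induce (C : Set V)).Connected ∧
      ∀ v ∈ C, ∀ y ∈ X, F.Adj v y → y ∈ C := by
  classical
  obtain ⟨x, hx⟩ := hX
  have h0 : ({x} : Finset V) ∈ X.powerset.filter fun C : Finset V => C.Nonempty ∧
      (F.induce (C : Set V)).Connected := by
    rw [mem_filter, mem_powerset]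
    refine ⟨by simpa using hx, singleton_nonempty _, ?_⟩
    rw [coe_singleton]
    exact SimpleGraph.Connected.of_subsingleton
  obtain ⟨C, hC, hmax⟩ := exists_max_image _ Finset.card ⟨_, h0⟩
  rw [mem_filter, mem_powerset] at hC
  obtain ⟨hCX, hne, hconn⟩ := hC
  refine ⟨C, hne, hCX, hconn, fun v hv y hy hvy => ?_⟩
  by_contra hyC
  have h1 : insert y C ∈ X.powerset.filter fun C : Finset V => C.Nonempty ∧
      (F.induce (C : Set V)).Connected := by
    rw [mem_filter, mem_powerset]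
    refine ⟨insert_subset hy hCX, insert_nonempty _ _, ?_⟩
    rw [coe_insert, Set.insert_eq]
    refine SimpleGraph.connected_induce_union (v := y) (w := v) ?_ hconn.preconnected
      (Set.mem_singleton y) (by simpa using hv) hvy.symm
    exact (SimpleGraph.Connected.of_subsingleton).preconnected
  have h2 := hmax _ h1
  rw [card_insert_of_notMem hyC] at h2
  omega

lemma lamT_dgc_sdiff {M H : SimpleGraph V} (h : M ≤ H) (v : V) :
    dgc H v = dgc M v + dgc (H \ M) v := by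
  rw [← dX_singleton, ← dX_singleton, ← dX_singleton, dX_split h]

omit [DecidableEq V] in
lemma lamT_nbrs (D : SimpleGraph V) (v : V) :
    ∃ N : Finset V, (∀ u ∈ N, D.Adj v u) ∧ N.card = dgc D v := by
  classical
  exact ⟨univ.filter (D.Adj v), fun u hu => (mem_filter.mp hu).2, by unfold dgc; congr⟩

open Classical in
lemma lamT_dX_ge {F0 : SimpleGraph V} {Mk : Finset V} {l g : ℕ}
    (hfor : ∀ C : Finset V, C.Nonempty → Disjoint C Mk → C.card < g →
      (F0.induce (C : Set V)).Connected →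
      l ≤ (univ.filter fun y => y ∉ C ∧ ∃ v ∈ C, F0.Adj v y).card)
    {X : Finset V} (hX : X.Nonempty) (hd : Disjoint X Mk) (hc : X.card < g) : l ≤ dX F0 X := by
  obtain ⟨C, hne, hCX, hconn, hcl⟩ := lamT_exists_comp F0 hX
  have h1 := hfor C hne (hd.mono_left hCX) ((card_le_card hCX).trans_lt hc) hconn
  refine h1.trans ?_
  unfold dX
  refine (card_le_card ?_).trans (card_image_le (f := Prod.snd))
  intro y hy
  rw [mem_filter] at hy
  obtain ⟨-, hyC, v, hv, hvy⟩ := hy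
  rw [mem_image]
  refine ⟨(v, y), ?_, rfl⟩
  rw [mem_filter, mem_product, mem_sdiff]
  exact ⟨⟨hCX hv, mem_univ _, fun hyX => hyC (hcl v hv y hyX hvy)⟩, hvy⟩

/-- the vertices which have lost many edges -/
lemma lamT_bad {G F F0 : SimpleGraph V} {k l : ℕ} (hF0 : F0 ≤ F) (hF : F ≤ G)
    (hlk : 4 * l ≤ k) (hdeg : ∀ v, k ≤ dgc G v) (Mk : Finset V) (hMk : ∀ v, v ∉ Mk → dgc F0 v = l) :
    k * (univ.filter fun v => v ∉ Mk ∧ 2 * dgc (G \ F) v < k).card + 8 * ec F0 ≤ 8 * ec F := by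
  have h1 : ∀ v ∈ (univ.filter fun v => v ∉ Mk ∧ 2 * dgc (G \ F) v < k), k ≤
      4 * dgc (F \ F0) v := by
    intro v hv
    rw [mem_filter] at hv
    obtain ⟨-, hvM, hv2⟩ := hv
    have a1 := lamT_dgc_sdiff hF v
    have a2 := lamT_dgc_sdiff hF0 v
    have a3 := hMk v hvM
    have a4 := hdeg v
    omega
  have h2 : (univ.filter fun v => v ∉ Mk ∧ 2 * dgc (G \ F) v < k).card * k ≤
      ∑ v, 4 * dgc (F \ F0) v := by
    refine le_trans (card_nsmul_le_sum _ _ _ h1 |>.trans' (le_of_eq ?_)) (sum_le_sum_of_subset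
      (subset_univ _))
    rw [smul_eq_mul]
  rw [← mul_sum, ← two_mul_ec] at h2
  have h3 := ec_sdiff hF0
  rw [h3]
  linarith [h2]

open Classical in
/-- the laminar families of phase `j` are small -/
theorem lamT_count {G F F0 : SimpleGraph V} {r : V} {j k l g : ℕ} (hF0 : F0 ≤ F) (hF : F ≤ G)
    (hlk : 4 * l ≤ k) (hk : 1 ≤ k) (hg : 1 ≤ g) (hj : j < l) (hdeg : ∀ v, k ≤ dgc G v)
    (Mk : Finset V) (hMk : ∀ v, v ∉ Mk → dgc F0 v = l)
    (hfor : ∀ C : Finset V, C.Nonempty → Disjoint C Mk → C.card < g →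
      (F0.induce (C : Set V)).Connected →
      l ≤ (univ.filter fun y => y ∉ C ∧ ∃ v ∈ C, F0.Adj v y).card)
    {T : Finset (Finset V)} (hT : PhaseFam G F r j T) :
    (T.card : ℝ) ≤ 6 * (Mk.card + 8 / k * ((ec F : ℝ) - ec F0) + Fintype.card V / g +
      2 * Fintype.card V / k) := by
  have hkr : (0 : ℝ) < k := by exact_mod_cast hk
  have hgr : (0 : ℝ) < g := by exact_mod_cast hg
  set bad : Finset V := univ.filter fun v => v ∉ Mk ∧ 2 * dgc (G \ F) v < k with hbad
  have hbc := lamT_bad hF0 hF hlk hdeg Mk hMk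
  rw [← hbad] at hbc
  set μ : V → ℝ := fun v => (if v ∈ Mk then 1 else 0) + (if v ∈ bad then 1 else 0) + 1 / g + 2 / k
    with hμdef
  have hμ0 : ∀ v, 0 ≤ μ v := by
    intro v
    simp only [hμdef]
    have h1 : (0 : ℝ) ≤ if v ∈ Mk then 1 else 0 := by split_ifs <;> norm_num
    have h2 : (0 : ℝ) ≤ if v ∈ bad then 1 else 0 := by split_ifs <;> norm_num
    positivity
  have hμM : ∀ v ∈ Mk, 1 ≤ μ v := by
    intro v hv
    simp only [hμdef]
    have h2 : (0 : ℝ) ≤ if v ∈ bad then 1 else 0 := by split_ifs <;> norm_num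
    have h3 : (0 : ℝ) ≤ 1 / g := by positivity
    have h4 : (0 : ℝ) ≤ 2 / k := by positivity
    rw [if_pos hv]
    linarith
  have hμb : ∀ v ∈ bad, 1 ≤ μ v := by
    intro v hv
    simp only [hμdef]
    have h2 : (0 : ℝ) ≤ if v ∈ Mk then 1 else 0 := by split_ifs <;> norm_num
    have h3 : (0 : ℝ) ≤ 1 / g := by positivity
    have h4 : (0 : ℝ) ≤ 2 / k := by positivity
    rw [if_pos hv]
    linarith
  have hμg : ∀ v, 1 / (g : ℝ) ≤ μ v := by
    intro v
    simp only [hμdef]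
    have h1 : (0 : ℝ) ≤ if v ∈ Mk then 1 else 0 := by split_ifs <;> norm_num
    have h2 : (0 : ℝ) ≤ if v ∈ bad then 1 else 0 := by split_ifs <;> norm_num
    have h4 : (0 : ℝ) ≤ 2 / k := by positivity
    linarith
  have hμk : ∀ v, 2 / (k : ℝ) ≤ μ v := by
    intro v
    simp only [hμdef]
    have h1 : (0 : ℝ) ≤ if v ∈ Mk then 1 else 0 := by split_ifs <;> norm_num
    have h2 : (0 : ℝ) ≤ if v ∈ bad then 1 else 0 := by split_ifs <;> norm_num
    have h3 : (0 : ℝ) ≤ 1 / g := by positivity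
    linarith
  have hone : ∀ (X : Finset V) (v : V), v ∈ X → 1 ≤ μ v → 1 ≤ ∑ v ∈ X, μ v := fun X v hv h =>
    h.trans (single_le_sum (fun u _ => hμ0 u) hv)
  have key := lam_count (T := T) (μ := μ) hT.1 (fun X hX => (hT.2.1 X hX).1) hμ0
    (fun X hX => by
      by_cases hd : Disjoint X Mk
      · by_cases hc : X.card < g
        · have h1 := lamT_dX_ge hfor (hT.2.1 X hX).1 hd hc
          have h2 := dX_mono hF0 X
          have h3 := (hT.2.1 X hX).2.2
          omega
        · push Not at hc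
          have h1 : (X.card : ℝ) * (1 / g) ≤ ∑ v ∈ X, μ v := by
            rw [← nsmul_eq_mul]
            exact card_nsmul_le_sum _ _ _ fun v _ => hμg v
          refine le_trans ?_ h1
          rw [mul_one_div, le_div_iff₀ hgr, one_mul]
          exact_mod_cast hc
      · rw [not_disjoint_iff] at hd
        obtain ⟨v, hvX, hvM⟩ := hd
        exact hone X v hvX (hμM v hvM))
    (fun X0 h0 X1 X2 X3 h1 h2 h3 => by
      obtain ⟨v, hv1, hv2⟩ := exists_of_ssubset h2.2.1
      have hv0 : v ∈ X0 := h1.2.1.1 hv1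
      have hv3 : v ∉ X3 := fun h => hv2 (h3.2.1.1 h)
      have hv03 : v ∈ X0 \ X3 := mem_sdiff.mpr ⟨hv0, hv3⟩
      by_cases hvM : v ∈ Mk
      · exact hone _ v hv03 (hμM v hvM)
      by_cases hvb : v ∈ bad
      · exact hone _ v hv03 (hμb v hvb)
      have hdeg2 : k ≤ 2 * dgc (G \ F) v := by
        by_contra hlt
        push Not at hlt
        exact hvb (mem_filter.mpr ⟨mem_univ _, hvM, hlt⟩)
      obtain ⟨N, hN, hNc⟩ : ∃ N : Finset V, (∀ u ∈ N, (G \ F).Adj v u) ∧
          N.card = dgc (G \ F) v := lamT_nbrs _ v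
      have hsub : N ⊆ X0 \ X3 := by
        intro u hu
        have huv := hN u hu
        rw [mem_sdiff]
        constructor
        · by_contra hu0
          have h4 := hT.2.2 (u, v) (mem_arcs.mpr huv.symm) X0 h0 X1 h1.1 ⟨hv0, hu0⟩
            ⟨hv1, fun h => hu0 (h1.2.1.1 h)⟩
          exact absurd h4.symm h1.2.1.ne
        · intro hu3
          have h4 := hT.2.2 (v, u) (mem_arcs.mpr huv) X2 h2.1 X3 h3.1
            ⟨h3.2.1.1 hu3, hv2⟩ ⟨hu3, hv3⟩
          exact absurd h4.symm h3.2.1.ne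
      have h5 : (N.card : ℝ) * (2 / k) ≤ ∑ v ∈ X0 \ X3, μ v := by
        rw [← nsmul_eq_mul]
        exact (card_nsmul_le_sum _ _ _ fun u _ => hμk u).trans
          (sum_le_sum_of_subset_of_nonneg hsub fun u _ _ => hμ0 u)
      refine le_trans ?_ h5
      rw [mul_div_assoc', le_div_iff₀ hkr, one_mul, hNc]
      have h6 : (k : ℝ) ≤ ((2 * dgc (G \ F) v : ℕ) : ℝ) := by exact_mod_cast hdeg2
      push_cast at h6
      linarith)
    (U := univ) (fun X _ => subset_univ X)
  have hsum : ∑ v, μ v = Mk.card + bad.card + Fintype.card V / g + 2 * Fintype.card V / k := by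
    simp only [hμdef]
    rw [sum_add_distrib, sum_add_distrib, sum_add_distrib, sum_const, sum_const, sum_ite_mem,
      sum_ite_mem, univ_inter, univ_inter, sum_const, sum_const, card_univ]
    simp only [nsmul_eq_mul, mul_one]
    ring
  have hbc' : (k : ℝ) * bad.card + 8 * ec F0 ≤ 8 * ec F := by exact_mod_cast hbc
  have hb2 : (bad.card : ℝ) ≤ 8 / k * ((ec F : ℝ) - ec F0) := by
    rw [div_mul_eq_mul_div, le_div_iff₀ hkr]
    linarith
  rw [hsum] at key
  linarith

open Classical in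
/-- all phases for fixed `l` -/
theorem fixed_phases {G F0 : SimpleGraph V} {k l g : ℕ} (hF0 : F0 ≤ G) (hlk : 96 * l ≤ k)
    (hlk' : l ≤ k) (hk : 1 ≤ k) (hg : 1 ≤ g) (hG : EC k G) (Mk : Finset V)
    (hMk : ∀ v, v ∉ Mk → dgc F0 v = l)
    (hfor : ∀ C : Finset V, C.Nonempty → Disjoint C Mk → C.card < g →
      (F0.induce (C : Set V)).Connected →
      l ≤ (univ.filter fun y => y ∉ C ∧ ∃ v ∈ C, F0.Adj v y).card) :
    ∃ H : SimpleGraph V, H ≤ G ∧ EC l H ∧
      (ec H : ℝ) ≤ ec F0 + 12 * l * (Mk.card + Fintype.card V / g + 2 * Fintype.card V / k) := by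
  have hkr : (0 : ℝ) < k := by exact_mod_cast hk
  have hgr : (0 : ℝ) < g := by exact_mod_cast hg
  have hne : Nonempty V := by
    have := hG.1
    exact Fintype.card_pos_iff.mp (by omega)
  obtain ⟨r⟩ := hne
  set Q : ℝ := Mk.card + Fintype.card V / g + 2 * Fintype.card V / k with hQ
  have hQ0 : 0 ≤ Q := by positivity
  obtain ⟨H, -, hHG, hH, hec⟩ := phases r hF0 (hG.mono hlk') (fun _ => 12 * Q) (by
    intro j hj F hMF hFG _ hecF T hT
    have h1 := lamT_count hMF hFG (by omega) hk hg hj (fun v => hG.min_degree v) Mk hMk hfor hT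
    rw [sum_const, card_range, nsmul_eq_mul] at hecF
    have hjl : (j : ℝ) ≤ l := by exact_mod_cast hj.le
    have hlk2 : 96 * (l : ℝ) ≤ k := by exact_mod_cast hlk
    have h2 : (ec F : ℝ) - ec F0 ≤ k / 96 * (12 * Q) := by
      have h3 : (j : ℝ) * (12 * Q) ≤ k / 96 * (12 * Q) :=
        mul_le_mul_of_nonneg_right (by linarith) (by positivity)
      linarith
    have h4 : 8 / (k : ℝ) * ((ec F : ℝ) - ec F0) ≤ Q := by
      calc 8 / (k : ℝ) * ((ec F : ℝ) - ec F0) ≤ 8 / (k : ℝ) * (k / 96 * (12 * Q)) :=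
            mul_le_mul_of_nonneg_left h2 (by positivity)
        _ = Q := by field_simp; ring
    have h5 : (T.card : ℝ) ≤ 6 * (Q + 8 / (k : ℝ) * ((ec F : ℝ) - ec F0)) := by
      refine h1.trans (le_of_eq ?_)
      rw [hQ]
      ring
    linarith)
  refine ⟨H, hHG, hH, hec.trans (le_of_eq ?_)⟩
  rw [sum_const, card_range, nsmul_eq_mul]
  ring

end

open Classical in
/-- `λ` for fixed `l`; the hypothesis is `coreT l hl`. -/
theorem fixed_l_of_core (l : ℕ) (hl : 1 ≤ l)
    (core : ∀ (c1 : ℝ) (g : ℕ) (e : ℝ), 0 < e → ∃ k0 : ℕ, ∀ k ≥ k0, ∀ n > k,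
      ∀ G : SimpleGraph (Fin n), (∀ v, k ≤ dgc G v) → ∃ (F0 : SimpleGraph (Fin n))
        (Mk : Finset (Fin n)), F0 ≤ G ∧ (∀ v, v ∉ Mk → dgc F0 v = l) ∧
        (∀ C : Finset (Fin n), C.Nonempty → Disjoint C Mk → C.card < g →
          (F0.induce (C : Set (Fin n))).Connected →
          l ≤ (univ.filter fun y => y ∉ C ∧ ∃ v ∈ C, F0.Adj v y).card) ∧
        (ec F0 : ℝ) + c1 * Mk.card + ((k : ℝ) - l) / 2 * n ≤ ec G + e * n)
    (ε : ℝ) (hε : 0 < ε) : ∃ k0 : ℕ, ∀ k ≥ k0, ∀ n : ℕ,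
    k < n → ∀ G : SimpleGraph (Fin n), EC k G → ∃ H : SimpleGraph (Fin n), H ≤ G ∧ EC l H ∧
      (ec H : ℝ) + ((k : ℝ) - l) / 2 * n ≤ ec G + ε * n := by
  have hlr : (1 : ℝ) ≤ l := by exact_mod_cast hl
  obtain ⟨g, hg⟩ := exists_nat_gt (36 * l / ε)
  have hg0 : (0 : ℝ) < g := lt_trans (by positivity) hg
  have hg1 : 1 ≤ g := by exact_mod_cast hg0
  obtain ⟨k1, hk1⟩ := core (12 * l) g (ε / 3) (by positivity)
  obtain ⟨k2, hk2⟩ := exists_nat_gt (72 * l / ε)
  refine ⟨max k1 (max k2 (96 * l)), fun k hk n hn G hG => ?_⟩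
  have hkk1 : k1 ≤ k := (le_max_left _ _).trans hk
  have hkk2 : k2 ≤ k := ((le_max_left _ _).trans (le_max_right _ _)).trans hk
  have hk96 : 96 * l ≤ k := ((le_max_right _ _).trans (le_max_right _ _)).trans hk
  obtain ⟨F0, Mk, hF0, hMk, hfor, hec⟩ := hk1 k hkk1 n hn G (fun v => hG.min_degree v)
  obtain ⟨H, hHG, hH, hecH⟩ := fixed_phases hF0 hk96 (by omega) (by omega) hg1 hG Mk hMk
    (fun C h1 h2 h3 h4 => by convert hfor C h1 h2 h3 h4)
  refine ⟨H, hHG, hH, ?_⟩
  rw [Fintype.card_fin] at hecH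
  have hkr : (0 : ℝ) < k := by
    have : 0 < k := by omega
    exact_mod_cast this
  have hkk : 72 * l / ε < k := hk2.trans_le (by exact_mod_cast hkk2)
  have hn0 : (0 : ℝ) ≤ n := Nat.cast_nonneg n
  have h1 : 12 * (l : ℝ) * (n / g) ≤ ε / 3 * n := by
    rw [mul_div_assoc', div_le_iff₀ hg0]
    rw [div_lt_iff₀ hε] at hg
    nlinarith
  have h2 : 12 * (l : ℝ) * (2 * n / k) ≤ ε / 3 * n := by
    rw [mul_div_assoc', div_le_iff₀ hkr]
    rw [div_lt_iff₀ hε] at hkk
    nlinarith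
  nlinarith

end Pool.Agent.Work.MP_60abc6_co.DEL
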