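import Mathlib
import Pool.Agent.Work.MP_60abc6_co.Low

set_option autoImplicit false

/-! From spanning subgraphs to the numbers `eLambda`, `eKappa`, with real bounds. -/

namespace Pool.Agent.Work.MP_60abc6_co.DEL

open Finset

lemma add_ceil_le {a b : ℕ} {x : ℝ} (h : (a : ℝ) + x ≤ b) : a + ⌈x⌉₊ ≤ b ∨ x ≤ 0 := by
  by_cases hx : x ≤ 0
  · exact Or.inr hx
  · left
    have h1 : a ≤ b := by
      have : (a : ℝ) ≤ b := by
        push Not at hx
        linarith
      exact_mod_cast this
    have h2 : ⌈x⌉₊ ≤ b - a := by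
      rw [Nat.ceil_le, Nat.cast_sub h1]
      linarith
    omega

/-- from subgraphs to the number `eLambda` -/
theorem lambda_ge {n k l : ℕ} (hlk : l < k) (hk : k < n) (x : ℝ)
    (h : ∀ G : SimpleGraph (Fin n), EC k G → ∃ H : SimpleGraph (Fin n), H ≤ G ∧ EC l H ∧
      (ec H : ℝ) + x ≤ ec G) : x ≤ eLambda n k l := by
  by_cases hx : x ≤ 0
  · exact hx.trans (Nat.cast_nonneg _)
  · have h1 : ⌈x⌉₊ ≤ eLambda n k l := by
      refine lambda_of_bound hlk hk fun G hG => ?_
      obtain ⟨H, h1, h2, h3⟩ := h G hG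
      exact ⟨H, h1, h2, (add_ceil_le h3).resolve_right hx⟩
    exact (Nat.le_ceil x).trans (by exact_mod_cast h1)

/-- from subgraphs to the number `eKappa` -/
theorem kappa_ge {n k l : ℕ} (hlk : l < k) (hk : k < n) (x : ℝ)
    (h : ∀ G : SimpleGraph (Fin n), KC k G → ∃ H : SimpleGraph (Fin n), H ≤ G ∧ KC l H ∧
      (ec H : ℝ) + x ≤ ec G) : x ≤ eKappa n k l := by
  by_cases hx : x ≤ 0
  · exact hx.trans (Nat.cast_nonneg _)
  · have h1 : ⌈x⌉₊ ≤ eKappa n k l := by
      refine kappa_of_bound hlk hk fun G hG => ?_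
      obtain ⟨H, h1, h2, h3⟩ := h G hG
      exact ⟨H, h1, h2, (add_ceil_le h3).resolve_right hx⟩
    exact (Nat.le_ceil x).trans (by exact_mod_cast h1)

lemma mul_le_two_ec {n l : ℕ} {H : SimpleGraph (Fin n)} (h : ∀ v, l ≤ dgc H v) :
    l * n ≤ 2 * ec H := by
  rw [two_mul_ec]
  calc l * n = ∑ _v : Fin n, l := by simp [mul_comm]
    _ ≤ _ := sum_le_sum fun v _ => h v

/-- the upper bound from one sparse `k`-edge-connected graph -/
theorem lambda_le {n k l : ℕ} (hlk : l < k) (G : SimpleGraph (Fin n)) (hG : EC k G) :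
    (eLambda n k l : ℝ) ≤ ec G - (l : ℝ) * n / 2 := by
  have hdegG : l * n ≤ 2 * ec G := mul_le_two_ec fun v => hlk.le.trans (hG.min_degree v)
  have h1 : eLambda n k l ≤ ec G - (l * n + 1) / 2 := by
    unfold eLambda
    refine sSup_delete_le (P := KEdgeConnected l) (Q := KEdgeConnected k) (G := G) ?_ ?_ ?_
    · rw [KEdgeConnected_iff_EC]
      exact hG
    · intro H _ hH
      rw [KEdgeConnected_iff_EC] at hH
      have := mul_le_two_ec fun v => hH.min_degree v
      omega
    · intro G' hG'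
      rw [KEdgeConnected_iff_EC] at hG' ⊢
      exact hG'.mono hlk.le
  have h2 : 2 * eLambda n k l + l * n ≤ 2 * ec G := by omega
  have h3 : (2 : ℝ) * eLambda n k l + l * n ≤ 2 * ec G := by exact_mod_cast h2
  linarith

/-- the upper bound from one sparse `k`-connected graph -/
theorem kappa_le {n k l : ℕ} (hlk : l < k) (G : SimpleGraph (Fin n)) (hG : KC k G) :
    (eKappa n k l : ℝ) ≤ ec G - (l : ℝ) * n / 2 := by
  have hdegG : l * n ≤ 2 * ec G := mul_le_two_ec fun v => hlk.le.trans (hG.min_degree v)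
  have h1 : eKappa n k l ≤ ec G - (l * n + 1) / 2 := by
    unfold eKappa
    refine sSup_delete_le (P := KConnected l) (Q := KConnected k) (G := G) ?_ ?_ ?_
    · rw [KConnected_iff_KC]
      exact hG
    · intro H _ hH
      rw [KConnected_iff_KC] at hH
      have := mul_le_two_ec fun v => hH.min_degree v
      omega
    · intro G' hG'
      rw [KConnected_iff_KC] at hG' ⊢
      exact hG'.mono hlk.le
  have h2 : 2 * eKappa n k l + l * n ≤ 2 * ec G := by omega
  have h3 : (2 : ℝ) * eKappa n k l + l * n ≤ 2 * ec G := by exact_mod_cast h2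
  linarith

end Pool.Agent.Work.MP_60abc6_co.DEL
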