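import Pool.Agent.Work.MP_60abc6_co.Trans

set_option autoImplicit false

/-! The upper bounds for both numbers from a sparse `k`-connected graph. -/

namespace Pool.Agent.Work.MP_60abc6_co.DEL

open Finset Pool.Agent.Work.MP_60abc6_co

/-- the number of edges of an `l`-edge-connected graph on `n` vertices -/
theorem ec_ge {n l : ℕ} {H : SimpleGraph (Fin n)} (hH : EC l H) : (l * n + 1) / 2 ≤ ec H := by
  have h1 : l * n ≤ 2 * ec H := by
    rw [two_mul_ec]
    calc l * n = ∑ _v : Fin n, l := by
          rw [sum_const, card_univ, Fintype.card_fin, smul_eq_mul, mul_comm]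
      _ ≤ _ := sum_le_sum fun v _ => hH.min_degree v
  omega

/-- Both numbers are at most `⌈kn/2⌉ - ⌈ln/2⌉`, given a `k`-connected graph with `⌈kn/2⌉` edges. -/
theorem sharp_upper {n k l : ℕ} (hl : 1 ≤ l) (hlk : l < k)
    (h : ∃ G : SimpleGraph (Fin n), KC k G ∧ 2 * ec G ≤ k * n + 1) :
    eKappa n k l ≤ (k * n + 1) / 2 - (l * n + 1) / 2 ∧
      eLambda n k l ≤ (k * n + 1) / 2 - (l * n + 1) / 2 := by
  classical
  obtain ⟨G, hG, hec⟩ := h
  have hb : ∀ H : SimpleGraph (Fin n), H ≤ G → EC l H →
      ec G ≤ ec H + ((k * n + 1) / 2 - (l * n + 1) / 2) := by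
    intro H _ hE
    have h1 := ec_ge hE
    omega
  constructor
  · unfold eKappa
    refine sSup_delete_le (P := KConnected l) (Q := KConnected k) (G := G) ?_ ?_ ?_
    · rw [KConnected_iff_KC]
      exact hG
    · intro H hH hHl
      rw [KConnected_iff_KC] at hHl
      exact hb H hH (hHl.EC hl)
    · intro G' hG'
      rw [KConnected_iff_KC] at hG' ⊢
      exact hG'.mono hlk.le
  · unfold eLambda
    refine sSup_delete_le (P := KEdgeConnected l) (Q := KEdgeConnected k) (G := G) ?_ ?_ ?_
    · rw [KEdgeConnected_iff_EC]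
      exact hG.EC (by omega)
    · intro H hH hHl
      rw [KEdgeConnected_iff_EC] at hHl
      exact hb H hH hHl
    · intro G' hG'
      rw [KEdgeConnected_iff_EC] at hG' ⊢
      exact hG'.mono hlk.le

end Pool.Agent.Work.MP_60abc6_co.DEL
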