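import Pool.Agent.Work.MP_60abc6_co.DEL.Compose
import Pool.Agent.Work.MP_60abc6_co.DEL.CoreT
import Pool.Agent.Work.MP_60abc6_co.DEL.LamT
import Pool.Agent.Work.MP_60abc6_co.DEL.Num
import Pool.Agent.Work.MP_60abc6_co.DEL.Harary
import Pool.Agent.Work.MP_60abc6_co.DEL.Sharp
import Pool.Agent.Work.MP_60abc6_co.KAP.KMain

set_option autoImplicit false

/-! The asymptotic values of `e_λ(n; k, l)` and `e_κ(n; k, l)`. -/

namespace Pool.Agent.Work.MP_60abc6_co.DEL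

open Finset

/-- from the natural number bound to the real one -/
lemma real_of_sharp {e k l n : ℕ} (hlk : l < k) (h : e ≤ (k * n + 1) / 2 - (l * n + 1) / 2) :
    (e : ℝ) ≤ ((k : ℝ) - l) * n / 2 + 1 / 2 := by
  have h1 : l * n ≤ k * n := Nat.mul_le_mul_right _ hlk.le
  have h2 : 2 * e + l * n ≤ k * n + 1 := by omega
  have h3 : 2 * (e : ℝ) + l * n ≤ k * n + 1 := by exact_mod_cast h2
  linarith

theorem lambda_up {n k l : ℕ} (hl : 1 ≤ l) (hlk : l < k) (hkn : k < n) :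
    (eLambda n k l : ℝ) ≤ ((k : ℝ) - l) * n / 2 + 1 / 2 :=
  real_of_sharp hlk (sharp_upper hl hlk (harary (by omega) hkn)).2

theorem kappa_up {n k l : ℕ} (hl : 1 ≤ l) (hlk : l < k) (hkn : k < n) :
    (eKappa n k l : ℝ) ≤ ((k : ℝ) - l) * n / 2 + 1 / 2 :=
  real_of_sharp hlk (sharp_upper hl hlk (harary (by omega) hkn)).1

lemma one_le_mul_eps {n l : ℕ} (hl : 1 ≤ l) (hln : l ≤ n) : 1 ≤ (n : ℝ) * eps l := by
  have hl1 : (1 : ℝ) ≤ l := by exact_mod_cast hl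
  have h1 : (l : ℝ)⁻¹ ≤ eps l := by
    rw [← Real.rpow_neg_one]
    exact Real.rpow_le_rpow_of_exponent_le hl1 (by norm_num)
  have h2 : (l : ℝ) ≤ n := by exact_mod_cast hln
  have h3 : (1 : ℝ) = l * (l : ℝ)⁻¹ := by
    rw [mul_inv_cancel₀ (by linarith)]
  rw [h3]
  exact mul_le_mul h2 h1 (by positivity) (by linarith)

/-- **Theorem A.** -/
theorem asymptotic_l : ∃ C : ℝ, 0 < C ∧ ∀ n k l : ℕ, 1 ≤ l → l < k → k < n →
    |(eLambda n k l : ℝ) - ((k : ℝ) - l) * n / 2| ≤ C * n * (l : ℝ) ^ (-(1 / 20 : ℝ)) := by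
  obtain ⟨C, hC, h⟩ := all_steps
  refine ⟨C + 1, by linarith, fun n k l hl hlk hkn => ?_⟩
  have h1 := one_le_mul_eps hl (by omega : l ≤ n)
  have h2 : (C + 1) * (n : ℝ) * (l : ℝ) ^ (-(1 / 20 : ℝ)) = C * eps l * n + n * eps l := by
    unfold eps
    ring
  have h3 : 0 ≤ C * eps l * n := by
    have := eps_pos hl
    positivity
  rw [h2, abs_le]
  constructor
  · have h4 : ((k : ℝ) - l) / 2 * n - C * eps l * n ≤ eLambda n k l := by
      refine lambda_ge hlk hkn _ fun G hG => ?_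
      obtain ⟨H, h5, h6, h7⟩ := h k l n hl hlk hkn G hG
      exact ⟨H, h5, h6, by linarith⟩
    linarith
  · have h4 := lambda_up hl hlk hkn
    linarith

/-- `λ` for fixed `l` -/
theorem fixed_l (l : ℕ) (hl : 2 ≤ l) (ε : ℝ) (hε : 0 < ε) : ∃ k0 : ℕ, ∀ k ≥ k0, ∀ n : ℕ,
    k < n → ∀ G : SimpleGraph (Fin n), EC k G → ∃ H : SimpleGraph (Fin n), H ≤ G ∧ EC l H ∧
      (ec H : ℝ) + ((k : ℝ) - l) / 2 * n ≤ ec G + ε * n :=
  fixed_l_of_core l (by omega) (fun c1 g e he => coreT l hl c1 g e he) ε hε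

/-- **Theorem B.** -/
theorem asymptotic_k : ∀ ε : ℝ, 0 < ε → ∃ k₀ : ℕ, ∀ n k l : ℕ, k₀ ≤ k → 2 ≤ l → l < k → k < n →
    |(eLambda n k l : ℝ) - ((k : ℝ) - l) * n / 2| ≤ ε * n := by
  intro ε hε
  obtain ⟨C, hC, hA⟩ := asymptotic_l
  obtain ⟨L, hL⟩ := eps_small (ε / C) (by positivity)
  choose! f hf using fun (l : ℕ) (hl : 2 ≤ l) => fixed_l l hl ε hε
  obtain ⟨k1, hk1⟩ := exists_nat_gt (1 / ε)
  refine ⟨max k1 ((range L).sup f), fun n k l hk hl hlk hkn => ?_⟩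
  have hkk1 : k1 ≤ k := (le_max_left _ _).trans hk
  have hkk2 : (range L).sup f ≤ k := (le_max_right _ _).trans hk
  rcases le_or_gt L l with h | h
  · refine (hA n k l (by omega) hlk hkn).trans ?_
    have h1 : (l : ℝ) ^ (-(1 / 20 : ℝ)) ≤ ε / C := hL l h
    have h2 : C * (n : ℝ) * (l : ℝ) ^ (-(1 / 20 : ℝ)) ≤ C * n * (ε / C) :=
      mul_le_mul_of_nonneg_left h1 (by positivity)
    have h3 : C * (n : ℝ) * (ε / C) = ε * n := by
      field_simp
    linarith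
  · have hfl : f l ≤ k := (Finset.le_sup (f := f) (mem_range.2 h)).trans hkk2
    rw [abs_le]
    constructor
    · have h4 : ((k : ℝ) - l) / 2 * n - ε * n ≤ eLambda n k l := by
        refine lambda_ge hlk hkn _ fun G hG => ?_
        obtain ⟨H, h5, h6, h7⟩ := hf l hl k hfl n hkn G hG
        exact ⟨H, h5, h6, by linarith⟩
      linarith
    · have h4 := lambda_up (by omega) hlk hkn
      have h5 : 1 / ε ≤ n := hk1.le.trans (by exact_mod_cast (by omega : k1 ≤ n))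
      rw [div_le_iff₀ hε] at h5
      linarith

/-- **Theorem C.** -/
theorem asymptotic_kappa : ∀ (l : ℕ), 2 ≤ l → ∀ ε : ℝ, 0 < ε → ∃ k₀ : ℕ, ∀ n k : ℕ, k₀ ≤ k →
    l < k → k < n → |(eKappa n k l : ℝ) - ((k : ℝ) - l) * n / 2| ≤ ε * n := by
  intro l hl ε hε
  obtain ⟨k2, hk2⟩ := KAP.eKappa_lower l hl ε hε
  obtain ⟨k1, hk1⟩ := exists_nat_gt (1 / ε)
  refine ⟨max k1 k2, fun n k hk hlk hkn => ?_⟩
  have hkk1 : k1 ≤ k := (le_max_left _ _).trans hk
  have hkk2 : k2 ≤ k := (le_max_right _ _).trans hk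
  rw [abs_le]
  constructor
  · have h4 := hk2 k hkk2 n hkn
    linarith
  · have h4 := kappa_up (by omega) hlk hkn
    have h5 : 1 / ε ≤ n := hk1.le.trans (by exact_mod_cast (by omega : k1 ≤ n))
    rw [div_le_iff₀ hε] at h5
    linarith

end Pool.Agent.Work.MP_60abc6_co.DEL
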