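import Pool.Agent.Work.MP_60abc6_co.DEL.DExp
import Pool.Agent.Work.MP_60abc6_co.DEL.DFlow
import Pool.Agent.Work.MP_60abc6_co.DEL.Final

set_option autoImplicit false

/-! `e_κ(n; k, l)` for fixed `k - l`, and the asymptotic value of `e_κ(n; k, l)`, uniformly in `l`. -/

namespace Pool.Agent.Work.MP_60abc6_co.DEL

open Finset

variable {V : Type*} [Fintype V] [DecidableEq V]

omit [DecidableEq V] in
lemma dgc_sdiff_add {G R : SimpleGraph V} (h : R ≤ G) (v : V) :
    dgc (G \ R) v + dgc R v = dgc G v := by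
  classical
  unfold dgc
  rw [← card_union_of_disjoint]
  · congr 1
    ext w
    simp only [mem_union, mem_filter, mem_univ, true_and, SimpleGraph.sdiff_adj]
    constructor
    · rintro (h1 | h1)
      · exact h1.1
      · exact h h1
    · intro h1
      by_cases h2 : R.Adj v w
      · exact Or.inr h2
      · exact Or.inl ⟨h1, h2⟩
  · rw [disjoint_left]
    intro w h1 h2
    simp only [mem_filter, mem_univ, true_and, SimpleGraph.sdiff_adj] at h1 h2
    exact h1.2 h2

omit [DecidableEq V] in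
lemma ec_sdiff_add {G R : SimpleGraph V} (h : R ≤ G) : ec (G \ R) + ec R = ec G := by
  unfold ec
  rw [SimpleGraph.edgeSet_sdiff]
  exact Set.ncard_sdiff_add_ncard_of_subset (SimpleGraph.edgeSet_subset_edgeSet.mpr h)
    (Set.toFinite _)

/-- the condition on the numbers -/
lemma numbers_ok {K k n m e : ℕ} {ε : ℝ} (hε : 0 < ε) (hk : 0 < k) (hn : 1 ≤ n)
    (he : e ≤ 2 * k * n) (hm : ε * n / 2 ≤ m)
    (hbig : 2 * (K : ℝ) * Real.exp (2 * (4 * K + 3) / ε) ≤ k) :
    4 * (1 + 2 * (K : ℝ) / k) ^ e * 2 ^ n * (2 * (K : ℝ) / k) ^ m ≤ 1 := by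
  have hk0 : (0 : ℝ) < k := by exact_mod_cast hk
  have hK0 : (0 : ℝ) ≤ K := Nat.cast_nonneg K
  have hn0 : (1 : ℝ) ≤ n := by exact_mod_cast hn
  obtain ⟨a, ha⟩ : ∃ a : ℝ, a = 2 * (4 * K + 3) / ε := ⟨_, rfl⟩
  have ha0 : 0 < a := by rw [ha]; positivity
  have h1 : 2 * (K : ℝ) / k ≤ Real.exp (-a) := by
    rw [div_le_iff₀ hk0, Real.exp_neg, ← div_eq_inv_mul, le_div_iff₀ (Real.exp_pos _), ha]
    exact hbig
  have h2 : (2 * (K : ℝ) / k) ^ m ≤ Real.exp (-((4 * K + 3) * n)) := by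
    calc (2 * (K : ℝ) / k) ^ m ≤ (Real.exp (-a)) ^ m := pow_le_pow_left₀ (by positivity) h1 m
      _ = Real.exp (-(a * m)) := by
          rw [← Real.exp_nat_mul]
          congr 1
          ring
      _ ≤ _ := by
          refine Real.exp_le_exp.2 (neg_le_neg ?_)
          calc (4 * (K : ℝ) + 3) * n = a * (ε * n / 2) := by
                rw [ha]
                field_simp
            _ ≤ a * m := mul_le_mul_of_nonneg_left hm ha0.le
  have h3 : (1 + 2 * (K : ℝ) / k) ^ e ≤ Real.exp (4 * K * n) := by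
    calc (1 + 2 * (K : ℝ) / k) ^ e ≤ (Real.exp (2 * K / k)) ^ e := by
          refine pow_le_pow_left₀ (by positivity) ?_ e
          rw [add_comm]
          exact Real.add_one_le_exp _
      _ = Real.exp (e * (2 * K / k)) := by rw [← Real.exp_nat_mul]
      _ ≤ _ := by
          refine Real.exp_le_exp.2 ?_
          have h4 : (e : ℝ) ≤ 2 * k * n := by exact_mod_cast he
          calc (e : ℝ) * (2 * K / k) ≤ (2 * k * n) * (2 * K / k) :=
                mul_le_mul_of_nonneg_right h4 (by positivity)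
            _ = 4 * K * n := by
                field_simp
                ring
  have h4 : 4 * (2 : ℝ) ^ n ≤ Real.exp (3 * n) := by
    have h5 : (4 : ℝ) ≤ 4 ^ n := by
      calc (4 : ℝ) = 4 ^ 1 := by norm_num
        _ ≤ 4 ^ n := pow_le_pow_right₀ (by norm_num) hn
    have h6 : (8 : ℝ) ≤ Real.exp 3 := by
      have h7 : (2 : ℝ) ≤ Real.exp 1 := by
        have := Real.add_one_le_exp (1 : ℝ)
        linarith
      have h8 : Real.exp 3 = (Real.exp 1) ^ 3 := by
        rw [← Real.exp_nat_mul]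
        norm_num
      rw [h8]
      calc (8 : ℝ) = 2 ^ 3 := by norm_num
        _ ≤ _ := pow_le_pow_left₀ (by norm_num) h7 3
    calc 4 * (2 : ℝ) ^ n ≤ 4 ^ n * 2 ^ n := mul_le_mul_of_nonneg_right h5 (by positivity)
      _ = 8 ^ n := by rw [← mul_pow]; norm_num
      _ ≤ (Real.exp 3) ^ n := pow_le_pow_left₀ (by norm_num) h6 n
      _ = Real.exp (3 * n) := by
          rw [← Real.exp_nat_mul]
          congr 1
          ring
  calc 4 * (1 + 2 * (K : ℝ) / k) ^ e * 2 ^ n * (2 * (K : ℝ) / k) ^ m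
      = (1 + 2 * (K : ℝ) / k) ^ e * (4 * 2 ^ n) * (2 * (K : ℝ) / k) ^ m := by ring
    _ ≤ Real.exp (4 * K * n) * Real.exp (3 * n) * Real.exp (-((4 * K + 3) * n)) := by
        refine mul_le_mul (mul_le_mul h3 h4 (by positivity) (Real.exp_pos _).le) h2
          (by positivity) (by positivity)
    _ = 1 := by
        rw [← Real.exp_add, ← Real.exp_add]
        rw [Real.exp_eq_one_iff]
        ring

/-- **Theorem D**, in terms of subgraphs. -/
theorem kappa_fixed_r (r : ℕ) (ε : ℝ) (hε : 0 < ε) : ∃ k₀ : ℕ, ∀ k ≥ k₀, ∀ n : ℕ, k < n →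
    ∀ G : SimpleGraph (Fin n), KC k G → ∃ H : SimpleGraph (Fin n), H ≤ G ∧ KC (k - r) H ∧
      (ec H : ℝ) + (r : ℝ) / 2 * n ≤ ec G + ε * n := by
  classical
  obtain ⟨K, hK⟩ : ∃ K : ℕ, max ((24 * r / ε) ^ 2) (max (r : ℝ) 1) ≤ K := exists_nat_ge _
  have hK1 : (24 * r / ε) ^ 2 ≤ (K : ℝ) := (le_max_left _ _).trans hK
  have hK2 : r ≤ K := by
    have : (r : ℝ) ≤ K := (le_max_left _ _).trans ((le_max_right _ _).trans hK)
    exact_mod_cast this
  have hK3 : 1 ≤ K := by
    have : (1 : ℝ) ≤ K := (le_max_right _ _).trans ((le_max_right _ _).trans hK)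
    exact_mod_cast this
  obtain ⟨k1, hk1⟩ := exists_nat_ge (2 * (K : ℝ) * Real.exp (2 * (4 * K + 3) / ε))
  refine ⟨max k1 (max (2 * K + 1) (r + 1)), fun k hk n hkn G hG => ?_⟩
  have hkk1 : k1 ≤ k := (le_max_left _ _).trans hk
  have hkk2 : 2 * K + 1 ≤ k := ((le_max_left _ _).trans (le_max_right _ _)).trans hk
  have hkk3 : r + 1 ≤ k := ((le_max_right _ _).trans (le_max_right _ _)).trans hk
  -- a minimal graph
  obtain ⟨G1, -, hG1, hG1k, hmin⟩ := exists_minimal (bot_le : ⊥ ≤ G) hG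
  have hmin' : ∀ x y, G1.Adj x y → ¬ KC k (G1.deleteEdges {s(x, y)}) := fun x y hxy =>
    hmin x y hxy (fun h => h)
  have hec := ec_minimal_le hG1k hmin'
  rw [Fintype.card_fin] at hec
  have hec2 : ec G1 ≤ 2 * k * n := hec.trans (Nat.mul_le_mul_right _ (by omega))
  have hn0 : (0 : ℝ) < n := by exact_mod_cast (by omega : 0 < n)
  obtain ⟨m, hm⟩ : ∃ m : ℕ, m = ⌈ε * n / 2⌉₊ := ⟨_, rfl⟩
  have hm1 : ε * n / 2 ≤ m := hm ▸ Nat.le_ceil _
  have hm2 : (m : ℝ) < ε * n / 2 + 1 := hm ▸ Nat.ceil_lt_add_one (by positivity)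
  have hq := numbers_ok (K := K) (k := k) (n := n) (m := m) (e := ec G1) hε (by omega) (by omega)
    hec2 hm1 (hk1.trans (by exact_mod_cast hkk1))
  have : Nonempty (Fin n) := ⟨⟨0, by omega⟩⟩
  obtain ⟨C, S, hdev, hbad⟩ := dexp G1 (k - r) k K m hK3 (by omega)
    (by rw [Fintype.card_fin]; exact hec2) (by rw [Fintype.card_fin]; exact hq)
  rw [Fintype.card_fin] at hdev
  have hdeg : ∀ v, k ≤ dgc G1 v := fun v => hG1k.min_degree v
  obtain ⟨R1, hR1J, hR1d, hR1e⟩ := dflow (TP.rg G1 C S) G1 (fun v => decide (v ∈ C))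
    (fun u v h hcon => h.2.2 (by simpa using hcon)) r k K hK2 (by omega) (by omega) hdeg
  rw [Fintype.card_fin] at hR1e
  have hR1G : R1 ≤ G1 := fun u v h => (hR1J h).1
  -- the minimum degree of the rest
  have hMdeg : ∀ v, k - r ≤ dgc (G1 \ R1) v := by
    intro v
    have h1 := dgc_sdiff_add hR1G v
    have h2 := hR1d v
    have h3 := hdeg v
    by_contra hcon
    push Not at hcon
    obtain ⟨t, rfl⟩ : ∃ t, k = r + t := ⟨k - r, by omega⟩
    have h4 : dgc (G1 \ R1) v + 1 ≤ t := by omega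
    rw [← h1] at h2 h3
    nlinarith
  obtain ⟨H, hMH, hHG, hH, hHmin⟩ := exists_minimal (sdiff_le : G1 \ R1 ≤ G1)
    (hG1k.mono (Nat.sub_le k r))
  obtain ⟨R, hR⟩ : ∃ R : Finset (Sym2 (Fin n)), R = (G1.edgeSet \ H.edgeSet).toFinset := ⟨_, rfl⟩
  obtain ⟨Y, hY⟩ : ∃ Y : Finset (Sym2 (Fin n)), Y = (H.edgeSet \ (G1 \ R1).edgeSet).toFinset :=
    ⟨_, rfl⟩
  have hRc : (R : Set (Sym2 (Fin n))) = G1.edgeSet \ H.edgeSet := by
    rw [hR, Set.coe_toFinset]
  have hYc : (Y : Set (Sym2 (Fin n))) = H.edgeSet \ (G1 \ R1).edgeSet := by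
    rw [hY, Set.coe_toFinset]
  have hdel : G1.deleteEdges (R : Set (Sym2 (Fin n))) = H := by
    rw [hRc]
    exact deleteEdges_sdiff hHG
  have hinR1 : ∀ u v, G1.Adj u v → ¬ (G1 \ R1).Adj u v → s(u, v) ∈ S := by
    intro u v h1 h2
    rw [SimpleGraph.sdiff_adj, not_and, not_not] at h2
    exact (hR1J (h2 h1)).2.1
  have hYm : Y.card < m := by
    refine hbad R Y ?_ ?_ ?_ ?_ ?_
    · rw [hRc]
      exact Set.sdiff_subset
    · intro e he
      have he' : e ∈ (R : Set (Sym2 (Fin n))) := he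
      rw [hRc] at he'
      induction e using Sym2.ind with
      | _ u v => exact hinR1 u v he'.1 fun h => he'.2 (hMH h)
    · intro e he
      have he' : e ∈ (Y : Set (Sym2 (Fin n))) := he
      rw [hYc] at he'
      induction e using Sym2.ind with
      | _ u v => exact hinR1 u v (hHG he'.1) he'.2
    · rw [hdel]
      exact hH
    · rw [hdel]
      intro e he
      rw [hYc] at he
      induction e using Sym2.ind with
      | _ u v =>
        have hlt : ∀ x y, H.Adj x y → ¬ (G1 \ R1).Adj x y → k - r < dgc H x := by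
          intro x y h1 h2
          refine lt_of_le_of_lt (hMdeg x) ?_
          unfold dgc
          refine card_lt_card ⟨fun w hw => ?_, fun hsub => ?_⟩
          · simp only [mem_filter, mem_univ, true_and] at hw ⊢
            exact hMH hw
          · have h3 := @hsub y (by
              simp only [mem_filter, mem_univ, true_and]
              exact h1)
            simp only [mem_filter, mem_univ, true_and] at h3
            exact h2 h3
        exact ⟨he.1, hlt u v he.1 he.2, hlt v u (SimpleGraph.Adj.symm he.1)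
          (fun h => he.2 (SimpleGraph.Adj.symm h)), hHmin u v he.1 he.2⟩
  refine ⟨H, hHG.trans hG1, hH, ?_⟩
  -- counting
  have c1 : ec (G1 \ R1) + ec R1 = ec G1 := ec_sdiff_add hR1G
  have c2 : Y.card + ec (G1 \ R1) = ec H := by
    rw [hY, ← Set.ncard_eq_toFinset_card']
    exact Set.ncard_sdiff_add_ncard_of_subset (SimpleGraph.edgeSet_subset_edgeSet.mpr hMH)
      (Set.toFinite _)
  have c3 : ec G1 ≤ ec G := ec_mono hG1
  have d1 : (ec (G1 \ R1) : ℝ) + ec R1 = ec G1 := by exact_mod_cast c1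
  have d2 : (Y.card : ℝ) + ec (G1 \ R1) = ec H := by exact_mod_cast c2
  have d3 : (ec G1 : ℝ) ≤ ec G := by exact_mod_cast c3
  have d4 : (Y.card : ℝ) + 1 ≤ m := by exact_mod_cast hYm
  have d5 : (r : ℝ) / K * ∑ v, |(dgc (TP.rg G1 C S) v : ℝ) - (K : ℝ) / k * dgc G1 v|
      ≤ ε / 2 * n := by
    have hKr : (0 : ℝ) < K := by exact_mod_cast hK3
    have hs : 0 < √(K : ℝ) := Real.sqrt_pos.2 hKr
    refine (mul_le_mul_of_nonneg_left hdev (by positivity)).trans ?_
    have h6 : (r : ℝ) / K * (12 * √K * n) = 12 * r / √K * n := by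
      have h7 : (K : ℝ) = √(K : ℝ) * √(K : ℝ) := (Real.mul_self_sqrt hKr.le).symm
      have h8 : (r : ℝ) / (√(K : ℝ) * √(K : ℝ)) * (12 * √K * n) = 12 * r / √K * n := by
        field_simp
      rw [← h8, ← h7]
    rw [h6]
    refine mul_le_mul_of_nonneg_right ?_ hn0.le
    rw [div_le_iff₀ hs]
    have h9 : 24 * r / ε ≤ √(K : ℝ) := Real.le_sqrt_of_sq_le hK1
    rw [div_le_iff₀ hε] at h9
    linarith
  linarith

/-- **Theorem D**: the value for fixed `k - l` -/
theorem asymptotic_kappa_r : ∀ (r : ℕ) (ε : ℝ), 0 < ε → ∃ k₀ : ℕ, ∀ n k l : ℕ, k₀ ≤ k → 1 ≤ l →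
    l < k → k < n → k = l + r → |(eKappa n k l : ℝ) - ((k : ℝ) - l) * n / 2| ≤ ε * n := by
  intro r ε hε
  obtain ⟨k2, hk2⟩ := kappa_fixed_r r ε hε
  obtain ⟨k1, hk1⟩ := exists_nat_gt (1 / ε)
  refine ⟨max k1 k2, fun n k l hk hl hlk hkn hkl => ?_⟩
  have hkk1 : k1 ≤ k := (le_max_left _ _).trans hk
  have hkk2 : k2 ≤ k := (le_max_right _ _).trans hk
  have hr : (r : ℝ) = (k : ℝ) - l := by
    rw [hkl]
    push_cast
    ring
  rw [abs_le]
  constructor
  · have h4 : ((k : ℝ) - l) / 2 * n - ε * n ≤ eKappa n k l := by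
      refine kappa_ge hlk hkn _ fun G hG => ?_
      obtain ⟨H, h5, h6, h7⟩ := hk2 k hkk2 n hkn G hG
      rw [hr] at h7
      have h8 : k - r = l := by omega
      rw [h8] at h6
      exact ⟨H, h5, h6, by linarith⟩
    linarith
  · have h4 := kappa_up hl hlk hkn
    have h5 : 1 / ε ≤ n := hk1.le.trans (by exact_mod_cast (by omega : k1 ≤ n))
    rw [div_le_iff₀ hε] at h5
    linarith

/-- **The asymptotic value of `e_κ(n; k, l)`**, uniformly in `2 ≤ l < k < n`. -/
theorem kappa_min : ∀ ε : ℝ, 0 < ε → ∃ k₀ : ℕ, ∀ n k l : ℕ, k₀ ≤ k → 2 ≤ l → l < k → k < n →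
    |(eKappa n k l : ℝ) - ((k : ℝ) - l) * n / 2| ≤ ε * min (l : ℝ) ((k : ℝ) - l) * n := by
  intro ε hε
  obtain ⟨b, hb⟩ := exists_nat_gt (1 / ε)
  have h0 : 1 / ε ≤ (b : ℝ) := hb.le
  rw [div_le_iff₀ hε] at h0
  choose f hf using fun r : ℕ => asymptotic_kappa_r r ε hε
  choose! g hg using fun (l : ℕ) (hl : 2 ≤ l) => asymptotic_kappa l hl ε hε
  refine ⟨max ((range b).sup f) ((range b).sup g), fun n k l hk hl hlk hkn => ?_⟩
  have hkk1 : (range b).sup f ≤ k := (le_max_left _ _).trans hk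
  have hkk2 : (range b).sup g ≤ k := (le_max_right _ _).trans hk
  have hn0 : (0 : ℝ) ≤ n := Nat.cast_nonneg n
  have hn1 : (1 : ℝ) ≤ n := by exact_mod_cast (by omega : 1 ≤ n)
  have hl1 : (1 : ℝ) ≤ l := by exact_mod_cast (by omega : 1 ≤ l)
  have hr1 : (1 : ℝ) ≤ (k : ℝ) - l := by
    have : (l : ℝ) + 1 ≤ k := by exact_mod_cast hlk
    linarith
  have hmin : 1 ≤ min (l : ℝ) ((k : ℝ) - l) := le_min hl1 hr1
  have hone : ε * n ≤ ε * min (l : ℝ) ((k : ℝ) - l) * n := by
    refine mul_le_mul_of_nonneg_right ?_ hn0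
    nlinarith
  rcases lt_or_ge l b with h | h
  · exact (hg l hl n k ((Finset.le_sup (f := g) (mem_range.2 h)).trans hkk2) hlk hkn).trans hone
  rcases lt_or_ge (k - l) b with h' | h'
  · exact (hf (k - l) n k l ((Finset.le_sup (f := f) (mem_range.2 h')).trans hkk1) (by omega) hlk
      hkn (by omega)).trans hone
  · have h1 : (b : ℝ) ≤ l := by exact_mod_cast h
    have h2 : (b : ℝ) ≤ (k : ℝ) - l := by
      have : b + l ≤ k := by omega
      have : (b : ℝ) + l ≤ k := by exact_mod_cast this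
      linarith
    have h3 : 1 ≤ ε * min (l : ℝ) ((k : ℝ) - l) := by
      have h4 : (b : ℝ) ≤ min (l : ℝ) ((k : ℝ) - l) := le_min h1 h2
      nlinarith
    have h4 : (n : ℝ) ≤ ε * min (l : ℝ) ((k : ℝ) - l) * n := by nlinarith
    rw [abs_le]
    constructor
    · have h5 := kappa_one (by omega) hlk hkn
      obtain ⟨r, rfl⟩ : ∃ r, k = l + r := ⟨k - l, by omega⟩
      have h6 : l + r - l - 1 = r - 1 := by omega
      rw [h6] at h5
      have h7 : (((r - 1) * n + 1 : ℕ) : ℝ) ≤ ((2 * eKappa n (l + r) l : ℕ) : ℝ) := by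
        exact_mod_cast h5
      have e1 : ((l + r : ℕ) : ℝ) - l = r := by
        push_cast
        ring
      rw [e1] at h4 ⊢
      push_cast [Nat.cast_sub (by omega : 1 ≤ r)] at h7
      linarith
    · have h5 := kappa_up (by omega) hlk hkn
      linarith

end Pool.Agent.Work.MP_60abc6_co.DEL
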