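import Pool.Agent.Work.MP_60abc6_co.DEL.Greedy
import Pool.Agent.Work.MP_60abc6_co.Cuts

/-! The averaging lemma (U4): a family of sets of small `F`-boundary, each arc of `G \ F` entering
at most one of them, is small if `F` contains a good sample `S` of `G`. -/

set_option autoImplicit false

namespace Pool.Agent.Work.MP_60abc6_co.DEL

open Finset

section

open scoped Classical

variable {V : Type*} [Fintype V]

namespace Key

/-- the number of edges leaving `U` -/
noncomputable def cut (G : SimpleGraph V) (U : Finset V) : ℕ :=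
  ((univ : Finset (V × V)).filter fun e => e.1 ∈ U ∧ e.2 ∉ U ∧ G.Adj e.1 e.2).card

theorem dX_eq_cut [DecidableEq V] (G : SimpleGraph V) (U : Finset V) : dX G U = cut G U := by
  unfold dX cut
  congr 1
  ext e
  simp only [mem_filter, mem_product, mem_sdiff, mem_univ, true_and]
  tauto

/-- the ordered pairs of adjacent vertices -/
noncomputable def arcs (G : SimpleGraph V) : Finset (V × V) := univ.filter fun e => G.Adj e.1 e.2

/-- `U` separates the ends of `e` -/
def sep (U : Finset V) (e : V × V) : Prop := ¬(e.1 ∈ U ↔ e.2 ∈ U)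

/-- the number of ordered pairs separated by `U` -/
noncomputable def scut (G : SimpleGraph V) (U : Finset V) : ℝ :=
  ∑ e ∈ arcs G, if sep U e then 1 else 0

theorem cut_swap (G : SimpleGraph V) (U : Finset V) :
    ((univ : Finset (V × V)).filter fun e => e.1 ∉ U ∧ e.2 ∈ U ∧ G.Adj e.1 e.2).card = cut G U := by
  rw [cut]
  apply card_bij (fun e _ => e.swap)
  · intro e he
    simp only [mem_filter, mem_univ, true_and, Prod.fst_swap, Prod.snd_swap] at he ⊢
    exact ⟨he.2.1, he.1, he.2.2.symm⟩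
  · intro e _ e' _ h
    exact Prod.swap_injective h
  · intro e he
    refine ⟨e.swap, ?_, Prod.swap_swap e⟩
    simp only [mem_filter, mem_univ, true_and, Prod.fst_swap, Prod.snd_swap] at he ⊢
    exact ⟨he.2.1, he.1, he.2.2.symm⟩

theorem scut_eq (G : SimpleGraph V) (U : Finset V) : scut G U = 2 * cut G U := by
  have h1 : (arcs G).filter (fun e => sep U e) =
      ((univ : Finset (V × V)).filter fun e => e.1 ∈ U ∧ e.2 ∉ U ∧ G.Adj e.1 e.2) ∪
      ((univ : Finset (V × V)).filter fun e => e.1 ∉ U ∧ e.2 ∈ U ∧ G.Adj e.1 e.2) := by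
    ext e
    simp only [arcs, sep, mem_filter, mem_univ, true_and, mem_union]
    tauto
  have h2 : ((arcs G).filter (fun e => sep U e)).card = cut G U + cut G U := by
    rw [h1, card_union_of_disjoint, cut_swap, cut]
    rw [disjoint_left]
    intro e he he'
    simp only [mem_filter, mem_univ, true_and] at he he'
    exact he'.1 he.1
  rw [scut, ← sum_filter, sum_const, h2]
  simp
  ring

/-- the sign of `v` with respect to `X` -/
noncomputable def sg (X : Finset V) (v : V) : ℝ := if v ∈ X then -1 else 1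

omit [Fintype V] in
theorem sg_cases (X : Finset V) (v : V) : sg X v = -1 ∨ sg X v = 1 := by
  unfold sg
  split_ifs <;> simp

omit [Fintype V] in
theorem prod_sg_cases (B : Finset (Finset V)) (v : V) :
    ∏ X ∈ B, sg X v = -1 ∨ ∏ X ∈ B, sg X v = 1 := by
  induction B using Finset.induction_on with
  | empty => simp
  | insert X B hX ih =>
    rw [prod_insert hX]
    rcases sg_cases X v with h | h <;> rcases ih with h' | h' <;> rw [h, h'] <;> simp

/-- the vertices in an odd number of members of `B` -/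
noncomputable def odd (B : Finset (Finset V)) : Finset V :=
  univ.filter fun v => ∏ X ∈ B, sg X v = -1

omit [Fintype V] in
theorem sg_mul (X : Finset V) (e : V × V) :
    sg X e.1 * sg X e.2 = if sep X e then -1 else 1 := by
  unfold sg sep
  by_cases h1 : e.1 ∈ X <;> by_cases h2 : e.2 ∈ X <;> simp [h1, h2]

theorem ind_eq (B : Finset (Finset V)) (e : V × V) :
    (if sep (odd B) e then (1 : ℝ) else 0) =
      (1 - ∏ X ∈ B, (if sep X e then (-1 : ℝ) else 1)) / 2 := by
  have h1 : ∏ X ∈ B, (if sep X e then (-1 : ℝ) else 1) =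
      (∏ X ∈ B, sg X e.1) * ∏ X ∈ B, sg X e.2 := by
    rw [← prod_mul_distrib]
    exact prod_congr rfl fun X _ => (sg_mul X e).symm
  have h2 : ∀ v, v ∈ odd B ↔ ∏ X ∈ B, sg X v = -1 := fun v => by simp [odd]
  rw [h1]
  unfold sep
  rw [h2, h2]
  rcases prod_sg_cases B e.1 with h | h <;> rcases prod_sg_cases B e.2 with h' | h' <;>
    rw [h, h'] <;> norm_num

variable (T : Finset (Finset V)) (q : ℝ)

/-- the weight of `B` -/
noncomputable def wt (B : Finset (Finset V)) : ℝ := (∏ _X ∈ B, q) * ∏ _X ∈ T \ B, (1 - q)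

/-- the number of members of `T` which separate the ends of `e` -/
noncomputable def mm (e : V × V) : ℕ := (T.filter fun X => sep X e).card

omit [Fintype V] in
theorem sum_wt : ∑ B ∈ T.powerset, wt T q B = 1 := by
  have h := prod_add (fun _ : Finset V => q) (fun _ => 1 - q) T
  have h2 : ∏ _X ∈ T, (q + (1 - q)) = 1 := prod_eq_one fun _ _ => by ring
  rw [h2] at h
  exact h.symm

omit [Fintype V] in
theorem sum_wt_sign (e : V × V) :
    ∑ B ∈ T.powerset, wt T q B * ∏ X ∈ B, (if sep X e then (-1 : ℝ) else 1) =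
      (1 - 2 * q) ^ mm T e := by
  have h := prod_add (fun X : Finset V => q * (if sep X e then (-1 : ℝ) else 1))
    (fun _ => 1 - q) T
  have h2 : ∏ X ∈ T, (q * (if sep X e then (-1 : ℝ) else 1) + (1 - q)) = (1 - 2 * q) ^ mm T e := by
    have h3 : ∀ X ∈ T, q * (if sep X e then (-1 : ℝ) else 1) + (1 - q) =
        if sep X e then 1 - 2 * q else 1 := by
      intro X _
      split_ifs <;> ring
    rw [prod_congr rfl h3, ← prod_filter, prod_const, mm]
  rw [h2] at h
  rw [h]
  refine sum_congr rfl fun B _ => ?_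
  rw [wt, prod_mul_distrib]
  ring

/-- the average over the sets `odd B` -/
theorem avg_eq (H : SimpleGraph V) :
    ∑ B ∈ T.powerset, wt T q B * scut H (odd B) =
      ∑ e ∈ arcs H, (1 - (1 - 2 * q) ^ mm T e) / 2 := by
  have h1 : ∀ B ∈ T.powerset, wt T q B * scut H (odd B) = ∑ e ∈ arcs H,
      wt T q B * ((1 - ∏ X ∈ B, (if sep X e then (-1 : ℝ) else 1)) / 2) := by
    intro B _
    rw [scut, mul_sum]
    exact sum_congr rfl fun e _ => by rw [ind_eq]
  rw [sum_congr rfl h1, sum_comm]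
  refine sum_congr rfl fun e _ => ?_
  have h2 : ∑ B ∈ T.powerset, wt T q B *
      ((1 - ∏ X ∈ B, (if sep X e then (-1 : ℝ) else 1)) / 2) =
      (∑ B ∈ T.powerset, wt T q B - ∑ B ∈ T.powerset, wt T q B *
        ∏ X ∈ B, (if sep X e then (-1 : ℝ) else 1)) / 2 := by
    rw [← sum_sub_distrib, sum_div]
    exact sum_congr rfl fun B _ => by ring
  rw [h2, sum_wt, sum_wt_sign]

omit [Fintype V] in
theorem sum_mm (S : Finset (V × V)) :
    ∑ e ∈ S, (mm T e : ℝ) = ∑ X ∈ T, ∑ e ∈ S, if sep X e then (1 : ℝ) else 0 := by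
  rw [sum_comm]
  refine sum_congr rfl fun e _ => ?_
  rw [← sum_filter, sum_const, mm]
  simp

theorem key_aux {G F S : SimpleGraph V} (hSF : S ≤ F) (hFG : F ≤ G) {p q W : ℝ} (hp0 : 0 ≤ p)
    (hp1 : p ≤ 1) (hq0 : 0 < q) (hq1 : q ≤ 1)
    (hcl : ∀ U : Finset V, p * cut G U - W ≤ cut S U) {T : Finset (Finset V)} {j k : ℝ}
    (hj : 0 ≤ j) (hT : ∀ X ∈ T, (cut F X : ℝ) = j) (hG : ∀ X ∈ T, k ≤ cut G X)
    (harc : ∀ u v, G.Adj u v → ¬ F.Adj u v → ∀ X ∈ T, ∀ Y ∈ T, v ∈ X → u ∉ X → v ∈ Y → u ∉ Y →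
      X = Y) :
    (T.card : ℝ) * (p * (1 - q) * k - j) ≤ W / q := by
  set t : ℝ := (T.card : ℝ) with ht
  have ht0 : 0 ≤ t := Nat.cast_nonneg _
  set g : ℕ → ℝ := fun m => (1 - (1 - 2 * q) ^ m) / 2 with hg
  have hg0 : ∀ m, 0 ≤ g m := by
    intro m
    have h1 : |(1 - 2 * q) ^ m| ≤ 1 := by
      rw [abs_pow]
      exact pow_le_one₀ (abs_nonneg _) (abs_le.2 ⟨by linarith, by linarith⟩)
    have h2 := (abs_le.1 h1).2
    simp only [hg]
    linarith
  have hgle : ∀ m : ℕ, g m ≤ q * m := by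
    intro m
    have h1 := one_add_mul_le_pow (show (-2 : ℝ) ≤ -(2 * q) by linarith) m
    have h2 : (1 + -(2 * q)) ^ m = (1 - 2 * q) ^ m := by ring
    rw [h2] at h1
    simp only [hg]
    linarith
  have hgge : ∀ m : ℕ, m ≤ 2 → q * (1 - q) * m ≤ g m := by
    intro m hm
    simp only [hg]
    interval_cases m
    · simp
    · push_cast
      nlinarith
    · push_cast
      nlinarith
  -- the averages
  have hwt0 : ∀ B, 0 ≤ wt T q B := fun B =>
    mul_nonneg (prod_nonneg fun _ _ => hq0.le) (prod_nonneg fun _ _ => by linarith)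
  have hcl2 : ∀ U : Finset V, p * scut G U - 2 * W ≤ scut S U := by
    intro U
    rw [scut_eq, scut_eq]
    linarith [hcl U]
  have havg : p * (∑ e ∈ arcs G, g (mm T e)) - 2 * W ≤ ∑ e ∈ arcs S, g (mm T e) := by
    have h1 : ∑ B ∈ T.powerset, wt T q B * (p * scut G (odd B) - 2 * W) ≤
        ∑ B ∈ T.powerset, wt T q B * scut S (odd B) :=
      sum_le_sum fun B _ => mul_le_mul_of_nonneg_left (hcl2 _) (hwt0 B)
    have h2 : ∑ B ∈ T.powerset, wt T q B * (p * scut G (odd B) - 2 * W) =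
        p * ∑ B ∈ T.powerset, wt T q B * scut G (odd B) - 2 * W * ∑ B ∈ T.powerset, wt T q B := by
      rw [mul_sum, mul_sum, ← sum_sub_distrib]
      exact sum_congr rfl fun B _ => by ring
    rw [h2, avg_eq, avg_eq, sum_wt, mul_one] at h1
    exact h1
  have hSsub : arcs S ⊆ arcs F := fun e he => by
    simp only [arcs, mem_filter, mem_univ, true_and] at he ⊢
    exact hSF he
  have hFsub : arcs F ⊆ arcs G := fun e he => by
    simp only [arcs, mem_filter, mem_univ, true_and] at he ⊢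
    exact hFG he
  set Q : ℝ := ∑ e ∈ arcs F, g (mm T e) with hQ
  have hSF' : ∑ e ∈ arcs S, g (mm T e) ≤ Q :=
    sum_le_sum_of_subset_of_nonneg hSsub fun e _ _ => hg0 _
  have hsumF : ∑ e ∈ arcs F, (mm T e : ℝ) = 2 * j * t := by
    rw [sum_mm]
    have h1 : ∀ X ∈ T, (∑ e ∈ arcs F, if sep X e then (1 : ℝ) else 0) = 2 * j := by
      intro X hX
      have h2 := scut_eq F X
      rw [scut] at h2
      rw [h2, hT X hX]
    rw [sum_congr rfl h1, sum_const, nsmul_eq_mul, ht]
    ring
  have hsumG : 2 * k * t ≤ ∑ e ∈ arcs G, (mm T e : ℝ) := by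
    rw [sum_mm]
    have h1 : ∀ X ∈ T, 2 * k ≤ ∑ e ∈ arcs G, if sep X e then (1 : ℝ) else 0 := by
      intro X hX
      have h2 := scut_eq G X
      rw [scut] at h2
      rw [h2]
      linarith [hG X hX]
    calc 2 * k * t = ∑ _X ∈ T, 2 * k := by
          rw [sum_const, nsmul_eq_mul, ht]
          ring
      _ ≤ _ := sum_le_sum h1
  have hQle : Q ≤ 2 * q * j * t := by
    calc Q ≤ ∑ e ∈ arcs F, q * (mm T e : ℝ) := sum_le_sum fun e _ => hgle _
      _ = 2 * q * j * t := by
        rw [← mul_sum, hsumF]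
        ring
  have hmm2 : ∀ e ∈ arcs G \ arcs F, mm T e ≤ 2 := by
    intro e he
    simp only [arcs, mem_sdiff, mem_filter, mem_univ, true_and] at he
    have h1 : T.filter (fun X => sep X e) ⊆
        (T.filter fun X => e.2 ∈ X ∧ e.1 ∉ X) ∪ (T.filter fun X => e.1 ∈ X ∧ e.2 ∉ X) := by
      intro X hX
      simp only [mem_filter, mem_union, sep] at hX ⊢
      tauto
    have h2 : (T.filter fun X => e.2 ∈ X ∧ e.1 ∉ X).card ≤ 1 := by
      rw [card_le_one]
      intro X hX Y hY
      simp only [mem_filter] at hX hY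
      exact harc e.1 e.2 he.1 he.2 X hX.1 Y hY.1 hX.2.1 hX.2.2 hY.2.1 hY.2.2
    have h3 : (T.filter fun X => e.1 ∈ X ∧ e.2 ∉ X).card ≤ 1 := by
      rw [card_le_one]
      intro X hX Y hY
      simp only [mem_filter] at hX hY
      exact harc e.2 e.1 he.1.symm (fun h => he.2 h.symm) X hX.1 Y hY.1 hX.2.1 hX.2.2 hY.2.1
        hY.2.2
    calc mm T e ≤ _ := card_le_card h1
      _ ≤ _ := card_union_le _ _
      _ ≤ 2 := by omega
  have hGge : Q + q * (1 - q) * (2 * (k - j) * t) ≤ ∑ e ∈ arcs G, g (mm T e) := by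
    rw [← sum_sdiff hFsub, ← hQ]
    have h1 : q * (1 - q) * ∑ e ∈ arcs G \ arcs F, (mm T e : ℝ) ≤
        ∑ e ∈ arcs G \ arcs F, g (mm T e) := by
      rw [mul_sum]
      exact sum_le_sum fun e he => hgge _ (hmm2 e he)
    have h2 : 2 * (k - j) * t ≤ ∑ e ∈ arcs G \ arcs F, (mm T e : ℝ) := by
      have h3 := sum_sdiff hFsub (f := fun e => (mm T e : ℝ))
      rw [hsumF] at h3
      linarith
    have h4 : 0 ≤ q * (1 - q) := mul_nonneg hq0.le (by linarith)
    have h5 := mul_le_mul_of_nonneg_left h2 h4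
    linarith
  rw [le_div_iff₀ hq0]
  have h1 : p * (Q + q * (1 - q) * (2 * (k - j) * t)) - 2 * W ≤ Q := by
    have h2 := mul_le_mul_of_nonneg_left hGge hp0
    linarith
  have h2 : Q * (1 - p) ≤ 2 * q * j * t * (1 - p) :=
    mul_le_mul_of_nonneg_right hQle (by linarith)
  have h3 : 0 ≤ q * q * (j * p * t) := by positivity
  nlinarith

end Key

end

/-- The key: a family of sets of small `F`-boundary, each arc of `G \ F` entering at most one of
them, is small if `F` contains a good sample `S` of `G`. -/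
theorem key {V : Type*} [Fintype V] [DecidableEq V] {G F S : SimpleGraph V} (hSF : S ≤ F)
    (hFG : F ≤ G) {p q W : ℝ} (hp0 : 0 ≤ p) (hp1 : p ≤ 1) (hq0 : 0 < q) (hq1 : q ≤ 1)
    (hcl : ∀ U : Finset V, p * dX G U - W ≤ dX S U) {T : Finset (Finset V)} {j k : ℕ}
    (hT : ∀ X ∈ T, dX F X = j) (hG : ∀ X ∈ T, k ≤ dX G X)
    (harc : ∀ u v, G.Adj u v → ¬ F.Adj u v → ∀ X ∈ T, ∀ Y ∈ T, Enters (u, v) X →
      Enters (u, v) Y → X = Y) :
    (T.card : ℝ) * (p * (1 - q) * k - j) ≤ W / q := by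
  simp only [Key.dX_eq_cut] at hcl hT hG
  refine Key.key_aux hSF hFG hp0 hp1 hq0 hq1 hcl (Nat.cast_nonneg j)
    (fun X hX => by rw [hT X hX]) (fun X hX => by exact_mod_cast hG X hX) ?_
  intro u v h1 h2 X hX Y hY h3 h4 h5 h6
  exact harc u v h1 h2 X hX Y hY ⟨h3, h4⟩ ⟨h5, h6⟩

end Pool.Agent.Work.MP_60abc6_co.DEL
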