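import Mathlib
import Pool.Agent.Work.MP_60abc6_co.DEL.Phases
import Pool.Agent.Work.MP_60abc6_co.DEL.LamCount
import Pool.Agent.Work.MP_60abc6_co.Bounds

set_option autoImplicit false

/-! The bound `6 n / (l - 1)` for the laminar families of every phase. -/

namespace Pool.Agent.Work.MP_60abc6_co.DEL

open Finset

variable {V : Type*} [Fintype V] [DecidableEq V]

lemma card_ge_of_dX_lt {M : SimpleGraph V} {l : ℕ} (hM : ∀ v, l ≤ dgc M v) {X : Finset V}
    (hX : X.Nonempty) (h : dX M X < l) : l + 1 ≤ X.card := by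
  have h1 := mul_le_dX hM X
  have h2 := card_pos.mpr hX
  by_contra hlt
  push Not at hlt
  obtain ⟨c, hc⟩ : ∃ c, X.card = c + 1 := ⟨X.card - 1, by omega⟩
  obtain ⟨b, hb⟩ : ∃ b, l = c + 1 + b := ⟨l - (c + 1), by omega⟩
  rw [hc, hb] at h1
  rw [hb] at h
  nlinarith

lemma card_ge_of_dX_le {M : SimpleGraph V} {l : ℕ} (hl : 5 ≤ l) (hM : ∀ v, l ≤ dgc M v)
    {X : Finset V} (hX : 3 ≤ X.card) (h : dX M X ≤ 2 * l - 2) : l - 1 ≤ X.card := by
  have h1 := mul_le_dX hM X
  by_contra hlt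
  push Not at hlt
  obtain ⟨c, hc⟩ : ∃ c, X.card = c + 3 := ⟨X.card - 3, by omega⟩
  obtain ⟨b, hb⟩ : ∃ b, l = c + 5 + b := ⟨l - (c + 5), by omega⟩
  rw [hc, hb] at h1
  have h3 : dX M X ≤ 2 * (c + b) + 8 := by omega
  nlinarith

/-- the bound for all phases -/
theorem phase_card_le {G M F : SimpleGraph V} {r : V} {l j : ℕ} (hl : 5 ≤ l) (hj : j < l)
    (hM : ∀ v, l ≤ dgc M v) (hMF : M ≤ F) {T : Finset (Finset V)} (hT : PhaseFam G F r j T) :
    (T.card : ℝ) ≤ 6 * Fintype.card V / ((l : ℝ) - 1) := by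
  have hl' : (0 : ℝ) < (l : ℝ) - 1 := by
    have : (5 : ℝ) ≤ l := by exact_mod_cast hl
    linarith
  have hF : ∀ v, l ≤ dgc F v := fun v => (hM v).trans (dgc_mono hMF v)
  have key := lam_count (T := T) (μ := fun _ => 1 / ((l : ℝ) - 1)) hT.1
    (fun X hX => (hT.2.1 X hX).1) (fun _ => by positivity)
    (fun X hX => by
      have h1 := hT.2.1 X hX
      have h2 := card_ge_of_dX_lt hF h1.1 (by rw [h1.2.2]; exact hj)
      rw [sum_const, nsmul_eq_mul, mul_one_div, le_div_iff₀ hl']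
      have h3 : ((l + 1 : ℕ) : ℝ) ≤ X.card := by exact_mod_cast h2
      push_cast at h3
      linarith)
    (fun X0 h0 X1 X2 X3 h1 h2 h3 => by
      have d0 := (hT.2.1 X0 h0).2.2
      have d3 := (hT.2.1 X3 h3.1).2.2
      have hsd := dX_sdiff_le F X0 X3
      have c1 := card_lt_card h1.2.1
      have c2 := card_lt_card h2.2.1
      have c3 := card_lt_card h3.2.1
      have hsub : X3 ⊆ X0 := (h3.2.1.1.trans h2.2.1.1).trans h1.2.1.1
      have hc := card_sdiff_add_card_eq_card hsub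
      have h4 := card_ge_of_dX_le hl hF (X := X0 \ X3) (by omega) (by omega)
      rw [sum_const, nsmul_eq_mul, mul_one_div, le_div_iff₀ hl']
      have h5 : l ≤ (X0 \ X3).card + 1 := by omega
      have h6 : (l : ℝ) ≤ (X0 \ X3).card + 1 := by exact_mod_cast h5
      linarith)
    (U := univ) (fun X _ => subset_univ X)
  rw [sum_const, nsmul_eq_mul, card_univ] at key
  calc (T.card : ℝ) ≤ 6 * (Fintype.card V * (1 / ((l : ℝ) - 1))) := key
    _ = _ := by ring

end Pool.Agent.Work.MP_60abc6_co.DEL
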