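import Pool.Agent.Work.MP_60abc6_co.DEL.RandB

/-! The random splitting: all cuts and all pairs of vertex sets at once (U3, U5). -/

set_option autoImplicit false

namespace Pool.Agent.Work.MP_60abc6_co.DEL

open Finset

variable {V : Type*} [Fintype V] [DecidableEq V]

namespace Rnd

lemma geo_le {x : ℝ} (hx : 0 < x) (M : ℕ) :
    ∑ i ∈ range M, Real.exp (-(x * i)) ≤ 1 + 1 / x := by
  have h1 : ∀ i : ℕ, Real.exp (-(x * i)) = Real.exp (-x) ^ i := by
    intro i
    rw [← Real.exp_nat_mul]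
    congr 1
    ring
  rw [sum_congr rfl fun i _ => h1 i]
  have h2 : Real.exp (-x) < 1 := by
    rw [Real.exp_lt_one_iff]
    linarith
  have h3 : 0 ≤ Real.exp (-x) := (Real.exp_pos _).le
  have h4 := Summable.sum_le_tsum (range M) (fun i _ => pow_nonneg h3 i)
    (summable_geometric_of_lt_one h3 h2)
  rw [tsum_geometric_of_lt_one h3 h2] at h4
  refine h4.trans ?_
  have h5 : Real.exp (-x) ≤ 1 / (1 + x) := by
    rw [Real.exp_neg, inv_eq_one_div]
    exact one_div_le_one_div_of_le (by linarith) (by linarith [Real.add_one_le_exp x])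
  have h6 : x / (1 + x) ≤ 1 - Real.exp (-x) := by
    have : x / (1 + x) = 1 - 1 / (1 + x) := by field_simp; ring
    rw [this]
    linarith
  calc (1 - Real.exp (-x))⁻¹ ≤ (x / (1 + x))⁻¹ :=
        inv_anti₀ (by positivity) h6
    _ = 1 + 1 / x := by field_simp; ring

/-- sum over all vertex sets of the exponential of the cut size -/
lemma sum_cuts {W : Type*} [Fintype W] [DecidableEq W] (H : SimpleGraph W) {k : ℕ} {K : ℝ}
    (hK : 6 ≤ K) (hk : K ^ 20 = k) (hdeg : ∀ v, k ≤ dgc H v) {a : ℝ} (ha : 0 < a)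
    (hak : 160 * Real.log K / K ^ 20 ≤ a) :
    ∑ U : Finset W, Real.exp (-(a * dX H U)) ≤
      Real.exp (80 * Real.log K * (Fintype.card W) / K ^ 10) * (1 + 2 / a) := by
  classical
  have hK0 : 0 < K := by linarith
  have hsq : √(k : ℝ) = K ^ 10 := by
    rw [← hk]
    have : K ^ 20 = (K ^ 10) ^ 2 := by ring
    rw [this, Real.sqrt_sq (by positivity)]
  have hlog : Real.log k = 20 * Real.log K := by
    rw [← hk, Real.log_pow]
    norm_num
  have hlK : 0 < Real.log K := Real.log_pos (by linarith)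
  have hkK : (6 : ℝ) ^ 20 ≤ K ^ 20 := pow_le_pow_left₀ (by norm_num) hK 20
  have hk5 : 5 ≤ k := by
    have : (5 : ℝ) ≤ k := by
      rw [← hk]
      exact le_trans (by norm_num) hkK
    exact_mod_cast this
  have hbig : 2 * Real.exp (-((1 / √(k : ℝ)) * k / 8)) ≤ 1 / √(k : ℝ) := by
    rw [hsq, ← hk]
    have e : 1 / K ^ 10 * K ^ 20 / 8 = K ^ 10 / 8 := by
      have : K ^ 20 = K ^ 10 * K ^ 10 := by ring
      rw [this]
      field_simp
    rw [e]
    have h10 : (6 : ℝ) ^ 10 ≤ K ^ 10 := pow_le_pow_left₀ (by norm_num) hK 10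
    set x := K ^ 10 with hx
    have hx1 : (256 : ℝ) ≤ x := le_trans (by norm_num) h10
    have h1 := Real.quadratic_le_exp_of_nonneg (x := x / 8) (by positivity)
    have h2 : 2 * x ≤ Real.exp (x / 8) := by nlinarith
    rw [Real.exp_neg, le_div_iff₀ (by positivity)]
    rw [mul_assoc, mul_comm, mul_assoc, inv_mul_le_iff₀ (Real.exp_pos _)]
    linarith
  set N : ℝ := (Fintype.card W : ℝ) with hN
  set M := (univ : Finset (Finset W)).sup (fun U => dX H U) with hM
  have hmaps : ∀ U ∈ (univ : Finset (Finset W)), dX H U ∈ range (M + 1) := by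
    intro U hU
    rw [mem_range, Nat.lt_succ_iff]
    exact Finset.le_sup (f := fun U => dX H U) hU
  rw [← sum_fiberwise_of_maps_to hmaps]
  have hone : ∀ i ∈ range (M + 1), ∑ U ∈ univ.filter (fun U : Finset W => dX H U = i),
      Real.exp (-(a * dX H U)) ≤
      Real.exp (80 * Real.log K * N / K ^ 10) * Real.exp (-(a / 2 * i)) := by
    intro i _
    have h1 : ∑ U ∈ univ.filter (fun U : Finset W => dX H U = i), Real.exp (-(a * dX H U)) =
        ((univ.filter fun U : Finset W => dX H U = i).card : ℝ) * Real.exp (-(a * i)) := by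
      rw [← nsmul_eq_mul, ← sum_const]
      refine sum_congr rfl fun U hU => ?_
      rw [(mem_filter.1 hU).2]
    rw [h1]
    have h2 := card_cuts_le H hk5 hdeg hbig (i : ℝ) (Nat.cast_nonneg i)
    have h3 : ((univ.filter fun U : Finset W => dX H U = i).card : ℝ) ≤
        ((univ.filter fun U : Finset W => (dX H U : ℝ) ≤ (i : ℝ)).card : ℝ) := by
      have : (univ.filter fun U : Finset W => dX H U = i) ⊆
          univ.filter fun U : Finset W => (dX H U : ℝ) ≤ (i : ℝ) := by
        intro U hU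
        rw [mem_filter] at hU ⊢
        exact ⟨mem_univ _, by rw [hU.2]⟩
      exact_mod_cast card_le_card this
    refine (mul_le_mul_of_nonneg_right (h3.trans h2) (Real.exp_pos _).le).trans ?_
    rw [← Real.exp_add, ← Real.exp_add, Real.exp_le_exp, hsq, hlog, ← hk]
    have h4 : 80 * Real.log K / K ^ 20 ≤ a / 2 := by
      have : 160 * Real.log K / K ^ 20 = 2 * (80 * Real.log K / K ^ 20) := by ring
      linarith
    have h5 : 80 * Real.log K / K ^ 20 * i ≤ a / 2 * i :=
      mul_le_mul_of_nonneg_right h4 (Nat.cast_nonneg i)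
    have h6 : 4 * (20 * Real.log K) * (N / K ^ 10 + i / K ^ 20) =
        80 * Real.log K * N / K ^ 10 + 80 * Real.log K / K ^ 20 * i := by ring
    rw [h6]
    linarith
  refine (sum_le_sum hone).trans ?_
  rw [← mul_sum]
  refine mul_le_mul_of_nonneg_left ((geo_le (x := a / 2) (by linarith) (M + 1)).trans ?_)
    (Real.exp_pos _).le
  apply le_of_eq
  field_simp

/-- three families of lower tails at once -/
theorem exists_good3 {α : Type*} [Fintype α] [DecidableEq α] {p : ℝ} (h0 : 0 ≤ p) (h1 : p ≤ 1)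
    {ι₁ ι₂ ι₃ : Type*} (I₁ : Finset ι₁) (I₂ : Finset ι₂) (I₃ : Finset ι₃)
    (T₁ : ι₁ → α → Finset (Fin 3)) (T₂ : ι₂ → α → Finset (Fin 3)) (T₃ : ι₃ → α → Finset (Fin 3))
    (s₁ s₂ s₃ : ℝ) (hs₁ : 0 ≤ s₁) (hs₂ : 0 ≤ s₂) (hs₃ : 0 ≤ s₃)
    (y₁ : ι₁ → ℝ) (y₂ : ι₂ → ℝ) (y₃ : ι₃ → ℝ)
    (hsum : ∑ i ∈ I₁, Real.exp (-(s₁ * y₁ i) + s₁ ^ 2 * mn p (T₁ i) / 2) +
      (∑ i ∈ I₂, Real.exp (-(s₂ * y₂ i) + s₂ ^ 2 * mn p (T₂ i) / 2) +
      ∑ i ∈ I₃, Real.exp (-(s₃ * y₃ i) + s₃ ^ 2 * mn p (T₃ i) / 2)) < 1) :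
    ∃ L : α → Fin 3, (∀ i ∈ I₁, mn p (T₁ i) - y₁ i < Yc (T₁ i) L) ∧
      (∀ i ∈ I₂, mn p (T₂ i) - y₂ i < Yc (T₂ i) L) ∧
      (∀ i ∈ I₃, mn p (T₃ i) - y₃ i < Yc (T₃ i) L) := by
  obtain ⟨L, hL⟩ := exists_good h0 h1 (I₁.disjSum (I₂.disjSum I₃))
    (Sum.elim T₁ (Sum.elim T₂ T₃)) (Sum.elim (fun _ => s₁) (Sum.elim (fun _ => s₂) fun _ => s₃))
    (Sum.elim y₁ (Sum.elim y₂ y₃)) (by
      rintro (i | i | i) _
      · exact hs₁
      · exact hs₂
      · exact hs₃) (by
      rw [sum_disjSum, sum_disjSum]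
      exact hsum)
  refine ⟨L, fun i hi => ?_, fun i hi => ?_, fun i hi => ?_⟩
  · exact hL (Sum.inl i) (by simpa using hi)
  · exact hL (Sum.inr (Sum.inl i)) (by simpa using hi)
  · exact hL (Sum.inr (Sum.inr i)) (by simpa using hi)

lemma small {x c : ℝ} (hc : 0 ≤ c) (h : 3 * c < 1 + x) (hx : 0 ≤ x) :
    Real.exp (-x) * c < 1 / 3 := by
  rw [Real.exp_neg, inv_mul_lt_iff₀ (Real.exp_pos _)]
  have := Real.add_one_le_exp x
  linarith

lemma log_le_self' {K : ℝ} (hK : 6 ≤ K) : Real.log K ≤ K := by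
  have := Real.log_le_sub_one_of_pos (x := K) (by linarith)
  linarith

end Rnd

open Rnd

theorem rand [Nonempty V] (G : SimpleGraph V) {k l : ℕ} {K : ℝ} (hK : 6 ≤ K)
    (hk : K ^ 20 = k) (hl : k ≤ 2 * l) (hlk : l < k) (hdeg : ∀ v, k ≤ dgc G v) :
    ∃ (S : SimpleGraph V) (O : V → V → Prop), S ≤ G ∧
      (∀ u v, O u v → G.Adj u v ∧ ¬ S.Adj u v) ∧
      (∀ u v, G.Adj u v → ¬ S.Adj u v → O u v ∨ O v u) ∧
      (∀ u v, O u v → ¬ O v u) ∧
      (∀ U : Finset V, (1 - 1 / K) * ((1 - 1 / K) * l / k) * dX G U - Fintype.card V / K ^ 4 ≤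
        dX S U) ∧
      (∀ A B : Finset V, 128 * K ^ 2 * Fintype.card V ≤ arc G A B →
        (((k : ℝ) - l) + l / (2 * K)) * arc G A B / (2 * k) ≤ oarc O A B) ∧
      (∀ A B : Finset V, arc G B A ≤ arc G A B →
        ((k : ℝ) - l) * arc G A B / (2 * k) - Fintype.card V / K ^ 4 ≤ oarc O A B) := by
  classical
  have hK0 : 0 < K := by linarith
  have hK1 : 1 / K ≤ 1 / 6 := one_div_le_one_div_of_le (by norm_num) hK
  have hK1' : 0 < 1 / K := by positivity
  have hkpos : (0 : ℝ) < k := by rw [← hk]; positivity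
  have hlr : (k : ℝ) ≤ 2 * l := by exact_mod_cast hl
  have hlkr : (l : ℝ) ≤ k := by exact_mod_cast hlk.le
  set q : ℝ := (l : ℝ) / k with hq
  have hq1 : q ≤ 1 := by rw [hq, div_le_one hkpos]; exact hlkr
  have hq2 : 1 / 2 ≤ q := by rw [hq, le_div_iff₀ hkpos]; linarith
  set p : ℝ := (1 - 1 / K) * q with hp
  have hp0 : 1 / 4 ≤ p := by rw [hp]; nlinarith
  have hp1 : p ≤ 1 := by rw [hp]; nlinarith
  set n : ℝ := (Fintype.card V : ℝ) with hn
  have hnk : K ^ 20 ≤ n := by
    obtain ⟨v⟩ := ‹Nonempty V›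
    rw [hk, hn]
    have h1 := hdeg v
    have h2 : dgc G v ≤ Fintype.card V := by
      unfold dgc
      exact card_filter_le _ _
    exact_mod_cast h1.trans h2
  have hn0 : 0 ≤ n := le_trans (by positivity) hnk
  have hlog := log_le_self' hK
  have hlog0 : 0 < Real.log K := Real.log_pos (by linarith)
  have h4 : (1296 : ℝ) ≤ K ^ 4 := by
    have : (6 : ℝ) ^ 4 ≤ K ^ 4 := pow_le_pow_left₀ (by norm_num) hK 4
    linarith [this]
  have h17 : (10240 : ℝ) ≤ K ^ 17 := by
    have : (6 : ℝ) ^ 17 ≤ K ^ 17 := pow_le_pow_left₀ (by norm_num) hK 17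
    exact le_trans (by norm_num) this
  have h13 : (10240 : ℝ) ≤ K ^ 13 := by
    have : (6 : ℝ) ^ 13 ≤ K ^ 13 := pow_le_pow_left₀ (by norm_num) hK 13
    exact le_trans (by norm_num) this
  have h15 : 10240 * K ^ 2 ≤ K ^ 15 := by
    have e : K ^ 15 = K ^ 13 * K ^ 2 := by ring
    rw [e]
    exact mul_le_mul_of_nonneg_right h13 (by positivity)
  -- the first family
  have hS1 : ∑ U : Finset V, Real.exp (-(1 / K * (1 / K * (p * dX G U) + n / K ^ 4)) +
      (1 / K) ^ 2 * mn p (T3 G U) / 2) < 1 / 3 := by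
    have hc := sum_cuts G hK hk hdeg (a := 1 / (8 * K ^ 2)) (by positivity) (by
      rw [div_le_div_iff₀ (by positivity) (by positivity)]
      have e : K ^ 20 = K ^ 17 * K ^ 2 * K := by ring
      have h5 : 160 * Real.log K * (8 * K ^ 2) ≤ 1280 * (K ^ 2 * K) := by
        have := mul_le_mul_of_nonneg_left hlog (by positivity : (0 : ℝ) ≤ 1280 * K ^ 2)
        linarith
      rw [one_mul, e]
      have h6 : 1280 * (K ^ 2 * K) ≤ K ^ 17 * (K ^ 2 * K) :=
        mul_le_mul_of_nonneg_right (by linarith) (by positivity)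
      linarith)
    have hle : ∀ U : Finset V, Real.exp (-(1 / K * (1 / K * (p * dX G U) + n / K ^ 4)) +
        (1 / K) ^ 2 * mn p (T3 G U) / 2) ≤
        Real.exp (-(n / K ^ 5)) * Real.exp (-(1 / (8 * K ^ 2) * dX G U)) := by
      intro U
      rw [← Real.exp_add, Real.exp_le_exp, mn_T3]
      have hd : (0 : ℝ) ≤ dX G U := Nat.cast_nonneg _
      have e1 : -(1 / K * (1 / K * (p * dX G U) + n / K ^ 4)) + (1 / K) ^ 2 * (p * dX G U) / 2 =
          -(n / K ^ 5) - 1 / (2 * K ^ 2) * (p * dX G U) := by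
        field_simp
        ring
      rw [e1]
      have h5 : 1 / 4 * (dX G U : ℝ) ≤ p * dX G U := mul_le_mul_of_nonneg_right hp0 hd
      have h6 : 1 / (2 * K ^ 2) * (1 / 4 * (dX G U : ℝ)) ≤ 1 / (2 * K ^ 2) * (p * dX G U) :=
        mul_le_mul_of_nonneg_left h5 (by positivity)
      have e2 : 1 / (2 * K ^ 2) * (1 / 4 * (dX G U : ℝ)) = 1 / (8 * K ^ 2) * dX G U := by
        field_simp
        ring
      linarith
    refine (sum_le_sum fun U _ => hle U).trans_lt ?_
    rw [← mul_sum]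
    refine (mul_le_mul_of_nonneg_left hc (Real.exp_pos _).le).trans_lt ?_
    rw [← mul_assoc, ← Real.exp_add]
    have h5 : -(n / K ^ 5) + 80 * Real.log K * n / K ^ 10 ≤ -(K ^ 15 / 2) := by
      have h6 : 80 * Real.log K * n / K ^ 10 ≤ n / (2 * K ^ 5) := by
        rw [div_le_div_iff₀ (by positivity) (by positivity)]
        have e : K ^ 10 = K ^ 4 * K * K ^ 5 := by ring
        rw [e]
        have h7 : 160 * Real.log K ≤ K ^ 4 * K := by
          have := mul_le_mul_of_nonneg_right (by linarith : (160 : ℝ) ≤ K ^ 4) hK0.le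
          linarith
        have h8 := mul_le_mul_of_nonneg_right h7 (mul_nonneg hn0 (by positivity : 0 ≤ K ^ 5))
        linarith
      have h9 : K ^ 15 / 2 ≤ n / (2 * K ^ 5) := by
        rw [div_le_div_iff₀ (by norm_num) (by positivity)]
        have e : K ^ 20 = K ^ 15 * K ^ 5 := by ring
        rw [e] at hnk
        linarith
      have e3 : n / K ^ 5 = n / (2 * K ^ 5) + n / (2 * K ^ 5) := by
        field_simp
        ring
      linarith
    refine (mul_le_mul_of_nonneg_right (Real.exp_le_exp.2 h5) (by positivity)).trans_lt ?_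
    refine small (by positivity) ?_ (by positivity)
    have e4 : 2 / (1 / (8 * K ^ 2)) = 16 * K ^ 2 := by field_simp; norm_num
    rw [e4]
    nlinarith [sq_nonneg K]
  -- the second family
  set I2 := (univ : Finset (Finset V × Finset V)).filter
    fun q => 128 * K ^ 2 * n ≤ (arc G q.1 q.2 : ℝ) with hI2
  set I3 := (univ : Finset (Finset V × Finset V)).filter
    fun q => arc G q.2 q.1 ≤ arc G q.1 q.2 with hI3
  have hmean : ∀ q : Finset V × Finset V, mn p (T5 G q.1 q.2) ≤ 1 / 2 * arc G q.1 q.2 := by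
    intro q
    rw [mn_T5]
    refine mul_le_mul_of_nonneg_right ?_ (Nat.cast_nonneg _)
    linarith
  have hS2 : ∑ q ∈ I2, Real.exp (-(1 / (4 * K) * (l / (4 * K * k) * arc G q.1 q.2)) +
      (1 / (4 * K)) ^ 2 * mn p (T5 G q.1 q.2) / 2) < 1 / 3 := by
    have hle : ∀ q ∈ I2, Real.exp (-(1 / (4 * K) * (l / (4 * K * k) * arc G q.1 q.2)) +
        (1 / (4 * K)) ^ 2 * mn p (T5 G q.1 q.2) / 2) ≤ Real.exp (-(2 * n)) := by
      intro q hq'
      have hE := (mem_filter.1 hq').2
      rw [Real.exp_le_exp]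
      have hm := hmean q
      set E : ℝ := (arc G q.1 q.2 : ℝ) with hEdef
      have hE0 : 0 ≤ E := Nat.cast_nonneg _
      have e1 : 1 / (4 * K) * (l / (4 * K * k) * E) = 1 / (16 * K ^ 2) * (E * ((l : ℝ) / k)) := by
        field_simp
        ring
      have h5 : E * (1 / 2) ≤ E * ((l : ℝ) / k) := mul_le_mul_of_nonneg_left hq2 hE0
      have h6 := mul_le_mul_of_nonneg_left h5 (by positivity : 0 ≤ 1 / (16 * K ^ 2))
      have h7 := mul_le_mul_of_nonneg_left hm (by positivity : 0 ≤ (1 / (4 * K)) ^ 2 / 2)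
      have e2 : (1 / (4 * K)) ^ 2 / 2 * (1 / 2 * E) = 1 / (64 * K ^ 2) * E := by
        field_simp
        ring
      have e3 : 1 / (16 * K ^ 2) * (E * (1 / 2)) = 1 / (64 * K ^ 2) * E + 1 / (64 * K ^ 2) * E := by
        field_simp
        ring
      have h8 : 2 * n ≤ 1 / (64 * K ^ 2) * E := by
        have e4 : 2 * n = 1 / (64 * K ^ 2) * (128 * K ^ 2 * n) := by
          field_simp
          ring
        rw [e4]
        exact mul_le_mul_of_nonneg_left hE (by positivity)
      rw [e1]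
      linarith
    refine (sum_le_sum hle).trans_lt ?_
    rw [sum_const, nsmul_eq_mul]
    have hcard : (I2.card : ℝ) ≤ Real.exp (3 / 2 * n) := by
      have h5 : I2.card ≤ (2 ^ Fintype.card V) * (2 ^ Fintype.card V) := by
        refine (card_filter_le _ _).trans (le_of_eq ?_)
        rw [card_univ, Fintype.card_prod, Fintype.card_finset]
      have h6 : (I2.card : ℝ) ≤ (2 ^ Fintype.card V) * (2 ^ Fintype.card V) := by exact_mod_cast h5
      refine h6.trans ?_
      have h7 : (2 : ℝ) ^ Fintype.card V ≤ Real.exp (3 / 4 * n) := by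
        have h8 : (2 : ℝ) ≤ Real.exp (3 / 4) := by
          rw [← Real.log_le_iff_le_exp (by norm_num)]
          linarith [Real.log_two_lt_d9]
        have h9 : Real.exp (3 / 4 * n) = Real.exp (3 / 4) ^ Fintype.card V := by
          rw [← Real.exp_nat_mul, hn]
          congr 1
          ring
        rw [h9]
        exact pow_le_pow_left₀ (by norm_num) h8 _
      calc (2 : ℝ) ^ Fintype.card V * 2 ^ Fintype.card V ≤
            Real.exp (3 / 4 * n) * Real.exp (3 / 4 * n) :=
            mul_le_mul h7 h7 (by positivity) (Real.exp_pos _).le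
        _ = _ := by rw [← Real.exp_add]; congr 1; ring
    refine (mul_le_mul_of_nonneg_right hcard (Real.exp_pos _).le).trans_lt ?_
    rw [← Real.exp_add]
    have h10 := small (x := n / 2) (c := 1) (by norm_num) (by
      have : (10240 : ℝ) ≤ n := by
        have e : K ^ 20 = K ^ 17 * K ^ 3 := by ring
        have h11 : (1 : ℝ) ≤ K ^ 3 := one_le_pow₀ (by linarith)
        rw [e] at hnk
        nlinarith
      linarith) (by positivity)
    rw [mul_one] at h10
    refine lt_of_le_of_lt (le_of_eq ?_) h10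
    congr 1
    ring
  have hS3 : ∑ q ∈ I3, Real.exp (-(1 / (2 * K) * (l / (2 * K * k) * arc G q.1 q.2 + n / K ^ 4)) +
      (1 / (2 * K)) ^ 2 * mn p (T5 G q.1 q.2) / 2) < 1 / 3 := by
    have hdeg2 : ∀ x : V × Bool, k ≤ dgc (DC G) x := by
      intro x
      rw [dgc_DC]
      exact hdeg _
    have hc := sum_cuts (DC G) hK hk hdeg2 (a := 1 / (32 * K ^ 2)) (by positivity) (by
      rw [div_le_div_iff₀ (by positivity) (by positivity)]
      have e : K ^ 20 = K ^ 17 * K ^ 2 * K := by ring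
      have h5 : 160 * Real.log K * (32 * K ^ 2) ≤ 5120 * (K ^ 2 * K) := by
        have := mul_le_mul_of_nonneg_left hlog (by positivity : (0 : ℝ) ≤ 5120 * K ^ 2)
        linarith
      rw [one_mul, e]
      have h6 : 5120 * (K ^ 2 * K) ≤ K ^ 17 * (K ^ 2 * K) :=
        mul_le_mul_of_nonneg_right (by linarith) (by positivity)
      linarith)
    have hle : ∀ q ∈ I3, Real.exp (-(1 / (2 * K) * (l / (2 * K * k) * arc G q.1 q.2 + n / K ^ 4)) +
        (1 / (2 * K)) ^ 2 * mn p (T5 G q.1 q.2) / 2) ≤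
        Real.exp (-(n / (2 * K ^ 5))) *
          Real.exp (-(1 / (32 * K ^ 2) * dX (DC G) (pr q.1 q.2))) := by
      intro q hq'
      have hE' := (mem_filter.1 hq').2
      have hE : (arc G q.2 q.1 : ℝ) ≤ arc G q.1 q.2 := by exact_mod_cast hE'
      rw [← Real.exp_add, Real.exp_le_exp, dX_DC]
      have hm := hmean q
      set E : ℝ := (arc G q.1 q.2 : ℝ) with hEdef
      have hE0 : 0 ≤ E := Nat.cast_nonneg _
      have e1 : 1 / (2 * K) * (l / (2 * K * k) * E + n / K ^ 4) =
          1 / (4 * K ^ 2) * (E * ((l : ℝ) / k)) + n / (2 * K ^ 5) := by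
        field_simp
        ring
      have h5 : E * (1 / 2) ≤ E * ((l : ℝ) / k) := mul_le_mul_of_nonneg_left hq2 hE0
      have h6 := mul_le_mul_of_nonneg_left h5 (by positivity : 0 ≤ 1 / (4 * K ^ 2))
      have h7 := mul_le_mul_of_nonneg_left hm (by positivity : 0 ≤ (1 / (2 * K)) ^ 2 / 2)
      have e2 : (1 / (2 * K)) ^ 2 / 2 * (1 / 2 * E) = 1 / (16 * K ^ 2) * E := by
        field_simp
        ring
      have e3 : 1 / (4 * K ^ 2) * (E * (1 / 2)) = 1 / (16 * K ^ 2) * E + 1 / (16 * K ^ 2) * E := by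
        field_simp
        ring
      have h8 : 1 / (32 * K ^ 2) * (E + arc G q.2 q.1) ≤ 1 / (16 * K ^ 2) * E := by
        have h9 := mul_le_mul_of_nonneg_left (add_le_add (le_refl E) hE)
          (by positivity : 0 ≤ 1 / (32 * K ^ 2))
        have e4 : 1 / (32 * K ^ 2) * (E + E) = 1 / (16 * K ^ 2) * E := by
          field_simp
          ring
        linarith
      rw [e1]
      linarith
    refine (sum_le_sum hle).trans_lt ?_
    rw [← mul_sum]
    have hinj : ∑ q ∈ I3, Real.exp (-(1 / (32 * K ^ 2) * dX (DC G) (pr q.1 q.2))) ≤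
        ∑ U : Finset (V × Bool), Real.exp (-(1 / (32 * K ^ 2) * dX (DC G) U)) := by
      have h5 : ∑ q ∈ I3, Real.exp (-(1 / (32 * K ^ 2) * dX (DC G) (pr q.1 q.2))) =
          ∑ U ∈ I3.image (fun q : Finset V × Finset V => pr q.1 q.2),
            Real.exp (-(1 / (32 * K ^ 2) * dX (DC G) U)) := by
        rw [sum_image]
        intro a _ b _ hab
        exact pr_inj hab
      rw [h5]
      exact sum_le_sum_of_subset_of_nonneg (subset_univ _) fun U _ _ => (Real.exp_pos _).le
    refine (mul_le_mul_of_nonneg_left (hinj.trans hc) (Real.exp_pos _).le).trans_lt ?_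
    have hcardW : (Fintype.card (V × Bool) : ℝ) = 2 * n := by
      rw [Fintype.card_prod, Fintype.card_bool, hn]
      push_cast
      ring
    rw [hcardW, ← mul_assoc, ← Real.exp_add]
    have h5 : -(n / (2 * K ^ 5)) + 80 * Real.log K * (2 * n) / K ^ 10 ≤ -(K ^ 15 / 4) := by
      have h6 : 80 * Real.log K * (2 * n) / K ^ 10 ≤ n / (4 * K ^ 5) := by
        rw [div_le_div_iff₀ (by positivity) (by positivity)]
        have e : K ^ 10 = K ^ 4 * K * K ^ 5 := by ring
        rw [e]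
        have h7 : 640 * Real.log K ≤ K ^ 4 * K := by
          have := mul_le_mul_of_nonneg_right (by linarith : (640 : ℝ) ≤ K ^ 4) hK0.le
          linarith
        have h8 := mul_le_mul_of_nonneg_right h7 (mul_nonneg hn0 (by positivity : 0 ≤ K ^ 5))
        linarith
      have h9 : K ^ 15 / 4 ≤ n / (4 * K ^ 5) := by
        rw [div_le_div_iff₀ (by norm_num) (by positivity)]
        have e : K ^ 20 = K ^ 15 * K ^ 5 := by ring
        rw [e] at hnk
        linarith
      have e3 : n / (2 * K ^ 5) = n / (4 * K ^ 5) + n / (4 * K ^ 5) := by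
        field_simp
        ring
      linarith
    refine (mul_le_mul_of_nonneg_right (Real.exp_le_exp.2 h5) (by positivity)).trans_lt ?_
    refine small (by positivity) ?_ (by positivity)
    have e4 : 2 / (1 / (32 * K ^ 2)) = 64 * K ^ 2 := by field_simp; norm_num
    rw [e4]
    nlinarith [sq_nonneg K]
  obtain ⟨L, hL1, hL2, hL3⟩ := exists_good3 (by linarith : 0 ≤ p) hp1
    (univ : Finset (Finset V)) I2 I3 (fun U => T3 G U) (fun q => T5 G q.1 q.2)
    (fun q => T5 G q.1 q.2) (1 / K) (1 / (4 * K)) (1 / (2 * K)) (by positivity) (by positivity)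
    (by positivity) (fun U => 1 / K * (p * dX G U) + n / K ^ 4)
    (fun q => l / (4 * K * k) * arc G q.1 q.2)
    (fun q => l / (2 * K * k) * arc G q.1 q.2 + n / K ^ 4) (by linarith)
  refine ⟨Sg G L, Og G L, fun u v h => h.1, ?_, ?_, ?_, ?_, ?_, ?_⟩
  · rintro u v ⟨h, h'⟩
    refine ⟨h, ?_⟩
    rintro ⟨-, h2⟩
    rcases h' with ⟨h3, h4⟩ | ⟨h3, h4⟩ <;> rcases h2 with ⟨h5, h6⟩ | ⟨h5, h6⟩
    · rw [h4] at h6
      exact absurd h6 (by decide)
    · exact absurd h3 (not_lt.2 h5.le)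
    · exact absurd h3 (not_lt.2 h5.le)
    · rw [h4] at h6
      exact absurd h6 (by decide)
  · intro u v hG hS
    have h3 : ∀ i : Fin 3, i = 0 ∨ i = 1 ∨ i = 2 := by decide
    rcases lt_trichotomy (ord u) (ord v) with h | h | h
    · rcases h3 (L (u, v)) with h4 | h4 | h4
      · exact absurd ⟨hG, Or.inl ⟨h, h4⟩⟩ hS
      · exact Or.inl ⟨hG, Or.inl ⟨h, h4⟩⟩
      · exact Or.inr ⟨hG.symm, Or.inr ⟨h, h4⟩⟩
    · exact absurd (ord_inj h) hG.ne
    · rcases h3 (L (v, u)) with h4 | h4 | h4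
      · exact absurd ⟨hG, Or.inr ⟨h, h4⟩⟩ hS
      · exact Or.inr ⟨hG.symm, Or.inl ⟨h, h4⟩⟩
      · exact Or.inl ⟨hG, Or.inr ⟨h, h4⟩⟩
  · rintro u v ⟨-, h⟩ ⟨-, h'⟩
    rcases h with ⟨h3, h4⟩ | ⟨h3, h4⟩ <;> rcases h' with ⟨h5, h6⟩ | ⟨h5, h6⟩
    · exact absurd h3 (not_lt.2 h5.le)
    · rw [h4] at h6
      exact absurd h6 (by decide)
    · rw [h4] at h6
      exact absurd h6 (by decide)
    · exact absurd h3 (not_lt.2 h5.le)
  · intro U
    have h := hL1 U (mem_univ _)
    rw [← Yc_T3, mn_T3] at h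
    have e : (1 - 1 / K) * ((1 - 1 / K) * l / k) * dX G U = p * dX G U - 1 / K * (p * dX G U) := by
      rw [hp, hq]
      ring
    rw [e]
    linarith
  · intro A B hAB
    have h := hL2 (A, B) (by rw [hI2, mem_filter]; exact ⟨mem_univ _, hAB⟩)
    simp only at h
    rw [← Yc_T5, mn_T5] at h
    have e : (((k : ℝ) - l) + l / (2 * K)) * arc G A B / (2 * k) =
        (1 - p) / 2 * arc G A B - l / (4 * K * k) * arc G A B := by
      rw [hp, hq]
      field_simp
      ring
    rw [e]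
    exact h.le
  · intro A B hAB
    have h := hL3 (A, B) (by rw [hI3, mem_filter]; exact ⟨mem_univ _, hAB⟩)
    simp only at h
    rw [← Yc_T5, mn_T5] at h
    have e : ((k : ℝ) - l) * arc G A B / (2 * k) =
        (1 - p) / 2 * arc G A B - l / (2 * K * k) * arc G A B := by
      rw [hp, hq]
      field_simp
      ring
    rw [e]
    linarith

end Pool.Agent.Work.MP_60abc6_co.DEL
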