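import Mathlib
import Pool.Agent.Work.MP_60abc6_co.DEL.Par
import Pool.Agent.Work.MP_60abc6_co.DEL.Rand

set_option autoImplicit false

/-! The parameters `eps`, `omg`, and the outcome of the random experiment in these parameters. -/

namespace Pool.Agent.Work.MP_60abc6_co.DEL

open Finset

lemma eps_pos {k : ℕ} (hk : 1 ≤ k) : 0 < eps k :=
  Real.rpow_pos_of_pos (by exact_mod_cast hk) _

lemma eps_le_one {k : ℕ} (hk : 1 ≤ k) : eps k ≤ 1 :=
  Real.rpow_le_one_of_one_le_of_nonpos (by exact_mod_cast hk) (by norm_num)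

lemma eps_pow (k : ℕ) : eps k ^ 20 = (k : ℝ)⁻¹ := by
  unfold eps
  rw [← Real.rpow_natCast, ← Real.rpow_mul (Nat.cast_nonneg k), ← Real.rpow_neg_one]
  norm_num

lemma eps_pow_mul {k : ℕ} (hk : 1 ≤ k) : eps k ^ 20 * k = 1 := by
  rw [eps_pow]
  have : (k : ℝ) ≠ 0 := by
    have : 0 < k := hk
    positivity
  exact inv_mul_cancel₀ this

lemma omg_eq (k : ℕ) : omg k = eps k ^ 4 := by
  unfold omg eps
  rw [← Real.rpow_natCast ((k : ℝ) ^ (-(1 / 20 : ℝ))), ← Real.rpow_mul (Nat.cast_nonneg k)]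
  norm_num

lemma eps_tendsto : Filter.Tendsto eps Filter.atTop (nhds 0) := by
  have h := tendsto_rpow_neg_atTop (y := (1 / 20 : ℝ)) (by norm_num)
  exact h.comp tendsto_natCast_atTop_atTop

lemma eps_small (δ : ℝ) (hδ : 0 < δ) : ∃ k₀ : ℕ, ∀ k ≥ k₀, eps k ≤ δ := by
  have h := eps_tendsto.eventually_le_const hδ
  rw [Filter.eventually_atTop] at h
  exact h

lemma arc_eq_E1 {V : Type*} [Fintype V] [DecidableEq V] (G : SimpleGraph V) (A B : Finset V) :
    arc G A B = E1 G A B := by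
  unfold arc oarc E1
  congr

theorem random_split : ∃ k₀ : ℕ, ∀ k ≥ k₀, ∀ l : ℕ, k ≤ 2 * l → l < k → ∀ n : ℕ, k < n →
    ∀ G : SimpleGraph (Fin n), (∀ v, k ≤ dgc G v) →
    ∃ (S : SimpleGraph (Fin n)) (Arc : Finset (Fin n × Fin n)), S ≤ G ∧
      (∀ a ∈ Arc, G.Adj a.1 a.2 ∧ ¬ S.Adj a.1 a.2 ∧ (a.2, a.1) ∉ Arc) ∧
      (∀ U : Finset (Fin n), (1 - eps k) ^ 2 * l / k * dX G U - omg k * n ≤ dX S U) ∧
      (∀ A B : Finset (Fin n), 128 * n / eps k ^ 2 ≤ E1 G A B →
        ((k : ℝ) - l) / (2 * k) * E1 G A B + n ≤ eA Arc A B) ∧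
      (∀ A B : Finset (Fin n), E1 G B A < E1 G A B →
        ((k : ℝ) - l) / (2 * k) * E1 G A B - omg k * n ≤ eA Arc A B) := by
  classical
  obtain ⟨k₁, hk₁⟩ := eps_small (1 / 6) (by norm_num)
  refine ⟨max k₁ 1, fun k hk l hkl hlk n hkn G hdeg => ?_⟩
  have hk1 : 1 ≤ k := le_trans (le_max_right _ _) hk
  have he6 := hk₁ k (le_trans (le_max_left _ _) hk)
  have he0 := eps_pos hk1
  have hkR : (0 : ℝ) < k := by exact_mod_cast hk1
  have hne : Nonempty (Fin n) := ⟨⟨0, by omega⟩⟩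
  have hK6 : 6 ≤ 1 / eps k := by
    rw [le_div_iff₀ he0]
    linarith
  have hK20 : (1 / eps k) ^ 20 = (k : ℝ) := by
    rw [one_div, inv_pow, eps_pow, inv_inv]
  obtain ⟨S, O, hSG, hO1, hO2, hO3, hU, hA1, hA2⟩ := rand G hK6 hK20 hkl hlk hdeg
  rw [Fintype.card_fin] at hU hA1 hA2
  have hO : ∀ A B : Finset (Fin n),
      eA (univ.filter fun a : Fin n × Fin n => O a.1 a.2) A B = oarc O A B := by
    intro A B
    unfold eA oarc
    rw [filter_filter]
  have hlR : (k : ℝ) ≤ 2 * l := by exact_mod_cast hkl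
  have hnR : (0 : ℝ) ≤ n := Nat.cast_nonneg n
  refine ⟨S, univ.filter fun a => O a.1 a.2, hSG, ?_, ?_, ?_, ?_⟩
  · intro a ha
    rw [mem_filter] at ha
    refine ⟨(hO1 _ _ ha.2).1, (hO1 _ _ ha.2).2, ?_⟩
    rw [mem_filter, not_and]
    intro _
    exact hO3 _ _ ha.2
  · intro U
    refine le_trans (le_of_eq ?_) (hU U)
    rw [omg_eq, one_div_one_div]
    have h1 : (n : ℝ) / (1 / eps k) ^ 4 = eps k ^ 4 * n := by
      field_simp
    rw [h1]
    ring
  · intro A B hAB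
    rw [hO]
    have h1 := hA1 A B (by
      rw [arc_eq_E1]
      refine le_trans (le_of_eq ?_) hAB
      field_simp)
    rw [arc_eq_E1] at h1
    refine le_trans ?_ h1
    have h2 : (((k : ℝ) - l) + l / (2 * (1 / eps k))) * E1 G A B / (2 * k) =
        ((k : ℝ) - l) / (2 * k) * E1 G A B + (l / k) * (eps k * E1 G A B / 4) := by
      field_simp
      ring
    rw [h2]
    have h3 : (1 : ℝ) / 2 ≤ l / k := by
      rw [div_le_div_iff₀ (by norm_num) hkR]
      linarith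
    have h4 : 32 * (n : ℝ) ≤ eps k * E1 G A B / 4 := by
      rw [div_le_iff₀ (by positivity)] at hAB
      rw [le_div_iff₀ (by norm_num)]
      have h5 : 128 * (n : ℝ) ≤ E1 G A B * eps k := by
        refine hAB.trans ?_
        refine mul_le_mul_of_nonneg_left ?_ (Nat.cast_nonneg _)
        nlinarith
      linarith
    have h5 : (1 / 2) * (32 * (n : ℝ)) ≤ (l / k) * (eps k * E1 G A B / 4) :=
      mul_le_mul h3 h4 (by positivity) (by positivity)
    linarith
  · intro A B hAB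
    rw [hO]
    have h1 := hA2 A B (by rw [arc_eq_E1, arc_eq_E1]; exact hAB.le)
    rw [arc_eq_E1] at h1
    refine le_trans (le_of_eq ?_) h1
    rw [omg_eq]
    field_simp

end Pool.Agent.Work.MP_60abc6_co.DEL
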