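import Pool.Agent.Work.MP_60abc6_co.DEL.Flow
import Pool.Agent.Work.MP_60abc6_co.DEL.Par
import Pool.Agent.Work.MP_60abc6_co.Match

/-! Step 1 (U7): from the counts of the random orientation to a spanning subgraph `M ≥ S` with all
degrees at least `l` and few edges. -/

set_option autoImplicit false

namespace Pool.Agent.Work.MP_60abc6_co.DEL

open Finset

variable {V : Type*} [Fintype V] [DecidableEq V]

namespace Step

open Classical in
/-- adjacent pairs from `A` to `B` -/
noncomputable def EE (G : SimpleGraph V) (A B : Finset V) : ℕ :=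
  ((univ : Finset (V × V)).filter fun e => e.1 ∈ A ∧ e.2 ∈ B ∧ G.Adj e.1 e.2).card

lemma sum_left (G : SimpleGraph V) (A B : Finset V) :
    ∑ v ∈ A, dgc G v = EE G A B + E1 G A B := by
  classical
  have h1 : ∑ v ∈ A, dgc G v =
      ((univ : Finset (V × V)).filter fun e => e.1 ∈ A ∧ G.Adj e.1 e.2).card := by
    rw [card_eq_sum_card_fiberwise (f := Prod.fst) (t := A) (fun e he => by
      rw [mem_coe, mem_filter] at he
      exact he.2.1)]
    refine sum_congr rfl fun v hv => ?_
    unfold dgc
    apply card_bij (fun u _ => (v, u))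
    · intro u hu
      simp only [mem_filter, mem_univ, true_and] at hu ⊢
      exact ⟨⟨hv, hu⟩, trivial⟩
    · intro u _ u' _ h
      exact (Prod.mk.inj h).2
    · intro e he
      simp only [mem_filter, mem_univ, true_and] at he
      obtain ⟨⟨_, h2⟩, h3⟩ := he
      refine ⟨e.2, ?_, ?_⟩
      · simp only [mem_filter, mem_univ, true_and]
        rw [← h3]
        exact h2
      · rw [← h3]
  rw [h1, EE, E1, ← card_union_of_disjoint]
  · congr 1
    ext e
    simp only [mem_filter, mem_univ, true_and, mem_union]
    tauto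
  · rw [disjoint_left]
    intro e he he'
    simp only [mem_filter, mem_univ, true_and] at he he'
    exact he'.2.2 he.2.1

lemma sum_right (G : SimpleGraph V) (A B : Finset V) :
    ∑ v ∈ B, dgc G v = EE G A B + E1 G B A := by
  classical
  have h1 : EE G A B = EE G B A := by
    unfold EE
    apply card_bij (fun e _ => e.swap)
    · intro e he
      simp only [mem_filter, mem_univ, true_and, Prod.fst_swap, Prod.snd_swap] at he ⊢
      exact ⟨he.2.1, he.1, he.2.2.symm⟩
    · intro e _ e' _ h
      exact Prod.swap_injective h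
    · intro e he
      refine ⟨e.swap, ?_, Prod.swap_swap e⟩
      simp only [mem_filter, mem_univ, true_and, Prod.fst_swap, Prod.snd_swap] at he ⊢
      exact ⟨he.2.1, he.1, he.2.2.symm⟩
  rw [h1]
  exact sum_left G B A

/-- the graph of a set of pairs -/
def gr (G : SimpleGraph V) (F : Finset (V × V)) (hF : ∀ e ∈ F, G.Adj e.1 e.2) :
    SimpleGraph V where
  Adj u v := (u, v) ∈ F ∨ (v, u) ∈ F
  symm := ⟨fun u v h => h.symm⟩
  loopless := ⟨fun u h => by
    rcases h with h | h <;> exact G.loopless.irrefl u (hF _ h)⟩

/-- Hall's theorem gives the subgraph from the deficiency version of the condition -/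
theorem flow_step {G S : SimpleGraph V} {O : Finset (V × V)} {l : ℕ}
    (hO : ∀ e ∈ O, G.Adj e.1 e.2 ∧ ¬ S.Adj e.1 e.2) (hSG : S ≤ G)
    (hanti : ∀ u v, (u, v) ∈ O → (v, u) ∉ O) (a : V → ℕ) (ha : ∀ v, a v + l ≤ dgc G v) (D : ℕ)
    (h : ∀ A B : Finset V, ∑ v ∈ A, a v ≤ ∑ v ∈ B, (dgc G v - l - a v) + eA O A B + D) :
    ∃ M : SimpleGraph V, S ≤ M ∧ M ≤ G ∧ (∀ v, l ≤ dgc M v) ∧ ec M + ∑ v, a v ≤ ec G + D := by
  classical
  obtain ⟨F, hFO, hout, hin, hsize⟩ := flow_lemma O a (fun v => dgc G v - l - a v) D h
  have hFG : ∀ e ∈ F, G.Adj e.1 e.2 := fun e he => (hO e (hFO he)).1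
  set R := gr G F hFG with hR
  have hRG : R ≤ G := by
    intro u v huv
    rcases huv with h1 | h1
    · exact hFG _ h1
    · exact (hFG _ h1).symm
  have hdeg : ∀ v, dgc R v ≤ dgc G v - l := by
    intro v
    have h1 : (univ.filter (R.Adj v)) ⊆
        ((F.filter fun e => e.1 = v).image Prod.snd) ∪ ((F.filter fun e => e.2 = v).image Prod.fst) := by
      intro u hu
      rw [mem_filter] at hu
      rw [mem_union, mem_image, mem_image]
      rcases hu.2 with h1 | h1
      · exact Or.inl ⟨(v, u), mem_filter.2 ⟨h1, rfl⟩, rfl⟩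
      · exact Or.inr ⟨(u, v), mem_filter.2 ⟨h1, rfl⟩, rfl⟩
    have h2 : dgc R v ≤ (F.filter fun e => e.1 = v).card + (F.filter fun e => e.2 = v).card := by
      unfold dgc
      exact (card_le_card h1).trans ((card_union_le _ _).trans
        (add_le_add card_image_le card_image_le))
    have h3 := hout v
    have h4 := hin v
    have h5 := ha v
    omega
  have hec : ec R = F.card := by
    have h1 := two_mul_ec R
    rw [sum_dgc] at h1
    have h2 : ((univ : Finset (V × V)).filter fun p => R.Adj p.1 p.2) = F ∪ F.image Prod.swap := by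
      ext e
      simp only [mem_filter, mem_univ, true_and, mem_union, mem_image]
      constructor
      · rintro (h3 | h3)
        · exact Or.inl h3
        · exact Or.inr ⟨(e.2, e.1), h3, rfl⟩
      · rintro (h3 | ⟨e', h3, rfl⟩)
        · exact Or.inl h3
        · exact Or.inr h3
    have h3 : Disjoint F (F.image Prod.swap) := by
      rw [disjoint_left]
      intro e he he'
      obtain ⟨e', he', hee⟩ := mem_image.1 he'
      have h4 : e' = (e.2, e.1) := by
        rw [← hee]
        rfl
      exact hanti e.1 e.2 (hFO he) (h4 ▸ hFO he')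
    rw [h2, card_union_of_disjoint h3, card_image_of_injective _ Prod.swap_injective] at h1
    omega
  refine ⟨G \ R, ?_, sdiff_le, ?_, ?_⟩
  · intro u v huv
    rw [SimpleGraph.sdiff_adj]
    refine ⟨hSG huv, ?_⟩
    rintro (h1 | h1)
    · exact (hO _ (hFO h1)).2 huv
    · exact (hO _ (hFO h1)).2 huv.symm
  · intro v
    have h1 := dgc_sdiff hRG v
    have h2 := hdeg v
    have h3 := ha v
    omega
  · have h1 := ec_sdiff' hRG
    omega

/-- The first step, abstract form.  `s` are the signs (`0` if `k - l` is even, `1` or `-1` if it is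
odd), `Bd` the vertices with few neighbours of sign `-1`. -/
theorem step_aux {G S : SimpleGraph V} {O : Finset (V × V)} {k l : ℕ} (hlk : l < k) (hk : 4 ≤ k)
    (hdeg : ∀ v, k ≤ dgc G v) (hSG : S ≤ G) (hO : ∀ e ∈ O, G.Adj e.1 e.2 ∧ ¬ S.Adj e.1 e.2)
    (hanti : ∀ u v, (u, v) ∈ O → (v, u) ∉ O) {a : V → ℕ} {s : V → ℤ}
    (has : ∀ v, 2 * (a v : ℤ) = (k - l : ℕ) + s v) {Es W δ₀ β : ℝ} (hW : 0 ≤ W) (hδ₀ : 0 ≤ δ₀)
    (hδ₀' : δ₀ ≤ 1 / 2) (hβ : 0 ≤ β) (hEs : 0 ≤ Es)
    (hi : ∀ A B : Finset V, Es ≤ E1 G A B →
      ((k - l : ℕ) : ℝ) / (2 * k) * E1 G A B + Fintype.card V ≤ eA O A B)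
    (hii : ∀ A B : Finset V, E1 G B A < E1 G A B →
      ((k - l : ℕ) : ℝ) / (2 * k) * E1 G A B - W ≤ eA O A B)
    (hs : (∀ v, s v = 0) ∨ ((∀ v, s v = 1 ∨ s v = -1) ∧ ∃ Bd : Finset V,
      (∀ v ∉ Bd, (1 / 2 - δ₀) * dgc G v ≤ EE G {v} (univ.filter fun w => s w = -1)) ∧
      (∑ v ∈ Bd, dgc G v : ℕ) ≤ β)) {D : ℕ}
    (hD : W + 2 * δ₀ * Fintype.card V + 4 * β / k + 2 * Es / k ≤ D) :
    ∃ M : SimpleGraph V, S ≤ M ∧ M ≤ G ∧ (∀ v, l ≤ dgc M v) ∧
      ec M + ∑ v, a v ≤ ec G + D := by
  classical
  set r : ℕ := k - l with hr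
  have hr1 : 1 ≤ r := by omega
  have hk0 : (0 : ℝ) < k := by
    have : 0 < k := by omega
    exact_mod_cast this
  have hrk : (r : ℝ) ≤ k := by
    have : r ≤ k := by omega
    exact_mod_cast this
  have hr0 : (0 : ℝ) ≤ r := Nat.cast_nonneg _
  have hs1 : ∀ v, s v ≤ 1 ∧ -1 ≤ s v := by
    intro v
    rcases hs with h | ⟨h, -⟩
    · rw [h v]
      constructor <;> norm_num
    · rcases h v with h | h <;> rw [h] <;> constructor <;> norm_num
  have ha : ∀ v, a v + l ≤ dgc G v := by
    intro v
    have h1 := hdeg v
    have h2 := has v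
    have h3 := hs1 v
    omega
  refine flow_step hO hSG hanti a ha D ?_
  intro A B
  -- everything in real numbers
  set n : ℝ := (Fintype.card V : ℝ) with hn
  have hn0 : 0 ≤ n := Nat.cast_nonneg _
  set e1 : ℝ := (E1 G A B : ℝ) with he1
  set e2 : ℝ := (E1 G B A : ℝ) with he2
  set eo : ℝ := (eA O A B : ℝ) with heo
  have he10 : 0 ≤ e1 := Nat.cast_nonneg _
  have he20 : 0 ≤ e2 := Nat.cast_nonneg _
  have heo0 : 0 ≤ eo := Nat.cast_nonneg _
  set x : V → ℝ := fun v => (dgc G v : ℝ) - k with hx
  have hx0 : ∀ v, 0 ≤ x v := fun v => by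
    have : (k : ℝ) ≤ dgc G v := by exact_mod_cast hdeg v
    simp only [hx]
    linarith
  set xA : ℝ := ∑ v ∈ A, x v with hxA
  set xB : ℝ := ∑ v ∈ B, x v with hxB
  have hxA0 : 0 ≤ xA := sum_nonneg fun v _ => hx0 v
  have hxB0 : 0 ≤ xB := sum_nonneg fun v _ => hx0 v
  set cA : ℝ := (A.card : ℝ) with hcA
  set cB : ℝ := (B.card : ℝ) with hcB
  set sA : ℝ := ∑ v ∈ A, (s v : ℝ) with hsA
  set sB : ℝ := ∑ v ∈ B, (s v : ℝ) with hsB
  have hdA : (∑ v ∈ A, (dgc G v : ℝ)) = xA + k * cA := by
    rw [hxA]
    simp only [hx]
    rw [sum_sub_distrib, sum_const, nsmul_eq_mul, hcA]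
    ring
  have hdB : (∑ v ∈ B, (dgc G v : ℝ)) = xB + k * cB := by
    rw [hxB]
    simp only [hx]
    rw [sum_sub_distrib, sum_const, nsmul_eq_mul, hcB]
    ring
  have hcount : k * (cA - cB) = e1 - e2 - xA + xB := by
    have h1 : (∑ v ∈ A, (dgc G v : ℝ)) = EE G A B + e1 := by
      rw [he1]
      exact_mod_cast sum_left G A B
    have h2 : (∑ v ∈ B, (dgc G v : ℝ)) = EE G A B + e2 := by
      rw [he2]
      exact_mod_cast sum_right G A B
    rw [hdA] at h1
    rw [hdB] at h2
    linarith
  have haR : ∀ v, (a v : ℝ) = (r + s v) / 2 := by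
    intro v
    have h1 : (2 * (a v : ℤ) : ℤ) = (r : ℤ) + s v := has v
    have h2 : (2 : ℝ) * (a v : ℝ) = (r : ℝ) + (s v : ℝ) := by exact_mod_cast h1
    linarith
  have hAsum : (∑ v ∈ A, (a v : ℝ)) = r * cA / 2 + sA / 2 := by
    rw [sum_congr rfl fun v _ => haR v]
    simp only [add_div]
    rw [sum_add_distrib, sum_const, nsmul_eq_mul, ← sum_div, hcA]
    ring
  have hkl : (k : ℝ) - l = r := by
    have : (k : ℝ) = r + l := by
      have : k = r + l := by omega
      exact_mod_cast this
    linarith
  have hBsum : ((∑ v ∈ B, (dgc G v - l - a v) : ℕ) : ℝ) = r * cB / 2 - sB / 2 + xB := by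
    rw [Nat.cast_sum]
    have h1 : ∀ v ∈ B, ((dgc G v - l - a v : ℕ) : ℝ) = x v + (r / 2 - s v / 2) := by
      intro v _
      have h2 := ha v
      rw [Nat.cast_sub (by omega), Nat.cast_sub (by omega), haR v]
      simp only [hx]
      linarith
    have h3 : ∑ v ∈ B, ((r : ℝ) / 2 - (s v : ℝ) / 2) = r * cB / 2 - sB / 2 := by
      rw [sum_sub_distrib, sum_const, nsmul_eq_mul, ← sum_div, hcB]
      ring
    rw [sum_congr rfl h1, sum_add_distrib, h3, hxB]
    ring
  have hsAn : sA ≤ cA := by
    calc sA ≤ ∑ _v ∈ A, (1 : ℝ) := sum_le_sum fun v _ => by exact_mod_cast (hs1 v).1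
      _ = cA := by rw [sum_const, nsmul_eq_mul, mul_one, hcA]
  have hsBn : sB ≤ cB := by
    calc sB ≤ ∑ _v ∈ B, (1 : ℝ) := sum_le_sum fun v _ => by exact_mod_cast (hs1 v).1
      _ = cB := by rw [sum_const, nsmul_eq_mul, mul_one, hcB]
  have hcAn : cA ≤ n := by
    rw [hcA, hn]
    exact_mod_cast card_le_univ A
  have hcBn : cB ≤ n := by
    rw [hcB, hn]
    exact_mod_cast card_le_univ B
  have hD0 : 0 ≤ 2 * δ₀ * n + 4 * β / k + 2 * Es / k := by positivity
  -- the main inequality
  have key : r * cA / 2 + sA / 2 ≤ r * cB / 2 - sB / 2 + xB + eo + D := by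
    set κ : ℝ := r / (2 * k) with hκ
    have hκ0 : 0 ≤ κ := by positivity
    have hκ1 : κ ≤ 1 / 2 := by
      rw [hκ, div_le_div_iff₀ (by positivity) (by norm_num)]
      linarith
    have hkey : r * cA / 2 - r * cB / 2 = κ * e1 - κ * e2 - κ * xA + κ * xB := by
      have h1 : r / 2 * (cA - cB) = κ * (e1 - e2 - xA + xB) := by
        rw [← hcount, hκ]
        field_simp
      linarith
    have h2 : κ * xB ≤ xB / 2 := by
      have := mul_le_mul_of_nonneg_right hκ1 hxB0
      linarith
    have h4 : 0 ≤ κ * xA := by positivity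
    have h3 : 0 ≤ κ * e2 := by positivity
    by_cases hbig : Es ≤ e1
    · have h5 : κ * e1 + n ≤ eo := hi A B hbig
      linarith
    · rw [not_le] at hbig
      rcases hs with hs0 | ⟨hs1', Bd, hBd, hBdsum⟩
      · have hsA0 : sA = 0 := by
          rw [hsA]
          exact sum_eq_zero fun v _ => by rw [hs0 v]; simp
        have hsB0 : sB = 0 := by
          rw [hsB]
          exact sum_eq_zero fun v _ => by rw [hs0 v]; simp
        rw [hsA0, hsB0]
        by_cases h12 : E1 G B A < E1 G A B
        · have h1 : κ * e1 - W ≤ eo := hii A B h12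
          linarith
        · have h12' : e1 ≤ e2 := by
            rw [he1, he2]
            exact_mod_cast not_lt.1 h12
          have h5 : κ * e1 ≤ κ * e2 := mul_le_mul_of_nonneg_left h12' hκ0
          linarith
      · -- the odd case
        set P : Finset V := A.filter fun v => s v = 1 with hP
        set N : Finset V := B.filter fun v => s v = -1 with hN
        have hPc : (P.card : ℝ) = (cA + sA) / 2 := by
          have h1 : ∀ v ∈ A, (if s v = 1 then (1 : ℝ) else 0) = (1 + s v) / 2 := by
            intro v _
            rcases hs1' v with h | h <;> rw [h] <;> norm_num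
          rw [hP, card_filter, Nat.cast_sum]
          have h2 : ∀ v ∈ A, (((if s v = 1 then 1 else 0 : ℕ)) : ℝ) = (1 + s v) / 2 := by
            intro v hv
            rw [← h1 v hv]
            push_cast
            rfl
          rw [sum_congr rfl h2, ← sum_div, sum_add_distrib, sum_const, nsmul_eq_mul, mul_one]
        have hNc : (N.card : ℝ) = (cB - sB) / 2 := by
          have h1 : ∀ v ∈ B, (((if s v = -1 then 1 else 0 : ℕ)) : ℝ) = (1 - s v) / 2 := by
            intro v _
            rcases hs1' v with h | h <;> rw [h] <;> norm_num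
          rw [hN, card_filter, Nat.cast_sum, sum_congr rfl h1, ← sum_div, sum_sub_distrib,
            sum_const, nsmul_eq_mul, mul_one]
        have hPN : (P.card : ℝ) + N.card ≤ n := by
          have h1 : Disjoint P N := by
            rw [disjoint_left]
            intro v hv hv'
            rw [hP, mem_filter] at hv
            rw [hN, mem_filter] at hv'
            rw [hv.2] at hv'
            exact absurd hv'.2 (by norm_num)
          have h2 := card_le_univ (P ∪ N)
          rw [card_union_of_disjoint h1] at h2
          rw [hn]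
          exact_mod_cast h2
        -- edges from `P` to the negative vertices
        set Mi : Finset V := univ.filter fun w => s w = -1 with hMi
        have hlow : (1 / 2 - δ₀) * (k * P.card) - β ≤ EE G P Mi := by
          have h1 : (EE G P Mi : ℝ) = ∑ v ∈ P, (EE G {v} Mi : ℝ) := by
            rw [← Nat.cast_sum]
            congr 1
            unfold EE
            rw [card_eq_sum_card_fiberwise (f := Prod.fst) (t := P) (fun e he => by
              rw [mem_coe, mem_filter] at he
              exact he.2.1)]
            refine sum_congr rfl fun v hv => ?_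
            congr 1
            ext e
            simp only [mem_filter, mem_univ, true_and, mem_singleton]
            constructor
            · rintro ⟨⟨h2, h3, h4⟩, h5⟩
              exact ⟨h5, h3, h4⟩
            · rintro ⟨h2, h3, h4⟩
              exact ⟨⟨h2 ▸ hv, h3, h4⟩, h2⟩
          rw [h1]
          have h2 : ∀ v ∈ P, (1 / 2 - δ₀) * k - (if v ∈ Bd then (dgc G v : ℝ) else 0) ≤
              (EE G {v} Mi : ℝ) := by
            intro v _
            have h3 : (k : ℝ) ≤ dgc G v := by exact_mod_cast hdeg v
            have h4 : (0 : ℝ) ≤ (EE G {v} Mi : ℝ) := Nat.cast_nonneg _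
            have h6 : (1 / 2 - δ₀) * k ≤ (1 / 2 - δ₀) * dgc G v :=
              mul_le_mul_of_nonneg_left h3 (by linarith)
            by_cases hv : v ∈ Bd
            · rw [if_pos hv]
              have h7 : (1 / 2 - δ₀) * dgc G v ≤ 1 * dgc G v :=
                mul_le_mul_of_nonneg_right (by linarith) (by linarith)
              linarith
            · rw [if_neg hv]
              have h5 := hBd v hv
              linarith
          have h3 := sum_le_sum h2
          rw [sum_sub_distrib, sum_const, nsmul_eq_mul] at h3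
          have h4 : ∑ v ∈ P, (if v ∈ Bd then (dgc G v : ℝ) else 0) ≤ β := by
            calc ∑ v ∈ P, (if v ∈ Bd then (dgc G v : ℝ) else 0)
                = ∑ v ∈ P.filter fun v => v ∈ Bd, (dgc G v : ℝ) := (sum_filter _ _).symm
              _ ≤ ∑ v ∈ Bd, (dgc G v : ℝ) := by
                  apply sum_le_sum_of_subset_of_nonneg
                  · intro v hv
                    exact (mem_filter.1 hv).2
                  · intro v _ _
                    exact Nat.cast_nonneg _
              _ ≤ β := by
                  have := hBdsum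
                  push_cast at this
                  exact this
          linarith
        have hup : (EE G P Mi : ℝ) ≤ (1 / 2 + δ₀) * (xB + k * N.card) + β + e1 := by
          -- split the pairs according to whether the second vertex lies in `B`
          have h1 : EE G P Mi ≤ EE G P N + E1 G A B := by
            unfold EE E1
            refine (card_le_card ?_).trans (card_union_le _ _)
            intro e he
            simp only [mem_filter, mem_univ, true_and, mem_union, hP, hN, hMi] at he ⊢
            tauto
          have h2 : EE G P N ≤ ∑ v ∈ N, (dgc G v - EE G {v} Mi) := by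
            have h3 : EE G P N = ∑ v ∈ N, ((univ : Finset V).filter fun u => u ∈ P ∧ G.Adj v u).card := by
              unfold EE
              rw [card_eq_sum_card_fiberwise (f := Prod.snd) (t := N) (fun e he => by
                rw [mem_coe, mem_filter] at he
                exact he.2.2.1)]
              refine sum_congr rfl fun v hv => ?_
              apply card_bij (fun e _ => e.1)
              · intro e he
                simp only [mem_filter, mem_univ, true_and] at he ⊢
                exact ⟨he.1.1, he.2 ▸ he.1.2.2.symm⟩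
              · intro e he e' he' h
                simp only [mem_filter, mem_univ, true_and] at he he'
                exact Prod.ext h (he.2.trans he'.2.symm)
              · intro u hu
                simp only [mem_filter, mem_univ, true_and] at hu
                exact ⟨(u, v), by simp only [mem_filter, mem_univ, true_and]; exact
                  ⟨⟨hu.1, hv, hu.2.symm⟩, trivial⟩, rfl⟩
            rw [h3]
            refine sum_le_sum fun v _ => ?_
            have h4 : EE G {v} Mi = ((univ : Finset V).filter fun u => u ∈ Mi ∧ G.Adj v u).card := by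
              unfold EE
              apply card_bij (fun e _ => e.2)
              · intro e he
                simp only [mem_filter, mem_univ, true_and, mem_singleton] at he ⊢
                exact ⟨he.2.1, he.1 ▸ he.2.2⟩
              · intro e he e' he' h
                simp only [mem_filter, mem_univ, true_and, mem_singleton] at he he'
                exact Prod.ext (he.1.trans he'.1.symm) h
              · intro u hu
                simp only [mem_filter, mem_univ, true_and] at hu
                exact ⟨(v, u), by simp only [mem_filter, mem_univ, true_and, mem_singleton]; exact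
                  ⟨hu.1, hu.2⟩, rfl⟩
            have h5 : ((univ : Finset V).filter fun u => u ∈ P ∧ G.Adj v u).card +
                ((univ : Finset V).filter fun u => u ∈ Mi ∧ G.Adj v u).card ≤ dgc G v := by
              unfold dgc
              rw [← card_union_of_disjoint]
              · apply card_le_card
                intro u hu
                simp only [mem_filter, mem_univ, true_and, mem_union] at hu ⊢
                rcases hu with hu | hu <;> exact hu.2
              · rw [disjoint_left]
                intro u hu hu'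
                simp only [mem_filter, mem_univ, true_and, hP, hMi] at hu hu'
                rw [hu.1.2] at hu'
                exact absurd hu'.1 (by norm_num)
            omega
          have hEEle : ∀ v, EE G {v} Mi ≤ dgc G v := by
            intro v
            have h3 := sum_left G {v} Mi
            rw [sum_singleton] at h3
            omega
          have h3 : ((∑ v ∈ N, (dgc G v - EE G {v} Mi) : ℕ) : ℝ) ≤
              ∑ v ∈ N, ((1 / 2 + δ₀) * (dgc G v : ℝ) + if v ∈ Bd then (dgc G v : ℝ) else 0) := by
            rw [Nat.cast_sum]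
            refine sum_le_sum fun v _ => ?_
            rw [Nat.cast_sub (hEEle v)]
            have h4 : (0 : ℝ) ≤ (EE G {v} Mi : ℝ) := Nat.cast_nonneg _
            have h5 : (0 : ℝ) ≤ (dgc G v : ℝ) := Nat.cast_nonneg _
            have h7 : 0 ≤ (1 / 2 + δ₀) * (dgc G v : ℝ) := mul_nonneg (by linarith) h5
            by_cases hv : v ∈ Bd
            · rw [if_pos hv]
              linarith
            · rw [if_neg hv]
              have h6 := hBd v hv
              linarith
          rw [sum_add_distrib, ← mul_sum] at h3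
          have h4 : ∑ v ∈ N, (if v ∈ Bd then (dgc G v : ℝ) else 0) ≤ β := by
            calc ∑ v ∈ N, (if v ∈ Bd then (dgc G v : ℝ) else 0)
                = ∑ v ∈ N.filter fun v => v ∈ Bd, (dgc G v : ℝ) := (sum_filter _ _).symm
              _ ≤ ∑ v ∈ Bd, (dgc G v : ℝ) := by
                  apply sum_le_sum_of_subset_of_nonneg
                  · intro v hv
                    exact (mem_filter.1 hv).2
                  · intro v _ _
                    exact Nat.cast_nonneg _
              _ ≤ β := by
                  have := hBdsum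
                  push_cast at this
                  exact this
          have h5 : (∑ v ∈ N, (dgc G v : ℝ)) ≤ xB + k * N.card := by
            have h6 : (∑ v ∈ N, (dgc G v : ℝ)) = ∑ v ∈ N, x v + k * N.card := by
              simp only [hx]
              rw [sum_sub_distrib, sum_const, nsmul_eq_mul]
              ring
            rw [h6]
            have h7 : ∑ v ∈ N, x v ≤ xB :=
              sum_le_sum_of_subset_of_nonneg (filter_subset _ _) fun v _ _ => hx0 v
            linarith
          have h6 : (EE G P Mi : ℝ) ≤ (EE G P N : ℝ) + e1 := by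
            rw [he1]
            exact_mod_cast h1
          have h7 : (EE G P N : ℝ) ≤ ((∑ v ∈ N, (dgc G v - EE G {v} Mi) : ℕ) : ℝ) := by
            exact_mod_cast h2
          have h8 : (1 / 2 + δ₀) * (∑ v ∈ N, (dgc G v : ℝ)) ≤ (1 / 2 + δ₀) * (xB + k * N.card) :=
            mul_le_mul_of_nonneg_left h5 (by linarith)
          linarith
        -- the odd part
        have hodd : (P.card : ℝ) - N.card ≤ xB / 2 + (2 * δ₀ * n + 4 * β / k + 2 * Es / k) := by
          have h1 : k * ((P.card : ℝ) - N.card) ≤
              2 * δ₀ * (k * n) + 2 * xB + 4 * (β) + 2 * Es := by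
            have h2 : (1 / 2 - δ₀) * (k * P.card) ≤
                (1 / 2 + δ₀) * (xB + k * N.card) + 2 * (β) + e1 := by linarith
            have h3 : δ₀ * (k * (P.card + N.card)) ≤ δ₀ * (k * n) :=
              mul_le_mul_of_nonneg_left (mul_le_mul_of_nonneg_left hPN hk0.le) hδ₀
            have h4 : (1 / 2 + δ₀) * xB ≤ 1 * xB := mul_le_mul_of_nonneg_right (by linarith) hxB0
            linarith
          have hk4 : (4 : ℝ) ≤ k := by exact_mod_cast hk
          have h5 : (P.card : ℝ) - N.card ≤
              (2 * δ₀ * (k * n) + 2 * xB + 4 * (β) + 2 * Es) / k := by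
            rw [le_div_iff₀ hk0]
            linarith
          have h6 : (2 * δ₀ * (k * n) + 2 * xB + 4 * (β) + 2 * Es) / k =
              2 * xB / k + (2 * δ₀ * n + 4 * β / k + 2 * Es / k) := by
            field_simp
            ring
          have h7 : 2 * xB / k ≤ xB / 2 := by
            rw [div_le_div_iff₀ hk0 (by norm_num)]
            have := mul_le_mul_of_nonneg_left hk4 hxB0
            linarith
          linarith
        -- the even part
        set κ' : ℝ := (r - 1) / (2 * k) with hκ'
        have hr1' : (1 : ℝ) ≤ r := by exact_mod_cast hr1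
        have hκ'0 : 0 ≤ κ' := div_nonneg (by linarith) (by positivity)
        have hκ'κ : κ' ≤ κ := by
          rw [hκ', hκ]
          apply div_le_div_of_nonneg_right _ (by positivity)
          linarith
        have hkey' : (r - 1) / 2 * (cA - cB) = κ' * e1 - κ' * e2 - κ' * xA + κ' * xB := by
          have h1 : (r - 1) / 2 * (cA - cB) = κ' * (e1 - e2 - xA + xB) := by
            rw [← hcount, hκ']
            field_simp
          linarith
        have h2' : κ' * xB ≤ xB / 2 := by
          have := mul_le_mul_of_nonneg_right (hκ'κ.trans hκ1) hxB0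
          linarith
        have h4' : 0 ≤ κ' * xA := by positivity
        have h3' : 0 ≤ κ' * e2 := by positivity
        have heven : (r - 1) / 2 * (cA - cB) ≤ xB / 2 + eo + W := by
          by_cases h12 : E1 G B A < E1 G A B
          · have h1 : κ * e1 - W ≤ eo := hii A B h12
            have h5 : κ' * e1 ≤ κ * e1 := mul_le_mul_of_nonneg_right hκ'κ he10
            linarith
          · have h12' : e1 ≤ e2 := by
              rw [he1, he2]
              exact_mod_cast not_lt.1 h12
            have h5 : κ' * e1 ≤ κ' * e2 := mul_le_mul_of_nonneg_left h12' hκ'0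
            linarith
        rw [hPc, hNc] at hodd
        linarith
  have hfin : ((∑ v ∈ A, a v : ℕ) : ℝ) ≤
      ((∑ v ∈ B, (dgc G v - l - a v) + eA O A B + D : ℕ) : ℝ) := by
    rw [Nat.cast_add, Nat.cast_add, hBsum, Nat.cast_sum, hAsum]
    linarith
  exact_mod_cast hfin

end Step

open Step

/-- the out-degree bounds: `(r + s) / 2` with `s = 1` on `P` and `-1` outside, if `r` is odd -/
def outCap (r : ℕ) (P : Finset V) (v : V) : ℕ := if v ∈ P then (r + 1) / 2 else r / 2

open Classical in
theorem step_one {G S : SimpleGraph V} {k l : ℕ}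
    (hk : 4 ≤ k) (hl : l < k) (hdeg : ∀ v, k ≤ dgc G v) (hS : S ≤ G) (Arc : Finset (V × V))
    (hArc : ∀ a ∈ Arc, G.Adj a.1 a.2 ∧ ¬ S.Adj a.1 a.2 ∧ (a.2, a.1) ∉ Arc)
    (Es w δ β : ℝ) (hEs : 0 ≤ Es) (hw : 0 ≤ w) (hδ : 0 ≤ δ) (hδ1 : δ ≤ 1 / 2) (hβ : 0 ≤ β)
    (h1 : ∀ A B : Finset V, Es ≤ E1 G A B →
      ((k : ℝ) - l) / (2 * k) * E1 G A B + Fintype.card V ≤ eA Arc A B)
    (h2 : ∀ A B : Finset V, E1 G B A < E1 G A B →
      ((k : ℝ) - l) / (2 * k) * E1 G A B - w ≤ eA Arc A B)
    (P : Finset V) (hP : (Fintype.card V : ℝ) / 2 - Real.sqrt (Fintype.card V) ≤ P.card)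
    (hBad : (∑ v ∈ univ.filter (fun v => ((univ.filter fun w => G.Adj v w ∧ w ∉ P).card : ℝ) <
      (1 / 2 - δ) * dgc G v), (dgc G v : ℝ)) ≤ β) :
    ∃ M : SimpleGraph V, S ≤ M ∧ M ≤ G ∧ (∀ v, l ≤ dgc M v) ∧
      (ec M : ℝ) + ((k : ℝ) - l) / 2 * Fintype.card V ≤ ec G + (w + 2 * δ * Fintype.card V +
        4 * β / k + 2 * Es / k + Real.sqrt (Fintype.card V) + 1) := by
  set r : ℕ := k - l with hr
  have hkl : (k : ℝ) - l = (r : ℝ) := by
    have : k = r + l := by omega
    have : (k : ℝ) = r + l := by exact_mod_cast this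
    linarith
  set n : ℝ := (Fintype.card V : ℝ) with hn
  have hn0 : 0 ≤ n := Nat.cast_nonneg _
  set D : ℕ := ⌈w + 2 * δ * n + 4 * β / k + 2 * Es / k⌉₊ with hDdef
  have hDle : w + 2 * δ * n + 4 * β / k + 2 * Es / k ≤ D := Nat.le_ceil _
  have hDlt : (D : ℝ) < w + 2 * δ * n + 4 * β / k + 2 * Es / k + 1 :=
    Nat.ceil_lt_add_one (by positivity)
  set s : V → ℤ := fun v => if r % 2 = 0 then 0 else if v ∈ P then 1 else -1 with hs
  have has : ∀ v, 2 * (outCap r P v : ℤ) = (r : ℕ) + s v := by
    intro v
    simp only [hs, outCap]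
    split_ifs <;> omega
  have hsum : r * n / 2 - Real.sqrt n ≤ ((∑ v, outCap r P v : ℕ) : ℝ) := by
    have h3 : ∀ v, (outCap r P v : ℝ) = r / 2 + (s v : ℝ) / 2 := by
      intro v
      have h4 : (2 : ℝ) * (outCap r P v : ℝ) = (r : ℝ) + (s v : ℝ) := by exact_mod_cast has v
      linarith
    rw [Nat.cast_sum, sum_congr rfl fun v _ => h3 v, sum_add_distrib, sum_const, nsmul_eq_mul,
      ← sum_div, card_univ, ← hn]
    have h5 : -(2 * Real.sqrt n) ≤ ∑ v, (s v : ℝ) := by
      by_cases hr2 : r % 2 = 0
      · have : ∑ v, (s v : ℝ) = 0 := sum_eq_zero fun v _ => by simp [hs, hr2]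
        rw [this]
        have := Real.sqrt_nonneg n
        linarith
      · have h6 : ∀ v, (s v : ℝ) = 2 * (if v ∈ P then 1 else 0) - 1 := by
          intro v
          simp only [hs, if_neg hr2]
          split_ifs <;> push_cast <;> norm_num
        have h7 : ∑ v, (s v : ℝ) = 2 * P.card - n := by
          rw [sum_congr rfl fun v _ => h6 v, sum_sub_distrib, ← mul_sum, sum_boole, sum_const,
            nsmul_eq_mul, card_univ, ← hn]
          simp
        rw [h7]
        linarith
    linarith
  have hsgn : (∀ v, s v = 0) ∨ ((∀ v, s v = 1 ∨ s v = -1) ∧ ∃ Bd : Finset V,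
      (∀ v ∉ Bd, (1 / 2 - δ) * dgc G v ≤ EE G {v} (univ.filter fun w => s w = -1)) ∧
      (∑ v ∈ Bd, dgc G v : ℕ) ≤ β) := by
    by_cases hr2 : r % 2 = 0
    · left
      intro v
      simp [hs, hr2]
    · right
      refine ⟨fun v => ?_, univ.filter (fun v =>
        ((univ.filter fun w => G.Adj v w ∧ w ∉ P).card : ℝ) < (1 / 2 - δ) * dgc G v),
        fun v hv => ?_, ?_⟩
      · simp only [hs, if_neg hr2]
        split_ifs
        · exact Or.inl rfl
        · exact Or.inr rfl
      · rw [mem_filter, not_and, not_lt] at hv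
        refine (hv (mem_univ v)).trans ?_
        have h3 : (univ.filter fun w => G.Adj v w ∧ w ∉ P).card ≤
            EE G {v} (univ.filter fun w => s w = -1) := by
          unfold EE
          apply card_le_card_of_injOn (fun w => (v, w))
          · intro u hu
            have hu' : G.Adj v u ∧ u ∉ P := by simpa using hu
            have h9 : s u = -1 := by simp [hs, hr2, hu'.2]
            simpa [h9] using hu'.1
          · intro u _ u' _ h
            exact (Prod.mk.inj h).2
        exact_mod_cast h3
      · simpa using hBad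
  obtain ⟨M, hSM, hMG, hMd, hMe⟩ := step_aux (a := outCap r P) (s := s) (Es := Es) (W := w)
    (δ₀ := δ) (β := β) (D := D) hl hk hdeg hS (fun e he => ⟨(hArc e he).1, (hArc e he).2.1⟩)
    (fun u v huv => (hArc _ huv).2.2) has hw hδ hδ1 hβ hEs
    (fun A B h => by rw [← hr, ← hkl]; exact h1 A B h)
    (fun A B h => by rw [← hr, ← hkl]; exact h2 A B h) hsgn hDle
  refine ⟨M, hSM, hMG, hMd, ?_⟩
  have h3 : (ec M : ℝ) + ((∑ v, outCap r P v : ℕ) : ℝ) ≤ ec G + D := by exact_mod_cast hMe
  rw [hkl]
  linarith

end Pool.Agent.Work.MP_60abc6_co.DEL
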