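import Mathlib
import Pool.Agent.Work.MP_60abc6_co.DEL.Par
import Pool.Agent.Work.MP_60abc6_co.DEL.Key
import Pool.Agent.Work.MP_60abc6_co.DEL.PhaseB
import Pool.Agent.Work.MP_60abc6_co.DEL.RandSplit
import Pool.Agent.Work.MP_60abc6_co.DEL.StepOne
import Pool.Agent.Work.DelAsy.Signs
import Pool.Agent.Work.MP_60abc6_co.EdgeB

set_option autoImplicit false

/-! U8: one step, `k / 2 ≤ l < k`. -/

namespace Pool.Agent.Work.MP_60abc6_co.DEL

open Finset

/-- the budgets of the phases -/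
noncomputable def bud (k l n j : ℕ) : ℝ :=
  if (j : ℝ) ≤ (1 - 4 * eps k) * l then omg k * n / (eps k ^ 2 * l) else 6 * n / ((l : ℝ) - 1)

/-- one phase -/
theorem bud_bound {k l n : ℕ} (hl5 : 5 ≤ l) (hlk : l < k) {G S M F : SimpleGraph (Fin n)}
    (hG : EC k G) (hSM : S ≤ M) (hMF : M ≤ F) (hFG : F ≤ G) (hM : ∀ v, l ≤ dgc M v)
    (hU : ∀ U : Finset (Fin n), (1 - eps k) ^ 2 * l / k * dX G U - omg k * n ≤ dX S U)
    {j : ℕ} (hj : j < l) {T : Finset (Finset (Fin n))} {r : Fin n} (hT : PhaseFam G F r j T) :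
    (T.card : ℝ) ≤ bud k l n j := by
  unfold bud
  have hk1 : 1 ≤ k := by omega
  have hkR : (0 : ℝ) < k := by exact_mod_cast hk1
  have hlR : (0 : ℝ) < l := by
    have : 0 < l := by omega
    exact_mod_cast this
  have he0 := eps_pos hk1
  have he1 := eps_le_one hk1
  split_ifs with hj'
  · have hq := key (G := G) (F := F) (S := S) (hSM.trans hMF) hFG
      (p := (1 - eps k) ^ 2 * l / k) (q := eps k) (W := omg k * n) (by positivity)
      (by
        rw [div_le_one hkR]
        have h1 : (1 - eps k) ^ 2 ≤ 1 := by nlinarith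
        have h2 : (l : ℝ) ≤ k := by exact_mod_cast hlk.le
        nlinarith) he0 he1 hU (T := T) (j := j) (k := k) (fun X hX => (hT.2.1 X hX).2.2)
      (fun X hX => hG.2 X (hT.2.1 X hX).1 (fun h => (hT.2.1 X hX).2.1 (h ▸ mem_univ r)))
      (fun u v huv hF X hX Y hY h1 h2 => hT.2.2 (u, v) (by
        rw [mem_arcs, SimpleGraph.sdiff_adj]
        exact ⟨huv, hF⟩) X hX Y hY h1 h2)
    have h1 : (1 - eps k) ^ 2 * l / k * (1 - eps k) * k = (1 - eps k) ^ 3 * l := by
      field_simp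
    rw [h1] at hq
    have h2 : 1 - 3 * eps k ≤ (1 - eps k) ^ 3 := by
      have h3 : (1 - eps k) ^ 3 - (1 - 3 * eps k) = eps k ^ 2 * (3 - eps k) := by ring
      have h4 : 0 ≤ eps k ^ 2 * (3 - eps k) := mul_nonneg (by positivity) (by linarith)
      linarith
    have h3 : eps k * l ≤ (1 - eps k) ^ 3 * l - j := by
      have := mul_le_mul_of_nonneg_right h2 hlR.le
      nlinarith
    have h4 : (T.card : ℝ) * (eps k * l) ≤ omg k * n / eps k :=
      (mul_le_mul_of_nonneg_left h3 (Nat.cast_nonneg _)).trans hq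
    rw [le_div_iff₀ (by positivity)]
    rw [le_div_iff₀ he0] at h4
    calc (T.card : ℝ) * (eps k ^ 2 * l) = (T.card : ℝ) * (eps k * l) * eps k := by ring
      _ ≤ _ := h4
  · have := phase_card_le (G := G) (r := r) hl5 hj hM hMF hT
    rw [Fintype.card_fin] at this
    exact this

theorem sum_bud {k l n : ℕ} (hl5 : 5 ≤ l) (hkl : k ≤ 2 * l) (hlk : l < k) :
    ∑ j ∈ range l, bud k l n j ≤ 49 * eps k * n := by
  have hk1 : 1 ≤ k := by omega
  have hkR : (0 : ℝ) < k := by exact_mod_cast hk1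
  have hl5R : (5 : ℝ) ≤ l := by exact_mod_cast hl5
  have hlR : (0 : ℝ) < l := by linarith
  have he0 := eps_pos hk1
  have he1 := eps_le_one hk1
  have hn : (0 : ℝ) ≤ n := Nat.cast_nonneg n
  have hl1 : (0 : ℝ) < (l : ℝ) - 1 := by linarith
  set x : ℝ := (1 - 4 * eps k) * l with hx
  have h1 : ∀ j ∈ range l, bud k l n j ≤ omg k * n / (eps k ^ 2 * l) +
      if x < (j : ℝ) then 6 * n / ((l : ℝ) - 1) else 0 := by
    intro j _
    unfold bud
    have hω : 0 ≤ omg k * n / (eps k ^ 2 * l) := by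
      rw [omg_eq]
      positivity
    by_cases h : (j : ℝ) ≤ x
    · rw [if_pos h, if_neg (not_lt.mpr h), add_zero]
    · rw [if_neg h, if_pos (not_le.mp h)]
      linarith
  refine (sum_le_sum h1).trans ?_
  rw [sum_add_distrib, sum_const, card_range, nsmul_eq_mul, ← sum_filter, sum_const, nsmul_eq_mul]
  have h2 : (((range l).filter fun j : ℕ => x < (j : ℝ)).card : ℝ) ≤ 4 * eps k * l := by
    rcases le_or_gt 0 x with hx0 | hx0
    · have h3 : ((range l).filter fun j : ℕ => x < (j : ℝ)) ⊆ Ico (⌊x⌋₊ + 1) l := by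
        intro j hj
        rw [mem_filter, mem_range] at hj
        rw [mem_Ico]
        refine ⟨?_, hj.1⟩
        rw [Nat.add_one_le_iff, Nat.floor_lt hx0]
        exact hj.2
      have h4 := card_le_card h3
      rw [Nat.card_Ico] at h4
      have hxl : ⌊x⌋₊ + 1 ≤ l := by
        rw [Nat.add_one_le_iff, Nat.floor_lt hx0]
        rw [hx]
        nlinarith
      have h5 : (((range l).filter fun j : ℕ => x < (j : ℝ)).card : ℝ) ≤ (l : ℝ) - (⌊x⌋₊ + 1) := by
        have h6 : (((range l).filter fun j : ℕ => x < (j : ℝ)).card : ℝ) ≤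
            ((l - (⌊x⌋₊ + 1) : ℕ) : ℝ) := by exact_mod_cast h4
        rw [Nat.cast_sub hxl] at h6
        push_cast at h6
        exact h6
      have h6 := Nat.lt_floor_add_one x
      have h7 : (l : ℝ) - x = 4 * eps k * l := by
        rw [hx]
        ring
      linarith
    · have h3 : (((range l).filter fun j : ℕ => x < (j : ℝ)).card : ℝ) ≤ l := by
        have := card_filter_le (range l) (fun j : ℕ => x < (j : ℝ))
        rw [card_range] at this
        exact_mod_cast this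
      have h4 : (l : ℝ) < 4 * eps k * l := by
        have : 4 * eps k * l = l - x := by
          rw [hx]
          ring
        linarith
      linarith
  have h3 : (l : ℝ) * (omg k * n / (eps k ^ 2 * l)) = eps k ^ 2 * n := by
    rw [omg_eq]
    field_simp
  have h4 : eps k ^ 2 * n ≤ eps k * n := by
    have : eps k ^ 2 ≤ eps k := by nlinarith
    exact mul_le_mul_of_nonneg_right this hn
  have h5 : 6 * (n : ℝ) / ((l : ℝ) - 1) ≤ 12 * n / l := by
    rw [div_le_div_iff₀ hl1 hlR]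
    nlinarith
  have h6 : (((range l).filter fun j : ℕ => x < (j : ℝ)).card : ℝ) * (6 * (n : ℝ) / ((l : ℝ) - 1)) ≤
      48 * eps k * n := by
    calc _ ≤ (4 * eps k * l) * (12 * n / l) := by
          refine mul_le_mul h2 h5 (by positivity) (by positivity)
      _ = _ := by
          field_simp
          ring
  rw [h3]
  linarith

/-- one step for large `k` -/
theorem one_step_large : ∃ k₀ : ℕ, ∀ k ≥ k₀, ∀ l n : ℕ, k ≤ 2 * l → l < k → k < n →
    ∀ G : SimpleGraph (Fin n), EC k G → ∃ H : SimpleGraph (Fin n), H ≤ G ∧ EC l H ∧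
      (ec H : ℝ) + ((k : ℝ) - l) / 2 * n ≤ ec G + 400 * eps k * n := by
  obtain ⟨k₁, hk₁⟩ := random_split
  obtain ⟨k₂, hk₂⟩ := eps_small (1 / 2) (by norm_num)
  refine ⟨max (max k₁ k₂) 10, fun k hk l n hkl hlk hkn G hG => ?_⟩
  have hk1 : k₁ ≤ k := le_trans (le_trans (le_max_left _ _) (le_max_left _ _)) hk
  have hk2 : k₂ ≤ k := le_trans (le_trans (le_max_right _ _) (le_max_left _ _)) hk
  have hk10 : 10 ≤ k := le_trans (le_max_right _ _) hk
  have hk1' : 1 ≤ k := by omega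
  have hdeg : ∀ v, k ≤ dgc G v := fun v => hG.min_degree v
  obtain ⟨S, Arc, hSG, hArc, hU, hA1, hA2⟩ := hk₁ k hk1 l hkl hlk n hkn G hdeg
  have he0 := eps_pos hk1'
  have he1 := eps_le_one hk1'
  have he2 := hk₂ k hk2
  have hkR : (0 : ℝ) < k := by exact_mod_cast hk1'
  have hnk : (k : ℝ) < n := by exact_mod_cast hkn
  have hnR : (0 : ℝ) < n := by linarith
  obtain ⟨P, hP, hBad⟩ := DelAsy.signs G (eps k) he0 (fun v => le_trans hk1' (hdeg v))
  rw [Fintype.card_fin] at hBad hP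
  obtain ⟨M, hSM, hMG, hMdeg, hMec⟩ := step_one (G := G) (S := S) (k := k) (l := l) (by omega) hlk
    hdeg hSG Arc hArc (128 * n / eps k ^ 2) (omg k * n) (eps k) (n / eps k ^ 2) (by positivity)
    (by rw [omg_eq]; positivity) he0.le he2 (by positivity)
    (by rw [Fintype.card_fin]; exact hA1) hA2 P (by rw [Fintype.card_fin]; exact hP)
    (by
      unfold DelAsy.Bad at hBad
      convert hBad)
  rw [Fintype.card_fin] at hMec
  obtain ⟨r⟩ : Nonempty (Fin n) := ⟨⟨0, by omega⟩⟩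
  have hl5 : 5 ≤ l := by omega
  obtain ⟨H, hMH, hHG, hH, hHec⟩ := phases r hMG (hG.mono hlk.le) (bud k l n)
    (fun j hj F hMF hFG _ _ T hT => bud_bound hl5 hlk hG hSM hMF hFG hMdeg hU hj hT)
  have hsum := sum_bud (n := n) hl5 hkl hlk
  refine ⟨H, hHG, hH, ?_⟩
  -- the errors
  have hx20 := eps_pow_mul hk1'
  have hinv : (1 : ℝ) / k = eps k ^ 20 := by
    rw [eps_pow, one_div]
  have t1 : omg k * n ≤ eps k * n := by
    rw [omg_eq]
    refine mul_le_mul_of_nonneg_right ?_ hnR.le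
    calc eps k ^ 4 ≤ eps k ^ 1 := pow_le_pow_of_le_one he0.le he1 (by norm_num)
      _ = eps k := pow_one _
  have t18 : eps k ^ 18 ≤ eps k := by
    calc eps k ^ 18 ≤ eps k ^ 1 := pow_le_pow_of_le_one he0.le he1 (by norm_num)
      _ = eps k := pow_one _
  have t2 : 4 * ((n : ℝ) / eps k ^ 2) / k ≤ 4 * eps k * n := by
    have : 4 * ((n : ℝ) / eps k ^ 2) / k = 4 * (eps k ^ 18) * n := by
      rw [div_eq_mul_one_div _ (k : ℝ), hinv]
      field_simp
    rw [this]
    nlinarith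
  have t3 : 2 * (128 * (n : ℝ) / eps k ^ 2) / k ≤ 256 * eps k * n := by
    have : 2 * (128 * (n : ℝ) / eps k ^ 2) / k = 256 * (eps k ^ 18) * n := by
      rw [div_eq_mul_one_div _ (k : ℝ), hinv]
      field_simp
      ring
    rw [this]
    nlinarith
  have t4 : Real.sqrt n ≤ eps k * n := by
    rw [Real.sqrt_le_left (by positivity)]
    have h1 : eps k ^ 20 ≤ eps k ^ 2 := pow_le_pow_of_le_one he0.le he1 (by norm_num)
    have h2 : 1 ≤ eps k ^ 2 * n := by
      calc (1 : ℝ) = eps k ^ 20 * k := hx20.symm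
        _ ≤ eps k ^ 2 * n := mul_le_mul h1 hnk.le hkR.le (by positivity)
    nlinarith
  have t5 : (1 : ℝ) ≤ eps k * n := by
    have h1 : eps k ^ 20 ≤ eps k ^ 1 := pow_le_pow_of_le_one he0.le he1 (by norm_num)
    rw [pow_one] at h1
    calc (1 : ℝ) = eps k ^ 20 * k := hx20.symm
      _ ≤ eps k * n := mul_le_mul h1 hnk.le hkR.le he0.le
  linarith

/-- one step -/
theorem one_step : ∃ C : ℝ, 0 < C ∧ ∀ k l n : ℕ, 1 ≤ l → k ≤ 2 * l → l < k → k < n →
    ∀ G : SimpleGraph (Fin n), EC k G → ∃ H : SimpleGraph (Fin n), H ≤ G ∧ EC l H ∧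
      (ec H : ℝ) + ((k : ℝ) - l) / 2 * n ≤ ec G + C * eps k * n := by
  obtain ⟨k₀, hk₀⟩ := one_step_large
  refine ⟨max 400 (k₀ / eps (k₀ + 1)), lt_of_lt_of_le (by norm_num) (le_max_left _ _),
    fun k l n hl hkl hlk hkn G hG => ?_⟩
  have hk1 : 1 ≤ k := by omega
  have he0 := eps_pos hk1
  have hnR : (0 : ℝ) ≤ n := Nat.cast_nonneg n
  by_cases hk : k₀ ≤ k
  · obtain ⟨H, h1, h2, h3⟩ := hk₀ k hk l n hkl hlk hkn G hG
    refine ⟨H, h1, h2, h3.trans ?_⟩
    have : 400 * eps k * n ≤ max 400 (k₀ / eps (k₀ + 1)) * eps k * n :=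
      mul_le_mul_of_nonneg_right (mul_le_mul_of_nonneg_right (le_max_left _ _) he0.le) hnR
    linarith
  · push Not at hk
    refine ⟨G, le_rfl, hG.mono hlk.le, ?_⟩
    have h1 : eps (k₀ + 1) ≤ eps k := by
      unfold eps
      apply Real.rpow_le_rpow_of_nonpos (by exact_mod_cast hk1) _ (by norm_num)
      have : k ≤ k₀ + 1 := by omega
      exact_mod_cast this
    have h2 : 0 < eps (k₀ + 1) := eps_pos (by omega)
    have h3 : (k₀ : ℝ) ≤ max 400 (k₀ / eps (k₀ + 1)) * eps k := by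
      calc (k₀ : ℝ) = k₀ / eps (k₀ + 1) * eps (k₀ + 1) := by field_simp
        _ ≤ _ := mul_le_mul (le_max_right _ _) h1 h2.le (le_trans (by norm_num) (le_max_left _ _))
    have h4 : ((k : ℝ) - l) / 2 ≤ k₀ := by
      have h5 : (k : ℝ) ≤ k₀ := by exact_mod_cast hk.le
      have h6 : (0 : ℝ) ≤ l := Nat.cast_nonneg l
      linarith
    have := mul_le_mul_of_nonneg_right (h4.trans h3) hnR
    linarith

end Pool.Agent.Work.MP_60abc6_co.DEL
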