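import Mathlib

set_option autoImplicit false

/-! Finite product probability: expectations, the union bound, Markov, Chernoff and Chebyshev. -/

namespace Pool.Agent.Work.MP_60abc6_co.DEL

open Finset

variable {E O : Type*} [Fintype E] [DecidableEq E] [Fintype O]

/-- `w e` is a probability on `O` for every `e` -/
structure IsW (w : E → O → ℝ) : Prop where
  nonneg : ∀ e o, 0 ≤ w e o
  sum_one : ∀ e, ∑ o, w e o = 1

omit [DecidableEq E] [Fintype O] in
/-- the weight of an outcome -/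
noncomputable def wt (w : E → O → ℝ) (x : E → O) : ℝ := ∏ e, w e (x e)

/-- the expectation -/
noncomputable def Ex (w : E → O → ℝ) (f : (E → O) → ℝ) : ℝ := ∑ x, wt w x * f x

open Classical in
/-- the probability of an event -/
noncomputable def Pr (w : E → O → ℝ) (P : (E → O) → Prop) : ℝ := Ex w fun x => if P x then 1 else 0

variable {w : E → O → ℝ}

omit [DecidableEq E] in
lemma IsW.wt_nonneg (hw : IsW w) (x : E → O) : 0 ≤ wt w x :=
  prod_nonneg fun e _ => hw.nonneg e (x e)

lemma Ex_prod (w : E → O → ℝ) (f : E → O → ℝ) :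
    Ex w (fun x => ∏ e, f e (x e)) = ∏ e, ∑ o, w e o * f e o := by
  unfold Ex wt
  rw [prod_univ_sum, Fintype.piFinset_univ]
  refine sum_congr rfl fun x _ => ?_
  rw [← prod_mul_distrib]

lemma IsW.Ex_one (hw : IsW w) : Ex w (fun _ => 1) = 1 := by
  have h := Ex_prod w (fun _ _ => 1)
  simp only [prod_const_one, mul_one] at h
  rw [h]
  simp [hw.sum_one]

lemma Ex_add (w : E → O → ℝ) (f g : (E → O) → ℝ) : Ex w (fun x => f x + g x) = Ex w f + Ex w g := by
  unfold Ex
  rw [← sum_add_distrib]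
  exact sum_congr rfl fun x _ => by ring

lemma Ex_const_mul (w : E → O → ℝ) (c : ℝ) (f : (E → O) → ℝ) :
    Ex w (fun x => c * f x) = c * Ex w f := by
  unfold Ex
  rw [mul_sum]
  exact sum_congr rfl fun x _ => by ring

lemma IsW.Ex_const (hw : IsW w) (c : ℝ) : Ex w (fun _ => c) = c := by
  have h := Ex_const_mul w c (fun _ => 1)
  simp only [mul_one] at h
  rw [h, hw.Ex_one, mul_one]

lemma Ex_sub (w : E → O → ℝ) (f g : (E → O) → ℝ) : Ex w (fun x => f x - g x) = Ex w f - Ex w g := by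
  unfold Ex
  rw [← sum_sub_distrib]
  exact sum_congr rfl fun x _ => by ring

lemma Ex_sum (w : E → O → ℝ) {ι : Type*} (s : Finset ι) (f : ι → (E → O) → ℝ) :
    Ex w (fun x => ∑ i ∈ s, f i x) = ∑ i ∈ s, Ex w (f i) := by
  unfold Ex
  rw [sum_comm]
  exact sum_congr rfl fun x _ => by rw [mul_sum]

lemma IsW.Ex_mono (hw : IsW w) {f g : (E → O) → ℝ} (h : ∀ x, f x ≤ g x) : Ex w f ≤ Ex w g :=
  sum_le_sum fun x _ => mul_le_mul_of_nonneg_left (h x) (hw.wt_nonneg x)

lemma IsW.Ex_nonneg (hw : IsW w) {f : (E → O) → ℝ} (h : ∀ x, 0 ≤ f x) : 0 ≤ Ex w f :=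
  sum_nonneg fun x _ => mul_nonneg (hw.wt_nonneg x) (h x)

lemma IsW.Pr_nonneg (hw : IsW w) (P : (E → O) → Prop) : 0 ≤ Pr w P :=
  hw.Ex_nonneg fun x => by split_ifs <;> norm_num

lemma IsW.Pr_mono (hw : IsW w) {P Q : (E → O) → Prop} (h : ∀ x, P x → Q x) : Pr w P ≤ Pr w Q := by
  classical
  refine hw.Ex_mono fun x => ?_
  by_cases hP : P x
  · rw [if_pos hP, if_pos (h x hP)]
  · rw [if_neg hP]
    split_ifs <;> norm_num

/-- Markov's inequality -/
lemma IsW.markov (hw : IsW w) {f : (E → O) → ℝ} (hf : ∀ x, 0 ≤ f x) {c : ℝ} (hc : 0 < c)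
    {P : (E → O) → Prop} (hP : ∀ x, P x → c ≤ f x) : Pr w P ≤ Ex w f / c := by
  classical
  rw [le_div_iff₀ hc, mul_comm, Pr, ← Ex_const_mul]
  refine hw.Ex_mono fun x => ?_
  by_cases h : P x
  · rw [if_pos h, mul_one]
    exact hP x h
  · rw [if_neg h, mul_zero]
    exact hf x

/-- the union bound -/
lemma IsW.Pr_exists_le (hw : IsW w) {ι : Type*} (s : Finset ι) (P : ι → (E → O) → Prop) :
    Pr w (fun x => ∃ i ∈ s, P i x) ≤ ∑ i ∈ s, Pr w (P i) := by
  classical
  unfold Pr
  rw [← Ex_sum]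
  refine hw.Ex_mono fun x => ?_
  by_cases h : ∃ i ∈ s, P i x
  · rw [if_pos h]
    obtain ⟨i, hi, hx⟩ := h
    have h1 : (if P i x then (1 : ℝ) else 0) = 1 := if_pos hx
    have h2 : (if P i x then (1 : ℝ) else 0) ≤ ∑ j ∈ s, if P j x then (1 : ℝ) else 0 :=
      single_le_sum (f := fun j => if P j x then (1 : ℝ) else 0)
        (fun j _ => by split_ifs <;> norm_num) hi
    rwa [h1] at h2
  · rw [if_neg h]
    exact sum_nonneg fun j _ => by split_ifs <;> norm_num

lemma IsW.Pr_or_le (hw : IsW w) (P Q : (E → O) → Prop) :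
    Pr w (fun x => P x ∨ Q x) ≤ Pr w P + Pr w Q := by
  classical
  unfold Pr
  rw [← Ex_add]
  refine hw.Ex_mono fun x => ?_
  by_cases h1 : P x <;> by_cases h2 : Q x <;> simp [h1, h2]

/-- an event of probability less than one fails somewhere -/
lemma IsW.exists_not (hw : IsW w) {P : (E → O) → Prop} (h : Pr w P < 1) : ∃ x, ¬ P x := by
  classical
  by_contra hcon
  push Not at hcon
  have h1 : Pr w P = 1 := by
    unfold Pr
    simp only [hcon, if_true]
    exact hw.Ex_one
  linarith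

lemma IsW.exists_good (hw : IsW w) {ι : Type*} (s : Finset ι) (P : ι → (E → O) → Prop)
    (h : ∑ i ∈ s, Pr w (P i) < 1) : ∃ x, ∀ i ∈ s, ¬ P i x := by
  obtain ⟨x, hx⟩ := hw.exists_not (lt_of_le_of_lt (hw.Pr_exists_le s P) h)
  exact ⟨x, fun i hi hP => hx ⟨i, hi, hP⟩⟩

lemma IsW.Ex_single (hw : IsW w) (e : E) (g : O → ℝ) :
    Ex w (fun x => g (x e)) = ∑ o, w e o * g o := by
  classical
  have h := Ex_prod w (fun e' o => if e' = e then g o else 1)
  have h1 : (fun x : E → O => ∏ e', (if e' = e then g (x e') else 1)) = fun x => g (x e) := by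
    funext x
    rw [prod_ite_eq' univ e (fun e' => g (x e')), if_pos (mem_univ e)]
  rw [h1] at h
  rw [h, ← mul_prod_erase univ _ (mem_univ e)]
  simp only [if_true]
  rw [prod_eq_one, mul_one]
  intro e' he'
  rw [mem_erase] at he'
  simp only [if_neg he'.1, mul_one]
  exact hw.sum_one e'

lemma IsW.Ex_pair (hw : IsW w) {e f : E} (hef : e ≠ f) (g h : O → ℝ) :
    Ex w (fun x => g (x e) * h (x f)) = (∑ o, w e o * g o) * ∑ o, w f o * h o := by
  classical
  have h0 := Ex_prod w (fun e' o => if e' = e then g o else if e' = f then h o else 1)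
  have h1 : (fun x : E → O => ∏ e', (if e' = e then g (x e') else if e' = f then h (x e') else 1)) =
      fun x => g (x e) * h (x f) := by
    funext x
    rw [← mul_prod_erase univ _ (mem_univ e), ← mul_prod_erase (univ.erase e) _
      (mem_erase.mpr ⟨hef.symm, mem_univ f⟩)]
    simp only [if_true, if_neg hef.symm]
    rw [prod_eq_one, mul_one]
    intro e' he'
    rw [mem_erase, mem_erase] at he'
    rw [if_neg he'.2.1, if_neg he'.1]
  rw [h1] at h0
  rw [h0, ← mul_prod_erase univ _ (mem_univ e), ← mul_prod_erase (univ.erase e) _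
    (mem_erase.mpr ⟨hef.symm, mem_univ f⟩)]
  simp only [if_true, if_neg hef.symm]
  rw [prod_eq_one, mul_one]
  intro e' he'
  rw [mem_erase, mem_erase] at he'
  simp only [if_neg he'.2.1, if_neg he'.1, mul_one]
  exact hw.sum_one e'

/-- the mean of a sum of functions of the single coordinates -/
noncomputable def mean (w : E → O → ℝ) (f : E → O → ℝ) : ℝ := ∑ e, ∑ o, w e o * f e o

lemma IsW.Ex_lin (hw : IsW w) (f : E → O → ℝ) :
    Ex w (fun x => ∑ e, f e (x e)) = mean w f := by
  rw [Ex_sum]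
  exact sum_congr rfl fun e _ => hw.Ex_single e (f e)

lemma exp_neg_le {s : ℝ} (hs : 0 ≤ s) : Real.exp (-s) ≤ 1 - s + s ^ 2 / 2 := by
  rw [Real.exp_neg]
  have h1 := Real.quadratic_le_exp_of_nonneg hs
  have h2 : 0 < 1 + s + s ^ 2 / 2 := by positivity
  have h3 : 0 < 1 - s + s ^ 2 / 2 := by nlinarith [sq_nonneg (s - 1)]
  rw [inv_le_comm₀ (Real.exp_pos s) h3]
  refine le_trans ?_ h1
  rw [inv_le_iff_one_le_mul₀ h3]
  nlinarith [sq_nonneg (s ^ 2)]

/-- Chernoff's bound for the lower tail of a sum of independent functions with values in `[0, 1]` -/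
theorem IsW.chernoff (hw : IsW w) {f : E → O → ℝ} (h0 : ∀ e o, 0 ≤ f e o) (h1 : ∀ e o, f e o ≤ 1)
    (y : ℝ) {s : ℝ} (hs : 0 ≤ s) :
    Pr w (fun x => ∑ e, f e (x e) ≤ mean w f - y) ≤ Real.exp (-(s * y) + s ^ 2 * mean w f / 2) := by
  set m := mean w f with hm
  have hm0 : 0 ≤ m := sum_nonneg fun e _ => sum_nonneg fun o _ => mul_nonneg (hw.nonneg e o) (h0 e o)
  have hmk := hw.markov (f := fun x => Real.exp (-(s * ∑ e, f e (x e))))
    (fun x => (Real.exp_pos _).le) (c := Real.exp (-(s * (m - y)))) (Real.exp_pos _)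
    (P := fun x => ∑ e, f e (x e) ≤ m - y) (fun x hx => by
      rw [Real.exp_le_exp]
      have := mul_le_mul_of_nonneg_left hx hs
      linarith)
  refine hmk.trans ?_
  have h2 : Ex w (fun x => Real.exp (-(s * ∑ e, f e (x e)))) =
      ∏ e, ∑ o, w e o * Real.exp (-(s * f e o)) := by
    rw [← Ex_prod]
    congr 1
    funext x
    rw [← Real.exp_sum, mul_sum, ← sum_neg_distrib]
  set a : ℝ := 1 - Real.exp (-s) with ha
  have ha0 : 0 ≤ a := by
    rw [ha, sub_nonneg, Real.exp_le_one_iff]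
    linarith
  have h3 : ∀ e, ∑ o, w e o * Real.exp (-(s * f e o)) ≤ Real.exp (-(a * ∑ o, w e o * f e o)) := by
    intro e
    have h4 : ∀ o, Real.exp (-(s * f e o)) ≤ 1 - a * f e o := by
      intro o
      have hc := convexOn_exp.2 (Set.mem_univ (-s)) (Set.mem_univ (0 : ℝ)) (h0 e o)
        (sub_nonneg.mpr (h1 e o)) (by ring)
      simp only [smul_eq_mul, mul_zero, add_zero, Real.exp_zero, mul_one] at hc
      have h5 : f e o * -s = -(s * f e o) := by ring
      rw [h5] at hc
      rw [ha]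
      linarith
    calc ∑ o, w e o * Real.exp (-(s * f e o)) ≤ ∑ o, w e o * (1 - a * f e o) :=
          sum_le_sum fun o _ => mul_le_mul_of_nonneg_left (h4 o) (hw.nonneg e o)
      _ = 1 - a * ∑ o, w e o * f e o := by
          have h5 : ∀ o, w e o * (1 - a * f e o) = w e o - a * (w e o * f e o) := fun o => by ring
          simp only [h5]
          rw [sum_sub_distrib, hw.sum_one, ← mul_sum]
      _ ≤ _ := by
          have := Real.add_one_le_exp (-(a * ∑ o, w e o * f e o))
          linarith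
  have h6 : Ex w (fun x => Real.exp (-(s * ∑ e, f e (x e)))) ≤ Real.exp (-(a * m)) := by
    rw [h2]
    calc ∏ e, ∑ o, w e o * Real.exp (-(s * f e o)) ≤
        ∏ e, Real.exp (-(a * ∑ o, w e o * f e o)) :=
          prod_le_prod (fun e _ => sum_nonneg fun o _ =>
            mul_nonneg (hw.nonneg e o) (Real.exp_pos _).le) fun e _ => h3 e
      _ = _ := by
          rw [← Real.exp_sum, hm, mean, mul_sum, sum_neg_distrib]
  rw [div_le_iff₀ (Real.exp_pos _), ← Real.exp_add]
  refine h6.trans ?_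
  rw [Real.exp_le_exp]
  have h7 := exp_neg_le hs
  have h8 : s - s ^ 2 / 2 ≤ a := by
    rw [ha]
    linarith
  nlinarith [mul_le_mul_of_nonneg_right h8 hm0]

/-- the second moment of a sum of independent centred functions -/
theorem IsW.Ex_sq (hw : IsW w) {g : E → O → ℝ} (hg : ∀ e, ∑ o, w e o * g e o = 0) :
    Ex w (fun x => (∑ e, g e (x e)) ^ 2) = ∑ e, ∑ o, w e o * g e o ^ 2 := by
  classical
  have h1 : (fun x : E → O => (∑ e, g e (x e)) ^ 2) =
      fun x => ∑ e, ∑ f, g e (x e) * g f (x f) := by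
    funext x
    rw [sq, sum_mul_sum]
  rw [h1, Ex_sum]
  refine sum_congr rfl fun e _ => ?_
  rw [Ex_sum, ← add_sum_erase univ _ (mem_univ e), sum_eq_zero (s := univ.erase e), add_zero]
  · have h2 := hw.Ex_single e (fun o => g e o ^ 2)
    rw [← h2]
    congr 1
    funext x
    ring
  · intro f hf
    rw [hw.Ex_pair (mem_erase.mp hf).1.symm, hg e, zero_mul]

/-- the variance of a sum of independent functions with values in `[0, 1]` is at most its mean -/
theorem IsW.Ex_var_le (hw : IsW w) {f : E → O → ℝ} (h0 : ∀ e o, 0 ≤ f e o)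
    (h1 : ∀ e o, f e o ≤ 1) :
    Ex w (fun x => (∑ e, f e (x e) - mean w f) ^ 2) ≤ mean w f := by
  have h2 := hw.Ex_sq (g := fun e o => f e o - ∑ o', w e o' * f e o') (fun e => by
    have : ∀ o, w e o * (f e o - ∑ o', w e o' * f e o') =
        w e o * f e o - w e o * ∑ o', w e o' * f e o' := fun o => by ring
    simp only [this]
    rw [sum_sub_distrib, ← sum_mul, hw.sum_one, one_mul, sub_self])
  have h3 : (fun x : E → O => (∑ e, f e (x e) - mean w f) ^ 2) =
      fun x => (∑ e, (f e (x e) - ∑ o', w e o' * f e o')) ^ 2 := by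
    funext x
    rw [sum_sub_distrib]
    rfl
  rw [h3, h2]
  unfold mean
  refine sum_le_sum fun e _ => ?_
  set c := ∑ o', w e o' * f e o' with hc
  have h4 : ∑ o, w e o * (f e o - c) ^ 2 = ∑ o, w e o * f e o ^ 2 - c ^ 2 := by
    have : ∀ o, w e o * (f e o - c) ^ 2 =
        w e o * f e o ^ 2 - 2 * c * (w e o * f e o) + c ^ 2 * w e o := fun o => by ring
    simp only [this]
    rw [sum_add_distrib, sum_sub_distrib, ← mul_sum, ← mul_sum, hw.sum_one, ← hc]
    ring
  rw [h4]
  have h5 : ∑ o, w e o * f e o ^ 2 ≤ c := by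
    rw [hc]
    refine sum_le_sum fun o _ => mul_le_mul_of_nonneg_left ?_ (hw.nonneg e o)
    nlinarith [h0 e o, h1 e o]
  nlinarith [sq_nonneg c]

/-- the second moment bounds the first absolute moment -/
theorem IsW.Ex_abs_le (hw : IsW w) (f : (E → O) → ℝ) {v : ℝ} (hv : 0 ≤ v)
    (h : Ex w (fun x => f x ^ 2) ≤ v ^ 2) : Ex w (fun x => |f x|) ≤ v := by
  rcases hv.eq_or_lt with rfl | hv
  · have h1 : Ex w (fun x => f x ^ 2) = 0 :=
      le_antisymm (by simpa using h) (hw.Ex_nonneg fun x => sq_nonneg _)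
    have h2 : ∀ x, wt w x * f x ^ 2 = 0 := by
      unfold Ex at h1
      rw [sum_eq_zero_iff_of_nonneg fun x _ => mul_nonneg (hw.wt_nonneg x) (sq_nonneg _)] at h1
      exact fun x => h1 x (mem_univ x)
    apply le_of_eq
    unfold Ex
    refine sum_eq_zero fun x _ => ?_
    rcases mul_eq_zero.mp (h2 x) with h3 | h3
    · rw [h3, zero_mul]
    · rw [pow_eq_zero_iff two_ne_zero] at h3
      simp only [h3, abs_zero, mul_zero]
  · have h1 : ∀ x, |f x| ≤ (f x ^ 2 / v + v) / 2 := by
      intro x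
      rw [le_div_iff₀ two_pos, ← sub_nonneg]
      have : f x ^ 2 / v + v - |f x| * 2 = (|f x| - v) ^ 2 / v := by
        field_simp
        rw [← sq_abs (f x)]
        ring
      rw [this]
      positivity
    refine (hw.Ex_mono h1).trans ?_
    have h2 : (fun x : E → O => (f x ^ 2 / v + v) / 2) =
        fun x => (1 / (2 * v)) * (f x ^ 2) + v / 2 := by
      funext x
      field_simp
    rw [h2, Ex_add, Ex_const_mul, hw.Ex_const]
    have h3 : 1 / (2 * v) * Ex w (fun x => f x ^ 2) ≤ 1 / (2 * v) * v ^ 2 :=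
      mul_le_mul_of_nonneg_left h (by positivity)
    have h4 : 1 / (2 * v) * v ^ 2 = v / 2 := by
      field_simp
    linarith

end Pool.Agent.Work.MP_60abc6_co.DEL
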