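import Pool.Agent.Work.MP_60abc6_co.DEL.Count

/-! Chernoff's bound for labellings with three labels, and the random splitting of a graph (U2). -/

set_option autoImplicit false

namespace Pool.Agent.Work.MP_60abc6_co.DEL

open Finset

namespace Rnd

section space

variable {α : Type*} [Fintype α] [DecidableEq α]

/-- the weight of a label -/
noncomputable def w3 (p : ℝ) (i : Fin 3) : ℝ := if i = 0 then p else (1 - p) / 2

lemma w3_nonneg {p : ℝ} (h0 : 0 ≤ p) (h1 : p ≤ 1) (i : Fin 3) : 0 ≤ w3 p i := by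
  unfold w3
  split_ifs
  · exact h0
  · linarith

lemma sum_w3 (p : ℝ) : ∑ i, w3 p i = 1 := by
  have h1 : (1 : Fin 3) ≠ 0 := by decide
  have h2 : (2 : Fin 3) ≠ 0 := by decide
  simp only [w3, Fin.sum_univ_three, if_neg h1, if_neg h2, if_true]
  ring

/-- the weight of a labelling -/
noncomputable def wl (p : ℝ) (L : α → Fin 3) : ℝ := ∏ e, w3 p (L e)

lemma wl_nonneg {p : ℝ} (h0 : 0 ≤ p) (h1 : p ≤ 1) (L : α → Fin 3) : 0 ≤ wl p L :=
  prod_nonneg fun _ _ => w3_nonneg h0 h1 _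

lemma sum_wl_prod (p : ℝ) (g : α → Fin 3 → ℝ) :
    ∑ L : α → Fin 3, wl p L * ∏ e, g e (L e) = ∏ e, ∑ i, w3 p i * g e i := by
  have h := Finset.prod_univ_sum (t := fun _ : α => (univ : Finset (Fin 3)))
    (f := fun e i => w3 p i * g e i)
  rw [Fintype.piFinset_univ] at h
  rw [h]
  refine sum_congr rfl fun L _ => ?_
  unfold wl
  rw [prod_mul_distrib]

lemma sum_wl (p : ℝ) : ∑ L : α → Fin 3, wl p L = 1 := by
  have h := sum_wl_prod (α := α) p fun _ _ => 1
  simp only [prod_const_one, mul_one, sum_w3] at h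
  exact h

/-- a random count -/
noncomputable def Yc (T : α → Finset (Fin 3)) (L : α → Fin 3) : ℝ :=
  ∑ e, if L e ∈ T e then (1 : ℝ) else 0

/-- its mean -/
noncomputable def mn (p : ℝ) (T : α → Finset (Fin 3)) : ℝ := ∑ e, ∑ i ∈ T e, w3 p i

lemma mn_nonneg {p : ℝ} (h0 : 0 ≤ p) (h1 : p ≤ 1) (T : α → Finset (Fin 3)) : 0 ≤ mn p T :=
  sum_nonneg fun _ _ => sum_nonneg fun _ _ => w3_nonneg h0 h1 _

lemma exp_neg_le {s : ℝ} (hs : 0 ≤ s) : Real.exp (-s) ≤ 1 - s + s ^ 2 / 2 := by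
  have h := Real.quadratic_le_exp_of_nonneg hs
  have h2 : 0 < Real.exp s := Real.exp_pos s
  rw [Real.exp_neg, inv_le_iff_one_le_mul₀ h2]
  have h3 : 0 < 1 - s + s ^ 2 / 2 := by nlinarith [sq_nonneg (s - 1)]
  calc (1 : ℝ) ≤ (1 - s + s ^ 2 / 2) * (1 + s + s ^ 2 / 2) := by nlinarith [sq_nonneg (s ^ 2)]
    _ ≤ _ := mul_le_mul_of_nonneg_left h h3.le

theorem chernoff {p : ℝ} (h0 : 0 ≤ p) (h1 : p ≤ 1) (T : α → Finset (Fin 3)) {s : ℝ}
    (hs : 0 ≤ s) (y : ℝ) :
    ∑ L ∈ univ.filter (fun L : α → Fin 3 => Yc T L ≤ mn p T - y), wl p L ≤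
      Real.exp (-(s * y) + s ^ 2 * mn p T / 2) := by
  have hE : ∀ L : α → Fin 3, Real.exp (-(s * Yc T L)) =
      ∏ e, (if L e ∈ T e then Real.exp (-s) else 1) := by
    intro L
    unfold Yc
    rw [mul_sum, ← sum_neg_distrib, Real.exp_sum]
    refine prod_congr rfl fun e _ => ?_
    split_ifs
    · rw [mul_one]
    · rw [mul_zero, neg_zero, Real.exp_zero]
  have hstep : ∑ L ∈ univ.filter (fun L : α → Fin 3 => Yc T L ≤ mn p T - y), wl p L ≤
      Real.exp (s * (mn p T - y)) * ∑ L : α → Fin 3, wl p L * Real.exp (-(s * Yc T L)) := by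
    rw [mul_sum, sum_filter]
    refine sum_le_sum fun L _ => ?_
    by_cases h2 : Yc T L ≤ mn p T - y
    swap
    · rw [if_neg h2]
      exact mul_nonneg (Real.exp_pos _).le (mul_nonneg (wl_nonneg h0 h1 L) (Real.exp_pos _).le)
    rw [if_pos h2]
    have h3 : 1 ≤ Real.exp (s * (mn p T - y)) * Real.exp (-(s * Yc T L)) := by
      rw [← Real.exp_add]
      apply Real.one_le_exp
      nlinarith
    calc wl p L = wl p L * 1 := (mul_one _).symm
      _ ≤ wl p L * (Real.exp (s * (mn p T - y)) * Real.exp (-(s * Yc T L))) :=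
        mul_le_mul_of_nonneg_left h3 (wl_nonneg h0 h1 L)
      _ = _ := by ring
  refine hstep.trans ?_
  have h4 : ∑ L : α → Fin 3, wl p L * Real.exp (-(s * Yc T L)) ≤
      Real.exp (-(mn p T * (s - s ^ 2 / 2))) := by
    rw [sum_congr rfl fun L _ => by rw [hE L]]
    rw [sum_wl_prod p fun e i => if i ∈ T e then Real.exp (-s) else 1]
    have h5 : Real.exp (-(mn p T * (s - s ^ 2 / 2))) =
        ∏ e, Real.exp (-((∑ i ∈ T e, w3 p i) * (s - s ^ 2 / 2))) := by
      rw [← Real.exp_sum, sum_neg_distrib]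
      unfold mn
      rw [sum_mul]
    rw [h5]
    refine prod_le_prod (fun e _ => sum_nonneg fun i _ => mul_nonneg (w3_nonneg h0 h1 i) ?_)
      fun e _ => ?_
    · split_ifs
      · exact (Real.exp_pos _).le
      · norm_num
    · have h6 : ∑ i, w3 p i * (if i ∈ T e then Real.exp (-s) else 1) =
          1 - (∑ i ∈ T e, w3 p i) * (1 - Real.exp (-s)) := by
        have h7 : ∑ i ∈ T e, w3 p i = ∑ i, if i ∈ T e then w3 p i else 0 := by
          rw [sum_ite_mem, univ_inter]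
        have h12 : ∀ i, w3 p i * (if i ∈ T e then Real.exp (-s) else 1) =
            w3 p i - (if i ∈ T e then w3 p i else 0) * (1 - Real.exp (-s)) := by
          intro i
          split_ifs <;> ring
        rw [h7, sum_congr rfl fun i _ => h12 i, sum_sub_distrib, sum_w3, sum_mul]
      rw [h6]
      have h8 : 0 ≤ ∑ i ∈ T e, w3 p i := sum_nonneg fun i _ => w3_nonneg h0 h1 i
      have h9 := exp_neg_le hs
      have h10 := Real.add_one_le_exp (-((∑ i ∈ T e, w3 p i) * (s - s ^ 2 / 2)))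
      have h11 : (∑ i ∈ T e, w3 p i) * (s - s ^ 2 / 2) ≤
          (∑ i ∈ T e, w3 p i) * (1 - Real.exp (-s)) := mul_le_mul_of_nonneg_left (by linarith) h8
      linarith
  calc Real.exp (s * (mn p T - y)) * ∑ L : α → Fin 3, wl p L * Real.exp (-(s * Yc T L))
      ≤ Real.exp (s * (mn p T - y)) * Real.exp (-(mn p T * (s - s ^ 2 / 2))) :=
        mul_le_mul_of_nonneg_left h4 (Real.exp_pos _).le
    _ = _ := by
      rw [← Real.exp_add]
      congr 1
      ring

/-- union bound: three families of lower tails -/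
theorem exists_good {p : ℝ} (h0 : 0 ≤ p) (h1 : p ≤ 1) {ι : Type*} (I : Finset ι)
    (T : ι → α → Finset (Fin 3)) (s y : ι → ℝ) (hs : ∀ i ∈ I, 0 ≤ s i)
    (hsum : ∑ i ∈ I, Real.exp (-(s i * y i) + s i ^ 2 * mn p (T i) / 2) < 1) :
    ∃ L : α → Fin 3, ∀ i ∈ I, mn p (T i) - y i < Yc (T i) L := by
  classical
  by_contra hcon
  push Not at hcon
  have h2 : (1 : ℝ) ≤ ∑ i ∈ I,
      ∑ L ∈ univ.filter (fun L : α → Fin 3 => Yc (T i) L ≤ mn p (T i) - y i), wl p L := by
    rw [← sum_wl (α := α) p]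
    have h3 : ∀ i, ∑ L ∈ univ.filter (fun L : α → Fin 3 => Yc (T i) L ≤ mn p (T i) - y i),
        wl p L = ∑ L : α → Fin 3, if Yc (T i) L ≤ mn p (T i) - y i then wl p L else 0 :=
      fun i => sum_filter _ _
    rw [sum_congr rfl fun i _ => h3 i, sum_comm]
    refine sum_le_sum fun L _ => ?_
    obtain ⟨i, hi, hiL⟩ := hcon L
    refine le_trans (le_of_eq ?_) (single_le_sum (f := fun i =>
      if Yc (T i) L ≤ mn p (T i) - y i then wl p L else 0) (fun j _ => ?_) hi)
    · rw [if_pos hiL]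
    · split_ifs
      · exact wl_nonneg h0 h1 L
      · exact le_rfl
  refine absurd (h2.trans (sum_le_sum fun i hi => chernoff h0 h1 (T i) (hs i hi) (y i))) ?_
  exact not_le.2 hsum

end space

end Rnd

end Pool.Agent.Work.MP_60abc6_co.DEL
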