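import Pool.Agent.Work.MP_60abc6_co.DEL.RandA

/-! The random splitting of a graph as a labelling of the ordered pairs. -/

set_option autoImplicit false

namespace Pool.Agent.Work.MP_60abc6_co.DEL

open Finset

variable {V : Type*} [Fintype V] [DecidableEq V]

open Classical in
/-- the number of pairs of the relation `O` from `A` to the complement of `B` -/
noncomputable def oarc (O : V → V → Prop) (A B : Finset V) : ℕ :=
  ((univ : Finset (V × V)).filter fun e => O e.1 e.2 ∧ e.1 ∈ A ∧ e.2 ∉ B).card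

/-- the number of arcs of `G` from `A` to the complement of `B` -/
noncomputable def arc (G : SimpleGraph V) (A B : Finset V) : ℕ := oarc G.Adj A B

open Classical in
lemma oarc_eq_sum (O : V → V → Prop) (A B : Finset V) :
    (oarc O A B : ℝ) = ∑ e : V × V, if O e.1 e.2 ∧ e.1 ∈ A ∧ e.2 ∉ B then (1 : ℝ) else 0 := by
  unfold oarc
  rw [card_filter]
  push_cast
  rfl

lemma dX_eq_oarc (G : SimpleGraph V) (U : Finset V) : dX G U = oarc G.Adj U U := by
  classical
  rw [dX_eq_sum, oarc, card_filter]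

namespace Rnd

/-- a numbering of the vertices -/
noncomputable def ord (v : V) : ℕ := (Fintype.equivFin V v : ℕ)

omit [DecidableEq V] in
lemma ord_inj : Function.Injective (ord : V → ℕ) := by
  intro u v h
  exact (Fintype.equivFin V).injective (Fin.ext h)

omit [DecidableEq V] in
lemma sum_split (F : V × V → ℝ) (h : ∀ v, F (v, v) = 0) :
    ∑ e, F e = ∑ e : V × V, if ord e.1 < ord e.2 then F e + F (e.2, e.1) else 0 := by
  have h1 : ∀ e : V × V, F e = (if ord e.1 < ord e.2 then F e else 0) +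
      (if ord e.2 < ord e.1 then F e else 0) := by
    rintro ⟨u, v⟩
    rcases lt_trichotomy (ord u) (ord v) with h2 | h2 | h2
    · simp only [h2, if_true, not_lt.2 h2.le, if_false, add_zero]
    · have := ord_inj h2
      subst this
      simp [h]
    · simp only [h2, if_true, not_lt.2 h2.le, if_false, zero_add]
  have h3 : ∑ e : V × V, (if ord e.2 < ord e.1 then F e else 0) =
      ∑ e : V × V, (if ord e.1 < ord e.2 then F (e.2, e.1) else 0) := by
    rw [← Equiv.sum_comp (Equiv.prodComm V V)]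
    rfl
  rw [sum_congr rfl fun e _ => h1 e, sum_add_distrib, h3, ← sum_add_distrib]
  refine sum_congr rfl fun e _ => ?_
  split_ifs
  · rfl
  · rw [add_zero]

/-- the edges with label `0` -/
def Sg (G : SimpleGraph V) (L : V × V → Fin 3) : SimpleGraph V where
  Adj u v := G.Adj u v ∧ ((ord u < ord v ∧ L (u, v) = 0) ∨ (ord v < ord u ∧ L (v, u) = 0))
  symm := ⟨fun u v h => ⟨h.1.symm, h.2.symm⟩⟩
  loopless := ⟨fun u h => G.loopless.irrefl u h.1⟩

/-- the arcs: label `1` upwards, label `2` downwards -/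
def Og (G : SimpleGraph V) (L : V × V → Fin 3) (u v : V) : Prop :=
  G.Adj u v ∧ ((ord u < ord v ∧ L (u, v) = 1) ∨ (ord v < ord u ∧ L (v, u) = 2))

open Classical in
/-- the labels of a pair which make it an edge of the cut -/
noncomputable def T3 (G : SimpleGraph V) (U : Finset V) (e : V × V) : Finset (Fin 3) :=
  if G.Adj e.1 e.2 ∧ ord e.1 < ord e.2 ∧ ((e.1 ∈ U ∧ e.2 ∉ U) ∨ (e.2 ∈ U ∧ e.1 ∉ U)) then {0}
  else ∅

open Classical in
/-- the labels of a pair which make it an arc from `A` to the complement of `B` -/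
noncomputable def T5 (G : SimpleGraph V) (A B : Finset V) (e : V × V) : Finset (Fin 3) :=
  if G.Adj e.1 e.2 ∧ ord e.1 < ord e.2 then
    (if e.1 ∈ A ∧ e.2 ∉ B then {1} else ∅) ∪ (if e.2 ∈ A ∧ e.1 ∉ B then {2} else ∅)
  else ∅

lemma Yc_T3 (G : SimpleGraph V) (U : Finset V) (L : V × V → Fin 3) :
    (dX (Sg G L) U : ℝ) = Yc (T3 G U) L := by
  classical
  rw [dX_eq_oarc, oarc_eq_sum, sum_split _ (fun v => by simp)]
  unfold Yc
  refine sum_congr rfl ?_
  rintro ⟨u, v⟩ -
  simp only [Sg, T3]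
  by_cases h : ord u < ord v
  · have h' : ¬ ord v < ord u := not_lt.2 h.le
    by_cases hG : G.Adj u v
    · have hG' := hG.symm
      by_cases h1 : u ∈ U <;> by_cases h2 : v ∈ U <;> by_cases h3 : L (u, v) = 0 <;>
        simp [h, h', hG, hG', h1, h2, h3]
    · have hG' : ¬ G.Adj v u := fun hh => hG hh.symm
      simp [h, hG, hG']
  · simp [h]

lemma mn_T3 (p : ℝ) (G : SimpleGraph V) (U : Finset V) :
    mn p (T3 G U) = p * dX G U := by
  classical
  rw [dX_eq_oarc, oarc_eq_sum, sum_split _ (fun v => by simp), mul_sum]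
  unfold mn
  refine sum_congr rfl ?_
  rintro ⟨u, v⟩ -
  simp only [T3]
  by_cases h : ord u < ord v
  · by_cases hG : G.Adj u v
    · have hG' := hG.symm
      by_cases h1 : u ∈ U <;> by_cases h2 : v ∈ U <;>
        simp [h, hG, hG', h1, h2, w3]
    · have hG' : ¬ G.Adj v u := fun hh => hG hh.symm
      simp [h, hG, hG']
  · simp [h]

lemma Yc_T5 (G : SimpleGraph V) (A B : Finset V) (L : V × V → Fin 3) :
    (oarc (Og G L) A B : ℝ) = Yc (T5 G A B) L := by
  classical
  rw [oarc_eq_sum, sum_split _ (fun v => by simp [Og])]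
  unfold Yc
  refine sum_congr rfl ?_
  rintro ⟨u, v⟩ -
  simp only [Og, T5]
  by_cases h : ord u < ord v
  · have h' : ¬ ord v < ord u := not_lt.2 h.le
    by_cases hG : G.Adj u v
    · have hG' := hG.symm
      have h12 : (1 : Fin 3) ≠ 2 := by decide
      have h3 := (by decide : ∀ i : Fin 3, i = 0 ∨ i = 1 ∨ i = 2) (L (u, v))
      rcases h3 with h3 | h3 | h3 <;> by_cases h1 : u ∈ A <;> by_cases h2 : v ∈ B <;>
        by_cases h4 : v ∈ A <;> by_cases h5 : u ∈ B <;>
        simp [h, h', hG, hG', h1, h2, h3, h4, h5]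
    · have hG' : ¬ G.Adj v u := fun hh => hG hh.symm
      simp [h, hG, hG']
  · simp [h]

lemma mn_T5 (p : ℝ) (G : SimpleGraph V) (A B : Finset V) :
    mn p (T5 G A B) = (1 - p) / 2 * arc G A B := by
  classical
  unfold arc
  rw [oarc_eq_sum, sum_split _ (fun v => by simp), mul_sum]
  unfold mn
  refine sum_congr rfl ?_
  rintro ⟨u, v⟩ -
  simp only [T5]
  have h12 : (1 : Fin 3) ≠ 2 := by decide
  have h10 : (1 : Fin 3) ≠ 0 := by decide
  have h20 : (2 : Fin 3) ≠ 0 := by decide
  by_cases h : ord u < ord v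
  · by_cases hG : G.Adj u v
    · have hG' := hG.symm
      by_cases h1 : u ∈ A <;> by_cases h2 : v ∈ B <;>
        by_cases h4 : v ∈ A <;> by_cases h5 : u ∈ B <;>
        simp [h, hG, hG', h1, h2, h4, h5, w3] <;> ring
    · have hG' : ¬ G.Adj v u := fun hh => hG hh.symm
      simp [h, hG, hG']
  · simp [h]

/-! ### the double cover -/

/-- the bipartite double cover -/
def DC (G : SimpleGraph V) : SimpleGraph (V × Bool) where
  Adj x y := G.Adj x.1 y.1 ∧ x.2 ≠ y.2
  symm := ⟨fun _ _ h => ⟨h.1.symm, h.2.symm⟩⟩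
  loopless := ⟨fun _ h => h.2 rfl⟩

lemma dgc_DC (G : SimpleGraph V) (x : V × Bool) : dgc (DC G) x = dgc G x.1 := by
  classical
  unfold dgc
  refine card_bij (fun y _ => y.1) ?_ ?_ ?_
  · intro y hy
    rw [mem_filter] at hy ⊢
    exact ⟨mem_univ _, hy.2.1⟩
  · rintro ⟨y, a⟩ hy ⟨z, b⟩ hz h
    rw [mem_filter] at hy hz
    have h1 := hy.2.2
    have h2 := hz.2.2
    simp only at h h1 h2
    subst h
    have : a = b := by
      cases a <;> cases b <;> cases hx : x.2 <;> simp_all
    rw [this]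
  · intro v hv
    rw [mem_filter] at hv
    refine ⟨(v, !x.2), ?_, rfl⟩
    rw [mem_filter]
    exact ⟨mem_univ _, hv.2, by simp [DC]⟩

/-- the vertex set of the double cover that belongs to a pair of vertex sets -/
def pr (A B : Finset V) : Finset (V × Bool) :=
  univ.filter fun x => (x.2 = false ∧ x.1 ∈ A) ∨ (x.2 = true ∧ x.1 ∈ B)

lemma mem_pr {A B : Finset V} {x : V × Bool} :
    x ∈ pr A B ↔ (x.2 = false ∧ x.1 ∈ A) ∨ (x.2 = true ∧ x.1 ∈ B) := by
  unfold pr
  rw [mem_filter]
  exact ⟨fun h => h.2, fun h => ⟨mem_univ _, h⟩⟩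

lemma pr_inj : Function.Injective fun q : Finset V × Finset V => pr q.1 q.2 := by
  rintro ⟨A, B⟩ ⟨A', B'⟩ h
  simp only at h
  have hA : A = A' := by
    ext v
    have := Finset.ext_iff.1 h (v, false)
    rw [mem_pr, mem_pr] at this
    simpa using this
  have hB : B = B' := by
    ext v
    have := Finset.ext_iff.1 h (v, true)
    rw [mem_pr, mem_pr] at this
    simpa using this
  rw [hA, hB]

lemma dX_DC (G : SimpleGraph V) (A B : Finset V) :
    (dX (DC G) (pr A B) : ℝ) = arc G A B + arc G B A := by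
  classical
  unfold arc
  rw [dX_eq_oarc, oarc_eq_sum, oarc_eq_sum, oarc_eq_sum, Fintype.sum_prod_type,
    Fintype.sum_prod_type (f := fun e : V × V => if G.Adj e.1 e.2 ∧ e.1 ∈ A ∧ e.2 ∉ B then (1 : ℝ)
      else 0), Fintype.sum_prod_type (f := fun e : V × V => if G.Adj e.1 e.2 ∧ e.1 ∈ B ∧ e.2 ∉ A
      then (1 : ℝ) else 0), Fintype.sum_prod_type, ← sum_add_distrib]
  refine sum_congr rfl fun u _ => ?_
  rw [Fintype.sum_bool, Fintype.sum_prod_type, Fintype.sum_prod_type, ← sum_add_distrib,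
    ← sum_add_distrib]
  refine sum_congr rfl fun v _ => ?_
  rw [Fintype.sum_bool, Fintype.sum_bool]
  simp only [DC, mem_pr]
  simp
  ring

end Rnd

end Pool.Agent.Work.MP_60abc6_co.DEL
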